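import Mathlib
import Pool.Agent.PC.Defs
import Pool.Agent.Helper90.Straus.SieveUp

set_option autoImplicit false

namespace Pool.Agent.PC.BlockB

open Finset Filter
open Pool.Agent.Helper90.Straus (pr mem_pr g Sys surv mem_surv sieve_upper)

/-- `n ↦ 1 / n` as a monoid homomorphism. -/
noncomputable def invHom : ℕ →* ℝ where
  toFun n := (n : ℝ)⁻¹
  map_one' := by simp
  map_mul' m n := by
    push_cast
    rw [mul_inv]

theorem log_le_prod {N : ℕ} (hN : 1 ≤ N) :
    Real.log N ≤ ∏ p ∈ pr 2 N, (1 - 1 / (p : ℝ))⁻¹ := by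
  have hnorm : ∀ {p : ℕ}, p.Prime → ‖invHom p‖ < 1 := by
    intro p hp
    have h1 : (1 : ℝ) < p := by exact_mod_cast hp.one_lt
    have h2 : invHom p = (p : ℝ)⁻¹ := rfl
    rw [h2, norm_inv, Real.norm_of_nonneg (by linarith)]
    exact inv_lt_one_of_one_lt₀ h1
  have h1 := (EulerProduct.summable_and_hasSum_smoothNumbers_prod_primesBelow_geometric
    (f := invHom) hnorm N).2
  have hpr : N.primesBelow = pr 2 N := by
    ext p
    rw [Nat.mem_primesBelow, mem_pr]
    constructor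
    · rintro ⟨h2, h3⟩
      exact ⟨⟨h3.two_le, h2⟩, h3⟩
    · rintro ⟨⟨_, h2⟩, h3⟩
      exact ⟨h2, h3⟩
  rw [hpr] at h1
  have hmem : ∀ n ∈ Icc 1 (N - 1), n ∈ N.smoothNumbers := by
    intro n hn
    rw [Finset.mem_Icc] at hn
    rw [Nat.mem_smoothNumbers_iff_forall_le]
    refine ⟨by omega, fun p hp _ _ => by omega⟩
  have h2 := sum_le_hasSum ((Icc 1 (N - 1)).subtype (· ∈ N.smoothNumbers))
    (fun n _ => by
      have : invHom n = ((n : ℕ) : ℝ)⁻¹ := rfl
      rw [this]
      positivity) h1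
  have h3 : ∑ x ∈ (Icc 1 (N - 1)).subtype (· ∈ N.smoothNumbers), invHom x =
      ∑ n ∈ Icc 1 (N - 1), (n : ℝ)⁻¹ :=
    Finset.sum_subtype_of_mem (fun n : ℕ => (n : ℝ)⁻¹) hmem
  rw [h3] at h2
  have h4 := log_add_one_le_harmonic (N - 1)
  rw [harmonic_eq_sum_Icc] at h4
  push_cast at h4
  have h5 : (((N - 1 : ℕ) : ℝ) + 1) = N := by
    have : N - 1 + 1 = N := by omega
    exact_mod_cast this
  rw [h5] at h4
  have h6 : ∏ p ∈ pr 2 N, (1 - invHom p)⁻¹ = ∏ p ∈ pr 2 N, (1 - 1 / (p : ℝ))⁻¹ := by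
    apply Finset.prod_congr rfl
    intro p _
    have : invHom p = ((p : ℕ) : ℝ)⁻¹ := rfl
    rw [this, one_div]
  rw [h6] at h2
  exact h4.trans h2

theorem one_sub_pos {p : ℕ} (hp : p.Prime) : (1 : ℝ) / 2 ≤ 1 - 1 / (p : ℝ) := by
  have h1 : (2 : ℝ) ≤ p := by exact_mod_cast hp.two_le
  have h2 : 1 / (p : ℝ) ≤ 1 / 2 := one_div_le_one_div_of_le (by norm_num) h1
  linarith

theorem P_sq_le {N : ℕ} (hN : 2 ≤ N) :
    (∏ p ∈ pr 2 N, (1 - 1 / (p : ℝ))) ^ 2 ≤ 1 / Real.log N ^ 2 := by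
  have h1 := log_le_prod (N := N) (by omega)
  have hlog : 0 < Real.log N := Real.log_pos (by exact_mod_cast (show 1 < N by omega))
  rw [Finset.prod_inv_distrib] at h1
  have hP : 0 < ∏ p ∈ pr 2 N, (1 - 1 / (p : ℝ)) :=
    Finset.prod_pos fun p hp => by linarith [one_sub_pos (mem_pr.1 hp).2]
  rw [← one_div_pow]
  apply pow_le_pow_left₀ hP.le
  rw [le_div_iff₀ hlog]
  rw [← one_div, le_div_iff₀ hP] at h1
  linarith

theorem ratio_eq {h : ℕ} (hh : 0 < h) :
    (h : ℝ) / Nat.totient h = ∏ p ∈ h.primeFactors, (1 - 1 / (p : ℝ))⁻¹ := by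
  have h1 := Nat.totient_eq_mul_prod_factors h
  have h2 : (Nat.totient h : ℝ) = h * ∏ p ∈ h.primeFactors, (1 - 1 / (p : ℝ)) := by
    have := congrArg (fun x : ℚ => (x : ℝ)) h1
    push_cast at this
    rw [this]
    simp only [one_div]
  have hh0 : (h : ℝ) ≠ 0 := by exact_mod_cast hh.ne'
  rw [h2, Finset.prod_inv_distrib, div_mul_eq_div_div, div_self hh0, one_div]

theorem ratio_ge_one {h : ℕ} (hh : 0 < h) : 1 ≤ (h : ℝ) / Nat.totient h := by
  have h1 : 0 < Nat.totient h := Nat.totient_pos.2 hh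
  rw [one_le_div (by exact_mod_cast h1)]
  exact_mod_cast Nat.totient_le h

/-- The residue classes `0` and `-h`. -/
def Om2 (h p : ℕ) : Finset ℕ := {0, (p - h % p) % p}

theorem sys_Om2 {h : ℕ} (hh : 2 ∣ h) : Sys 2 (Om2 h) := by
  intro p hp
  refine ⟨?_, ?_, ?_⟩
  · intro x hx
    unfold Om2 at hx
    rw [Finset.mem_insert, Finset.mem_singleton] at hx
    rw [Finset.mem_range]
    rcases hx with rfl | rfl
    · exact hp.pos
    · exact Nat.mod_lt _ hp.pos
  · exact Finset.card_le_two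
  · by_cases h2 : p = 2
    · rw [h2]
      have : h % 2 = 0 := Nat.mod_eq_zero_of_dvd hh
      unfold Om2
      rw [this]
      decide
    · have h3 : 2 < p := lt_of_le_of_ne hp.two_le (Ne.symm h2)
      exact lt_of_le_of_lt Finset.card_le_two h3

theorem card_Om2 {h p : ℕ} (hp : p.Prime) :
    ((Om2 h p).card : ℝ) = if p ∣ h then 1 else 2 := by
  unfold Om2
  split_ifs with hd
  · rw [Nat.mod_eq_zero_of_dvd hd, Nat.sub_zero, Nat.mod_self]
    simp
  · have h1 : 0 < h % p := Nat.pos_of_ne_zero fun h0 => hd (Nat.dvd_of_mod_eq_zero h0)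
    have h2 : p - h % p < p := by
      have := hp.pos
      omega
    have h3 : h % p < p := Nat.mod_lt _ hp.pos
    rw [Nat.mod_eq_of_lt h2, Finset.card_pair (by omega)]
    norm_num

theorem V_le {h : ℕ} (hh : 0 < h) (N : ℕ) :
    ∏ p ∈ pr 2 N, (1 - g (Om2 h) p) ≤
      (∏ p ∈ pr 2 N, (1 - 1 / (p : ℝ))) ^ 2 * ((h : ℝ) / Nat.totient h) := by
  have hstep : ∀ p ∈ pr 2 N, 0 ≤ 1 - g (Om2 h) p ∧ 1 - g (Om2 h) p ≤
      (1 - 1 / (p : ℝ)) ^ 2 * (if p ∣ h then (1 - 1 / (p : ℝ))⁻¹ else 1) := by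
    intro p hp
    have hpp := (mem_pr.1 hp).2
    have h1 := one_sub_pos hpp
    have hp2 : (2 : ℝ) ≤ p := by exact_mod_cast hpp.two_le
    unfold g
    rw [card_Om2 hpp]
    split_ifs with hd
    · refine ⟨by linarith, ?_⟩
      rw [sq, mul_assoc, mul_inv_cancel₀ (by linarith), mul_one]
    · refine ⟨?_, ?_⟩
      · rw [sub_nonneg, div_le_one (by linarith)]
        exact hp2
      · rw [mul_one]
        have : (2 : ℝ) / p = 2 * (1 / p) := by ring
        rw [this]
        nlinarith [sq_nonneg (1 / (p : ℝ))]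
  have h1 : ∏ p ∈ pr 2 N, (1 - g (Om2 h) p) ≤
      ∏ p ∈ pr 2 N, ((1 - 1 / (p : ℝ)) ^ 2 * (if p ∣ h then (1 - 1 / (p : ℝ))⁻¹ else 1)) :=
    Finset.prod_le_prod (fun p hp => (hstep p hp).1) (fun p hp => (hstep p hp).2)
  refine h1.trans ?_
  rw [Finset.prod_mul_distrib, Finset.prod_pow]
  apply mul_le_mul_of_nonneg_left _ (sq_nonneg _)
  rw [ratio_eq hh, ← Finset.prod_filter]
  apply Finset.prod_le_prod_of_subset_of_one_le
  · intro p hp
    rw [Finset.mem_filter] at hp
    rw [Nat.mem_primeFactors]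
    exact ⟨(mem_pr.1 hp.1).2, hp.2, hh.ne'⟩
  · intro p hp
    rw [Finset.mem_filter] at hp
    have := one_sub_pos (mem_pr.1 hp.1).2
    positivity
  · intro p hp _
    have h2 := one_sub_pos (Nat.prime_of_mem_primeFactors hp)
    have h3 : (0 : ℝ) ≤ 1 / p := by positivity
    exact (one_le_inv₀ (by linarith)).2 (by linarith)

theorem subset_surv {h M L z : ℕ} :
    (Ioc M (M + L)).filter (fun n => n.Prime ∧ (n + h).Prime) ⊆
      range z ∪ surv (Om2 h) z (M + 1) L := by
  intro n hn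
  rw [Finset.mem_filter, Finset.mem_Ioc] at hn
  obtain ⟨⟨h1, h2⟩, h3, h4⟩ := hn
  rw [Finset.mem_union, Finset.mem_range]
  by_cases hz : n < z
  · exact Or.inl hz
  · right
    rw [mem_surv]
    refine ⟨⟨by omega, by omega⟩, fun p hp hpz hmem => ?_⟩
    unfold Om2 at hmem
    rw [Finset.mem_insert, Finset.mem_singleton] at hmem
    rcases hmem with h5 | h5
    · have h6 : p ∣ n := Nat.dvd_of_mod_eq_zero h5
      have := (Nat.prime_dvd_prime_iff_eq hp h3).1 h6
      omega
    · have h6 : p ∣ n + h := by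
        apply Nat.dvd_of_mod_eq_zero
        rw [Nat.add_mod, h5, ← Nat.add_mod]
        have h7 : h % p < p := Nat.mod_lt _ hp.pos
        rw [← Nat.add_mod_mod]
        have h8 : p - h % p + h % p = p := by omega
        rw [h8, Nat.mod_self]
      have := (Nat.prime_dvd_prime_iff_eq hp h4).1 h6
      omega

theorem log_sq_le {x : ℝ} (hx : 1 ≤ x) : Real.log x ^ 2 ≤ 4 * x := by
  have h1 : Real.log x ≤ 2 * Real.sqrt x := by
    have h2 := Real.log_le_rpow_div (show (0 : ℝ) ≤ x by linarith) (show (0 : ℝ) < 1 / 2 by norm_num)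
    rw [← Real.sqrt_eq_rpow] at h2
    linarith
  have h3 : 0 ≤ Real.log x := Real.log_nonneg hx
  have h4 : Real.sqrt x ^ 2 = x := Real.sq_sqrt (by linarith)
  nlinarith [Real.sqrt_nonneg x]

end Pool.Agent.PC.BlockB

namespace Pool.Agent.PC

open Finset Filter
open Pool.Agent.Helper90.Straus (pr mem_pr g Sys surv mem_surv sieve_upper)
open BlockB

/-- **Upper bound for prime pairs** in an interval, uniform in the difference. -/
theorem pair_sieve : ∃ C : ℝ, 0 < C ∧ ∀ M L h : ℕ, 2 ≤ L → 0 < h →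
    (((Ioc M (M + L)).filter (fun n => n.Prime ∧ (n + h).Prime)).card : ℝ) ≤
      C * ((h : ℝ) / Nat.totient h) * L / Real.log L ^ 2 := by
  obtain ⟨c, R₀, hc2, hs⟩ := sieve_upper (κ := 2) (by norm_num)
  obtain ⟨L₀, hL₀⟩ : ∃ L₀ : ℕ, L₀ = (2 ^ 2 ^ R₀) ^ c := ⟨_, rfl⟩
  refine ⟨40 * c ^ 2 + Real.log L₀ ^ 2 + 4, by positivity, fun M L h hL hh => ?_⟩
  have hlogL : 0 < Real.log L := Real.log_pos (by exact_mod_cast (show 1 < L by omega))
  have hratio := ratio_ge_one hh
  have hL0 : (0 : ℝ) ≤ L := Nat.cast_nonneg L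
  have hL2 : (1 : ℝ) ≤ L := by exact_mod_cast (show 1 ≤ L by omega)
  obtain ⟨ρ, hρ⟩ : ∃ ρ : ℝ, ρ = (h : ℝ) / Nat.totient h := ⟨_, rfl⟩
  rw [← hρ] at hratio ⊢
  -- a constant times L / log^2 L suffices
  have key : ∀ K : ℝ, 0 ≤ K → K ≤ 40 * c ^ 2 + Real.log L₀ ^ 2 + 4 →
      K * L / Real.log L ^ 2 ≤ (40 * c ^ 2 + Real.log L₀ ^ 2 + 4) * ρ * L / Real.log L ^ 2 := by
    intro K hK0 hK
    apply div_le_div_of_nonneg_right _ (by positivity)
    apply mul_le_mul_of_nonneg_right _ hL0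
    nlinarith
  by_cases hodd : 2 ∣ h
  · by_cases hsmall : L < L₀
    · -- small intervals
      refine le_trans ?_ (key (Real.log L₀ ^ 2) (by positivity) (by
        have : (0 : ℝ) ≤ 40 * (c : ℝ) ^ 2 := by positivity
        linarith))
      have h1 : (((Ioc M (M + L)).filter (fun n => n.Prime ∧ (n + h).Prime)).card : ℝ) ≤ L := by
        have h2 := Finset.card_filter_le (Ioc M (M + L)) (fun n => n.Prime ∧ (n + h).Prime)
        rw [Nat.card_Ioc] at h2
        have h3 : M + L - M = L := by omega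
        rw [h3] at h2
        exact_mod_cast h2
      refine h1.trans ?_
      rw [le_div_iff₀ (by positivity)]
      have h2 : Real.log L ≤ Real.log L₀ :=
        Real.log_le_log (by linarith) (by exact_mod_cast hsmall.le)
      have h3 : Real.log L ^ 2 ≤ Real.log L₀ ^ 2 := pow_le_pow_left₀ hlogL.le h2 2
      nlinarith
    · -- long intervals: choose the sieving range
      rw [not_lt] at hsmall
      obtain ⟨R, hR, hRL, hRL'⟩ : ∃ R, R₀ ≤ R ∧ (2 ^ 2 ^ R) ^ c ≤ L ∧
          L < (2 ^ 2 ^ (R + 1)) ^ c := by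
        have hex : ∃ i, L < (2 ^ 2 ^ (R₀ + i)) ^ c := by
          refine ⟨L, ?_⟩
          calc L < 2 ^ L := Nat.lt_two_pow_self
            _ ≤ 2 ^ 2 ^ (R₀ + L) := by
              apply Nat.pow_le_pow_right (by norm_num)
              calc L ≤ 2 ^ L := Nat.lt_two_pow_self.le
                _ ≤ 2 ^ (R₀ + L) := Nat.pow_le_pow_right (by norm_num) (by omega)
            _ = (2 ^ 2 ^ (R₀ + L)) ^ 1 := (pow_one _).symm
            _ ≤ (2 ^ 2 ^ (R₀ + L)) ^ c := Nat.pow_le_pow_right Nat.one_le_two_pow (by omega)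
        classical
        obtain ⟨i, hi⟩ : ∃ i, i = Nat.find hex := ⟨_, rfl⟩
        have hi1 : L < (2 ^ 2 ^ (R₀ + i)) ^ c := by
          rw [hi]
          exact Nat.find_spec hex
        have hi0 : i ≠ 0 := by
          intro h0
          rw [h0] at hi1
          simp only [add_zero] at hi1
          omega
        have hi2 : ¬ L < (2 ^ 2 ^ (R₀ + (i - 1))) ^ c := Nat.find_min hex (by omega)
        refine ⟨R₀ + (i - 1), by omega, not_lt.1 hi2, ?_⟩
        have h5 : R₀ + (i - 1) + 1 = R₀ + i := by omega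
        rw [h5]
        exact hi1
      obtain ⟨z, hz⟩ : ∃ z : ℕ, z = 2 ^ 2 ^ R := ⟨_, rfl⟩
      have hzz : 2 ^ 2 ^ (R + 1) = z ^ 2 := by
        rw [hz, ← pow_mul]
        congr 1
      have hz2 : 2 ≤ z := by
        rw [hz]
        calc 2 = 2 ^ 1 := rfl
          _ ≤ 2 ^ 2 ^ R := Nat.pow_le_pow_right (by norm_num) Nat.one_le_two_pow
      have hmain := hs R hR (Om2 h) (sys_Om2 hodd) (M + 1) L hRL
      rw [hzz] at hRL'
      have hzc : (2 : ℝ) ^ 2 ^ R = z := by
        rw [hz]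
        push_cast
        rfl
      rw [← hz] at hmain hRL
      rw [hzc] at hmain
      have hV := (V_le hh z).trans (mul_le_mul_of_nonneg_right (P_sq_le hz2)
        (by positivity))
      rw [← hρ] at hV
      have hlogz : 0 < Real.log z := Real.log_pos (by exact_mod_cast (show 1 < z by omega))
      have hz0 : (0 : ℝ) < z := by exact_mod_cast (show 0 < z by omega)
      have hcard : (((Ioc M (M + L)).filter (fun n => n.Prime ∧ (n + h).Prime)).card : ℝ) ≤
          z + ((surv (Om2 h) z (M + 1) L).card : ℝ) := by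
        have h1 := (Finset.card_le_card (subset_surv (h := h) (M := M) (L := L) (z := z))).trans
          (Finset.card_union_le _ _)
        rw [Finset.card_range] at h1
        exact_mod_cast h1
      have hzL : (z : ℝ) ≤ L / z := by
        rw [le_div_iff₀ hz0]
        have h1 : z * z ≤ L := by
          calc z * z = z ^ 2 := by ring
            _ ≤ z ^ c := Nat.pow_le_pow_right (by omega) hc2
            _ ≤ L := hRL
        exact_mod_cast h1
      have hinv : 1 / (z : ℝ) ≤ 4 * (1 / Real.log z ^ 2) := by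
        rw [mul_one_div, div_le_div_iff₀ hz0 (by positivity)]
        have := log_sq_le (x := z) (by exact_mod_cast (show 1 ≤ z by omega))
        linarith
      have hcount : (((Ioc M (M + L)).filter (fun n => n.Prime ∧ (n + h).Prime)).card : ℝ) ≤
          10 * ρ * L * (1 / Real.log z ^ 2) := by
        have h1 : (L : ℝ) * (2 * ∏ p ∈ pr 2 z, (1 - g (Om2 h) p)) ≤
            L * (2 * (1 / Real.log z ^ 2 * ρ)) :=
          mul_le_mul_of_nonneg_left (mul_le_mul_of_nonneg_left hV (by norm_num)) hL0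
        have h2 : (L : ℝ) / z ≤ 4 * L * (1 / Real.log z ^ 2) := by
          calc (L : ℝ) / z = L * (1 / z) := by ring
            _ ≤ L * (4 * (1 / Real.log z ^ 2)) := mul_le_mul_of_nonneg_left hinv hL0
            _ = _ := by ring
        have h3 : 4 * (L : ℝ) * (1 / Real.log z ^ 2) ≤ 4 * ρ * L * (1 / Real.log z ^ 2) := by
          apply mul_le_mul_of_nonneg_right _ (by positivity)
          nlinarith
        have h4 : (L : ℝ) * (2 * (1 / Real.log z ^ 2 * ρ)) =
          2 * ρ * L * (1 / Real.log z ^ 2) := by ring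
        have h5 : 10 * ρ * L * (1 / Real.log z ^ 2) = 2 * ρ * L * (1 / Real.log z ^ 2) +
          4 * ρ * L * (1 / Real.log z ^ 2) + 4 * ρ * L * (1 / Real.log z ^ 2) := by ring
        linarith
      refine hcount.trans ?_
      have hlogLz : Real.log L ≤ 2 * c * Real.log z := by
        have h1 : (L : ℝ) ≤ (z : ℝ) ^ (2 * c) := by
          rw [pow_mul]
          exact_mod_cast hRL'.le
        calc Real.log L ≤ Real.log ((z : ℝ) ^ (2 * c)) := Real.log_le_log (by linarith) h1
          _ = 2 * c * Real.log z := by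
            rw [Real.log_pow]
            push_cast
            ring
      have hfrac : 1 / Real.log z ^ 2 ≤ 4 * c ^ 2 / Real.log L ^ 2 := by
        rw [div_le_div_iff₀ (by positivity) (by positivity)]
        have h1 : Real.log L ^ 2 ≤ (2 * c * Real.log z) ^ 2 := pow_le_pow_left₀ hlogL.le hlogLz 2
        nlinarith
      calc 10 * ρ * L * (1 / Real.log z ^ 2) ≤ 10 * ρ * L * (4 * c ^ 2 / Real.log L ^ 2) :=
            mul_le_mul_of_nonneg_left hfrac (by positivity)
        _ = (40 * c ^ 2) * ρ * L / Real.log L ^ 2 := by ring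
        _ ≤ _ := by
          apply div_le_div_of_nonneg_right _ (by positivity)
          apply mul_le_mul_of_nonneg_right _ hL0
          apply mul_le_mul_of_nonneg_right _ (by linarith)
          have : 0 ≤ Real.log L₀ ^ 2 := by positivity
          linarith
  · -- odd differences
    refine le_trans ?_ (key 4 (by norm_num) (by
      have h1 : (0 : ℝ) ≤ 40 * (c : ℝ) ^ 2 := by positivity
      have h2 : 0 ≤ Real.log L₀ ^ 2 := by positivity
      linarith))
    have h1 : (Ioc M (M + L)).filter (fun n => n.Prime ∧ (n + h).Prime) ⊆ {2} := by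
      intro n hn
      rw [Finset.mem_filter] at hn
      obtain ⟨_, h2, h3⟩ := hn
      rw [Finset.mem_singleton]
      rcases h2.eq_two_or_odd with h4 | h4
      · exact h4
      · exfalso
        rcases h3.eq_two_or_odd with h5 | h5
        · have := h2.two_le
          omega
        · omega
    have h2 : (((Ioc M (M + L)).filter (fun n => n.Prime ∧ (n + h).Prime)).card : ℝ) ≤ 1 := by
      have := Finset.card_le_card h1
      rw [Finset.card_singleton] at this
      exact_mod_cast this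
    refine h2.trans ?_
    rw [one_le_div (by positivity)]
    exact log_sq_le hL2

/-- The square of `h / φ(h)` is bounded on average. -/
theorem sum_ratio_sq : ∃ C : ℝ, 0 < C ∧ ∀ H : ℕ,
    ∑ h ∈ Icc 1 H, ((h : ℝ) / Nat.totient h) ^ 2 ≤ C * H := by
  refine ⟨Real.exp 6, Real.exp_pos _, fun H => ?_⟩
  obtain ⟨G, hG⟩ : ∃ G : ℕ → ℝ, ∀ p, G p = ((1 - 1 / (p : ℝ))⁻¹) ^ 2 - 1 := ⟨_, fun _ => rfl⟩
  have hG0 : ∀ p, p.Prime → 0 ≤ G p ∧ G p ≤ 6 / p := by
    intro p hp
    have h1 := one_sub_pos hp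
    have hp2 : (2 : ℝ) ≤ p := by exact_mod_cast hp.two_le
    have h2 : (1 - 1 / (p : ℝ))⁻¹ = p / (p - 1) := by
      have : (p : ℝ) ≠ 0 := by linarith
      have : (p : ℝ) - 1 ≠ 0 := by linarith
      field_simp
    rw [hG, h2]
    have h3 : (0 : ℝ) < p - 1 := by linarith
    constructor
    · have : 1 ≤ (p : ℝ) / (p - 1) := by
        rw [one_le_div h3]
        linarith
      nlinarith
    · rw [div_pow, sub_le_iff_le_add, div_le_iff₀ (by positivity)]
      have h4 : (6 / (p : ℝ) + 1) * (p - 1) ^ 2 = (6 + p) * (p - 1) ^ 2 / p := by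
        field_simp
      rw [h4, le_div_iff₀ (by linarith)]
      nlinarith [mul_nonneg (show (0 : ℝ) ≤ 4 * p - 3 by linarith) (show (0 : ℝ) ≤ p - 2 by linarith)]
  have h1 : ∀ h ∈ Icc 1 H, ((h : ℝ) / Nat.totient h) ^ 2 =
      ∑ t ∈ (pr 2 (H + 1)).powerset, if t ⊆ h.primeFactors then ∏ p ∈ t, G p else 0 := by
    intro h hh
    rw [Finset.mem_Icc] at hh
    rw [ratio_eq (by omega), ← Finset.prod_pow]
    have h2 : ∏ p ∈ h.primeFactors, ((1 - 1 / (p : ℝ))⁻¹) ^ 2 =
        ∏ p ∈ h.primeFactors, (1 + G p) := by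
      apply Finset.prod_congr rfl
      intro p _
      rw [hG]
      ring
    rw [h2, Finset.prod_one_add, ← Finset.sum_filter]
    apply Finset.sum_congr _ (fun _ _ => rfl)
    ext t
    rw [Finset.mem_powerset, Finset.mem_filter, Finset.mem_powerset]
    refine ⟨fun h3 => ⟨fun p hp => ?_, h3⟩, fun h3 => h3.2⟩
    have h4 := h3 hp
    have h5 := Nat.le_of_mem_primeFactors h4
    have h6 := Nat.prime_of_mem_primeFactors h4
    rw [mem_pr]
    exact ⟨⟨h6.two_le, by omega⟩, h6⟩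
  rw [Finset.sum_congr rfl h1, Finset.sum_comm]
  have hprime : ∀ t ∈ (pr 2 (H + 1)).powerset, ∀ p ∈ t, p.Prime := fun t ht p hp =>
    (mem_pr.1 (Finset.mem_powerset.1 ht hp)).2
  have h2 : ∀ t ∈ (pr 2 (H + 1)).powerset,
      ∑ h ∈ Icc 1 H, (if t ⊆ h.primeFactors then ∏ p ∈ t, G p else 0) ≤
      H * ∏ p ∈ t, (G p / p) := by
    intro t ht
    have hGt : 0 ≤ ∏ p ∈ t, G p := Finset.prod_nonneg fun p hp => (hG0 p (hprime t ht p hp)).1
    rw [← Finset.sum_filter, Finset.sum_const, nsmul_eq_mul]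
    have h3 : ((Icc 1 H).filter (fun h => t ⊆ h.primeFactors)).card ≤ H / ∏ p ∈ t, p := by
      rw [← Nat.Ioc_filter_dvd_card_eq_div]
      apply Finset.card_le_card
      intro h hh
      rw [Finset.mem_filter, Finset.mem_Icc] at hh
      rw [Finset.mem_filter, Finset.mem_Ioc]
      refine ⟨by omega, ?_⟩
      apply Finset.prod_primes_dvd
      · intro p hp
        exact (hprime t ht p hp).prime
      · intro p hp
        exact Nat.dvd_of_mem_primeFactors (hh.2 hp)
    have h4 : (((Icc 1 H).filter (fun h => t ⊆ h.primeFactors)).card : ℝ) ≤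
        H / ((∏ p ∈ t, p : ℕ) : ℝ) := by
      refine le_trans ?_ Nat.cast_div_le
      exact_mod_cast h3
    calc _ ≤ H / ((∏ p ∈ t, p : ℕ) : ℝ) * ∏ p ∈ t, G p := mul_le_mul_of_nonneg_right h4 hGt
      _ = H * ∏ p ∈ t, (G p / p) := by
        rw [Finset.prod_div_distrib]
        push_cast
        ring
  refine (Finset.sum_le_sum h2).trans ?_
  rw [← Finset.mul_sum, ← Finset.prod_one_add, mul_comm (Real.exp 6)]
  apply mul_le_mul_of_nonneg_left _ (Nat.cast_nonneg _)
  have h3 : ∏ p ∈ pr 2 (H + 1), (1 + G p / p) ≤ ∏ p ∈ pr 2 (H + 1), Real.exp (6 * ((p : ℝ) ^ 2)⁻¹) := by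
    apply Finset.prod_le_prod
    · intro p hp
      have := (hG0 p (mem_pr.1 hp).2).1
      positivity
    · intro p hp
      obtain ⟨_, h4⟩ := hG0 p (mem_pr.1 hp).2
      have hp0 : (0 : ℝ) < p := by exact_mod_cast (mem_pr.1 hp).2.pos
      have h5 : G p / p ≤ 6 * ((p : ℝ) ^ 2)⁻¹ := by
        calc G p / p ≤ (6 / p) / p := div_le_div_of_nonneg_right h4 hp0.le
          _ = 6 * ((p : ℝ) ^ 2)⁻¹ := by
            field_simp
      have := Real.add_one_le_exp (6 * ((p : ℝ) ^ 2)⁻¹)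
      linarith
  refine h3.trans ?_
  rw [← Real.exp_sum, ← Finset.mul_sum]
  apply Real.exp_le_exp.2
  have h4 : ∑ p ∈ pr 2 (H + 1), ((p : ℝ) ^ 2)⁻¹ ≤ ∑ p ∈ Ioc 1 H, ((p : ℝ) ^ 2)⁻¹ := by
    apply Finset.sum_le_sum_of_subset_of_nonneg
    · intro p hp
      rw [mem_pr] at hp
      rw [Finset.mem_Ioc]
      omega
    · intro p _ _
      positivity
  rcases Nat.lt_or_ge H 1 with hH | hH
  · have : H = 0 := by omega
    rw [this] at h4 ⊢
    simp at h4 ⊢
    linarith
  · have h5 := sum_Ioc_inv_sq_le_sub (α := ℝ) (k := 1) (n := H) one_ne_zero hH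
    have h6 : (0 : ℝ) ≤ (H : ℝ)⁻¹ := by positivity
    push_cast at h5
    rw [inv_one] at h5
    linarith

end Pool.Agent.PC
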