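import Mathlib
import Pool.Agent.PC.Defs

set_option autoImplicit false

namespace Pool.Agent.PC

open Finset Filter

open scoped Classical in
lemma sum_dX (A : ℕ → ℕ → Prop) (X T : Finset ℕ) :
    ∑ j ∈ T, dX A X j = ∑ i ∈ X, (T.filter (fun j => A i j)).card := by
  unfold dX
  simp only [Finset.card_filter]
  exact Finset.sum_comm

open scoped Classical in
lemma dX_eq {A : ℕ → ℕ → Prop} (h : PG A) (X : Finset ℕ) (i : ℕ) :
    dX A X i = (X.filter (fun j => A i j)).card := by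
  unfold dX
  congr 1
  ext j
  simp only [Finset.mem_filter, and_congr_right_iff]
  exact fun _ => ⟨fun h1 => h.symm _ _ h1, fun h1 => h.symm _ _ h1⟩

lemma sum_dX_range {A : ℕ → ℕ → Prop} (h : PG A) (X T : Finset ℕ) :
    ∑ j ∈ T, dX A X j = ∑ i ∈ X, dX A T i := by
  rw [sum_dX]
  exact Finset.sum_congr rfl fun i _ => (dX_eq h T i).symm

lemma dX_mono (A : ℕ → ℕ → Prop) {X Y : Finset ℕ} (h : X ⊆ Y) (j : ℕ) : dX A X j ≤ dX A Y j := by
  classical
  unfold dX
  exact Finset.card_le_card (Finset.filter_subset_filter _ h)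

lemma codeg_self {A : ℕ → ℕ → Prop} (h : PG A) (m i : ℕ) : codeg A m i i = dX A (range m) i := by
  classical
  rw [dX_eq h]
  unfold codeg
  simp

lemma sum_dX_sq_eq {A : ℕ → ℕ → Prop} (X : Finset ℕ) (m : ℕ) :
    ∑ j ∈ range m, dX A X j ^ 2 = ∑ i ∈ X, ∑ k ∈ X, codeg A m i k := by
  classical
  have h1 : ∀ j, dX A X j ^ 2 = ∑ i ∈ X, ∑ k ∈ X, if A i j ∧ A k j then 1 else 0 := by
    intro j
    rw [pow_two]
    unfold dX
    simp only [Finset.card_filter]
    rw [Finset.sum_mul_sum]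
    refine Finset.sum_congr rfl fun i _ => Finset.sum_congr rfl fun k _ => ?_
    by_cases h1 : A i j <;> by_cases h2 : A k j <;> simp [h1, h2]
  simp only [h1]
  rw [Finset.sum_comm]
  refine Finset.sum_congr rfl fun i _ => ?_
  rw [Finset.sum_comm]
  refine Finset.sum_congr rfl fun k _ => ?_
  unfold codeg
  rw [Finset.card_filter]

/-! ### Size of `dd` -/

lemma dd_pos {m : ℕ} (hm : 2 ≤ m) : 0 < dd m := by
  unfold dd
  have h1 : (1 : ℝ) < m := by exact_mod_cast hm
  have := Real.log_pos h1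
  positivity

lemma log_le_rpow {δ : ℝ} (hδ : 0 < δ) {K : ℝ} (hK : 0 < K) :
    ∀ᶠ m : ℕ in atTop, K * Real.log m ≤ (m : ℝ) ^ δ := by
  have h1 := isLittleO_log_rpow_atTop hδ
  have h2 := h1.def (c := 1 / K) (by positivity)
  have h3 := tendsto_natCast_atTop_atTop (R := ℝ) |>.eventually h2
  filter_upwards [h3, eventually_ge_atTop 1] with m hm hm1
  have hm1' : (1 : ℝ) ≤ m := by exact_mod_cast hm1
  rw [Real.norm_of_nonneg (Real.log_nonneg hm1'), Real.norm_of_nonneg (by positivity)] at hm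
  calc K * Real.log m ≤ K * (1 / K * (m : ℝ) ^ δ) := by gcongr
    _ = (m : ℝ) ^ δ := by field_simp

lemma dd_lower {δ : ℝ} (hδ : 0 < δ) {K : ℝ} (hK : 0 < K) :
    ∀ᶠ m : ℕ in atTop, K * (m : ℝ) ^ (1 - δ) ≤ dd m := by
  filter_upwards [log_le_rpow hδ hK, eventually_ge_atTop 2] with m hm hm2
  have hm0 : (0 : ℝ) < m := by positivity
  have h1 : (1 : ℝ) < m := by exact_mod_cast hm2
  have hl := Real.log_pos h1
  unfold dd
  rw [le_div_iff₀ hl]
  calc K * (m : ℝ) ^ (1 - δ) * Real.log m = (K * Real.log m) * (m : ℝ) ^ (1 - δ) := by ring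
    _ ≤ (m : ℝ) ^ δ * (m : ℝ) ^ (1 - δ) := by gcongr
    _ = m := by rw [← Real.rpow_add hm0]; simp
    _ ≤ 2 * m := by linarith

lemma sqrt_le_dd : ∀ᶠ m : ℕ in atTop, Real.sqrt m ≤ dd m := by
  filter_upwards [dd_lower (δ := 1 / 2) (by norm_num) (K := 1) one_pos] with m hm
  rw [Real.sqrt_eq_rpow]
  norm_num at hm ⊢
  exact hm

lemma dd_le : ∀ᶠ m : ℕ in atTop, dd m ≤ m := by
  filter_upwards [eventually_ge_atTop 8] with m hm
  have h1 : (1 : ℝ) < m := by exact_mod_cast (by omega : 1 < m)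
  have hl := Real.log_pos h1
  unfold dd
  rw [div_le_iff₀ hl]
  have h2 : (2 : ℝ) ≤ Real.log m := by
    have h3 : Real.log 8 ≤ Real.log m := Real.log_le_log (by norm_num) (by exact_mod_cast hm)
    have h4 : Real.log 8 = 3 * Real.log 2 := by
      rw [show (8 : ℝ) = 2 ^ 3 by norm_num, Real.log_pow]; norm_num
    have := Real.log_two_gt_d9
    linarith
  nlinarith [Nat.cast_nonneg (α := ℝ) m]

/-- (E2) second moment of the degrees into a set. -/
theorem sum_dX_sq {A : ℕ → ℕ → Prop} (h : PG A) : ∃ C : ℝ, 0 < C ∧ ∀ᶠ m : ℕ in atTop,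
    ∀ X ⊆ range m, ∑ j ∈ range m, (dX A X j : ℝ) ^ 2 ≤
      C * X.card * Real.sqrt (X.card / m) * dd m ^ 2 := by
  obtain ⟨C, hC, hcod⟩ := h.codeg
  refine ⟨2 + Real.sqrt C, by positivity, ?_⟩
  filter_upwards [hcod, h.deg 1 one_pos, sqrt_le_dd, eventually_ge_atTop 2] with m hcod hdeg hsq hm X hX
  have hm0 : (0 : ℝ) < m := by positivity
  have hd := dd_pos hm
  rcases X.eq_empty_or_nonempty with rfl | hne
  · have : ∀ j ∈ range m, ((dX A ∅ j : ℕ) : ℝ) ^ 2 = 0 := by
      intro j _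
      simp [dX]
    rw [Finset.sum_congr rfl this]
    simp
  have ha1 : (1 : ℝ) ≤ X.card := by exact_mod_cast hne.card_pos
  set a : ℝ := (X.card : ℝ) with ha
  have key : ∀ i ∈ X, ∑ k ∈ X, (codeg A m i k : ℝ) ≤ 2 * dd m + Real.sqrt C * Real.sqrt (a / m) * dd m ^ 2 := by
    intro i hi
    have him := Finset.mem_range.1 (hX hi)
    rw [← Finset.add_sum_erase X _ hi]
    have h1 : (codeg A m i i : ℝ) ≤ 2 * dd m := by
      rw [codeg_self h]
      have := (hdeg i him).2
      norm_num at this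
      exact this
    have h2 : ∑ k ∈ X.erase i, (codeg A m i k : ℝ) ≤ Real.sqrt C * Real.sqrt (a / m) * dd m ^ 2 := by
      have hcs := Finset.sum_mul_sq_le_sq_mul_sq (X.erase i) (fun _ => (1 : ℝ)) (fun k => (codeg A m i k : ℝ))
      simp only [one_mul, one_pow, Finset.sum_const, nsmul_eq_mul, mul_one] at hcs
      have h3 : ∑ k ∈ X.erase i, (codeg A m i k : ℝ) ^ 2 ≤ C * dd m ^ 4 / m := by
        refine le_trans (Finset.sum_le_sum_of_subset_of_nonneg (Finset.erase_subset_erase i hX) ?_) (hcod i him)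
        intro _ _ _
        positivity
      have h4 : ((X.erase i).card : ℝ) ≤ a := by
        rw [ha]
        exact_mod_cast Finset.card_le_card (Finset.erase_subset i X)
      have h5 : (∑ k ∈ X.erase i, (codeg A m i k : ℝ)) ^ 2 ≤
          (Real.sqrt C * Real.sqrt (a / m) * dd m ^ 2) ^ 2 := by
        refine hcs.trans ?_
        rw [mul_pow, mul_pow, Real.sq_sqrt hC.le, Real.sq_sqrt (by positivity)]
        calc ((X.erase i).card : ℝ) * ∑ k ∈ X.erase i, (codeg A m i k : ℝ) ^ 2 ≤ a * (C * dd m ^ 4 / m) := by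
              gcongr
          _ = C * (a / m) * (dd m ^ 2) ^ 2 := by ring
      exact le_of_sq_le_sq h5 (by positivity)
    linarith
  have h1 : ∑ j ∈ range m, (dX A X j : ℝ) ^ 2 = ∑ i ∈ X, ∑ k ∈ X, (codeg A m i k : ℝ) := by
    have := sum_dX_sq_eq (A := A) X m
    exact_mod_cast this
  rw [h1]
  calc ∑ i ∈ X, ∑ k ∈ X, (codeg A m i k : ℝ)
      ≤ ∑ i ∈ X, (2 * dd m + Real.sqrt C * Real.sqrt (a / m) * dd m ^ 2) := Finset.sum_le_sum key
    _ = a * (2 * dd m) + Real.sqrt C * a * Real.sqrt (a / m) * dd m ^ 2 := by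
        rw [Finset.sum_const, nsmul_eq_mul, ← ha]; ring
    _ ≤ a * (2 * (Real.sqrt (a / m) * dd m ^ 2)) + Real.sqrt C * a * Real.sqrt (a / m) * dd m ^ 2 := by
        have h2 : dd m ≤ Real.sqrt (a / m) * dd m ^ 2 := by
          have h3 : 1 ≤ Real.sqrt (a / m) * dd m := by
            have h4 : Real.sqrt (1 / m) ≤ Real.sqrt (a / m) := Real.sqrt_le_sqrt (by gcongr)
            have h5 : 1 = Real.sqrt (1 / m) * Real.sqrt m := by
              rw [← Real.sqrt_mul (by positivity), one_div, inv_mul_cancel₀ hm0.ne', Real.sqrt_one]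
            calc (1 : ℝ) = Real.sqrt (1 / m) * Real.sqrt m := h5
              _ ≤ Real.sqrt (a / m) * dd m := mul_le_mul h4 hsq (Real.sqrt_nonneg _) (Real.sqrt_nonneg _)
          nlinarith
        have ha0 : 0 ≤ a := by linarith
        nlinarith [mul_le_mul_of_nonneg_left h2 ha0]
    _ = (2 + Real.sqrt C) * a * Real.sqrt (a / m) * dd m ^ 2 := by ring

/-- (P) popular neighbours of a set. -/
theorem pop {A : ℕ → ℕ → Prop} (h : PG A) : ∃ c : ℝ, 0 < c ∧ ∀ᶠ m : ℕ in atTop,
    ∀ X ⊆ range m, X.Nonempty → c * Real.sqrt (X.card * m) ≤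
      (((range m).filter (fun j => X.card * dd m / (8 * m) ≤ (dX A X j : ℝ))).card : ℝ) := by
  obtain ⟨C, hC, hE2⟩ := sum_dX_sq h
  refine ⟨1 / (4 * C), by positivity, ?_⟩
  filter_upwards [hE2, h.deg (1 / 4) (by norm_num), eventually_ge_atTop 2] with m hE2 hdeg hm X hX hne
  have hm0 : (0 : ℝ) < m := by positivity
  have hd := dd_pos hm
  have ha1 : (1 : ℝ) ≤ X.card := by exact_mod_cast hne.card_pos
  set a : ℝ := (X.card : ℝ) with ha
  set P := (range m).filter (fun j => a * dd m / (8 * m) ≤ (dX A X j : ℝ)) with hP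
  have htot : 3 / 4 * dd m * a ≤ ∑ j ∈ range m, (dX A X j : ℝ) := by
    have h1 : ∑ j ∈ range m, (dX A X j : ℝ) = ∑ i ∈ X, (dX A (range m) i : ℝ) := by
      exact_mod_cast sum_dX_range h X (range m)
    rw [h1]
    calc 3 / 4 * dd m * a = ∑ i ∈ X, 3 / 4 * dd m := by
          rw [Finset.sum_const, nsmul_eq_mul, ← ha]; ring
      _ ≤ _ := Finset.sum_le_sum fun i hi => by
          have := (hdeg i (Finset.mem_range.1 (hX hi))).1
          norm_num at this ⊢
          exact this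
  have hlow : ∑ j ∈ (range m).filter (fun j => ¬ a * dd m / (8 * m) ≤ (dX A X j : ℝ)), (dX A X j : ℝ) ≤
      a * dd m / 8 := by
    calc _ ≤ ∑ j ∈ (range m).filter (fun j => ¬ a * dd m / (8 * m) ≤ (dX A X j : ℝ)), a * dd m / (8 * m) := by
          refine Finset.sum_le_sum fun j hj => ?_
          exact (not_le.1 (Finset.mem_filter.1 hj).2).le
      _ ≤ m * (a * dd m / (8 * m)) := by
          rw [Finset.sum_const, nsmul_eq_mul]
          have : (((range m).filter (fun j => ¬ a * dd m / (8 * m) ≤ (dX A X j : ℝ))).card : ℝ) ≤ m := by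
            have := Finset.card_filter_le (range m) (fun j => ¬ a * dd m / (8 * m) ≤ (dX A X j : ℝ))
            rw [Finset.card_range] at this
            exact_mod_cast this
          gcongr
      _ = a * dd m / 8 := by field_simp
  have hhigh : a * dd m / 2 ≤ ∑ j ∈ P, (dX A X j : ℝ) := by
    have := Finset.sum_filter_add_sum_filter_not (range m) (fun j => a * dd m / (8 * m) ≤ (dX A X j : ℝ))
      (fun j => (dX A X j : ℝ))
    rw [← hP] at this
    have h0 : 0 < a * dd m := by positivity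
    nlinarith
  have hcs := Finset.sum_mul_sq_le_sq_mul_sq P (fun _ => (1 : ℝ)) (fun k => (dX A X k : ℝ))
  simp only [one_mul, one_pow, Finset.sum_const, nsmul_eq_mul, mul_one] at hcs
  have hP2 : ∑ j ∈ P, (dX A X j : ℝ) ^ 2 ≤ C * a * Real.sqrt (a / m) * dd m ^ 2 :=
    le_trans (Finset.sum_le_sum_of_subset_of_nonneg (Finset.filter_subset _ _)
      (fun _ _ _ => by positivity)) (hE2 X hX)
  have h1 : (a * dd m / 2) ^ 2 ≤ P.card * (C * a * Real.sqrt (a / m) * dd m ^ 2) := by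
    calc (a * dd m / 2) ^ 2 ≤ (∑ j ∈ P, (dX A X j : ℝ)) ^ 2 := by gcongr
      _ ≤ _ := hcs
      _ ≤ _ := by gcongr
  have hs0 : 0 < Real.sqrt (a / m) := Real.sqrt_pos.2 (by positivity)
  have h2 : a / 4 ≤ P.card * C * Real.sqrt (a / m) := by
    have h3 : 0 < a * dd m ^ 2 := by positivity
    have h4 : a / 4 * (a * dd m ^ 2) ≤ P.card * C * Real.sqrt (a / m) * (a * dd m ^ 2) := by nlinarith
    exact le_of_mul_le_mul_right h4 h3
  -- sqrt (a m) * sqrt (a / m) = a
  have h5 : Real.sqrt (a * m) * Real.sqrt (a / m) = a := by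
    rw [← Real.sqrt_mul (by positivity)]
    rw [show a * m * (a / m) = a ^ 2 by field_simp]
    exact Real.sqrt_sq (by positivity)
  have h6 : 1 / (4 * C) * Real.sqrt (a * m) * (C * Real.sqrt (a / m)) ≤ P.card * (C * Real.sqrt (a / m)) := by
    have : 1 / (4 * C) * Real.sqrt (a * m) * (C * Real.sqrt (a / m)) = a / 4 := by
      calc _ = (1 / 4) * (Real.sqrt (a * m) * Real.sqrt (a / m)) := by field_simp
        _ = a / 4 := by rw [h5]; ring
    rw [this]
    linarith
  exact le_of_mul_le_mul_right h6 (by positivity)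

end Pool.Agent.PC
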