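import Mathlib
import Pool.Agent.PC.Defs

set_option autoImplicit false

/-!
# Block G: Bregman's theorem (Schrijver's proof) and the upper bound for the number of perfect
matchings
-/

namespace Pool.Agent.PC

open Finset Filter

namespace BlockG

/-- The logarithm of `r!^(1/r)`. -/
noncomputable def G (r : ℕ) : ℝ := Real.log (r.factorial : ℝ) / r

lemma jensen {ι : Type*} (s : Finset ι) (c : ι → ℝ) (hc : ∀ i ∈ s, 0 ≤ c i) {P : ℝ} (hP : 0 < P)
    (hsum : ∑ i ∈ s, c i = P) :
    P * Real.log P ≤ P * Real.log (s.card : ℝ) + ∑ i ∈ s, c i * Real.log (c i) := by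
  have hs : s.Nonempty := by
    by_contra h
    rw [not_nonempty_iff_eq_empty] at h
    rw [h, sum_empty] at hsum
    linarith
  have hr : (0 : ℝ) < s.card := by exact_mod_cast hs.card_pos
  have key : ∀ i ∈ s, c i - P / s.card ≤
      c i * Real.log (c i) + c i * (Real.log (s.card : ℝ) - Real.log P) := by
    intro i hi
    rcases (hc i hi).eq_or_lt with h0 | h0
    · rw [← h0]
      have : 0 < P / s.card := by positivity
      simp only [zero_mul, add_zero, zero_sub]
      linarith
    · have h1 := Real.one_sub_inv_le_log_of_pos (x := c i * s.card / P) (by positivity)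
      rw [Real.log_div (by positivity) hP.ne', Real.log_mul h0.ne' hr.ne'] at h1
      have h2 := mul_le_mul_of_nonneg_left h1 h0.le
      have h3 : c i * (1 - (c i * s.card / P)⁻¹) = c i - P / s.card := by
        field_simp
      rw [h3] at h2
      linarith
  have h4 := Finset.sum_le_sum key
  rw [Finset.sum_sub_distrib, Finset.sum_add_distrib, ← Finset.sum_mul, hsum, Finset.sum_const,
    nsmul_eq_mul, mul_div_cancel₀ _ hr.ne'] at h4
  linarith

/-- The number of bijections `σ` with `σ i ∈ N i`. -/
noncomputable def cnt {α β : Type*} (N : α → Finset β) : ℕ :=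
  Nat.card {σ : α ≃ β // ∀ i, σ i ∈ N i}

section step

variable {α β : Type*} [Fintype α] [Fintype β] [DecidableEq α] [DecidableEq β]

/-- Removing one element on each side. -/
def del (N : α → Finset β) (a : α) (b : β) : {x : α // x ≠ a} → Finset {y : β // y ≠ b} :=
  fun x => (N x.1).subtype (fun y => y ≠ b)

omit [Fintype α] [Fintype β] [DecidableEq α] in
lemma card_del (N : α → Finset β) (a : α) (b : β) (x : {x : α // x ≠ a}) :
    (del N a b x).card = ((N x.1).erase b).card := by
  rw [del, Finset.card_subtype, Finset.filter_ne']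

omit [Fintype β] in
lemma cnt_del (N : α → Finset β) (a : α) (b : β) :
    Nat.card {σ : α ≃ β // (∀ i, σ i ∈ N i) ∧ σ a = b} ≤ cnt (del N a b) := by
  let φ : {σ : α ≃ β // (∀ i, σ i ∈ N i) ∧ σ a = b} →
      {τ : {x : α // x ≠ a} ≃ {y : β // y ≠ b} // ∀ i, τ i ∈ del N a b i} :=
    fun σ => ⟨σ.1.subtypeEquiv (fun x =>
        ⟨fun h h' => h (σ.1.injective (h'.trans σ.2.2.symm)),
          fun h h' => h (by rw [h']; exact σ.2.2)⟩),
      fun i => by
        rw [del, Finset.mem_subtype]
        exact σ.2.1 i.1⟩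
  apply Nat.card_le_card_of_injective φ
  intro σ τ h
  apply Subtype.ext
  ext x
  by_cases hx : x = a
  · rw [hx, σ.2.2, τ.2.2]
  · have h1 := congrArg Subtype.val h
    have h2 := congrArg (fun e : {x : α // x ≠ a} ≃ {y : β // y ≠ b} => (e ⟨x, hx⟩).1) h1
    exact h2

omit [DecidableEq α] [Fintype β] in
lemma card_filter_equiv (σ : α ≃ β) (s : Finset β) :
    ((univ : Finset α).filter (fun a => σ a ∈ s)).card = s.card := by
  have : (univ : Finset α).filter (fun a => σ a ∈ s) = s.map σ.symm.toEmbedding := by
    ext a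
    rw [mem_filter, mem_map_equiv]
    simp
  rw [this, card_map]

omit [Fintype β] in
lemma row_sum (N : α → Finset β) (σ : α ≃ β) (hσ : ∀ i, σ i ∈ N i) (j : α) :
    Real.log ((N j).card : ℝ) + ∑ a ∈ univ.erase j, G ((N j).erase (σ a)).card =
      (Fintype.card α : ℝ) * G (N j).card := by
  have h1 : ∀ a ∈ (univ : Finset α).erase j, G ((N j).erase (σ a)).card =
      if σ a ∈ N j then G ((N j).card - 1) else G (N j).card := by
    intro a _
    by_cases h : σ a ∈ N j
    · rw [if_pos h, card_erase_of_mem h]
    · rw [if_neg h, erase_eq_of_notMem h]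
  have hr : 0 < (N j).card := card_pos.2 ⟨_, hσ j⟩
  have c1 : (((univ : Finset α).erase j).filter (fun a => σ a ∈ N j)).card = (N j).card - 1 := by
    rw [← card_filter_equiv σ (N j), Finset.filter_erase, card_erase_of_mem]
    rw [mem_filter]
    exact ⟨mem_univ _, hσ j⟩
  have c2 : (((univ : Finset α).erase j).filter (fun a => ¬ σ a ∈ N j)).card =
      Fintype.card α - (N j).card := by
    have := Finset.card_filter_add_card_filter_not (s := (univ : Finset α).erase j)
      (fun a => σ a ∈ N j)
    rw [c1, card_erase_of_mem (mem_univ _), card_univ] at this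
    omega
  have hle : (N j).card ≤ Fintype.card α := by
    rw [← card_filter_equiv σ (N j), ← card_univ]
    exact card_filter_le _ _
  rw [sum_congr rfl h1, sum_ite, sum_const, sum_const, c1, c2, nsmul_eq_mul, nsmul_eq_mul,
    Nat.cast_sub hle]
  obtain ⟨r, hr'⟩ : ∃ r, (N j).card = r + 1 := ⟨(N j).card - 1, by omega⟩
  rw [hr', Nat.add_sub_cancel]
  have g1 : (r : ℝ) * G r = Real.log (r.factorial : ℝ) := by
    rcases Nat.eq_zero_or_pos r with rfl | h
    · simp [G]
    · have : (0 : ℝ) < r := by exact_mod_cast h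
      rw [G]; field_simp
  have g2 : ((r + 1 : ℕ) : ℝ) * G (r + 1) = Real.log ((r + 1 : ℕ) : ℝ) +
      Real.log (r.factorial : ℝ) := by
    have : (0 : ℝ) < ((r + 1 : ℕ) : ℝ) := by positivity
    rw [G, mul_div_cancel₀ _ this.ne', Nat.factorial_succ, Nat.cast_mul,
      Real.log_mul this.ne' (by positivity)]
  rw [g1, sub_mul, g2]
  ring

lemma step (N : α → Finset β) (hpos : 0 < cnt N)
    (ih : ∀ a b, 0 < cnt (del N a b) → Real.log (cnt (del N a b) : ℝ) ≤
      ∑ i, G (del N a b i).card) :
    Real.log (cnt N : ℝ) ≤ ∑ i, G (N i).card := by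
  classical
  set S : Finset (α ≃ β) := univ.filter (fun σ => ∀ i, σ i ∈ N i) with hS
  have hcnt : cnt N = S.card := by
    rw [cnt, Nat.card_eq_fintype_card, Fintype.card_subtype]
  rw [hcnt] at hpos ⊢
  rcases isEmpty_or_nonempty α with hα | hα
  · have : Subsingleton (α ≃ β) := ⟨fun a b => by ext x; exact hα.elim x⟩
    have h1 : S.card ≤ 1 := card_le_one_of_subsingleton S
    have h2 : S.card = 1 := by omega
    rw [h2]
    simp
  have hP : (0 : ℝ) < S.card := by exact_mod_cast hpos
  let c : α → β → ℕ := fun a b => (S.filter (fun σ => σ a = b)).card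
  have hmem : ∀ a, ∀ σ ∈ S, σ a ∈ N a := fun a σ hσ => (mem_filter.1 hσ).2 a
  have hc1 : ∀ a, ∑ b ∈ N a, (c a b : ℝ) = S.card := by
    intro a
    rw [card_eq_sum_card_fiberwise (f := fun σ : α ≃ β => σ a) (t := N a) (hmem a)]
    push_cast
    rfl
  have hc2 : ∀ a, ∑ b ∈ N a, (c a b : ℝ) * Real.log (c a b) =
      ∑ σ ∈ S, Real.log (c a (σ a)) := by
    intro a
    rw [← sum_fiberwise_of_maps_to (g := fun σ : α ≃ β => σ a) (t := N a) (hmem a)]
    apply sum_congr rfl
    intro b _
    rw [sum_congr rfl (g := fun _ => Real.log (c a b)), sum_const, nsmul_eq_mul]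
    intro σ hσ
    rw [(mem_filter.1 hσ).2]
  have hc3 : ∀ a, ∀ σ ∈ S, Real.log (c a (σ a)) ≤
      ∑ j ∈ univ.erase a, G ((N j).erase (σ a)).card := by
    intro a σ hσ
    have e1 : c a (σ a) = Nat.card {τ : α ≃ β // (∀ i, τ i ∈ N i) ∧ τ a = σ a} := by
      rw [Nat.card_eq_fintype_card, Fintype.card_subtype]
      simp only [c, hS, filter_filter]
    have e2 := cnt_del N a (σ a)
    rw [← e1] at e2
    have e3 : 0 < c a (σ a) := card_pos.2 ⟨σ, mem_filter.2 ⟨hσ, rfl⟩⟩
    have e4 := ih a (σ a) (by omega)
    have e5 : Real.log (c a (σ a)) ≤ Real.log (cnt (del N a (σ a))) :=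
      Real.log_le_log (by exact_mod_cast e3) (by exact_mod_cast e2)
    refine e5.trans (e4.trans (le_of_eq ?_))
    simp only [card_del]
    have e6 : (univ : Finset α).erase a = univ.filter (fun x => x ≠ a) := by
      ext x; simp
    rw [e6, ← Finset.sum_subtype_eq_sum_filter]
    apply sum_congr
    · ext x; simp
    · intro x _; rfl
  have hJ : ∀ a, (S.card : ℝ) * Real.log S.card ≤ S.card * Real.log ((N a).card : ℝ) +
      ∑ σ ∈ S, Real.log (c a (σ a)) := by
    intro a
    rw [← hc2]
    exact jensen (N a) (fun b => (c a b : ℝ)) (fun _ _ => Nat.cast_nonneg _) hP (hc1 a)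
  have hsum : (Fintype.card α : ℝ) * (S.card * Real.log S.card) ≤
      ∑ σ ∈ S, (Fintype.card α : ℝ) * ∑ j, G (N j).card := by
    calc (Fintype.card α : ℝ) * (S.card * Real.log S.card) =
        ∑ a : α, (S.card : ℝ) * Real.log S.card := by
          rw [sum_const, nsmul_eq_mul, card_univ]
      _ ≤ ∑ a : α, (S.card * Real.log ((N a).card : ℝ) + ∑ σ ∈ S, Real.log (c a (σ a))) :=
          sum_le_sum (fun a _ => hJ a)
      _ ≤ ∑ a : α, (S.card * Real.log ((N a).card : ℝ) +
          ∑ σ ∈ S, ∑ j ∈ univ.erase a, G ((N j).erase (σ a)).card) := by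
          apply sum_le_sum
          intro a _
          have := sum_le_sum (hc3 a)
          linarith
      _ = ∑ σ ∈ S, ∑ j, (Real.log ((N j).card : ℝ) +
          ∑ a ∈ univ.erase j, G ((N j).erase (σ a)).card) := by
          simp only [sum_add_distrib, sum_const, nsmul_eq_mul]
          rw [← mul_sum]
          congr 1
          rw [sum_comm]
          apply sum_congr rfl
          intro σ _
          apply sum_comm'
          intro x y
          simp [ne_comm]
      _ = _ := by
          apply sum_congr rfl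
          intro σ hσ
          rw [mul_sum]
          apply sum_congr rfl
          intro j _
          exact row_sum N σ (mem_filter.1 hσ).2 j
  rw [sum_const, nsmul_eq_mul] at hsum
  have hα' : (0 : ℝ) < Fintype.card α := by exact_mod_cast Fintype.card_pos
  have h3 : (Fintype.card α * S.card : ℝ) * Real.log S.card ≤
      (Fintype.card α * S.card : ℝ) * ∑ j, G (N j).card := by
    linarith
  exact le_of_mul_le_mul_left h3 (by positivity)

end step

/-- Logarithmic form of Bregman's theorem for arbitrary finite types. -/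
theorem bregman_log (n : ℕ) : ∀ (α β : Type) [Fintype α] [Fintype β] (N : α → Finset β),
    Fintype.card α = n → 0 < cnt N → Real.log (cnt N : ℝ) ≤ ∑ i, G (N i).card := by
  induction n with
  | zero =>
    intro α β _ _ N hn hpos
    classical
    have := Fintype.card_eq_zero_iff.1 hn
    exact step N hpos (fun a => this.elim a)
  | succ n ih =>
    intro α β _ _ N hn hpos
    classical
    refine step N hpos (fun a b h => ?_)
    refine ih _ _ _ ?_ h
    rw [Fintype.card_subtype_compl, Fintype.card_subtype_eq, hn]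
    rfl

end BlockG

/-- Bregman's theorem. -/
theorem bregman {n : ℕ} (N : Fin n → Finset (Fin n)) :
    (((univ : Finset (Equiv.Perm (Fin n))).filter (fun σ => ∀ i, σ i ∈ N i)).card : ℝ) ≤
      ∏ i, ((N i).card.factorial : ℝ) ^ (1 / ((N i).card : ℝ)) := by
  have h1 : ((univ : Finset (Equiv.Perm (Fin n))).filter (fun σ => ∀ i, σ i ∈ N i)).card =
      BlockG.cnt N := by
    rw [BlockG.cnt, Nat.card_eq_fintype_card, Fintype.card_subtype]
  rw [h1]
  rcases Nat.eq_zero_or_pos (BlockG.cnt N) with h0 | h0
  · rw [h0, Nat.cast_zero]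
    exact prod_nonneg (fun i _ => Real.rpow_nonneg (Nat.cast_nonneg _) _)
  · have h2 := BlockG.bregman_log n (Fin n) (Fin n) N (Fintype.card_fin n) h0
    have h3 : ∏ i, ((N i).card.factorial : ℝ) ^ (1 / ((N i).card : ℝ)) =
        Real.exp (∑ i, BlockG.G (N i).card) := by
      rw [Real.exp_sum]
      apply prod_congr rfl
      intro i _
      rw [Real.rpow_def_of_pos (by positivity), BlockG.G, mul_one_div]
    rw [h3]
    rwa [← Real.log_le_iff_le_exp (by exact_mod_cast h0)]

namespace BlockG

lemma log_factorial_le {r : ℕ} (hr : 1 ≤ r) :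
    Real.log (r.factorial : ℝ) ≤ r * Real.log r - r + 1 + Real.log r := by
  induction r, hr using Nat.le_induction with
  | base => simp
  | succ r hr ih =>
    have h0 : (0 : ℝ) < r := by exact_mod_cast hr
    rw [Nat.factorial_succ, Nat.cast_mul, Real.log_mul (by positivity) (by positivity)]
    push_cast
    have h1 := Real.one_sub_inv_le_log_of_pos (x := ((r : ℝ) + 1) / r) (by positivity)
    rw [Real.log_div (by positivity) h0.ne'] at h1
    have h2 : (1 - (((r : ℝ) + 1) / r)⁻¹) * (r + 1) = 1 := by
      field_simp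
      ring
    have h3 := mul_le_mul_of_nonneg_right h1 (by positivity : (0 : ℝ) ≤ r + 1)
    rw [h2] at h3
    nlinarith

lemma G_le {r : ℕ} (hr : 1 ≤ r) :
    G r ≤ Real.log r - 1 + (1 + Real.log r) / r := by
  have h0 : (0 : ℝ) < r := by exact_mod_cast hr
  rw [G, div_le_iff₀ h0]
  have h1 := log_factorial_le hr
  have h2 : (Real.log r - 1 + (1 + Real.log r) / r) * r =
      r * Real.log r - r + (1 + Real.log r) := by
    field_simp
  rw [h2]
  linarith

lemma tendsto_aux : Tendsto (fun r : ℕ => (1 + Real.log r) / r) atTop (nhds 0) := by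
  have h1 : Tendsto (fun r : ℕ => (1 : ℝ) / r) atTop (nhds 0) := tendsto_one_div_atTop_nhds_zero_nat
  have h2 : Tendsto (fun x : ℝ => Real.log x / x) atTop (nhds 0) := by
    have := Real.isLittleO_log_id_atTop
    rw [Asymptotics.isLittleO_iff_tendsto] at this
    · exact this
    · intro x hx
      simp only [id] at hx
      simp [hx]
  have h3 := h1.add (h2.comp tendsto_natCast_atTop_atTop)
  rw [add_zero] at h3
  refine h3.congr (fun r => ?_)
  simp only [Function.comp]
  rw [add_div]

lemma tendsto_dd : Tendsto dd atTop atTop := by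
  have h2 : Tendsto (fun x : ℝ => Real.log x / x) atTop (nhdsWithin 0 (Set.Ioi 0)) := by
    rw [tendsto_nhdsWithin_iff]
    constructor
    · have := Real.isLittleO_log_id_atTop
      rw [Asymptotics.isLittleO_iff_tendsto] at this
      · exact this
      · intro x hx
        simp only [id] at hx
        simp [hx]
    · filter_upwards [eventually_gt_atTop 1] with x hx
      exact div_pos (Real.log_pos hx) (by linarith)
  have h3 := (h2.inv_tendsto_nhdsGT_zero).comp tendsto_natCast_atTop_atTop
  have h4 := h3.const_mul_atTop (by norm_num : (0 : ℝ) < 2)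
  refine h4.congr (fun m => ?_)
  simp only [Function.comp, Pi.inv_apply, dd]
  rw [inv_div]
  ring

end BlockG

open BlockG in
/-- Upper bound for the number of perfect matchings. -/
theorem count_upper {A : ℕ → ℕ → Prop} (h : PG A) (ε : ℝ) (hε : 0 < ε) :
    ∀ᶠ m : ℕ in atTop,
      (Nat.card (Mt A (range m) (range m)) : ℝ) ≤ ((1 + ε) * dd m / Real.exp 1) ^ m := by
  classical
  set δ : ℝ := min (ε / 2) (1 / 2) with hδ
  have hδ0 : 0 < δ := by positivity
  have hδ1 : δ ≤ 1 / 2 := min_le_right _ _
  have hδ2 : δ < ε := (min_le_left _ _).trans_lt (by linarith)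
  set η : ℝ := Real.log (1 + ε) - Real.log (1 + δ) with hη
  have hη0 : 0 < η := sub_pos.2 (Real.log_lt_log (by linarith) (by linarith))
  obtain ⟨K, hK⟩ := eventually_atTop.1 (tendsto_aux.eventually (gt_mem_nhds hη0))
  have h1 := tendsto_dd.eventually_ge_atTop (2 * ((K : ℝ) + 1))
  filter_upwards [h1, h.deg δ hδ0] with m hm hdeg
  have hdd : 0 < dd m := by
    have : (0 : ℝ) ≤ K := Nat.cast_nonneg _
    linarith
  let N : ↥(range m) → Finset ↥(range m) :=
    fun i => univ.filter (fun j => A i j)
  have hN : ∀ i : ↥(range m), (N i).card = dX A (range m) i := by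
    intro i
    have e1 : (N i).card = ((range m).filter (fun j => A i j)).card := by
      rw [← Fintype.card_coe, ← Fintype.card_coe]
      apply Fintype.card_congr
      exact
        { toFun := fun x => ⟨x.1.1, mem_filter.2 ⟨x.1.2, (mem_filter.1 x.2).2⟩⟩
          invFun := fun x => ⟨⟨x.1, (mem_filter.1 x.2).1⟩, mem_filter.2 ⟨mem_univ _,
            (mem_filter.1 x.2).2⟩⟩
          left_inv := fun x => rfl
          right_inv := fun x => rfl }
    rw [e1, dX]
    congr 1
    apply filter_congr
    intro j _
    exact ⟨h.symm _ _, h.symm _ _⟩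
  have hcnt : Nat.card (Mt A (range m) (range m)) = cnt N := by
    apply Nat.card_congr
    apply Equiv.subtypeEquivRight
    intro e
    apply forall_congr'
    intro i
    simp [N]
  rw [hcnt]
  rcases Nat.eq_zero_or_pos (cnt N) with h0 | h0
  · rw [h0, Nat.cast_zero]
    positivity
  have hb := bregman_log m ↥(range m) ↥(range m) N (by simp) h0
  have hG : ∀ i, G (N i).card ≤ Real.log ((1 + ε) * dd m) - 1 := by
    intro i
    obtain ⟨d1, d2⟩ := hdeg i (mem_range.1 i.2)
    rw [← hN] at d1 d2
    have hr : (K : ℝ) + 1 ≤ ((N i).card : ℝ) := by nlinarith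
    have hr' : K + 1 ≤ (N i).card := by exact_mod_cast hr
    have hr0 : (0 : ℝ) < (N i).card := by
      have : (0 : ℝ) ≤ K := Nat.cast_nonneg _
      linarith
    have g1 := G_le (r := (N i).card) (by omega)
    have g2 := hK (N i).card (by omega)
    have g3 : Real.log ((N i).card : ℝ) ≤ Real.log (1 + δ) + Real.log (dd m) := by
      rw [← Real.log_mul (by linarith) hdd.ne']
      exact Real.log_le_log hr0 d2
    rw [Real.log_mul (by linarith) hdd.ne']
    linarith
  have hsum : Real.log (cnt N : ℝ) ≤ m * (Real.log ((1 + ε) * dd m) - 1) := by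
    refine hb.trans ((sum_le_sum (fun i _ => hG i)).trans (le_of_eq ?_))
    rw [sum_const, nsmul_eq_mul]
    simp
  have hpos : 0 < (1 + ε) * dd m / Real.exp 1 := by positivity
  rw [← Real.log_le_log_iff (by exact_mod_cast h0) (by positivity), Real.log_pow,
    Real.log_div (by positivity) (by positivity), Real.log_exp]
  exact hsum

end Pool.Agent.PC
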