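import Mathlib
import Pool.Agent.PC.Defs
import Pool.Agent.PrimeCircle.Defs
import Pool.Agent.PrimeCircle.Upper

set_option autoImplicit false

/-! Block K, part 1: Hamiltonian pairs of perfect matchings give prime circles. -/

namespace Pool.Agent.PC

open Finset Filter Topology Pool.Agent.PrimeCircle

/-- Pairs of perfect matchings whose union is a Hamiltonian cycle. -/
def HP (m : ℕ) : Type := {N : Mt PA (range m) (range m) × Mt PA (range m) (range m) //
  ∀ x y, Equiv.Perm.SameCycle (N.2.1.trans N.1.1.symm) x y}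

namespace BlockK

variable {m : ℕ} (N1 N2 : range m ≃ range m) (x0 : range m)

/-- The entries of the circle. -/
def ent (n : ℕ) : ℕ :=
  if n % 2 = 0 then 2 * (((N1.trans N2.symm : Equiv.Perm (range m)) ^ (n / 2)) x0 : ℕ) + 1
  else 2 * (N1 (((N1.trans N2.symm : Equiv.Perm (range m)) ^ (n / 2)) x0) : ℕ) + 2

lemma ent_even (k : ℕ) : ent N1 N2 x0 (2 * k) =
    2 * (((N1.trans N2.symm : Equiv.Perm (range m)) ^ k) x0 : ℕ) + 1 := by
  unfold ent
  rw [if_pos (by omega), show 2 * k / 2 = k by omega]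

lemma ent_odd (k : ℕ) : ent N1 N2 x0 (2 * k + 1) =
    2 * (N1 (((N1.trans N2.symm : Equiv.Perm (range m)) ^ k) x0) : ℕ) + 2 := by
  unfold ent
  rw [if_neg (by omega), show (2 * k + 1) / 2 = k by omega]

lemma rho_succ (k : ℕ) : N2 (((N1.trans N2.symm : Equiv.Perm (range m)) ^ (k + 1)) x0) =
    N1 (((N1.trans N2.symm : Equiv.Perm (range m)) ^ k) x0) := by
  rw [pow_succ', Equiv.Perm.mul_apply]
  simp

lemma ent_sum (h1 : ∀ i : range m, PA (i : ℕ) (N1 i : ℕ)) (h2 : ∀ i : range m, PA (i : ℕ) (N2 i : ℕ))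
    (n : ℕ) : (ent N1 N2 x0 n + ent N1 N2 x0 (n + 1)).Prime := by
  rcases Nat.even_or_odd' n with ⟨k, rfl | rfl⟩
  · rw [ent_even, ent_odd]
    have := h1 (((N1.trans N2.symm : Equiv.Perm (range m)) ^ k) x0)
    unfold PA at this
    convert this using 1
    ring
  · have e : 2 * k + 1 + 1 = 2 * (k + 1) := by ring
    rw [e, ent_even, ent_odd]
    have := h2 (((N1.trans N2.symm : Equiv.Perm (range m)) ^ (k + 1)) x0)
    rw [rho_succ] at this
    unfold PA at this
    convert this using 1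
    ring

variable (hc : ∀ x y, Equiv.Perm.SameCycle (N2.trans N1.symm) x y)

include hc

lemma cycOn : Equiv.Perm.IsCycleOn (N1.trans N2.symm : Equiv.Perm (range m))
    ((univ : Finset (range m)) : Set (range m)) := by
  refine ⟨?_, ?_⟩
  · simp only [coe_univ]
    exact Set.bijOn_univ.2 (Equiv.bijective _)
  · intro x _ y _
    have h1 := hc x y
    have e : (N2.trans N1.symm : Equiv.Perm (range m)) = (N1.trans N2.symm : Equiv.Perm (range m))⁻¹ := by
      ext z
      rfl
    rw [e, Equiv.Perm.sameCycle_inv] at h1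
    exact h1

lemma rho_pow_eq {k l : ℕ} : (((N1.trans N2.symm : Equiv.Perm (range m)) ^ k) x0) =
    (((N1.trans N2.symm : Equiv.Perm (range m)) ^ l) x0) ↔ k ≡ l [MOD m] := by
  have h1 := (cycOn N1 N2 hc).pow_apply_eq_pow_apply (mem_univ x0) (m := k) (n := l)
  rw [h1]
  simp

lemma ent_inj {n n' : ℕ} (hn : n < 2 * m) (hn' : n' < 2 * m)
    (h : ent N1 N2 x0 n = ent N1 N2 x0 n') : n = n' := by
  rcases Nat.even_or_odd' n with ⟨k, rfl | rfl⟩ <;> rcases Nat.even_or_odd' n' with ⟨l, rfl | rfl⟩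
  · rw [ent_even, ent_even] at h
    have h2 := (rho_pow_eq N1 N2 x0 hc (k := k) (l := l)).1 (Subtype.ext (by omega))
    have := Nat.ModEq.eq_of_lt_of_lt h2 (by omega) (by omega)
    omega
  · rw [ent_even, ent_odd] at h
    omega
  · rw [ent_even, ent_odd] at h
    omega
  · rw [ent_odd, ent_odd] at h
    have h3 : N1 (((N1.trans N2.symm : Equiv.Perm (range m)) ^ k) x0) =
        N1 (((N1.trans N2.symm : Equiv.Perm (range m)) ^ l) x0) := Subtype.ext (by omega)
    have h2 := (rho_pow_eq N1 N2 x0 hc (k := k) (l := l)).1 (N1.injective h3)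
    have := Nat.ModEq.eq_of_lt_of_lt h2 (by omega) (by omega)
    omega

lemma ent_period (n : ℕ) : ent N1 N2 x0 (n + 2 * m) = ent N1 N2 x0 n := by
  have h1 : ∀ k, (((N1.trans N2.symm : Equiv.Perm (range m)) ^ (k + m)) x0) =
      (((N1.trans N2.symm : Equiv.Perm (range m)) ^ k) x0) := fun k =>
    (rho_pow_eq N1 N2 x0 hc).2 (by simp [Nat.ModEq])
  rcases Nat.even_or_odd' n with ⟨k, rfl | rfl⟩
  · have e : 2 * k + 2 * m = 2 * (k + m) := by ring
    rw [e, ent_even, ent_even, h1]
  · have e : 2 * k + 1 + 2 * m = 2 * (k + m) + 1 := by ring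
    rw [e, ent_odd, ent_odd, h1]

lemma ent_mod (n : ℕ) : ent N1 N2 x0 (n % (2 * m)) = ent N1 N2 x0 n := by
  have h1 : ∀ r q, ent N1 N2 x0 (r + 2 * m * q) = ent N1 N2 x0 r := by
    intro r q
    induction q with
    | zero => simp
    | succ q ih =>
      have e : r + 2 * m * (q + 1) = r + 2 * m * q + 2 * m := by ring
      rw [e, ent_period N1 N2 x0 hc, ih]
  have := h1 (n % (2 * m)) (n / (2 * m))
  rw [Nat.mod_add_div] at this
  exact this.symm

lemma isPrimeCircle (hm : 0 < m) (h1 : ∀ i : range m, PA (i : ℕ) (N1 i : ℕ))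
    (h2 : ∀ i : range m, PA (i : ℕ) (N2 i : ℕ)) :
    IsPrimeCircle m (fun z : ZMod (2 * m) => ent N1 N2 x0 z.val) := by
  have : NeZero (2 * m) := ⟨by omega⟩
  refine ⟨?_, ?_, ?_⟩
  · intro z z' h
    have := ent_inj N1 N2 x0 hc (ZMod.val_lt z) (ZMod.val_lt z') h
    exact ZMod.val_injective _ this
  · intro z
    show 1 ≤ ent N1 N2 x0 z.val ∧ ent N1 N2 x0 z.val ≤ 2 * m
    rcases Nat.even_or_odd' z.val with ⟨k, h | h⟩
    · rw [h, ent_even]
      have := Finset.mem_range.1 ((((N1.trans N2.symm : Equiv.Perm (range m)) ^ k) x0)).2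
      omega
    · rw [h, ent_odd]
      have := Finset.mem_range.1 (N1 (((N1.trans N2.symm : Equiv.Perm (range m)) ^ k) x0)).2
      omega
  · intro z
    have e : (z + 1).val = (z.val + 1) % (2 * m) := by
      rw [ZMod.val_add]
      have : (1 : ZMod (2 * m)).val = 1 := by
        rw [ZMod.val_one_eq_one_mod]
        exact Nat.mod_eq_of_lt (by omega)
      rw [this]
    show (ent N1 N2 x0 z.val + ent N1 N2 x0 (z + 1).val).Prime
    rw [e, ent_mod N1 N2 x0 hc]
    exact ent_sum N1 N2 x0 h1 h2 _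

/-- every vertex is reached -/
lemma reach (y : range m) : ∃ k, k < m ∧ (((N1.trans N2.symm : Equiv.Perm (range m)) ^ k) x0) = y := by
  have h1 := (cycOn N1 N2 hc).exists_pow_eq (mem_univ x0) (mem_univ y)
  obtain ⟨n, hn, hn2⟩ := h1
  refine ⟨n, ?_, hn2⟩
  simpa using hn

omit hc in
lemma ent_zero (hx0 : (x0 : ℕ) = 0) : ent N1 N2 x0 0 = 1 := by
  have := ent_even N1 N2 x0 0
  rw [mul_zero] at this
  rw [this]
  simp [hx0]

end BlockK

open BlockK

/-- The circle of a Hamiltonian pair. -/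
def arr {m : ℕ} (hm : 0 < m) (P : HP m) : {a : ZMod (2 * m) → ℕ // IsPrimeCircle m a} :=
  ⟨fun z => ent P.1.1.1 P.1.2.1 ⟨0, Finset.mem_range.2 hm⟩ z.val,
    isPrimeCircle P.1.1.1 P.1.2.1 _ P.2 hm P.1.1.2 P.1.2.2⟩

lemma arr_zero {m : ℕ} (hm : 0 < m) (P : HP m) : (arr hm P).1 0 = 1 := by
  unfold arr
  simp only [ZMod.val_zero]
  exact ent_zero _ _ _ rfl

lemma arr_injective {m : ℕ} (hm : 0 < m) {P P' : HP m} (h : (arr hm P).1 = (arr hm P').1) :
    P = P' := by
  have : NeZero (2 * m) := ⟨by omega⟩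
  obtain ⟨⟨⟨N1, h1⟩, ⟨N2, h2⟩⟩, hc⟩ := P
  obtain ⟨⟨⟨N1', h1'⟩, ⟨N2', h2'⟩⟩, hc'⟩ := P'
  set x0 : range m := ⟨0, Finset.mem_range.2 hm⟩ with hx0
  simp only at hc hc'
  have hent : ∀ n, ent N1 N2 x0 n = ent N1' N2' x0 n := by
    intro n
    rw [← ent_mod N1 N2 x0 hc n, ← ent_mod N1' N2' x0 hc' n]
    have h3 := congrFun h ((n % (2 * m) : ℕ) : ZMod (2 * m))
    unfold arr at h3
    simp only [ZMod.val_natCast, Nat.mod_mod] at h3
    exact h3
  have hρ : ∀ k, (((N1.trans N2.symm : Equiv.Perm (range m)) ^ k) x0) =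
      (((N1'.trans N2'.symm : Equiv.Perm (range m)) ^ k) x0) := by
    intro k
    have h3 := hent (2 * k)
    rw [ent_even, ent_even] at h3
    exact Subtype.ext (by omega)
  have hN : ∀ k, N1 (((N1.trans N2.symm : Equiv.Perm (range m)) ^ k) x0) =
      N1' (((N1'.trans N2'.symm : Equiv.Perm (range m)) ^ k) x0) := by
    intro k
    have h3 := hent (2 * k + 1)
    rw [ent_odd, ent_odd] at h3
    exact Subtype.ext (by omega)
  have e1 : N1 = N1' := by
    ext1 y
    obtain ⟨k, _, hk⟩ := reach N1 N2 x0 hc y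
    have h3 := hN k
    rw [← hρ k, hk] at h3
    exact h3
  have e2 : N2 = N2' := by
    ext1 y
    obtain ⟨k, _, hk⟩ := reach N1 N2 x0 hc ((N1.trans N2.symm : Equiv.Perm (range m)).symm y)
    have hy : y = (((N1.trans N2.symm : Equiv.Perm (range m)) ^ (k + 1)) x0) := by
      rw [pow_succ', Equiv.Perm.mul_apply, hk]
      simp
    have h3 := rho_succ N1 N2 x0 k
    have h4 := rho_succ N1' N2' x0 k
    rw [← hρ (k + 1), ← hy] at h4
    rw [← hy] at h3
    rw [h3, h4]
    exact hN k
  subst e1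
  subst e2
  rfl

/-- Every prime circle comes from at most two Hamiltonian pairs. -/
theorem card_HP_le {m : ℕ} (hm : 0 < m) : Nat.card (HP m) ≤ 2 * numPrimeCircles m := by
  classical
  have : NeZero (2 * m) := ⟨by omega⟩
  let F : HP m → Quotient (circleSetoid m) × Bool := fun P =>
    (Quotient.mk (circleSetoid m) (arr hm P),
      decide (∃ c : ZMod (2 * m), ∀ i, (arr hm P).1 i =
        (Quotient.mk (circleSetoid m) (arr hm P)).out.1 (i + c)))
  have hF : Function.Injective F := by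
    intro P P' h
    simp only [F, Prod.mk.injEq] at h
    obtain ⟨hq, hb⟩ := h
    have hr : (circleSetoid m).r (Quotient.mk (circleSetoid m) (arr hm P)).out (arr hm P) :=
      Quotient.exact (Quotient.out_eq _)
    have hr' : (circleSetoid m).r (Quotient.mk (circleSetoid m) (arr hm P')).out (arr hm P') :=
      Quotient.exact (Quotient.out_eq _)
    rw [← hq] at hr' hb
    set a := (Quotient.mk (circleSetoid m) (arr hm P)).out with ha
    have ha1 : Function.Injective a.1 := a.2.1
    refine arr_injective hm ?_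
    by_cases h1 : ∃ c : ZMod (2 * m), ∀ i, (arr hm P).1 i = a.1 (i + c)
    · have h2 : ∃ c : ZMod (2 * m), ∀ i, (arr hm P').1 i = a.1 (i + c) := by
        have := hb
        rw [decide_eq_true h1] at this
        exact of_decide_eq_true this.symm
      obtain ⟨c, hc⟩ := h1
      obtain ⟨c', hc'⟩ := h2
      have h3 : c = c' := by
        have e1 := hc 0
        have e2 := hc' 0
        rw [arr_zero, zero_add] at e1 e2
        exact ha1 (e1.symm.trans e2)
      funext i
      rw [hc, hc', h3]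
    · have h2 : ¬ ∃ c : ZMod (2 * m), ∀ i, (arr hm P').1 i = a.1 (i + c) := by
        have := hb
        rw [decide_eq_false h1] at this
        exact of_decide_eq_false this.symm
      obtain ⟨c, hc | hc⟩ := hr
      · exact absurd ⟨c, hc⟩ h1
      obtain ⟨c', hc' | hc'⟩ := hr'
      · exact absurd ⟨c', hc'⟩ h2
      have h3 : c = c' := by
        have e1 := hc 0
        have e2 := hc' 0
        rw [arr_zero, sub_zero] at e1 e2
        exact ha1 (e1.symm.trans e2)
      funext i
      rw [hc, hc', h3]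
  have hfin : Finite (Quotient (circleSetoid m)) := by
    have : Finite {a : ZMod (2 * m) → ℕ // IsPrimeCircle m a} := by
      let G : {a : ZMod (2 * m) → ℕ // IsPrimeCircle m a} → (ZMod (2 * m) → Fin (2 * m + 1)) :=
        fun a i => ⟨a.1 i, by have := (a.2.2.1 i).2; omega⟩
      refine Finite.of_injective G ?_
      intro a b hab
      apply Subtype.ext
      funext i
      have := congrFun hab i
      simpa [G] using congrArg Fin.val this
    exact Quotient.finite _
  have h1 := Nat.card_le_card_of_injective F hF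
  rw [Nat.card_prod] at h1
  rw [numPrimeCircles]
  have h2 : Nat.card Bool = 2 := by simp
  rw [h2] at h1
  linarith

end Pool.Agent.PC
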