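import Mathlib
import Pool.Agent.PC.Basic

set_option autoImplicit false

/-! Block C: common neighbours in the prime sum graph, from the sieve for prime pairs. -/

namespace Pool.Agent.PC

open Finset Filter Topology

/-- Statement of the upper bound sieve for prime pairs. -/
def PairSieve : Prop := ∃ C : ℝ, 0 < C ∧ ∀ M L h : ℕ, 2 ≤ L → 0 < h →
    (((Ioc M (M + L)).filter (fun n => n.Prime ∧ (n + h).Prime)).card : ℝ) ≤
      C * ((h : ℝ) / Nat.totient h) * L / Real.log L ^ 2

/-- Statement of the mean value bound for the singular series. -/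
def SumRatio : Prop := ∃ C : ℝ, 0 < C ∧ ∀ H : ℕ,
    ∑ h ∈ Icc 1 H, ((h : ℝ) / Nat.totient h) ^ 2 ≤ C * H

lemma ratio_two_mul {h : ℕ} (hh : 0 < h) :
    ((2 * h : ℕ) : ℝ) / Nat.totient (2 * h) ≤ 2 * ((h : ℝ) / Nat.totient h) := by
  have h1 : (0 : ℝ) < Nat.totient h := by exact_mod_cast Nat.totient_pos.2 hh
  have h2 : (Nat.totient h : ℝ) ≤ Nat.totient (2 * h) := by
    exact_mod_cast Nat.le_of_dvd (Nat.totient_pos.2 (by omega)) (Nat.totient_dvd_of_dvd (Dvd.intro_left 2 rfl))
  rw [← mul_div_assoc]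
  push_cast
  gcongr

/-- pairs of prime indices `k, k + h` in a window of length `D`. -/
lemma pair_window {C : ℝ} (hC : 0 < C)
    (hS : ∀ M L h : ℕ, 2 ≤ L → 0 < h →
    (((Ioc M (M + L)).filter (fun n => n.Prime ∧ (n + h).Prime)).card : ℝ) ≤
      C * ((h : ℝ) / Nat.totient h) * L / Real.log L ^ 2) (a D h : ℕ) (hD : 1 ≤ D) (hh : 0 < h) :
    (((Ico a (a + D)).filter (fun k => (2 * k + 3).Prime ∧ (2 * (k + h) + 3).Prime)).card : ℝ) ≤
      4 * C * ((h : ℝ) / Nat.totient h) * D / Real.log (2 * D) ^ 2 := by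
  have h1 : ((Ico a (a + D)).filter (fun k => (2 * k + 3).Prime ∧ (2 * (k + h) + 3).Prime)).card ≤
      ((Ioc (2 * a + 2) (2 * a + 2 + 2 * D)).filter (fun n => n.Prime ∧ (n + 2 * h).Prime)).card := by
    refine Finset.card_le_card_of_injOn (fun k => 2 * k + 3) ?_ ?_
    · intro k hk
      rw [Finset.mem_coe, Finset.mem_filter, Finset.mem_Ico] at hk
      rw [Finset.mem_coe, Finset.mem_filter, Finset.mem_Ioc]
      dsimp only
      refine ⟨by omega, hk.2.1, ?_⟩
      have e : 2 * k + 3 + 2 * h = 2 * (k + h) + 3 := by ring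
      rw [e]
      exact hk.2.2
    · intro k _ l _ h
      simp only at h
      omega
  have h2 := hS (2 * a + 2) (2 * D) (2 * h) (by omega) (by omega)
  have h3 : (((Ico a (a + D)).filter (fun k => (2 * k + 3).Prime ∧ (2 * (k + h) + 3).Prime)).card : ℝ) ≤
      ((Ioc (2 * a + 2) (2 * a + 2 + 2 * D)).filter (fun n => n.Prime ∧ (n + 2 * h).Prime)).card := by
    exact_mod_cast h1
  refine h3.trans (h2.trans ?_)
  have h4 := ratio_two_mul hh
  have h5 : C * (((2 * h : ℕ) : ℝ) / Nat.totient (2 * h)) * ((2 * D : ℕ) : ℝ) ≤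
      4 * C * ((h : ℝ) / Nat.totient h) * D := by
    push_cast at h4 ⊢
    calc C * (2 * (h : ℝ) / Nat.totient (2 * h)) * (2 * D) ≤ C * (2 * ((h : ℝ) / Nat.totient h)) * (2 * D) := by
          gcongr
      _ = 4 * C * ((h : ℝ) / Nat.totient h) * D := by ring
  push_cast at h5 ⊢
  exact div_le_div_of_nonneg_right h5 (by positivity)

lemma codeg_PA_le {C : ℝ} (hC : 0 < C)
    (hS : ∀ M L h : ℕ, 2 ≤ L → 0 < h →
    (((Ioc M (M + L)).filter (fun n => n.Prime ∧ (n + h).Prime)).card : ℝ) ≤
      C * ((h : ℝ) / Nat.totient h) * L / Real.log L ^ 2) {m i k : ℕ} (hm : 1 ≤ m) (hik : i < k) :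
    (codeg PA m i k : ℝ) ≤ 4 * C * (((k - i : ℕ) : ℝ) / Nat.totient (k - i)) * m / Real.log (2 * m) ^ 2 := by
  classical
  refine le_trans ?_ (pair_window hC hS i m (k - i) hm (by omega))
  have h1 : codeg PA m i k ≤
      ((Ico i (i + m)).filter (fun l => (2 * l + 3).Prime ∧ (2 * (l + (k - i)) + 3).Prime)).card := by
    unfold codeg
    refine Finset.card_le_card_of_injOn (fun j => i + j) ?_ ?_
    · intro j hj
      rw [Finset.mem_coe, Finset.mem_filter, Finset.mem_range] at hj
      obtain ⟨hj1, hj2, hj3⟩ := hj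
      unfold PA at hj2 hj3
      rw [Finset.mem_coe, Finset.mem_filter, Finset.mem_Ico]
      dsimp only
      refine ⟨by omega, hj2, ?_⟩
      have e : i + j + (k - i) = k + j := by omega
      rw [e]
      exact hj3
    · intro j _ l _ h
      simp only at h
      omega
  exact_mod_cast h1

lemma codeg_comm (A : ℕ → ℕ → Prop) (m i k : ℕ) : codeg A m i k = codeg A m k i := by
  classical
  unfold codeg
  congr 1
  ext j
  simp only [Finset.mem_filter]
  tauto

theorem codeg_PA (hS : PairSieve) (hR : SumRatio) : ∃ C : ℝ, 0 < C ∧ ∀ᶠ m : ℕ in atTop, ∀ i < m,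
    ∑ k ∈ (range m).erase i, (codeg PA m i k : ℝ) ^ 2 ≤ C * dd m ^ 4 / m := by
  obtain ⟨C1, hC1, hS⟩ := hS
  obtain ⟨C2, hC2, hR⟩ := hR
  refine ⟨2 * C1 ^ 2 * C2, by positivity, ?_⟩
  filter_upwards [eventually_ge_atTop 3] with m hm3 i hi
  have hm0 : (0 : ℝ) < m := by positivity
  have hl0 : 0 < Real.log m := by
    have : (1 : ℝ) < m := by exact_mod_cast (by omega : 1 < m)
    exact Real.log_pos this
  have hl2 : Real.log m ≤ Real.log (2 * m) := Real.log_le_log hm0 (by linarith)
  -- the bound in terms of the distance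
  set w : ℕ → ℝ := fun h => (4 * C1 * m / Real.log m ^ 2) ^ 2 * ((h : ℝ) / Nat.totient h) ^ 2 with hw
  have hw0 : ∀ h, 0 ≤ w h := fun h => by positivity
  have key : ∀ a b : ℕ, a < b → (codeg PA m a b : ℝ) ^ 2 ≤ w (b - a) := by
    intro a b hab
    have h1 := codeg_PA_le hC1 hS (m := m) (by omega) hab
    have h2 : 4 * C1 * (((b - a : ℕ) : ℝ) / Nat.totient (b - a)) * m / Real.log (2 * m) ^ 2 ≤
        4 * C1 * (((b - a : ℕ) : ℝ) / Nat.totient (b - a)) * m / Real.log m ^ 2 := by
      gcongr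
    have h3 := h1.trans h2
    calc (codeg PA m a b : ℝ) ^ 2 ≤
        (4 * C1 * (((b - a : ℕ) : ℝ) / Nat.totient (b - a)) * m / Real.log m ^ 2) ^ 2 := by gcongr
      _ = w (b - a) := by rw [hw]; ring
  have hsplit : (range m).erase i = (range i) ∪ (Ico (i + 1) m) := by
    ext k
    simp only [Finset.mem_erase, Finset.mem_range, Finset.mem_union, Finset.mem_Ico]
    omega
  have hdisj : Disjoint (range i) (Ico (i + 1) m) := by
    rw [Finset.disjoint_left]
    intro k hk hk'
    rw [Finset.mem_range] at hk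
    rw [Finset.mem_Ico] at hk'
    omega
  rw [hsplit, Finset.sum_union hdisj]
  have hA : ∑ k ∈ range i, (codeg PA m i k : ℝ) ^ 2 ≤ ∑ h ∈ Icc 1 m, w h := by
    calc ∑ k ∈ range i, (codeg PA m i k : ℝ) ^ 2 ≤ ∑ k ∈ range i, w (i - k) := by
          refine Finset.sum_le_sum fun k hk => ?_
          rw [codeg_comm]
          exact key k i (Finset.mem_range.1 hk)
      _ = ∑ h ∈ (range i).image (fun k => i - k), w h := by
          rw [Finset.sum_image]
          intro a ha b hb hab
          simp only [Finset.coe_range, Set.mem_Iio] at ha hb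
          simp only at hab
          omega
      _ ≤ _ := by
          refine Finset.sum_le_sum_of_subset_of_nonneg ?_ (fun h _ _ => hw0 h)
          intro h hh
          rw [Finset.mem_image] at hh
          obtain ⟨k, hk, rfl⟩ := hh
          rw [Finset.mem_range] at hk
          rw [Finset.mem_Icc]
          omega
  have hB : ∑ k ∈ Ico (i + 1) m, (codeg PA m i k : ℝ) ^ 2 ≤ ∑ h ∈ Icc 1 m, w h := by
    calc ∑ k ∈ Ico (i + 1) m, (codeg PA m i k : ℝ) ^ 2 ≤ ∑ k ∈ Ico (i + 1) m, w (k - i) := by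
          refine Finset.sum_le_sum fun k hk => ?_
          rw [Finset.mem_Ico] at hk
          exact key i k (by omega)
      _ = ∑ h ∈ (Ico (i + 1) m).image (fun k => k - i), w h := by
          rw [Finset.sum_image]
          intro a ha b hb hab
          simp only [Finset.coe_Ico, Set.mem_Ico] at ha hb
          simp only at hab
          omega
      _ ≤ _ := by
          refine Finset.sum_le_sum_of_subset_of_nonneg ?_ (fun h _ _ => hw0 h)
          intro h hh
          rw [Finset.mem_image] at hh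
          obtain ⟨k, hk, rfl⟩ := hh
          rw [Finset.mem_Ico] at hk
          rw [Finset.mem_Icc]
          omega
  have hW : ∑ h ∈ Icc 1 m, w h ≤ (4 * C1 * m / Real.log m ^ 2) ^ 2 * (C2 * m) := by
    rw [hw]
    simp only
    rw [← Finset.mul_sum]
    gcongr
    exact hR m
  have hfin : (4 * C1 * m / Real.log m ^ 2) ^ 2 * (C2 * m) + (4 * C1 * m / Real.log m ^ 2) ^ 2 * (C2 * m) =
      2 * C1 ^ 2 * C2 * dd m ^ 4 / m := by
    unfold dd
    field_simp
    ring
  linarith

end Pool.Agent.PC
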