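import Mathlib
import Pool.Agent.PC.Basic

set_option autoImplicit false

namespace Pool.Agent.PC.BlockH

open Finset Filter
open scoped Classical

variable {α : Type*} [Fintype α] [DecidableEq α]

/-- Number of walks from `u` to `v` with `k` inner vertices, all outside `W`. -/
noncomputable def cnt (R : α → α → Prop) (W : Finset α) : ℕ → α → α → ℕ
  | 0, u, v => if R u v then 1 else 0
  | k + 1, u, v => ∑ x ∈ univ.filter (fun x => x ∉ W ∧ R u x), cnt R W k x v

lemma cnt_comp (R : α → α → Prop) (W : Finset α) (a b : ℕ) (u v : α) :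
    cnt R W (a + b + 1) u v =
      ∑ x ∈ univ.filter (fun x => x ∉ W), cnt R W a u x * cnt R W b x v := by
  induction a generalizing u with
  | zero =>
    rw [Nat.zero_add, cnt]
    rw [← Finset.filter_filter, Finset.sum_filter]
    refine Finset.sum_congr rfl fun x _ => ?_
    rw [cnt]
    split_ifs <;> simp
  | succ a ih =>
    rw [show a + 1 + b + 1 = (a + b + 1) + 1 by ring, cnt]
    simp only [ih]
    rw [Finset.sum_comm]
    refine Finset.sum_congr rfl fun x _ => ?_
    rw [cnt, Finset.sum_mul]

lemma cnt_succ' (R : α → α → Prop) (W : Finset α) (a : ℕ) (u v : α) :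
    cnt R W (a + 1) u v =
      ∑ x ∈ univ.filter (fun x => x ∉ W), cnt R W a u x * (if R x v then 1 else 0) := by
  have := cnt_comp R W a 0 u v
  rw [Nat.add_zero] at this
  rw [this]
  simp only [cnt]

lemma cnt_flip (R : α → α → Prop) (W : Finset α) (k : ℕ) (u v : α) :
    cnt (fun x y => R y x) W k u v = cnt R W k v u := by
  induction k generalizing u with
  | zero => simp [cnt]
  | succ k ih =>
    rw [cnt_succ' R, cnt, ← Finset.filter_filter, Finset.sum_filter]
    refine Finset.sum_congr rfl fun x _ => ?_
    rw [ih]
    split_ifs <;> simp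

/-- The walks themselves, as lists of inner vertices. -/
noncomputable def wl (R : α → α → Prop) (W : Finset α) : ℕ → α → α → Finset (List α)
  | 0, u, v => if R u v then {[]} else ∅
  | k + 1, u, v => (univ.filter (fun x => x ∉ W ∧ R u x)).biUnion
      (fun x => (wl R W k x v).image (fun l => x :: l))

lemma mem_wl (R : α → α → Prop) (W : Finset α) (k : ℕ) (u v : α) (l : List α) :
    l ∈ wl R W k u v ↔ l.length = k ∧ (∀ x ∈ l, x ∉ W) ∧ List.IsChain R (u :: (l ++ [v])) := by
  induction k generalizing u l with
  | zero =>
    unfold wl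
    constructor
    · intro h
      split_ifs at h with hR
      · rw [Finset.mem_singleton] at h
        subst h
        simp [hR]
      · simp at h
    · rintro ⟨h1, -, h3⟩
      rw [List.length_eq_zero_iff] at h1
      subst h1
      simp only [List.nil_append, List.isChain_cons_cons, List.isChain_singleton, and_true] at h3
      simp [h3]
  | succ k ih =>
    unfold wl
    rw [Finset.mem_biUnion]
    constructor
    · rintro ⟨x, hx, hl⟩
      rw [Finset.mem_filter] at hx
      rw [Finset.mem_image] at hl
      obtain ⟨l', hl', rfl⟩ := hl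
      obtain ⟨h1, h2, h3⟩ := (ih x l').1 hl'
      refine ⟨by simp [h1], ?_, ?_⟩
      · intro y hy
        rcases List.mem_cons.1 hy with rfl | hy
        · exact hx.2.1
        · exact h2 y hy
      · simp only [List.cons_append, List.isChain_cons_cons]
        exact ⟨hx.2.2, h3⟩
    · rintro ⟨h1, h2, h3⟩
      cases l with
      | nil => simp at h1
      | cons x l' =>
        simp only [List.cons_append, List.isChain_cons_cons] at h3
        refine ⟨x, ?_, ?_⟩
        · rw [Finset.mem_filter]
          exact ⟨Finset.mem_univ _, h2 x (by simp), h3.1⟩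
        · rw [Finset.mem_image]
          exact ⟨l', (ih x l').2 ⟨by simpa using h1, fun y hy => h2 y (by simp [hy]), h3.2⟩, rfl⟩

lemma card_wl (R : α → α → Prop) (W : Finset α) (k : ℕ) (u v : α) :
    (wl R W k u v).card = cnt R W k u v := by
  induction k generalizing u with
  | zero =>
    unfold wl cnt
    split_ifs <;> simp
  | succ k ih =>
    unfold wl cnt
    rw [Finset.card_biUnion]
    · refine Finset.sum_congr rfl fun x _ => ?_
      rw [Finset.card_image_of_injective _ (List.cons_injective), ih]
    · intro x _ y _ hxy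
      rw [Function.onFun, Finset.disjoint_left]
      intro l h1 h2
      rw [Finset.mem_image] at h1 h2
      obtain ⟨l1, _, rfl⟩ := h1
      obtain ⟨l2, _, h3⟩ := h2
      exact hxy (List.cons.inj h3).1.symm

/-- Open walks from `u` with `k` further vertices. -/
noncomputable def ol (R : α → α → Prop) : ℕ → α → Finset (List α)
  | 0, _ => {[]}
  | k + 1, u => (univ.filter (fun x => R u x)).biUnion
      (fun x => (ol R k x).image (fun l => x :: l))

lemma mem_ol (R : α → α → Prop) (k : ℕ) (u : α) (l : List α) :
    l ∈ ol R k u ↔ l.length = k ∧ List.IsChain R (u :: l) := by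
  induction k generalizing u l with
  | zero =>
    unfold ol
    rw [Finset.mem_singleton, List.length_eq_zero_iff]
    constructor
    · rintro rfl
      simp
    · exact fun h => h.1
  | succ k ih =>
    unfold ol
    rw [Finset.mem_biUnion]
    constructor
    · rintro ⟨x, hx, hl⟩
      rw [Finset.mem_filter] at hx
      rw [Finset.mem_image] at hl
      obtain ⟨l', hl', rfl⟩ := hl
      obtain ⟨h1, h3⟩ := (ih x l').1 hl'
      exact ⟨by simp [h1], by simp only [List.isChain_cons_cons]; exact ⟨hx.2, h3⟩⟩
    · rintro ⟨h1, h3⟩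
      cases l with
      | nil => simp at h1
      | cons x l' =>
        simp only [List.isChain_cons_cons] at h3
        refine ⟨x, by simp [h3.1], ?_⟩
        rw [Finset.mem_image]
        exact ⟨l', (ih x l').2 ⟨by simpa using h1, h3.2⟩, rfl⟩

lemma card_ol_le (R : α → α → Prop) (D : ℕ)
    (hD : ∀ x, (univ.filter (fun y => R x y)).card ≤ D) (k : ℕ) (u : α) :
    (ol R k u).card ≤ D ^ k := by
  induction k generalizing u with
  | zero => simp [ol]
  | succ k ih =>
    unfold ol
    refine Finset.card_biUnion_le.trans ?_
    calc ∑ x ∈ univ.filter (fun x => R u x), ((ol R k x).image (fun l => x :: l)).card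
        ≤ ∑ x ∈ univ.filter (fun x => R u x), D ^ k :=
          Finset.sum_le_sum fun x _ => Finset.card_image_le.trans (ih x)
      _ = (univ.filter (fun x => R u x)).card * D ^ k := by
          rw [Finset.sum_const, smul_eq_mul]
      _ ≤ D * D ^ k := Nat.mul_le_mul_right _ (hD u)
      _ = D ^ (k + 1) := by ring

lemma card_bad_le (R : α → α → Prop) (D : ℕ)
    (hD : ∀ x, (univ.filter (fun y => R x y)).card ≤ D) (k : ℕ) (u : α) (F : Finset α) :
    ((ol R k u).filter (fun l => (∃ x ∈ l, x ∈ F) ∨ ¬ l.Nodup)).card * D ≤
      k * (F.card + k) * D ^ k := by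
  induction k generalizing u F with
  | zero =>
    have : (ol R 0 u).filter (fun l => (∃ x ∈ l, x ∈ F) ∨ ¬ l.Nodup) = ∅ := by
      apply Finset.filter_eq_empty_iff.2
      intro l hl
      simp only [ol, Finset.mem_singleton] at hl
      subst hl
      simp
    rw [this]
    simp
  | succ k ih =>
    -- cover
    have hcov : (ol R (k + 1) u).filter (fun l => (∃ x ∈ l, x ∈ F) ∨ ¬ l.Nodup) ⊆
        (F.biUnion (fun x => (ol R k x).image (fun l => x :: l))) ∪
        ((univ.filter (fun x => R u x)).biUnion (fun x =>
          ((ol R k x).filter (fun l => (∃ y ∈ l, y ∈ insert x F) ∨ ¬ l.Nodup)).image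
            (fun l => x :: l))) := by
      intro l hl
      rw [Finset.mem_filter] at hl
      obtain ⟨hl1, hl2⟩ := hl
      unfold ol at hl1
      rw [Finset.mem_biUnion] at hl1
      obtain ⟨x, hx, hl1⟩ := hl1
      rw [Finset.mem_image] at hl1
      obtain ⟨l', hl', rfl⟩ := hl1
      by_cases hxF : x ∈ F
      · apply Finset.mem_union_left
        rw [Finset.mem_biUnion]
        exact ⟨x, hxF, Finset.mem_image_of_mem _ hl'⟩
      · apply Finset.mem_union_right
        rw [Finset.mem_biUnion]
        refine ⟨x, hx, Finset.mem_image_of_mem _ ?_⟩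
        rw [Finset.mem_filter]
        refine ⟨hl', ?_⟩
        rcases hl2 with ⟨y, hy, hyF⟩ | hnd
        · rcases List.mem_cons.1 hy with rfl | hy
          · exact absurd hyF hxF
          · exact Or.inl ⟨y, hy, Finset.mem_insert_of_mem hyF⟩
        · rw [List.nodup_cons, not_and_or, not_not] at hnd
          rcases hnd with h | h
          · exact Or.inl ⟨x, h, Finset.mem_insert_self _ _⟩
          · exact Or.inr h
    have h1 : (F.biUnion (fun x => (ol R k x).image (fun l => x :: l))).card ≤ F.card * D ^ k := by
      refine Finset.card_biUnion_le.trans ?_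
      calc ∑ x ∈ F, ((ol R k x).image (fun l => x :: l)).card ≤ ∑ x ∈ F, D ^ k :=
            Finset.sum_le_sum fun x _ => Finset.card_image_le.trans (card_ol_le R D hD k x)
        _ = F.card * D ^ k := by rw [Finset.sum_const, smul_eq_mul]
    have h2 : ((univ.filter (fun x => R u x)).biUnion (fun x =>
          ((ol R k x).filter (fun l => (∃ y ∈ l, y ∈ insert x F) ∨ ¬ l.Nodup)).image
            (fun l => x :: l))).card * D ≤ D * (k * (F.card + 1 + k) * D ^ k) := by
      refine (Nat.mul_le_mul_right D Finset.card_biUnion_le).trans ?_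
      rw [Finset.sum_mul]
      calc ∑ x ∈ univ.filter (fun x => R u x), (((ol R k x).filter (fun l => (∃ y ∈ l, y ∈ insert x F) ∨ ¬ l.Nodup)).image
            (fun l => x :: l)).card * D
          ≤ ∑ x ∈ univ.filter (fun x => R u x), k * (F.card + 1 + k) * D ^ k := by
            refine Finset.sum_le_sum fun x _ => ?_
            refine (Nat.mul_le_mul_right D Finset.card_image_le).trans ?_
            refine (ih x (insert x F)).trans ?_
            have := Finset.card_insert_le x F
            gcongr
        _ = (univ.filter (fun x => R u x)).card * (k * (F.card + 1 + k) * D ^ k) := by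
            rw [Finset.sum_const, smul_eq_mul]
        _ ≤ _ := Nat.mul_le_mul_right _ (hD u)
    calc ((ol R (k + 1) u).filter (fun l => (∃ x ∈ l, x ∈ F) ∨ ¬ l.Nodup)).card * D
        ≤ (F.card * D ^ k) * D + D * (k * (F.card + 1 + k) * D ^ k) := by
          refine (Nat.mul_le_mul_right D ((Finset.card_le_card hcov).trans (Finset.card_union_le _ _))).trans ?_
          rw [Nat.add_mul]
          exact Nat.add_le_add (Nat.mul_le_mul_right D h1) h2
      _ = (F.card + k * (F.card + 1 + k)) * D ^ (k + 1) := by ring
      _ ≤ ((k + 1) * (F.card + (k + 1))) * D ^ (k + 1) := by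
          gcongr
          nlinarith

/-- Closed walks from `u` to `u` whose vertices are distinct. -/
noncomputable def good (R : α → α → Prop) (W : Finset α) (k : ℕ) (u : α) : Finset (List α) :=
  (wl R W k u u).filter (fun l => (u :: l).Nodup)

lemma cnt_le_good (R : α → α → Prop) (W : Finset α) (D : ℕ)
    (hD : ∀ x, (univ.filter (fun y => R x y)).card ≤ D) (k : ℕ) (u : α) :
    cnt R W k u u * D ≤ (good R W k u).card * D + k * (1 + k) * D ^ k := by
  have hsub : (wl R W k u u).filter (fun l => ¬ (u :: l).Nodup) ⊆
      (ol R k u).filter (fun l => (∃ x ∈ l, x ∈ ({u} : Finset α)) ∨ ¬ l.Nodup) := by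
    intro l hl
    rw [Finset.mem_filter, mem_wl] at hl
    rw [Finset.mem_filter, mem_ol]
    obtain ⟨⟨h1, h2, h3⟩, h4⟩ := hl
    refine ⟨⟨h1, ?_⟩, ?_⟩
    · rw [← List.cons_append] at h3
      exact h3.left_of_append
    · rw [List.nodup_cons, not_and_or, not_not] at h4
      rcases h4 with h | h
      · exact Or.inl ⟨u, h, Finset.mem_singleton_self _⟩
      · exact Or.inr h
  have h1 := Finset.card_filter_add_card_filter_not (s := wl R W k u u) (fun l => (u :: l).Nodup)
  rw [card_wl] at h1
  rw [← h1, Nat.add_mul]
  refine Nat.add_le_add le_rfl ?_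
  have h2 := card_bad_le R D hD k u {u}
  rw [Finset.card_singleton] at h2
  exact (Nat.mul_le_mul_right D (Finset.card_le_card hsub)).trans h2

end Pool.Agent.PC.BlockH
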