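import Mathlib
import Pool.Agent.PC.Walk

set_option autoImplicit false

namespace Pool.Agent.PC.BlockH

open Finset Filter
open scoped Classical

variable {α : Type*} [Fintype α] [DecidableEq α]

lemma step (R : α → α → Prop) (W : Finset α) (k : ℕ) (u : α) (X : Finset α) (w : ℝ)
    (hw : 0 ≤ w) (hX : ∀ x ∈ X, x ∉ W) (hX2 : ∀ x ∈ X, w ≤ (cnt R W k u x : ℝ)) (th : ℝ) (x' : α)
    (h : th ≤ ((X.filter (fun x => R x x')).card : ℝ)) :
    w * th ≤ (cnt R W (k + 1) u x' : ℝ) := by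
  rw [cnt_succ']
  push_cast
  calc w * th ≤ w * ((X.filter (fun x => R x x')).card : ℝ) := by gcongr
    _ = ∑ x ∈ X.filter (fun x => R x x'), w := by
        rw [Finset.sum_const, nsmul_eq_mul, mul_comm]
    _ ≤ ∑ x ∈ X.filter (fun x => R x x'), (cnt R W k u x : ℝ) * (if R x x' then 1 else 0) := by
        refine Finset.sum_le_sum fun x hx => ?_
        rw [Finset.mem_filter] at hx
        rw [if_pos hx.2, mul_one]
        exact hX2 x hx.1
    _ ≤ _ := by
        refine Finset.sum_le_sum_of_subset_of_nonneg ?_ ?_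
        · intro x hx
          rw [Finset.mem_filter] at hx ⊢
          exact ⟨Finset.mem_univ _, hX x hx.1⟩
        · intro x _ _
          positivity

lemma phase1 (R : α → α → Prop) (W : Finset α) (u : α) (m κ cp L d E : ℝ) (hm : 0 < m)
    (hL : 1 ≤ L) (hd : 0 < d) (hκ : κ = (cp / 2) ^ 2) (hcp : 0 < cp) (hκ1 : κ ≤ 1)
    (h0 : m / L ≤ ((univ.filter (fun x => x ∉ W ∧ R u x)).card : ℝ))
    (hpop : ∀ X : Finset α, X.Nonempty → cp * Real.sqrt (X.card * m) - E ≤
      ((univ.filter (fun x' => x' ∉ W ∧ X.card * d / (8 * m) ≤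
        ((X.filter (fun x => R x x')).card : ℝ))).card : ℝ))
    (hE : E ≤ cp / 2 * Real.sqrt (κ / L * m * m)) (i : ℕ) :
    ∃ X : Finset α, (∀ x ∈ X, x ∉ W) ∧ κ * (1 / L) ^ ((1 / 2 : ℝ) ^ i) * m ≤ (X.card : ℝ) ∧
      ∀ x ∈ X, (κ * d / (8 * L)) ^ i ≤ (cnt R W i u x : ℝ) := by
  have hκ0 : 0 < κ := by rw [hκ]; positivity
  have hL0 : 0 < L := by linarith
  induction i with
  | zero =>
    refine ⟨univ.filter (fun x => x ∉ W ∧ R u x), fun x hx => (Finset.mem_filter.1 hx).2.1, ?_, ?_⟩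
    · rw [pow_zero, Real.rpow_one]
      refine le_trans ?_ h0
      calc κ * (1 / L) * m ≤ 1 * (1 / L) * m := by gcongr
        _ = m / L := by ring
    · intro x hx
      rw [Finset.mem_filter] at hx
      rw [pow_zero, cnt, if_pos hx.2.2]
      norm_num
  | succ i ih =>
    obtain ⟨X, hX1, hX2, hX3⟩ := ih
    have hpow : 1 / L ≤ (1 / L) ^ ((1 / 2 : ℝ) ^ i) := by
      have h1 : (1 / L) ^ (1 : ℝ) ≤ (1 / L) ^ ((1 / 2 : ℝ) ^ i) := by
        apply Real.rpow_le_rpow_of_exponent_ge (by positivity)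
        · rw [div_le_one hL0]; exact hL
        · exact pow_le_one₀ (by norm_num) (by norm_num)
      rwa [Real.rpow_one] at h1
    have hXL : κ / L * m ≤ (X.card : ℝ) := by
      refine le_trans ?_ hX2
      calc κ / L * m = κ * (1 / L) * m := by ring
        _ ≤ _ := by gcongr
    have hXpos : (0 : ℝ) < X.card := lt_of_lt_of_le (by positivity) hXL
    have hne : X.Nonempty := by
      rw [← Finset.card_pos]
      exact_mod_cast hXpos
    refine ⟨univ.filter (fun x' => x' ∉ W ∧ X.card * d / (8 * m) ≤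
        ((X.filter (fun x => R x x')).card : ℝ)), fun x hx => (Finset.mem_filter.1 hx).2.1, ?_, ?_⟩
    · refine le_trans ?_ (hpop X hne)
      have h1 : Real.sqrt (κ / L * m * m) ≤ Real.sqrt (X.card * m) := by
        apply Real.sqrt_le_sqrt
        gcongr
      have h2 : κ * (1 / L) ^ ((1 / 2 : ℝ) ^ (i + 1)) * m ≤ cp / 2 * Real.sqrt (X.card * m) := by
        have h3 : Real.sqrt (κ * (1 / L) ^ ((1 / 2 : ℝ) ^ i) * m * m) ≤ Real.sqrt (X.card * m) := by
          apply Real.sqrt_le_sqrt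
          gcongr
        have h4 : Real.sqrt (κ * (1 / L) ^ ((1 / 2 : ℝ) ^ i) * m * m) =
            cp / 2 * (1 / L) ^ ((1 / 2 : ℝ) ^ (i + 1)) * m := by
          have h5 : (1 / L) ^ ((1 / 2 : ℝ) ^ i) = ((1 / L) ^ ((1 / 2 : ℝ) ^ (i + 1))) ^ 2 := by
            rw [← Real.rpow_mul_natCast (by positivity)]
            congr 1
            rw [pow_succ]
            push_cast
            ring
          rw [h5, hκ]
          rw [show (cp / 2) ^ 2 * ((1 / L) ^ ((1 / 2 : ℝ) ^ (i + 1))) ^ 2 * m * m =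
            (cp / 2 * (1 / L) ^ ((1 / 2 : ℝ) ^ (i + 1)) * m) ^ 2 by ring]
          exact Real.sqrt_sq (by positivity)
        calc κ * (1 / L) ^ ((1 / 2 : ℝ) ^ (i + 1)) * m
            = cp / 2 * (cp / 2 * (1 / L) ^ ((1 / 2 : ℝ) ^ (i + 1)) * m) := by rw [hκ]; ring
          _ ≤ cp / 2 * Real.sqrt (X.card * m) := by
              rw [← h4]
              gcongr
      have h5 : cp / 2 * Real.sqrt (κ / L * m * m) ≤ cp / 2 * Real.sqrt (X.card * m) := by gcongr
      linarith
    · intro x hx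
      rw [Finset.mem_filter] at hx
      have h1 := step R W i u X ((κ * d / (8 * L)) ^ i) (by positivity) hX1 hX3 _ x hx.2.2
      refine le_trans ?_ h1
      rw [pow_succ]
      gcongr ?_ * ?_
      calc κ * d / (8 * L) = (κ / L * m) * d / (8 * m) := by field_simp
        _ ≤ X.card * d / (8 * m) := by gcongr

lemma phase2 (R : α → α → Prop) (W : Finset α) (u : α) (m c1 d ε s w : ℝ) (k : ℕ) (hm : 0 < m)
    (hc1 : 0 < c1) (hd : 0 < d) (hw : 0 ≤ w) (hε : 0 < ε) (hs : ε ≤ s) (hε2 : ε ≤ 1 - 2 * ε)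
    (hεm : 1 ≤ ε * m)
    (hexp : ∀ X : Finset α, ε * m ≤ (X.card : ℝ) → (X.card : ℝ) ≤ (1 - ε) * m →
      (X.card : ℝ) + c1 / 2 * m ≤ ((univ.filter (fun x' => x' ∉ W ∧ c1 * d ≤
        ((X.filter (fun x => R x x')).card : ℝ))).card : ℝ))
    (h0 : ∃ X : Finset α, (∀ x ∈ X, x ∉ W) ∧ s * m ≤ (X.card : ℝ) ∧
      ∀ x ∈ X, w ≤ (cnt R W k u x : ℝ)) (i : ℕ) :
    ∃ X : Finset α, (∀ x ∈ X, x ∉ W) ∧ min (s + i * (c1 / 2)) (1 - 2 * ε) * m ≤ (X.card : ℝ) ∧
      ∀ x ∈ X, w * (c1 * d) ^ i ≤ (cnt R W (k + i) u x : ℝ) := by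
  induction i with
  | zero =>
    obtain ⟨X, hX1, hX2, hX3⟩ := h0
    refine ⟨X, hX1, ?_, ?_⟩
    · refine le_trans ?_ hX2
      gcongr
      refine (min_le_left _ _).trans ?_
      simp
    · simpa using hX3
  | succ i ih =>
    obtain ⟨X, hX1, hX2, hX3⟩ := ih
    set t : ℝ := min (s + i * (c1 / 2)) (1 - 2 * ε) with ht
    have htε : ε ≤ t := by
      rw [ht]
      refine le_min ?_ hε2
      have : 0 ≤ (i : ℝ) * (c1 / 2) := by positivity
      linarith
    have hceil : ⌈t * m⌉₊ ≤ X.card := Nat.ceil_le.2 hX2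
    obtain ⟨X', hX', hcard⟩ := Finset.exists_subset_card_eq hceil
    have h1 : t * m ≤ (X'.card : ℝ) := by
      rw [hcard]
      exact Nat.le_ceil _
    have h2 : (X'.card : ℝ) ≤ (1 - ε) * m := by
      rw [hcard]
      have h3 := (Nat.ceil_lt_add_one (show 0 ≤ t * m by
        have : 0 ≤ t := by linarith
        positivity)).le
      have h4 : t * m ≤ (1 - 2 * ε) * m := by
        gcongr
        exact min_le_right _ _
      nlinarith
    have h3 : ε * m ≤ (X'.card : ℝ) := le_trans (by gcongr) h1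
    refine ⟨univ.filter (fun x' => x' ∉ W ∧ c1 * d ≤
        ((X'.filter (fun x => R x x')).card : ℝ)), fun x hx => (Finset.mem_filter.1 hx).2.1, ?_, ?_⟩
    · refine le_trans ?_ (hexp X' h3 h2)
      have h4 : min (s + ((i + 1 : ℕ) : ℝ) * (c1 / 2)) (1 - 2 * ε) ≤ t + c1 / 2 := by
        rcases le_total (s + i * (c1 / 2)) (1 - 2 * ε) with h | h
        · rw [ht, min_eq_left h]
          refine (min_le_left _ _).trans ?_
          push_cast
          linarith
        · rw [ht, min_eq_right h]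
          refine (min_le_right _ _).trans ?_
          linarith
      calc min (s + ((i + 1 : ℕ) : ℝ) * (c1 / 2)) (1 - 2 * ε) * m ≤ (t + c1 / 2) * m := by gcongr
        _ = t * m + c1 / 2 * m := by ring
        _ ≤ _ := by linarith
    · intro x hx
      rw [Finset.mem_filter] at hx
      have h5 := step R W (k + i) u X' (w * (c1 * d) ^ i) (by positivity)
        (fun x hx => hX1 x (hX' hx)) (fun x hx => hX3 x (hX' hx)) _ x hx.2.2
      calc w * (c1 * d) ^ (i + 1) = w * (c1 * d) ^ i * (c1 * d) := by ring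
        _ ≤ _ := h5

lemma closed (R : α → α → Prop) (W : Finset α) (u : α) (a b : ℕ) (X Y : Finset α) (wx wy : ℝ)
    (_hwx : 0 ≤ wx) (hwy : 0 ≤ wy) (hX : ∀ x ∈ X, x ∉ W) (hY : ∀ y ∈ Y, y ∉ W)
    (hX2 : ∀ x ∈ X, wx ≤ (cnt R W a u x : ℝ)) (hY2 : ∀ y ∈ Y, wy ≤ (cnt R W b y u : ℝ)) :
    wx * wy * ∑ y ∈ Y, ((X.filter (fun x => R x y)).card : ℝ) ≤
      (cnt R W (a + b + 2) u u : ℝ) := by
  rw [show a + b + 2 = a + (b + 1) + 1 by ring, cnt_comp]
  push_cast
  have hswap : ∑ y ∈ Y, ((X.filter (fun x => R x y)).card : ℝ) =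
      ∑ x ∈ X, ((Y.filter (fun y => R x y)).card : ℝ) := by
    simp only [Finset.card_filter]
    push_cast
    exact Finset.sum_comm
  rw [hswap, Finset.mul_sum]
  calc ∑ x ∈ X, wx * wy * ((Y.filter (fun y => R x y)).card : ℝ)
      ≤ ∑ x ∈ X, (cnt R W a u x : ℝ) * (cnt R W (b + 1) x u : ℝ) := by
        refine Finset.sum_le_sum fun x hx => ?_
        rw [mul_assoc]
        refine mul_le_mul (hX2 x hx) ?_ (by positivity) (by positivity)
        rw [cnt]
        push_cast
        calc wy * ((Y.filter (fun y => R x y)).card : ℝ) = ∑ y ∈ Y.filter (fun y => R x y), wy := by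
              rw [Finset.sum_const, nsmul_eq_mul, mul_comm]
          _ ≤ ∑ y ∈ Y.filter (fun y => R x y), (cnt R W b y u : ℝ) :=
              Finset.sum_le_sum fun y hy => hY2 y (Finset.mem_filter.1 hy).1
          _ ≤ _ := by
              refine Finset.sum_le_sum_of_subset_of_nonneg ?_ (fun _ _ _ => by positivity)
              intro y hy
              rw [Finset.mem_filter] at hy ⊢
              exact ⟨Finset.mem_univ _, hY y hy.1, hy.2⟩
    _ ≤ _ := by
        refine Finset.sum_le_sum_of_subset_of_nonneg ?_ (fun _ _ _ => by positivity)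
        intro x hx
        rw [Finset.mem_filter]
        exact ⟨Finset.mem_univ _, hX x hx⟩

end Pool.Agent.PC.BlockH
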