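import Mathlib
import Pool.Agent.PC.Growth
set_option autoImplicit false
namespace Pool.Agent.PC.BlockH
open Finset Filter
open scoped Classical

lemma numeric (κ : ℝ) (hκ : 0 < κ) (j2 : ℕ) : ∀ᶠ L : ℝ in atTop,
    L ^ 2 ≤ 2 ^ ⌈L ^ (1 / 4 : ℝ)⌉₊ ∧
    (Real.exp (L / 2) + (2 * ⌈L ^ (1 / 4 : ℝ)⌉₊ + j2 + 2 : ℝ) * (1 + (2 * ⌈L ^ (1 / 4 : ℝ)⌉₊ + j2 + 2 : ℝ))) *
      (16 / κ) * (16 * L / κ) ^ (2 * ⌈L ^ (1 / 4 : ℝ)⌉₊ + j2) ≤ Real.exp L := by
  have hx : Tendsto (fun L : ℝ => L ^ (1 / 4 : ℝ)) atTop atTop := tendsto_rpow_atTop (by norm_num)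
  have hj : Tendsto (fun L : ℝ => ⌈L ^ (1 / 4 : ℝ)⌉₊) atTop atTop :=
    tendsto_nat_ceil_atTop.comp hx
  have h1 : ∀ᶠ n : ℕ in atTop, ((n : ℝ) ^ 8) ≤ 2 ^ n := by
    have := (tendsto_pow_const_div_const_pow_of_one_lt 8 (r := (2 : ℝ)) (by norm_num)).eventually
      (Iic_mem_nhds (show (0 : ℝ) < 1 by norm_num))
    filter_upwards [this] with n hn
    have h2 : (0 : ℝ) < 2 ^ n := by positivity
    rw [div_le_one h2] at hn
    exact hn
  have h2 : ∀ᶠ L : ℝ in atTop, Real.log (16 * L / κ) ≤ L ^ (1 / 4 : ℝ) := by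
    have h3 := (isLittleO_log_rpow_atTop (r := 1 / 4) (by norm_num)).def (c := 1 / 2) (by norm_num)
    have h4 : ∀ᶠ L : ℝ in atTop, Real.log (16 / κ) ≤ 1 / 2 * L ^ (1 / 4 : ℝ) := by
      have := hx.eventually (eventually_ge_atTop (2 * Real.log (16 / κ)))
      filter_upwards [this] with L hL
      linarith
    filter_upwards [h3, h4, eventually_ge_atTop 1] with L h3 h4 hL
    have hL0 : 0 < L := by linarith
    rw [show 16 * L / κ = 16 / κ * L by ring, Real.log_mul (by positivity) hL0.ne']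
    rw [Real.norm_of_nonneg (Real.log_nonneg hL), Real.norm_of_nonneg (by positivity)] at h3
    linarith
  have h3 : ∀ᶠ L : ℝ in atTop, (3 * L ^ (1 / 4 : ℝ) + 2) * (1 + (3 * L ^ (1 / 4 : ℝ) + 2)) ≤ Real.exp (L / 2) := by
    have h5 : ∀ᶠ x : ℝ in atTop, (3 * x + 2) * (1 + (3 * x + 2)) ≤ x ^ 3 := by
      filter_upwards [eventually_ge_atTop 20] with x hx
      nlinarith [mul_nonneg (show (0:ℝ) ≤ x by linarith) (show (0:ℝ) ≤ x - 20 by linarith), mul_nonneg (mul_nonneg (show (0:ℝ) ≤ x by linarith) (show (0:ℝ) ≤ x by linarith)) (show (0:ℝ) ≤ x - 20 by linarith)]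
    filter_upwards [hx.eventually h5, eventually_ge_atTop 1,
      (Real.tendsto_exp_div_pow_atTop 1).eventually (eventually_ge_atTop 1),
      (tendsto_id.atTop_div_const (show (0:ℝ) < 2 by norm_num)).eventually
        ((Real.tendsto_exp_div_pow_atTop 1).eventually (eventually_ge_atTop 2))] with L h5 hL _ h6
    refine h5.trans ?_
    have hL0 : 0 ≤ L := by linarith
    have h7 : (L ^ (1 / 4 : ℝ)) ^ 3 ≤ L := by
      rw [← Real.rpow_mul_natCast hL0]
      calc L ^ ((1 / 4 : ℝ) * (3 : ℕ)) ≤ L ^ (1 : ℝ) := Real.rpow_le_rpow_of_exponent_le hL (by norm_num)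
        _ = L := Real.rpow_one L
    refine h7.trans ?_
    simp only [id, pow_one] at h6
    rw [le_div_iff₀ (by positivity)] at h6
    linarith
  have h4 : ∀ᶠ L : ℝ in atTop, 3 * (L ^ (1 / 4 : ℝ) * L ^ (1 / 4 : ℝ)) ≤ L / 4 := by
    filter_upwards [hx.eventually (eventually_ge_atTop 12), eventually_ge_atTop 1] with L hL hL1
    have hL0 : 0 < L := by linarith
    have h5 : L = (L ^ (1 / 4 : ℝ)) ^ 4 := by
      rw [← Real.rpow_mul_natCast hL0.le]
      norm_num
    set x := L ^ (1 / 4 : ℝ) with hxdef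
    rw [h5]
    have hx0 : (0:ℝ) ≤ x := by linarith
    nlinarith [mul_nonneg hx0 hx0, mul_nonneg (mul_nonneg hx0 hx0) (show (0:ℝ) ≤ x - 12 by linarith), mul_nonneg (mul_nonneg (mul_nonneg hx0 hx0) hx0) (show (0:ℝ) ≤ x - 12 by linarith)]
  have h5 : ∀ᶠ L : ℝ in atTop, 32 / κ ≤ Real.exp (L / 4) := by
    have : Tendsto (fun L : ℝ => Real.exp (L / 4)) atTop atTop :=
      Real.tendsto_exp_atTop.comp (tendsto_id.atTop_div_const (by norm_num))
    exact this.eventually (eventually_ge_atTop _)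
  filter_upwards [hj.eventually h1, h2, h3, h4, h5, hx.eventually (eventually_ge_atTop (j2 + 2 : ℝ)),
    eventually_ge_atTop 1, eventually_ge_atTop κ] with L h1 h2 h3 h4 h5 h6 hL hLκ
  have hL0 : 0 < L := by linarith
  set x := L ^ (1 / 4 : ℝ) with hxdef
  have hx0 : 0 < x := by positivity
  have hx4 : x ^ 4 = L := by
    rw [hxdef, ← Real.rpow_mul_natCast hL0.le]
    norm_num
  set j1 := ⌈x⌉₊ with hj1
  have hj1x : x ≤ j1 := Nat.le_ceil x
  have hj1x' : (j1 : ℝ) ≤ x + 1 := (Nat.ceil_lt_add_one hx0.le).le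
  refine ⟨?_, ?_⟩
  · refine le_trans ?_ h1
    calc L ^ 2 = x ^ 8 := by rw [← hx4]; ring
      _ ≤ (j1 : ℝ) ^ 8 := by gcongr
  · have hN : (2 * j1 + j2 : ℝ) ≤ 3 * x := by linarith
    have h16 : 1 ≤ 16 * L / κ := by
      rw [le_div_iff₀ hκ]
      linarith
    have hpow : (16 * L / κ) ^ (2 * j1 + j2) ≤ Real.exp (L / 4) := by
      rw [← Real.rpow_natCast, Real.rpow_def_of_pos (by positivity)]
      apply Real.exp_le_exp.2
      push_cast
      calc Real.log (16 * L / κ) * (2 * j1 + j2) ≤ x * (3 * x) := by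
            apply mul_le_mul h2 hN (by positivity) hx0.le
        _ = 3 * (x * x) := by ring
        _ ≤ _ := h4
    have hj : (2 * j1 + j2 + 2 : ℝ) ≤ 3 * x + 2 := by linarith
    calc (Real.exp (L / 2) + (2 * j1 + j2 + 2 : ℝ) * (1 + (2 * j1 + j2 + 2 : ℝ))) *
          (16 / κ) * (16 * L / κ) ^ (2 * j1 + j2)
        ≤ (Real.exp (L / 2) + (3 * x + 2) * (1 + (3 * x + 2))) * (16 / κ) * Real.exp (L / 4) := by
          gcongr
      _ ≤ (Real.exp (L / 2) + Real.exp (L / 2)) * (16 / κ) * Real.exp (L / 4) := by gcongr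
      _ = Real.exp (L / 2) * (32 / κ) * Real.exp (L / 4) := by ring
      _ ≤ Real.exp (L / 2) * Real.exp (L / 4) * Real.exp (L / 4) := by gcongr
      _ = Real.exp L := by
          rw [← Real.exp_add, ← Real.exp_add]
          congr 1
          ring


/-- Transfer of counting from `range m` to a subtype. -/
lemma card_transfer {S : Finset ℕ} (φ : S → ℕ) (V : Finset ℕ) (W : Finset S) (m : ℕ)
    (hφ : ∀ j ∈ range m, j ∉ V → ∃ y, φ y = j) (P : ℕ → Prop) :
    ((range m).filter P).card ≤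
      (univ.filter (fun y => y ∉ W ∧ P (φ y))).card + V.card + W.card := by
  have hsub : (range m).filter P ⊆
      ((univ.filter (fun y => y ∉ W ∧ P (φ y))).image φ ∪ V) ∪ W.image φ := by
    intro j hj
    rw [Finset.mem_filter] at hj
    by_cases hV : j ∈ V
    · exact Finset.mem_union_left _ (Finset.mem_union_right _ hV)
    obtain ⟨y, rfl⟩ := hφ j hj.1 hV
    by_cases hW : y ∈ W
    · exact Finset.mem_union_right _ (Finset.mem_image_of_mem _ hW)
    · refine Finset.mem_union_left _ (Finset.mem_union_left _ (Finset.mem_image_of_mem _ ?_))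
      rw [Finset.mem_filter]
      exact ⟨Finset.mem_univ _, hW, hj.2⟩
  calc ((range m).filter P).card ≤ _ := Finset.card_le_card hsub
    _ ≤ _ := Finset.card_union_le _ _
    _ ≤ _ := by
        gcongr
        · refine (Finset.card_union_le _ _).trans ?_
          gcongr
          exact Finset.card_image_le
        · exact Finset.card_image_le

lemma card_filter_map {S : Finset ℕ} (A : ℕ → ℕ → Prop) (φ : S → ℕ) (hφ : Function.Injective φ)
    (X : Finset S) (j : ℕ) :
    (X.filter (fun x => A (φ x) j)).card = dX A (X.map ⟨φ, hφ⟩) j := by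
  unfold dX
  rw [Finset.filter_map, Finset.card_map]
  rfl

/-- The digraph of a bijection. -/
def RR (A : ℕ → ℕ → Prop) {S T : Finset ℕ} (e : S ≃ T) (x y : S) : Prop := A x (e y)

section

variable {A : ℕ → ℕ → Prop} (h : PG A) {m : ℕ} {U V : Finset ℕ}
  (e : (range m \ U : Finset ℕ) ≃ (range m \ V : Finset ℕ))

lemma surj1 : ∀ j ∈ range m, j ∉ U → ∃ y : (range m \ U : Finset ℕ), (y : ℕ) = j := by
  intro j hj hU
  exact ⟨⟨j, Finset.mem_sdiff.2 ⟨hj, hU⟩⟩, rfl⟩

lemma surj2 : ∀ j ∈ range m, j ∉ V → ∃ y : (range m \ U : Finset ℕ), (e y : ℕ) = j := by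
  intro j hj hV
  refine ⟨e.symm ⟨j, Finset.mem_sdiff.2 ⟨hj, hV⟩⟩, ?_⟩
  rw [Equiv.apply_symm_apply]

lemma inj2 : Function.Injective (fun y : (range m \ U : Finset ℕ) => (e y : ℕ)) := by
  intro a b hab
  exact e.injective (Subtype.ext hab)

lemma out_le (x : (range m \ U : Finset ℕ)) :
    (univ.filter (fun y => RR A e x y)).card ≤ ((range m).filter (fun j => A x j)).card := by
  have : ((univ.filter (fun y => RR A e x y)).map ⟨_, inj2 e⟩) ⊆ (range m).filter (fun j => A x j) := by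
    intro j hj
    rw [Finset.mem_map] at hj
    obtain ⟨y, hy, rfl⟩ := hj
    rw [Finset.mem_filter] at hy ⊢
    exact ⟨(Finset.mem_sdiff.1 (e y).2).1, hy.2⟩
  rw [← Finset.card_map ⟨_, inj2 e⟩]
  exact Finset.card_le_card this

lemma map_sub1 (X : Finset (range m \ U : Finset ℕ)) :
    X.map ⟨_, Subtype.val_injective⟩ ⊆ range m := by
  intro j hj
  rw [Finset.mem_map] at hj
  obtain ⟨y, _, rfl⟩ := hj
  exact (Finset.mem_sdiff.1 y.2).1

lemma map_sub2 (X : Finset (range m \ U : Finset ℕ)) :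
    X.map ⟨_, inj2 e⟩ ⊆ range m := by
  intro j hj
  rw [Finset.mem_map] at hj
  obtain ⟨y, _, rfl⟩ := hj
  exact (Finset.mem_sdiff.1 (e y).2).1

include h in
/-- Arcs between two sets. -/
lemma arcs (d : ℝ) (hdeg : ∀ i < m, 3 / 4 * d ≤ (dX A (range m) i : ℝ) ∧
    (dX A (range m) i : ℝ) ≤ 5 / 4 * d) (X Y : Finset (range m \ U : Finset ℕ)) :
    3 / 4 * d * Y.card - (m - X.card) * (5 / 4 * d) ≤
      ∑ y ∈ Y, ((X.filter (fun x => RR A e x y)).card : ℝ) := by
  set X' : Finset ℕ := X.map ⟨_, Subtype.val_injective⟩ with hX'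
  have hX's : X' ⊆ range m := map_sub1 X
  have h1 : ∀ y, (X.filter (fun x => RR A e x y)).card = dX A X' (e y) := by
    intro y
    exact card_filter_map A _ Subtype.val_injective X (e y)
  have h2 : ∀ j, (dX A (range m) j : ℝ) = dX A X' j + dX A (range m \ X') j := by
    intro j
    unfold dX
    rw [← Nat.cast_add, ← Finset.card_union_of_disjoint, ← Finset.filter_union,
      Finset.union_sdiff_of_subset hX's]
    exact Finset.disjoint_filter_filter Finset.disjoint_sdiff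
  have h3 : ∑ y ∈ Y, (dX A (range m \ X') (e y) : ℝ) ≤ (m - X.card) * (5 / 4 * d) := by
    have h4 : ∑ y ∈ Y, (dX A (range m \ X') (e y) : ℝ) =
        ∑ j ∈ Y.map ⟨_, inj2 e⟩, (dX A (range m \ X') j : ℝ) := by
      rw [Finset.sum_map]
      rfl
    rw [h4]
    calc ∑ j ∈ Y.map ⟨_, inj2 e⟩, (dX A (range m \ X') j : ℝ)
        ≤ ∑ j ∈ range m, (dX A (range m \ X') j : ℝ) :=
          Finset.sum_le_sum_of_subset_of_nonneg (map_sub2 e Y) (fun _ _ _ => by positivity)
      _ = ∑ i ∈ range m \ X', (dX A (range m) i : ℝ) := by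
          exact_mod_cast sum_dX_range h (range m \ X') (range m)
      _ ≤ ∑ i ∈ range m \ X', 5 / 4 * d := by
          refine Finset.sum_le_sum fun i hi => ?_
          exact (hdeg i (Finset.mem_range.1 (Finset.mem_sdiff.1 hi).1)).2
      _ = (m - X.card) * (5 / 4 * d) := by
          rw [Finset.sum_const, nsmul_eq_mul]
          congr 1
          have h5 := Finset.card_sdiff_add_card_eq_card hX's
          rw [Finset.card_range, hX', Finset.card_map] at h5
          rw [← hX'] at h5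
          have : (((range m \ X').card : ℝ) + X.card) = m := by exact_mod_cast h5
          linarith
  have h6 : 3 / 4 * d * Y.card ≤ ∑ y ∈ Y, (dX A (range m) (e y) : ℝ) := by
    calc 3 / 4 * d * Y.card = ∑ y ∈ Y, 3 / 4 * d := by
          rw [Finset.sum_const, nsmul_eq_mul, mul_comm]
      _ ≤ _ := Finset.sum_le_sum fun y _ =>
          (hdeg _ (Finset.mem_range.1 (Finset.mem_sdiff.1 (e y).2).1)).1
  have h7 : ∑ y ∈ Y, (dX A (range m) (e y) : ℝ) =
      ∑ y ∈ Y, ((X.filter (fun x => RR A e x y)).card : ℝ) +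
      ∑ y ∈ Y, (dX A (range m \ X') (e y) : ℝ) := by
    rw [← Finset.sum_add_distrib]
    refine Finset.sum_congr rfl fun y _ => ?_
    rw [h1, h2]
  linarith

end


lemma small_bounds {m : ℕ} {U V : Finset ℕ} (hS : Small m U V) (W : Finset (range m \ U : Finset ℕ))
    (hm : 1 ≤ m) (hW : (W.card : ℝ) ≤ (m : ℝ) ^ (0.3 : ℝ)) :
    (U.card : ℝ) + W.card ≤ 2 * (m : ℝ) ^ (0.9 : ℝ) ∧ (V.card : ℝ) + W.card ≤ 2 * (m : ℝ) ^ (0.9 : ℝ) := by
  obtain ⟨-, -, h1, h2⟩ := hS
  have h3 : (m : ℝ) ^ (0.3 : ℝ) ≤ (m : ℝ) ^ (0.9 : ℝ) :=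
    Real.rpow_le_rpow_of_exponent_le (by exact_mod_cast hm) (by norm_num)
  refine ⟨by linarith, ?_⟩
  rw [← h1]
  linarith

lemma half_le {L : ℝ} (hL : 2 ≤ L) (j : ℕ) (hj : L ^ 2 ≤ 2 ^ j) :
    1 / 2 ≤ (1 / L) ^ ((1 / 2 : ℝ) ^ j) := by
  have hL0 : 0 < L := by linarith
  have h1 : (1 / 2 : ℝ) ^ j ≤ 1 / L ^ 2 := by
    rw [one_div_pow]
    exact one_div_le_one_div_of_le (by positivity) hj
  have h2 : (1 / L) ^ (1 / L ^ 2) ≤ (1 / L) ^ ((1 / 2 : ℝ) ^ j) := by
    apply Real.rpow_le_rpow_of_exponent_ge (by positivity) _ h1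
    rw [div_le_one hL0]
    linarith
  refine le_trans ?_ h2
  rw [Real.rpow_def_of_pos (by positivity)]
  have h3 : -(1 / L) ≤ Real.log (1 / L) * (1 / L ^ 2) := by
    rw [one_div, Real.log_inv]
    have h4 : Real.log L ≤ L := (Real.log_le_sub_one_of_pos hL0).trans (by linarith)
    have h5 : Real.log L * (1 / L ^ 2) ≤ L * (1 / L ^ 2) := by gcongr
    have h6 : L * (1 / L ^ 2) = L⁻¹ := by field_simp
    linarith
  have h7 : 1 - 1 / L ≤ Real.exp (-(1 / L)) := by
    have := Real.add_one_le_exp (-(1 / L))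
    linarith
  have h8 : 1 / L ≤ 1 / 2 := one_div_le_one_div_of_le (by norm_num) hL
  have h9 := Real.exp_le_exp.2 h3
  linarith


section transfer

variable {A : ℕ → ℕ → Prop} (h : PG A) {m : ℕ} {U V : Finset ℕ}
  (e : (range m \ U : Finset ℕ) ≃ (range m \ V : Finset ℕ)) (W : Finset (range m \ U : Finset ℕ))

include h in
lemma fwd0 (E d : ℝ) (hsV : (V.card : ℝ) + W.card ≤ E) (hE2 : E ≤ d / 4)
    (u : (range m \ U : Finset ℕ)) (hd : 3 / 4 * d ≤ (dX A (range m) u : ℝ)) :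
    d / 2 ≤ ((univ.filter (fun x => x ∉ W ∧ RR A e u x)).card : ℝ) := by
  have h1 := card_transfer (fun y => (e y : ℕ)) V W m (surj2 e) (fun j => A u j)
  rw [← dX_eq h] at h1
  have h2 : (dX A (range m) u : ℝ) ≤
      ((univ.filter (fun y => y ∉ W ∧ RR A e u y)).card : ℝ) + V.card + W.card := by
    exact_mod_cast h1
  linarith

lemma bwd0 (E d : ℝ) (hsU : (U.card : ℝ) + W.card ≤ E) (hE2 : E ≤ d / 4)
    (u : (range m \ U : Finset ℕ)) (hd : 3 / 4 * d ≤ (dX A (range m) (e u) : ℝ)) :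
    d / 2 ≤ ((univ.filter (fun x => x ∉ W ∧ (fun a b => RR A e b a) u x)).card : ℝ) := by
  have h1 := card_transfer (fun y : (range m \ U : Finset ℕ) => (y : ℕ)) U W m surj1
    (fun j => A j (e u))
  have h2 : (dX A (range m) (e u) : ℝ) ≤
      ((univ.filter (fun x => x ∉ W ∧ (fun a b => RR A e b a) u x)).card : ℝ) + U.card + W.card := by
    exact_mod_cast h1
  linarith

lemma ftrans (E th : ℝ) (hsV : (V.card : ℝ) + W.card ≤ E) (X : Finset (range m \ U : Finset ℕ)) :
    (((range m).filter (fun j => th ≤ (dX A (X.map ⟨_, Subtype.val_injective⟩) j : ℝ))).card : ℝ) - E ≤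
      ((univ.filter (fun x' => x' ∉ W ∧ th ≤
        ((X.filter (fun x => RR A e x x')).card : ℝ))).card : ℝ) := by
  have h1 := card_transfer (fun y => (e y : ℕ)) V W m (surj2 e)
    (fun j => th ≤ (dX A (X.map ⟨_, Subtype.val_injective⟩) j : ℝ))
  have h4 : (univ.filter (fun x' => x' ∉ W ∧ th ≤
        ((X.filter (fun x => RR A e x x')).card : ℝ))) =
        (univ.filter (fun y => y ∉ W ∧ th ≤
          (dX A (X.map ⟨_, Subtype.val_injective⟩) (e y) : ℝ))) := by
    apply Finset.filter_congr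
    intro y _
    rw [← card_filter_map A _ Subtype.val_injective X (e y)]
    rfl
  rw [h4]
  have h3 : ((((range m).filter (fun j => th ≤
        (dX A (X.map ⟨_, Subtype.val_injective⟩) j : ℝ))).card : ℕ) : ℝ) ≤
        ((univ.filter (fun y => y ∉ W ∧ th ≤
          (dX A (X.map ⟨_, Subtype.val_injective⟩) (e y) : ℝ))).card : ℝ) + V.card + W.card := by
    exact_mod_cast h1
  linarith

include h in
lemma btrans (E th : ℝ) (hsU : (U.card : ℝ) + W.card ≤ E) (X : Finset (range m \ U : Finset ℕ)) :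
    (((range m).filter (fun j => th ≤ (dX A (X.map ⟨_, inj2 e⟩) j : ℝ))).card : ℝ) - E ≤
      ((univ.filter (fun x' => x' ∉ W ∧ th ≤
        ((X.filter (fun x => (fun a b => RR A e b a) x x')).card : ℝ))).card : ℝ) := by
  have h1 := card_transfer (fun y : (range m \ U : Finset ℕ) => (y : ℕ)) U W m surj1
    (fun j => th ≤ (dX A (X.map ⟨_, inj2 e⟩) j : ℝ))
  have h4 : (univ.filter (fun x' => x' ∉ W ∧ th ≤
        ((X.filter (fun x => (fun a b => RR A e b a) x x')).card : ℝ))) =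
        (univ.filter (fun y : (range m \ U : Finset ℕ) => y ∉ W ∧ th ≤
          (dX A (X.map ⟨_, inj2 e⟩) y : ℝ))) := by
    apply Finset.filter_congr
    intro y _
    rw [← card_filter_map A _ (inj2 e) X y]
    have h5 : (X.filter (fun x => (fun a b => RR A e b a) x y)) =
        X.filter (fun x => A (e x : ℕ) y) := by
      apply Finset.filter_congr
      intro x _
      exact ⟨fun h6 => h.symm _ _ h6, fun h6 => h.symm _ _ h6⟩
    rw [h5]
  rw [h4]
  have h3 : ((((range m).filter (fun j => th ≤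
        (dX A (X.map ⟨_, inj2 e⟩) j : ℝ))).card : ℕ) : ℝ) ≤
        ((univ.filter (fun y : (range m \ U : Finset ℕ) => y ∉ W ∧ th ≤
          (dX A (X.map ⟨_, inj2 e⟩) y : ℝ))).card : ℝ) + U.card + W.card := by
    exact_mod_cast h1
  linarith

end transfer

end Pool.Agent.PC.BlockH
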