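import Mathlib
import Pool.Agent.PC.WalkLower

set_option autoImplicit false

namespace Pool.Agent.PC.BlockH

open Finset Filter
open scoped Classical

section core

variable {A : ℕ → ℕ → Prop} (h : PG A) {m : ℕ} {U V : Finset ℕ}
  (e : (range m \ U : Finset ℕ) ≃ (range m \ V : Finset ℕ)) (W : Finset (range m \ U : Finset ℕ))
  (u : (range m \ U : Finset ℕ))

include h in
lemma core_cnt (κ cp L d E c1 : ℝ) (j1 j2 : ℕ) (hm0 : (0 : ℝ) < m) (hd : 0 < d)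
    (hκdef : κ = (cp / 2) ^ 2) (hcp : 0 < cp) (hκ1 : κ ≤ 1) (hc1 : 0 < c1)
    (hj2 : 2 / c1 ≤ (j2 : ℝ)) (hL2 : 2 ≤ L) (hLc : κ / (8 * c1) ≤ L) (hdL : d / 2 = m / L)
    (hpop : ∀ X ⊆ range m, X.Nonempty → cp * Real.sqrt (X.card * m) ≤
      (((range m).filter (fun j => X.card * d / (8 * m) ≤ (dX A X j : ℝ))).card : ℝ))
    (hdeg : ∀ i < m, 3 / 4 * d ≤ (dX A (range m) i : ℝ) ∧ (dX A (range m) i : ℝ) ≤ 5 / 4 * d)
    (hexp : ∀ X ⊆ range m, κ / 64 * m ≤ (X.card : ℝ) → (X.card : ℝ) ≤ (1 - κ / 64) * m →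
      (X.card : ℝ) + c1 * m ≤
        (((range m).filter (fun j => c1 * d ≤ (dX A X j : ℝ))).card : ℝ))
    (hE2 : E ≤ d / 4) (hE3 : E ≤ c1 / 2 * m) (hEsq : E ≤ cp / 2 * Real.sqrt (κ / L * m * m))
    (hbig : 1 ≤ κ / 64 * m) (hj1 : L ^ 2 ≤ 2 ^ j1)
    (hsU : (U.card : ℝ) + W.card ≤ E) (hsV : (V.card : ℝ) + W.card ≤ E) :
    (κ * d / (8 * L)) ^ (2 * j1 + j2) * (κ / 8 * m * d) ≤
      (cnt (RR A e) W (2 * j1 + j2 + 1 + 1) u u : ℝ) := by
  have hκ : 0 < κ := by rw [hκdef]; positivity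
  have hL0 : 0 < L := by linarith
  have hu : (u : ℕ) < m := Finset.mem_range.1 (Finset.mem_sdiff.1 u.2).1
  have heu : (e u : ℕ) < m := Finset.mem_range.1 (Finset.mem_sdiff.1 (e u).2).1
  have hf0 := fwd0 h e W E d hsV hE2 u (hdeg u hu).1
  have hb0 := bwd0 e W E d hsU hE2 u (hdeg (e u) heu).1
  rw [hdL] at hf0 hb0
  have hfpop : ∀ X : Finset (range m \ U : Finset ℕ), X.Nonempty →
      cp * Real.sqrt (X.card * m) - E ≤
      ((univ.filter (fun x' => x' ∉ W ∧ X.card * d / (8 * m) ≤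
        ((X.filter (fun x => RR A e x x')).card : ℝ))).card : ℝ) := by
    intro X hX
    have h1 := hpop (X.map ⟨_, Subtype.val_injective⟩) (map_sub1 X) (hX.map)
    rw [Finset.card_map] at h1
    have h2 := ftrans e W (A := A) E (X.card * d / (8 * m)) hsV X
    linarith
  have hbpop : ∀ X : Finset (range m \ U : Finset ℕ), X.Nonempty →
      cp * Real.sqrt (X.card * m) - E ≤
      ((univ.filter (fun x' => x' ∉ W ∧ X.card * d / (8 * m) ≤
        ((X.filter (fun x => (fun a b => RR A e b a) x x')).card : ℝ))).card : ℝ) := by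
    intro X hX
    have h1 := hpop (X.map ⟨_, inj2 e⟩) (map_sub2 e X) (hX.map)
    rw [Finset.card_map] at h1
    have h2 := btrans h e W E (X.card * d / (8 * m)) hsU X
    linarith
  have hexp' : ∀ X : Finset (range m \ U : Finset ℕ), κ / 64 * m ≤ (X.card : ℝ) →
      (X.card : ℝ) ≤ (1 - κ / 64) * m →
      (X.card : ℝ) + c1 / 2 * m ≤ ((univ.filter (fun x' => x' ∉ W ∧ c1 * d ≤
        ((X.filter (fun x => RR A e x x')).card : ℝ))).card : ℝ) := by
    intro X hX1 hX2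
    have h1 := hexp (X.map ⟨_, Subtype.val_injective⟩) (map_sub1 X)
      (by rw [Finset.card_map]; exact hX1) (by rw [Finset.card_map]; exact hX2)
    rw [Finset.card_map] at h1
    have h2 := ftrans e W (A := A) E (c1 * d) hsV X
    linarith
  have hphase1 := phase1 (RR A e) W u m κ cp L d E hm0 (by linarith) hd hκdef hcp hκ1 hf0 hfpop
    hEsq j1
  have hphaseb := phase1 (fun a b => RR A e b a) W u m κ cp L d E hm0 (by linarith) hd hκdef hcp hκ1
    hb0 hbpop hEsq j1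
  have hhalf := half_le hL2 j1 hj1
  obtain ⟨X0, hX01, hX02, hX03⟩ := hphase1
  have hX02' : κ / 2 * m ≤ (X0.card : ℝ) := by
    refine le_trans ?_ hX02
    calc κ / 2 * m = κ * (1 / 2) * m := by ring
      _ ≤ _ := by gcongr
  have hph2 := phase2 (RR A e) W u m c1 d (κ / 64) (κ / 2) ((κ * d / (8 * L)) ^ j1) j1 hm0 hc1 hd
    (by positivity) (by positivity) (by linarith) (by linarith) hbig hexp' ⟨X0, hX01, hX02', hX03⟩ j2
  obtain ⟨X, hX1, hX2, hX3⟩ := hph2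
  obtain ⟨Y, hY1, hY2, hY3⟩ := hphaseb
  have hX2' : (1 - κ / 32) * m ≤ (X.card : ℝ) := by
    refine le_trans ?_ hX2
    have h1 : 1 ≤ (j2 : ℝ) * (c1 / 2) := by
      rw [div_le_iff₀ hc1] at hj2
      linarith
    rw [min_eq_right (by linarith)]
    apply le_of_eq
    ring
  have hY2' : κ / 2 * m ≤ (Y.card : ℝ) := by
    refine le_trans ?_ hY2
    calc κ / 2 * m = κ * (1 / 2) * m := by ring
      _ ≤ _ := by gcongr
  have hY3' : ∀ y ∈ Y, (κ * d / (8 * L)) ^ j1 ≤ (cnt (RR A e) W j1 y u : ℝ) := by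
    intro y hy
    have := hY3 y hy
    rwa [cnt_flip] at this
  have hcl := closed (RR A e) W u (j1 + j2) j1 X Y _ _ (by positivity) (by positivity) hX1 hY1 hX3 hY3'
  have harcs := arcs h e d hdeg X Y
  have harcs' : κ / 8 * m * d ≤ ∑ y ∈ Y, ((X.filter (fun x => RR A e x y)).card : ℝ) := by
    refine le_trans ?_ harcs
    have h1 : 3 / 4 * d * (κ / 2 * m) ≤ 3 / 4 * d * Y.card := by gcongr
    have h2 : (m - X.card) * (5 / 4 * d) ≤ (κ / 32 * m) * (5 / 4 * d) := by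
      gcongr
      linarith
    have h3 : 0 < κ * m * d := by positivity
    linarith
  obtain ⟨q, hq⟩ : ∃ q : ℝ, q = κ * d / (8 * L) := ⟨_, rfl⟩
  have hq0 : 0 < q := by rw [hq]; positivity
  have hqc : q ≤ c1 * d := by
    rw [hq]
    rw [div_le_iff₀ (by positivity)] at hLc
    rw [div_le_iff₀ (by positivity)]
    nlinarith
  rw [← hq] at hcl ⊢
  have hN : (j1 + j2 + j1 + 2) = (2 * j1 + j2 + 1) + 1 := by ring
  rw [hN] at hcl
  refine le_trans ?_ hcl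
  calc q ^ (2 * j1 + j2) * (κ / 8 * m * d) = q ^ j1 * q ^ j2 * q ^ j1 * (κ / 8 * m * d) := by ring
    _ ≤ q ^ j1 * (c1 * d) ^ j2 * q ^ j1 * (κ / 8 * m * d) := by gcongr
    _ ≤ _ := by gcongr

include h in
lemma core_good (κ L d P N : ℝ) (n : ℕ) (_hm0 : (0 : ℝ) < m) (hd : 0 < d) (hκ : 0 < κ) (hL0 : 0 < L)
    (hdeg : ∀ i < m, (dX A (range m) i : ℝ) ≤ 5 / 4 * d)
    (hNn : N = n + 2) (hP : 0 ≤ P)
    (hnum : (P + N * (1 + N)) * (16 / κ) * (16 * L / κ) ^ n ≤ m)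
    (hcnt : (κ * d / (8 * L)) ^ n * (κ / 8 * m * d) ≤
      (cnt (RR A e) W (n + 1 + 1) u u : ℝ)) :
    P * ((⌊2 * d⌋₊ : ℕ) : ℝ) ^ (n + 1) ≤ ((good (RR A e) W (n + 1 + 1) u).card : ℝ) := by
  obtain ⟨q, hq⟩ : ∃ q : ℝ, q = κ * d / (8 * L) := ⟨_, rfl⟩
  have hq0 : 0 < q := by rw [hq]; positivity
  obtain ⟨D, hD⟩ : ∃ D : ℕ, D = ⌊2 * d⌋₊ := ⟨_, rfl⟩
  rw [← hD]
  have hDle : (D : ℝ) ≤ 2 * d := by
    rw [hD]
    exact Nat.floor_le (by positivity)
  have hDdeg : ∀ x, (univ.filter (fun y => RR A e x y)).card ≤ D := by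
    intro x
    rw [hD]
    apply Nat.le_floor
    have h1 := out_le (A := A) e x
    rw [← dX_eq h] at h1
    have h2 : ((univ.filter (fun y => RR A e x y)).card : ℝ) ≤ dX A (range m) x := by exact_mod_cast h1
    have h3 := hdeg x (Finset.mem_range.1 (Finset.mem_sdiff.1 x.2).1)
    linarith
  rcases Nat.eq_zero_or_pos D with hD0 | hDpos
  · rw [hD0]
    simp
  have hD0 : (0 : ℝ) < D := by exact_mod_cast hDpos
  have hgood := cnt_le_good (RR A e) W D hDdeg (n + 1 + 1) u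
  have hgood' : (cnt (RR A e) W (n + 1 + 1) u u : ℝ) ≤
      (good (RR A e) W (n + 1 + 1) u).card + N * (1 + N) * (D : ℝ) ^ (n + 1) := by
    have h1 : (cnt (RR A e) W (n + 1 + 1) u u : ℝ) * D ≤
        (good (RR A e) W (n + 1 + 1) u).card * D +
        ((n + 1 + 1 : ℕ) : ℝ) * (1 + ((n + 1 + 1 : ℕ) : ℝ)) * (D : ℝ) ^ (n + 1 + 1) := by
      exact_mod_cast hgood
    have hNc : ((n + 1 + 1 : ℕ) : ℝ) = N := by rw [hNn]; push_cast; ring
    rw [hNc] at h1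
    have h2 : (cnt (RR A e) W (n + 1 + 1) u u : ℝ) * D ≤
      ((good (RR A e) W (n + 1 + 1) u).card + N * (1 + N) * (D : ℝ) ^ (n + 1)) * D := by
      refine h1.trans (le_of_eq ?_)
      ring
    exact le_of_mul_le_mul_right h2 hD0
  rw [← hq] at hcnt
  have hN0 : 0 ≤ N := by rw [hNn]; positivity
  have hPN : 0 ≤ P + N * (1 + N) := by positivity
  have hDk : (D : ℝ) ^ (n + 1) ≤ 2 * d * (q ^ n * (16 * L / κ) ^ n) := by
    calc (D : ℝ) ^ (n + 1) ≤ (2 * d) ^ (n + 1) := by gcongr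
      _ = 2 * d * (2 * d) ^ n := by ring
      _ = 2 * d * (q ^ n * (16 * L / κ) ^ n) := by
          rw [← mul_pow, hq]
          congr 2
          field_simp
          norm_num
  have hfin : (P + N * (1 + N)) * (D : ℝ) ^ (n + 1) ≤ q ^ n * (κ / 8 * m * d) := by
    calc (P + N * (1 + N)) * (D : ℝ) ^ (n + 1)
        ≤ (P + N * (1 + N)) * (2 * d * (q ^ n * (16 * L / κ) ^ n)) := by gcongr
      _ = q ^ n * (κ / 8 * d) * ((P + N * (1 + N)) * (16 / κ) * (16 * L / κ) ^ n) := by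
          have : (16 : ℝ) / κ * (κ / 8 * d) = 2 * d := by field_simp; norm_num
          calc (P + N * (1 + N)) * (2 * d * (q ^ n * (16 * L / κ) ^ n))
              = (P + N * (1 + N)) * ((16 / κ * (κ / 8 * d)) * (q ^ n * (16 * L / κ) ^ n)) := by
                rw [this]
            _ = _ := by ring
      _ ≤ q ^ n * (κ / 8 * d) * m := by gcongr
      _ = _ := by ring
  have h5 : (P + N * (1 + N)) * (D : ℝ) ^ (n + 1) =
      P * (D : ℝ) ^ (n + 1) + N * (1 + N) * (D : ℝ) ^ (n + 1) := by ring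
  linarith

end core

/-- (H1) many closed walks with distinct vertices. -/
theorem walks_lower {A : ℕ → ℕ → Prop} (h : PG A) : ∀ᶠ m : ℕ in atTop, ∃ k : ℕ,
    ∀ U V : Finset ℕ, Small m U V →
    ∀ (e : (range m \ U : Finset ℕ) ≃ (range m \ V : Finset ℕ))
      (W : Finset (range m \ U : Finset ℕ)) (u : (range m \ U : Finset ℕ)),
      (W.card : ℝ) ≤ (m : ℝ) ^ (0.3 : ℝ) →
      (m : ℝ) ^ (1 / 2 : ℝ) * ((⌊2 * dd m⌋₊ : ℕ) : ℝ) ^ k ≤
        ((good (RR A e) W (k + 1) u).card : ℝ) := by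
  obtain ⟨cp0, hcp0, hpop0⟩ := pop h
  -- normalise the constant
  obtain ⟨cp, hcp, hcp2, hpop⟩ : ∃ cp : ℝ, 0 < cp ∧ cp ≤ 2 ∧ ∀ᶠ m : ℕ in atTop,
      ∀ X ⊆ range m, X.Nonempty → cp * Real.sqrt (X.card * m) ≤
      (((range m).filter (fun j => X.card * dd m / (8 * m) ≤ (dX A X j : ℝ))).card : ℝ) := by
    refine ⟨min cp0 2, lt_min hcp0 (by norm_num), min_le_right _ _, ?_⟩
    filter_upwards [hpop0] with m hm X hX hne
    refine le_trans ?_ (hm X hX hne)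
    gcongr
    exact min_le_left _ _
  obtain ⟨κ, hκdef⟩ : ∃ κ : ℝ, κ = (cp / 2) ^ 2 := ⟨_, rfl⟩
  have hκ : 0 < κ := by rw [hκdef]; positivity
  have hκ1 : κ ≤ 1 := by
    rw [hκdef]
    nlinarith
  obtain ⟨c1, hc1, hexp⟩ := h.exp (κ / 64) (by positivity)
  obtain ⟨j2, hj2⟩ : ∃ j2 : ℕ, 2 / c1 ≤ (j2 : ℝ) := exists_nat_ge _
  have hlog : Tendsto (fun m : ℕ => Real.log m) atTop atTop :=
    Real.tendsto_log_atTop.comp tendsto_natCast_atTop_atTop
  have hdl1 := dd_lower (δ := 1 - 0.9) (by norm_num) (K := 8 / (cp * κ)) (by positivity)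
  have hdl2 := dd_lower (δ := 1 - 0.9) (by norm_num) (K := 8) (by norm_num)
  have hdl3 := dd_lower (δ := 1 - 0.9) (by norm_num) (K := 4 / c1) (by positivity)
  simp only [sub_sub_cancel] at hdl1 hdl2 hdl3
  have hbig : ∀ᶠ m : ℕ in atTop, (1 : ℝ) ≤ κ / 64 * m := by
    have : Tendsto (fun m : ℕ => κ / 64 * (m : ℝ)) atTop atTop :=
      (tendsto_natCast_atTop_atTop (R := ℝ)).const_mul_atTop (by positivity)
    exact this.eventually (eventually_ge_atTop 1)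
  filter_upwards [hpop, h.deg (1 / 4) (by norm_num), hexp, hlog.eventually (numeric κ hκ j2),
    hdl1, hdl2, hdl3, dd_le, hbig, eventually_ge_atTop 2, hlog.eventually (eventually_ge_atTop 2),
    hlog.eventually (eventually_ge_atTop (κ / (8 * c1)))] with m hpop hdeg hexp hnum hdl1 hdl2 hdl3
    hddle hbig hm hL2 hLc
  obtain ⟨L, hLdef⟩ : ∃ L : ℝ, L = Real.log m := ⟨_, rfl⟩
  obtain ⟨d, hddef⟩ : ∃ d : ℝ, d = dd m := ⟨_, rfl⟩
  obtain ⟨j1, hj1def⟩ : ∃ j1 : ℕ, j1 = ⌈L ^ (1 / 4 : ℝ)⌉₊ := ⟨_, rfl⟩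
  have hm0 : (0 : ℝ) < m := by positivity
  have hd : 0 < d := by rw [hddef]; exact dd_pos hm
  rw [← hLdef] at hnum hL2 hLc
  rw [← hj1def] at hnum
  rw [← hddef] at hpop hdeg hexp hdl1 hdl2 hdl3 hddle
  have hL0 : 0 < L := by linarith
  have hdL : d / 2 = m / L := by rw [hddef, dd, ← hLdef]; ring
  obtain ⟨E, hE⟩ : ∃ E : ℝ, E = 2 * (m : ℝ) ^ (0.9 : ℝ) := ⟨_, rfl⟩
  have hE1 : E ≤ cp * κ * d / 4 := by
    rw [hE]
    have h1 : (m : ℝ) ^ (0.9 : ℝ) ≤ cp * κ / 8 * d := by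
      calc (m : ℝ) ^ (0.9 : ℝ) = cp * κ / 8 * (8 / (cp * κ) * (m : ℝ) ^ (0.9 : ℝ)) := by
            field_simp
        _ ≤ cp * κ / 8 * d := by gcongr
    linarith
  have hE2 : E ≤ d / 4 := by
    rw [hE]
    linarith
  have hE3 : E ≤ c1 / 2 * m := by
    rw [hE]
    have h1 : (m : ℝ) ^ (0.9 : ℝ) ≤ c1 / 4 * d := by
      calc (m : ℝ) ^ (0.9 : ℝ) = c1 / 4 * (4 / c1 * (m : ℝ) ^ (0.9 : ℝ)) := by field_simp
        _ ≤ c1 / 4 * d := by gcongr
    have h2 : c1 / 4 * d ≤ c1 / 4 * m := by gcongr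
    linarith
  have hdeg' : ∀ i < m, 3 / 4 * d ≤ (dX A (range m) i : ℝ) ∧
      (dX A (range m) i : ℝ) ≤ 5 / 4 * d := by
    intro i hi
    have h1 := hdeg i hi
    constructor
    · linarith [h1.1]
    · linarith [h1.2]
  have hEsq : E ≤ cp / 2 * Real.sqrt (κ / L * m * m) := by
    have h1 : κ * d / 2 ≤ Real.sqrt (κ / L * m * m) := by
      apply Real.le_sqrt_of_sq_le
      have h2 : κ * d / 2 = κ / L * m := by
        calc κ * d / 2 = κ * (d / 2) := by ring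
          _ = κ * (m / L) := by rw [hdL]
          _ = _ := by ring
      rw [h2]
      have h3 : κ / L ≤ 1 := by
        rw [div_le_one hL0]
        linarith
      calc (κ / L * m) ^ 2 = κ / L * m * m * (κ / L) := by ring
        _ ≤ κ / L * m * m * 1 := by gcongr
        _ = _ := by ring
    calc E ≤ cp * κ * d / 4 := hE1
      _ = cp / 2 * (κ * d / 2) := by ring
      _ ≤ _ := by gcongr
  refine ⟨2 * j1 + j2 + 1, ?_⟩
  intro U V hS e W u hW
  obtain ⟨hsU, hsV⟩ := small_bounds hS W (by omega) hW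
  rw [← hE] at hsU hsV
  have hcnt := core_cnt h e W u κ cp L d E c1 j1 j2 hm0 hd hκdef hcp hκ1 hc1 hj2 hL2 hLc hdL
    hpop hdeg' hexp hE2 hE3 hEsq hbig hnum.1 hsU hsV
  have hexpL : Real.exp L = m := by rw [hLdef]; exact Real.exp_log hm0
  have hexpL2 : Real.exp (L / 2) = (m : ℝ) ^ (1 / 2 : ℝ) := by
    rw [Real.rpow_def_of_pos hm0, ← hLdef]
    congr 1
    ring
  have hnum2 := hnum.2
  rw [hexpL, hexpL2] at hnum2
  rw [← hddef]
  exact core_good h e W u κ L d ((m : ℝ) ^ (1 / 2 : ℝ)) (2 * j1 + j2 + 2) (2 * j1 + j2) hm0 hd hκ hL0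
    (fun i hi => (hdeg' i hi).2) (by push_cast; ring) (by positivity) hnum2 hcnt

end Pool.Agent.PC.BlockH
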