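import Mathlib
import Pool.Agent.PC.Defs
import Pool.Agent.PC.Circle

set_option autoImplicit false

/-! Block K, part 3: from pairs of perfect matchings with few cycles to Hamiltonian pairs. -/

namespace Pool.Agent.PC

open Finset Filter Topology Pool.Agent.PrimeCircle

instance finMt (A : ℕ → ℕ → Prop) (S T : Finset ℕ) : Finite (Mt A S T) := by
  unfold Mt
  infer_instance

instance finHP (m : ℕ) : Finite (HP m) := by
  unfold HP
  infer_instance

/-- A finite family that covers a small subset. -/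
lemma exists_cover {α : Type*} [Finite α] [Nonempty α] (p : α → Prop) {c : ℕ}
    (h : Nat.card {x : α // p x} ≤ c) : ∃ g : Fin c → α, ∀ x, p x → ∃ k, g k = x := by
  classical
  have := Fintype.ofFinite α
  have hc : (univ.filter p).card ≤ c := by
    rw [Nat.card_eq_fintype_card, Fintype.card_subtype] at h
    exact h
  set l := (univ.filter p).toList with hl
  have hlen : l.length ≤ c := by rw [hl, Finset.length_toList]; exact hc
  refine ⟨fun k => l.getD k (Classical.arbitrary α), fun x hx => ?_⟩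
  have hxl : x ∈ l := by rw [hl, Finset.mem_toList, Finset.mem_filter]; exact ⟨mem_univ _, hx⟩
  obtain ⟨n, hn, rfl⟩ := List.getElem_of_mem hxl
  refine ⟨⟨n, by omega⟩, ?_⟩
  simp [List.getD, hn]

open scoped Classical in
theorem count_pairs {m c : ℕ} {U V : Finset ℕ} {z : ℝ}
    (hcz : ∀ n : ℕ, (n : ℝ) ≤ z → n ≤ c) (hUne : (range m \ U).Nonempty)
    (few : ∀ M1 : Mt PA (range m \ U) (range m \ V),
        Nat.card (Mt PA (range m \ U) (range m \ V)) ≤
          2 * Nat.card {M2 : Mt PA (range m \ U) (range m \ V) // (cyc M1.1 M2.1 : ℝ) ≤ z})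
    (mg : ∀ M1 M2 : Mt PA (range m \ U) (range m \ V), (cyc M1.1 M2.1 : ℝ) ≤ z →
        ∃ N1 N2 : Mt PA (range m) (range m),
          (∀ x y, Equiv.Perm.SameCycle (N2.1.trans N1.1.symm) x y) ∧
          (∀ (x : ℕ) (hx : x ∈ range m \ U) (hx' : x ∈ range m),
            ((N1.1 ⟨x, hx'⟩ : range m) : ℕ) = ((M1.1 ⟨x, hx⟩ : (range m \ V : Finset ℕ)) : ℕ)) ∧
          (Nat.card {x : (range m \ U : Finset ℕ) // ∃ hx' : (x : ℕ) ∈ range m,
            ((N2.1 ⟨x, hx'⟩ : range m) : ℕ) ≠ ((M2.1 x : (range m \ V : Finset ℕ)) : ℕ)} : ℝ) ≤ z) :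
    Nat.card (Mt PA (range m \ U) (range m \ V)) ^ 2 ≤ 2 * (Nat.card (HP m) * (m * m) ^ c) := by
  set S := range m \ U with hS
  set T := range m \ V with hT
  have hSm : ∀ x : S, (x : ℕ) ∈ range m := fun x => (Finset.mem_sdiff.1 x.2).1
  have hTm : ∀ x : T, (x : ℕ) ∈ range m := fun x => (Finset.mem_sdiff.1 x.2).1
  have : Nonempty S := hUne.to_subtype
  let GP := {P : Mt PA S T × Mt PA S T // (cyc P.1.1 P.2.1 : ℝ) ≤ z}
  -- number of good pairs
  have h1 : Nat.card (Mt PA S T) ^ 2 ≤ 2 * Nat.card GP := by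
    have := Fintype.ofFinite (Mt PA S T)
    have e : Nat.card GP = ∑ M1 : Mt PA S T, Nat.card {M2 : Mt PA S T // (cyc M1.1 M2.1 : ℝ) ≤ z} := by
      rw [← Nat.card_sigma]
      exact Nat.card_congr (Equiv.subtypeProdEquivSigmaSubtype (fun (M1 M2 : Mt PA S T) =>
        (cyc M1.1 M2.1 : ℝ) ≤ z))
    rw [e, Finset.mul_sum, pow_two]
    calc Nat.card (Mt PA S T) * Nat.card (Mt PA S T) = ∑ _M1 : Mt PA S T, Nat.card (Mt PA S T) := by
          rw [Finset.sum_const, Finset.card_univ, smul_eq_mul, Nat.card_eq_fintype_card]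
      _ ≤ _ := Finset.sum_le_sum fun M1 _ => few M1
  -- the code
  have key : ∀ P : GP, ∃ Q : HP m × (Fin c → range m × range m),
      (∀ x : S, ((Q.1.1.1.1 ⟨x, hSm x⟩ : range m) : ℕ) = ((P.1.1.1 x : T) : ℕ)) ∧
      (∀ k, ∃ x : S, Q.2 k = (⟨x, hSm x⟩, ⟨P.1.2.1 x, hTm _⟩)) ∧
      (∀ x : S, ((Q.1.1.2.1 ⟨x, hSm x⟩ : range m) : ℕ) ≠ ((P.1.2.1 x : T) : ℕ) →
        ∃ k, Q.2 k = (⟨x, hSm x⟩, ⟨P.1.2.1 x, hTm _⟩)) := by
    intro P
    obtain ⟨N1, N2, hsc, hN1, hN2⟩ := mg P.1.1 P.1.2 P.2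
    obtain ⟨g, hg⟩ := exists_cover (fun x : S => ∃ hx' : (x : ℕ) ∈ range m,
            ((N2.1 ⟨x, hx'⟩ : range m) : ℕ) ≠ ((P.1.2.1 x : T) : ℕ)) (hcz _ hN2)
    refine ⟨(⟨(N1, N2), hsc⟩, fun k => (⟨g k, hSm _⟩, ⟨P.1.2.1 (g k), hTm _⟩)), ?_, ?_, ?_⟩
    · intro x
      exact hN1 x x.2 (hSm x)
    · intro k
      exact ⟨g k, rfl⟩
    · intro x hx
      obtain ⟨k, hk⟩ := hg x ⟨hSm x, hx⟩
      refine ⟨k, ?_⟩
      simp only [hk]
  choose code hc1 hc2 hc3 using key
  have hinj : Function.Injective code := by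
    intro P P' h
    have e1 : P.1.1 = P'.1.1 := by
      apply Subtype.ext
      ext1 x
      apply Subtype.ext
      rw [← hc1 P x, ← hc1 P' x, h]
    have e2 : P.1.2 = P'.1.2 := by
      apply Subtype.ext
      ext1 x
      apply Subtype.ext
      by_cases h2 : (((code P).1.1.2.1 ⟨x, hSm x⟩ : range m) : ℕ) = ((P.1.2.1 x : T) : ℕ)
      · by_cases h3 : (((code P').1.1.2.1 ⟨x, hSm x⟩ : range m) : ℕ) = ((P'.1.2.1 x : T) : ℕ)
        · rw [← h2, ← h3, h]
        · obtain ⟨k, hk⟩ := hc3 P' x h3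
          obtain ⟨y, hy⟩ := hc2 P k
          rw [h, hk] at hy
          simp only [Prod.mk.injEq, Subtype.mk.injEq] at hy
          have hxy : x = y := Subtype.ext hy.1
          rw [hxy, ← hy.2, ← hxy]
      · obtain ⟨k, hk⟩ := hc3 P x h2
        obtain ⟨y, hy⟩ := hc2 P' k
        rw [← h, hk] at hy
        simp only [Prod.mk.injEq, Subtype.mk.injEq] at hy
        have hxy : x = y := Subtype.ext hy.1
        rw [hy.2, ← hxy]
    exact Subtype.ext (Prod.ext e1 e2)
  have h2 := Nat.card_le_card_of_injective code hinj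
  have h3 : Nat.card (HP m × (Fin c → range m × range m)) = Nat.card (HP m) * (m * m) ^ c := by
    rw [Nat.card_prod]
    congr 1
    rw [Nat.card_eq_fintype_card, Fintype.card_fun, Fintype.card_prod, Fintype.card_coe,
      Finset.card_range, Fintype.card_fin]
  rw [h3] at h2
  exact h1.trans (Nat.mul_le_mul_left _ h2)

end Pool.Agent.PC
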