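import Mathlib

set_option autoImplicit false

/-! Block D, part 1: sets that are nearly invariant under translations. -/

namespace Pool.Agent.PC

open Finset

open scoped Classical in
/-- Number of `i` with `i, i + h < M` and exactly one of them in the set `f`. -/
noncomputable def Nn (f : ℕ → Prop) (M h : ℕ) : ℕ :=
  ((range (M - h)).filter (fun i => ¬ (f i ↔ f (i + h)))).card

lemma Nn_zero (f : ℕ → Prop) (M : ℕ) : Nn f M 0 = 0 := by
  unfold Nn
  simp

lemma Nn_add (f : ℕ → Prop) (M h k : ℕ) : Nn f M (h + k) ≤ Nn f M h + Nn f M k := by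
  classical
  unfold Nn
  have h1 : (range (M - (h + k))).filter (fun i => ¬ (f i ↔ f (i + (h + k)))) ⊆
      (range (M - h)).filter (fun i => ¬ (f i ↔ f (i + h))) ∪
      ((range (M - k)).filter (fun i => ¬ (f i ↔ f (i + k)))).image (fun i => i - h) := by
    intro i hi
    rw [Finset.mem_filter, Finset.mem_range] at hi
    obtain ⟨hi1, hi2⟩ := hi
    rw [Finset.mem_union]
    by_cases h2 : f i ↔ f (i + h)
    · right
      rw [Finset.mem_image]
      refine ⟨i + h, ?_, by omega⟩
      rw [Finset.mem_filter, Finset.mem_range]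
      refine ⟨by omega, ?_⟩
      rw [add_assoc, ← h2]
      exact hi2
    · left
      rw [Finset.mem_filter, Finset.mem_range]
      exact ⟨by omega, h2⟩
  calc _ ≤ _ := Finset.card_le_card h1
    _ ≤ _ := Finset.card_union_le _ _
    _ ≤ _ := Nat.add_le_add_left Finset.card_image_le _

lemma Nn_mul (f : ℕ → Prop) (M h j : ℕ) : Nn f M (j * h) ≤ j * Nn f M h := by
  induction j with
  | zero => simp [Nn_zero]
  | succ j ih =>
    rw [Nat.succ_mul, Nat.succ_mul]
    exact (Nn_add f M (j * h) h).trans (Nat.add_le_add_right ih _)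

lemma Nn_sub (f : ℕ → Prop) (M h k : ℕ) (hk : k ≤ h) (hM : h + k ≤ M) :
    Nn f M (h - k) ≤ 2 * (Nn f M h + Nn f M k) := by
  classical
  unfold Nn
  set Sh := (range (M - h)).filter (fun i => ¬ (f i ↔ f (i + h))) with hSh
  set Sk := (range (M - k)).filter (fun i => ¬ (f i ↔ f (i + k))) with hSk
  have h1 : (range (M - (h - k))).filter (fun i => ¬ (f i ↔ f (i + (h - k)))) ⊆
      (Sh ∪ Sk.image (fun i => i - (h - k))) ∪ (Sk.image (fun i => i + k) ∪ Sh.image (fun i => i + k)) := by
    intro i hi
    rw [Finset.mem_filter, Finset.mem_range] at hi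
    obtain ⟨hi1, hi2⟩ := hi
    rw [Finset.mem_union]
    by_cases h3 : i + h < M
    · left
      rw [Finset.mem_union]
      by_cases h2 : f i ↔ f (i + h)
      · right
        rw [Finset.mem_image]
        refine ⟨i + (h - k), ?_, by omega⟩
        rw [hSk, Finset.mem_filter, Finset.mem_range]
        refine ⟨by omega, ?_⟩
        have e : i + (h - k) + k = i + h := by omega
        rw [e, ← h2]
        tauto
      · left
        rw [hSh, Finset.mem_filter, Finset.mem_range]
        exact ⟨by omega, h2⟩
    · right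
      rw [Finset.mem_union]
      by_cases h2 : f (i - k) ↔ f i
      · right
        rw [Finset.mem_image]
        refine ⟨i - k, ?_, by omega⟩
        rw [hSh, Finset.mem_filter, Finset.mem_range]
        refine ⟨by omega, ?_⟩
        have e : i - k + h = i + (h - k) := by omega
        rw [e, h2]
        exact hi2
      · left
        rw [Finset.mem_image]
        refine ⟨i - k, ?_, by omega⟩
        rw [hSk, Finset.mem_filter, Finset.mem_range]
        refine ⟨by omega, ?_⟩
        have e : i - k + k = i := by omega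
        rw [e]
        exact h2
  calc _ ≤ _ := Finset.card_le_card h1
    _ ≤ _ := Finset.card_union_le _ _
    _ ≤ (Sh.card + Sk.card) + (Sk.card + Sh.card) :=
      Nat.add_le_add
        ((Finset.card_union_le _ _).trans (Nat.add_le_add_left Finset.card_image_le _))
        ((Finset.card_union_le _ _).trans (Nat.add_le_add Finset.card_image_le Finset.card_image_le))
    _ = _ := by ring

open scoped Classical in
/-- Number of pairs (member, non member) is at most the total non-invariance. -/
lemma pairs_le (f : ℕ → Prop) (M : ℕ) :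
    ((range M).filter f).card * ((range M).filter (fun i => ¬ f i)).card ≤
      ∑ h ∈ range M, Nn f M h := by
  classical
  have h1 : ∑ h ∈ range M, Nn f M h =
      ((range M).sigma (fun h => (range (M - h)).filter (fun i => ¬ (f i ↔ f (i + h))))).card := by
    rw [Finset.card_sigma]
    rfl
  rw [h1, ← Finset.card_product]
  refine Finset.card_le_card_of_injOn
    (fun xy => (⟨max xy.1 xy.2 - min xy.1 xy.2, min xy.1 xy.2⟩ : Σ _ : ℕ, ℕ)) ?_ ?_
  · rintro ⟨x, y⟩ hxy
    simp only [Finset.coe_product, Set.mem_prod, Finset.mem_coe, Finset.mem_filter,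
      Finset.mem_range] at hxy
    obtain ⟨⟨hx, hfx⟩, hy, hfy⟩ := hxy
    simp only [Finset.coe_sigma, Set.mem_sigma_iff, Finset.mem_coe, Finset.mem_filter,
      Finset.mem_range]
    rcases le_total x y with h | h
    · rw [max_eq_right h, min_eq_left h]
      refine ⟨by omega, by omega, ?_⟩
      have e : x + (y - x) = y := by omega
      rw [e]
      tauto
    · rw [max_eq_left h, min_eq_right h]
      refine ⟨by omega, by omega, ?_⟩
      have e : y + (x - y) = x := by omega
      rw [e]
      tauto
  · rintro ⟨x, y⟩ hxy ⟨x', y'⟩ hxy' heq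
    simp only [Finset.coe_product, Set.mem_prod, Finset.mem_coe, Finset.mem_filter,
      Finset.mem_range] at hxy hxy'
    obtain ⟨⟨_, hfx⟩, _, hfy⟩ := hxy
    obtain ⟨⟨_, hfx'⟩, _, hfy'⟩ := hxy'
    simp only [Sigma.mk.injEq, heq_eq_eq] at heq
    obtain ⟨h2, h3⟩ := heq
    rcases le_total x y with h | h <;> rcases le_total x' y' with h' | h'
    · rw [max_eq_right h, min_eq_left h, max_eq_right h', min_eq_left h'] at h2
      rw [min_eq_left h, min_eq_left h'] at h3
      have : y = y' := by omega
      rw [h3, this]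
    · rw [max_eq_right h, min_eq_left h, max_eq_left h', min_eq_right h'] at h2
      rw [min_eq_left h, min_eq_right h'] at h3
      exact absurd (h3 ▸ hfx) hfy'
    · rw [max_eq_left h, min_eq_right h, max_eq_right h', min_eq_left h'] at h2
      rw [min_eq_right h, min_eq_left h'] at h3
      exact absurd (h3 ▸ hfx') hfy
    · rw [max_eq_left h, min_eq_right h, max_eq_left h', min_eq_right h'] at h2
      rw [min_eq_right h, min_eq_right h'] at h3
      have : x = x' := by omega
      rw [h3, this]

/-- Pigeonhole: a dense set of shifts has a difference that is a small multiple of `u`. -/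
lemma pigeon (A : Finset ℕ) (D R u : ℕ) (hA : ∀ a ∈ A, a < D) (hcard : 2 * D < (R + 1) * A.card)
    (hu : R * u ≤ D) : ∃ r, 1 ≤ r ∧ r ≤ R ∧ ∃ a ∈ A, ∃ b ∈ A, a = b + r * u := by
  have h1 : (range (2 * D)).card < ((range (R + 1)) ×ˢ A).card := by
    rw [Finset.card_product, Finset.card_range, Finset.card_range]
    exact hcard
  obtain ⟨⟨i, a⟩, hia, ⟨j, b⟩, hjb, hne, heq⟩ := Finset.exists_ne_map_eq_of_card_lt_of_maps_to h1
    (f := fun x => x.1 * u + x.2) (by
      rintro ⟨i, a⟩ hia
      simp only [Finset.coe_product, Set.mem_prod, Finset.mem_coe, Finset.mem_range] at hia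
      simp only [Finset.coe_range, Set.mem_Iio]
      have h2 := hA a hia.2
      have h3 : i * u ≤ R * u := Nat.mul_le_mul_right _ (by omega)
      omega)
  rw [Finset.mem_product, Finset.mem_range] at hia hjb
  simp only at heq
  rcases lt_trichotomy i j with h | h | h
  · refine ⟨j - i, by omega, by omega, a, hia.2, b, hjb.2, ?_⟩
    have : j * u = i * u + (j - i) * u := by
      rw [← Nat.add_mul]; congr 1; omega
    omega
  · subst h
    exact absurd (by simp only [Prod.mk.injEq, true_and]; omega) hne
  · refine ⟨i - j, by omega, by omega, b, hjb.2, a, hia.2, ?_⟩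
    have : i * u = j * u + (i - j) * u := by
      rw [← Nat.add_mul]; congr 1; omega
    omega

/-- Near invariance under all shifts, from a dense set `A` of good shifts and one good shift
`s` with `s = ± 1` modulo `R!`. -/
theorem near_all (f : ℕ → Prop) (M D R η : ℕ) (A : Finset ℕ) (hR : 1 ≤ R) (hD : R ≤ D)
    (hDM : 4 * D * R.factorial ≤ M)
    (hA : ∀ a ∈ A, a < D) (hcard : 2 * D < (R + 1) * A.card) (hAη : ∀ a ∈ A, Nn f M a ≤ η)
    (s : ℕ) (hs : s < D) (hs1 : Nn f M s ≤ η) (hsmod : R.factorial ∣ s + 1 ∨ R.factorial ∣ s - 1 ∧ 1 ≤ s)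
    (h : ℕ) (hh : h < M) :
    Nn f M h ≤ 4 * R.factorial * η * (M / (D / R) + D / (D / R) + 2) + 2 * R.factorial *
      (4 * R.factorial * η * (M / (D / R) + D / (D / R) + 2) + η) := by
  set g := R.factorial with hg
  have hg0 : 0 < g := Nat.factorial_pos R
  set q := D / R with hq
  have hq0 : 0 < q := Nat.div_pos hD hR
  have hRq : R * q ≤ D := Nat.mul_div_le D R
  -- small multiples
  have key1 : ∀ u, u ≤ q → Nn f M (g * u) ≤ 4 * g * η := by
    intro u hu
    obtain ⟨r, hr1, hrR, a, ha, b, hb, hab⟩ := pigeon A D R u hA hcard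
      ((Nat.mul_le_mul_left R hu).trans hRq)
    have h1 : Nn f M (r * u) ≤ 4 * η := by
      have e : r * u = a - b := by omega
      rw [e]
      have ha' := hA a ha
      have hb' := hA b hb
      have h5 : 4 * D ≤ M := le_trans (Nat.le_mul_of_pos_right _ hg0) hDM
      refine (Nn_sub f M a b (by omega) (by omega)).trans ?_
      have := hAη a ha
      have := hAη b hb
      omega
    obtain ⟨w, hw⟩ := Nat.dvd_factorial (by omega : 0 < r) hrR
    rw [← hg] at hw
    have e : g * u = w * (r * u) := by rw [hw]; ring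
    rw [e]
    have hwg : w ≤ g := by rw [hw]; exact Nat.le_mul_of_pos_left _ (by omega)
    calc Nn f M (w * (r * u)) ≤ w * Nn f M (r * u) := Nn_mul f M _ w
      _ ≤ g * (4 * η) := Nat.mul_le_mul hwg h1
      _ = 4 * g * η := by ring
  -- all multiples
  have key2 : ∀ w, w ≤ M + D → Nn f M (g * w) ≤ 4 * g * η * (M / q + D / q + 2) := by
    intro w hw
    have e : g * w = (w / q) * (g * q) + g * (w % q) := by
      have := Nat.div_add_mod w q
      calc g * w = g * (q * (w / q) + w % q) := by rw [this]
        _ = _ := by ring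
    rw [e]
    have h1 : w / q ≤ M / q + D / q + 1 := by
      have h2 : w / q ≤ (M + D) / q := Nat.div_le_div_right hw
      have h3 : (M + D) / q ≤ M / q + D / q + 1 := by
        have h4 := Nat.div_add_mod M q
        have h5 := Nat.div_add_mod D q
        have h6 := Nat.mod_lt M hq0
        have h7 := Nat.mod_lt D hq0
        refine Nat.le_of_lt_succ ((Nat.div_lt_iff_lt_mul hq0).2 ?_)
        calc M + D = q * (M / q) + M % q + (q * (D / q) + D % q) := by rw [h4, h5]
          _ < q * (M / q) + q + (q * (D / q) + q) := by omega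
          _ = (M / q + D / q + 1).succ * q := by rw [Nat.succ_eq_add_one]; ring
      exact h2.trans h3
    calc Nn f M ((w / q) * (g * q) + g * (w % q)) ≤ Nn f M ((w / q) * (g * q)) + Nn f M (g * (w % q)) :=
          Nn_add _ _ _ _
      _ ≤ (w / q) * Nn f M (g * q) + 4 * g * η :=
          Nat.add_le_add (Nn_mul f M _ _) (key1 _ (Nat.mod_lt _ hq0).le)
      _ ≤ (M / q + D / q + 1) * (4 * g * η) + 4 * g * η :=
          Nat.add_le_add_right (Nat.mul_le_mul h1 (key1 q le_rfl)) _
      _ = 4 * g * η * (M / q + D / q + 2) := by ring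
  set K := 4 * g * η * (M / q + D / q + 2) with hK
  have h4D : 4 * D ≤ M := le_trans (Nat.le_mul_of_pos_right _ hg0) hDM
  have hone : Nn f M 1 ≤ 2 * (K + η) := by
    rcases hsmod with h1 | ⟨h1, h2⟩
    · obtain ⟨v, hv⟩ := h1
      have hv2 : v ≤ s + 1 := by rw [hv]; exact Nat.le_mul_of_pos_left _ hg0
      have e : 1 = g * v - s := by omega
      calc Nn f M 1 = Nn f M (g * v - s) := by rw [← e]
        _ ≤ 2 * (Nn f M (g * v) + Nn f M s) := Nn_sub f M _ _ (by omega) (by omega)
        _ ≤ 2 * (K + η) := Nat.mul_le_mul_left _ (Nat.add_le_add (key2 v (by omega)) hs1)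
    · obtain ⟨v, hv⟩ := h1
      have hv2 : v ≤ s - 1 := by rw [hv]; exact Nat.le_mul_of_pos_left _ hg0
      have e : 1 = s - g * v := by omega
      calc Nn f M 1 = Nn f M (s - g * v) := by rw [← e]
        _ ≤ 2 * (Nn f M s + Nn f M (g * v)) := Nn_sub f M _ _ (by omega) (by omega)
        _ ≤ 2 * (K + η) := by
            have := key2 v (by omega)
            omega
  have hdm := Nat.div_add_mod h g
  have hmod := Nat.mod_lt h hg0
  have e : h = g * (h / g) + (h % g) * 1 := by omega
  have h5 : h / g ≤ M := (Nat.div_le_self h g).trans hh.le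
  calc Nn f M h = Nn f M (g * (h / g) + (h % g) * 1) := by rw [← e]
    _ ≤ Nn f M (g * (h / g)) + Nn f M ((h % g) * 1) := Nn_add _ _ _ _
    _ ≤ K + (h % g) * Nn f M 1 := Nat.add_le_add (key2 _ (by omega)) (Nn_mul f M 1 _)
    _ ≤ K + g * (2 * (K + η)) := Nat.add_le_add_left (Nat.mul_le_mul hmod.le hone) _
    _ = K + 2 * g * (K + η) := by ring

end Pool.Agent.PC
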