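import Mathlib
import Pool.Agent.PC.Basic
import Pool.Agent.PC.NearInv

set_option autoImplicit false

/-! Block D: the expansion property of the prime sum graph. -/

namespace Pool.Agent.PC

open Finset Filter

open scoped Classical in
/-- Number of `i ≤ k` for which membership of `i` in `X` and of `k - i` in `Y` differ. -/
noncomputable def Bad (X Y : Finset ℕ) (k : ℕ) : ℕ :=
  ((range (k + 1)).filter (fun i => ¬ (i ∈ X ↔ k - i ∈ Y))).card

lemma PA_symm (i j : ℕ) (h : PA i j) : PA j i := by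
  unfold PA at *
  rwa [add_comm j i]

open scoped Classical in
lemma dX_PA_eq (X : Finset ℕ) (i : ℕ) : dX PA X i = (X.filter (fun j => PA i j)).card := by
  unfold dX
  congr 1
  ext j
  simp only [Finset.mem_filter, and_congr_right_iff]
  exact fun _ => ⟨fun h1 => PA_symm _ _ h1, fun h1 => PA_symm _ _ h1⟩

lemma near_from_bad (X Y : Finset ℕ) {M k h : ℕ} (hk : M ≤ k) :
    Nn (fun i => i ∈ X) M h ≤ Bad X Y k + Bad X Y (k + h) := by
  classical
  unfold Nn Bad
  refine (Finset.card_le_card (t := (range (k + 1)).filter (fun i => ¬ (i ∈ X ↔ k - i ∈ Y)) ∪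
      ((range (k + h + 1)).filter (fun i => ¬ (i ∈ X ↔ k + h - i ∈ Y))).image (fun i => i - h))
      ?_).trans ?_
  · intro i hi
    simp only [Finset.mem_filter, Finset.mem_range] at hi
    obtain ⟨hi1, hi2⟩ := hi
    rw [Finset.mem_union]
    by_cases h2 : i ∈ X ↔ k - i ∈ Y
    · right
      rw [Finset.mem_image]
      refine ⟨i + h, ?_, by omega⟩
      rw [Finset.mem_filter, Finset.mem_range]
      refine ⟨by omega, ?_⟩
      have e : k + h - (i + h) = k - i := by omega
      rw [e, ← h2]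
      tauto
    · left
      rw [Finset.mem_filter, Finset.mem_range]
      exact ⟨by omega, h2⟩
  · refine (Finset.card_union_le _ _).trans ?_
    refine (Nat.add_le_add_left Finset.card_image_le _).trans (le_of_eq ?_)
    congr!

/-- The prime indices in a window. -/
def Kw (m D : ℕ) : Finset ℕ := (Ico (m - D) m).filter (fun k => (2 * k + 3).Prime)

lemma sum_bad_le (m : ℕ) (X Y K : Finset ℕ)
    (hK : ∀ k ∈ K, k < m ∧ (2 * k + 3).Prime) :
    ∑ k ∈ K, Bad X Y k ≤ ∑ j ∈ range m \ Y, dX PA X j + ∑ j ∈ Y, dX PA (range m \ X) j := by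
  classical
  have h1 : ∑ k ∈ K, Bad X Y k =
      (K.sigma (fun k => (range (k + 1)).filter (fun i => ¬ (i ∈ X ↔ k - i ∈ Y)))).card := by
    rw [Finset.card_sigma]; rfl
  have h2 : ∑ j ∈ range m \ Y, dX PA X j =
      ((range m \ Y).sigma (fun j => X.filter (fun i => PA i j))).card := by
    rw [Finset.card_sigma]; rfl
  have h3 : ∑ j ∈ Y, dX PA (range m \ X) j =
      (Y.sigma (fun j => (range m \ X).filter (fun i => PA i j))).card := by
    rw [Finset.card_sigma]; rfl
  rw [h1, h2, h3]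
  have hdisj : Disjoint ((range m \ Y).sigma (fun j => X.filter (fun i => PA i j)))
      (Y.sigma (fun j => (range m \ X).filter (fun i => PA i j))) := by
    rw [Finset.disjoint_left]
    rintro ⟨j, i⟩ ha hb
    rw [Finset.mem_sigma] at ha hb
    exact (Finset.mem_sdiff.1 ha.1).2 hb.1
  rw [← Finset.card_union_of_disjoint hdisj]
  refine Finset.card_le_card_of_injOn
    (fun x : (Σ _ : ℕ, ℕ) => (⟨x.1 - x.2, x.2⟩ : Σ _ : ℕ, ℕ)) ?_ ?_
  · rintro ⟨k, i⟩ hx
    simp only [Finset.coe_sigma, Set.mem_sigma_iff, Finset.mem_coe, Finset.mem_filter,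
      Finset.mem_range] at hx
    obtain ⟨hk, hik, hne⟩ := hx
    obtain ⟨hkm, hkp⟩ := hK k hk
    have hpa : PA i (k - i) := by
      unfold PA
      have : 2 * (i + (k - i)) + 3 = 2 * k + 3 := by omega
      rw [this]; exact hkp
    simp only [Finset.mem_coe, Finset.mem_union, Finset.mem_sigma, Finset.mem_sdiff,
      Finset.mem_range, Finset.mem_filter]
    by_cases hiX : i ∈ X
    · left
      have : k - i ∉ Y := by tauto
      exact ⟨⟨by omega, this⟩, hiX, hpa⟩
    · right
      have : k - i ∈ Y := by tauto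
      exact ⟨this, ⟨by omega, hiX⟩, hpa⟩
  · rintro ⟨k, i⟩ hx ⟨k', i'⟩ hx' heq
    simp only [Finset.coe_sigma, Set.mem_sigma_iff, Finset.mem_coe, Finset.mem_filter,
      Finset.mem_range] at hx hx'
    simp only [Sigma.mk.injEq, heq_eq_eq] at heq
    obtain ⟨h4, h5⟩ := heq
    obtain ⟨_, hik, _⟩ := hx
    obtain ⟨_, hik', _⟩ := hx'
    subst h5
    have : k = k' := by omega
    rw [this]

lemma dX_sdiff (A : ℕ → ℕ → Prop) {X Z : Finset ℕ} (h : X ⊆ Z) (j : ℕ) :
    dX A (Z \ X) j + dX A X j = dX A Z j := by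
  classical
  unfold dX
  rw [← Finset.card_union_of_disjoint]
  · congr 1
    rw [← Finset.filter_union, Finset.sdiff_union_of_subset h]
  · exact Finset.disjoint_filter_filter Finset.sdiff_disjoint

/-- Few bad edges if the popular set is small. -/
lemma bad_total {m : ℕ} {X K : Finset ℕ} (hX : X ⊆ range m) {c d : ℝ} (hc : 0 < c) (hc1 : c ≤ 1)
    (hd : 0 < d)
    (hdeg : ∀ i < m, (1 - c) * d ≤ (dX PA (range m) i : ℝ) ∧ (dX PA (range m) i : ℝ) ≤ (1 + c) * d)
    (hK : ∀ k ∈ K, k < m ∧ (2 * k + 3).Prime)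
    (hY : (((range m).filter (fun j => c * d ≤ (dX PA X j : ℝ))).card : ℝ) < X.card + c * m) :
    ∑ k ∈ K, (Bad X ((range m).filter (fun j => c * d ≤ (dX PA X j : ℝ))) k : ℝ) ≤ 6 * c * m * d := by
  classical
  set Y := (range m).filter (fun j => c * d ≤ (dX PA X j : ℝ)) with hYdef
  have hYs : Y ⊆ range m := Finset.filter_subset _ _
  have h1 := sum_bad_le m X Y K hK
  have h1' : ∑ k ∈ K, (Bad X Y k : ℝ) ≤
      ∑ j ∈ range m \ Y, (dX PA X j : ℝ) + ∑ j ∈ Y, (dX PA (range m \ X) j : ℝ) := by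
    exact_mod_cast h1
  have e1 : ∑ j ∈ range m \ Y, (dX PA X j : ℝ) ≤ c * m * d := by
    calc ∑ j ∈ range m \ Y, (dX PA X j : ℝ) ≤ ∑ j ∈ range m \ Y, c * d := by
          refine Finset.sum_le_sum fun j hj => ?_
          rw [Finset.mem_sdiff, hYdef, Finset.mem_filter] at hj
          by_contra hcon
          exact hj.2 ⟨hj.1, (not_le.1 hcon).le⟩
      _ = ((range m \ Y).card : ℝ) * (c * d) := by rw [Finset.sum_const, nsmul_eq_mul]
      _ ≤ m * (c * d) := by
          have : (range m \ Y).card ≤ m := by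
            have := Finset.card_le_card (Finset.sdiff_subset (s := range m) (t := Y))
            rwa [Finset.card_range] at this
          have : ((range m \ Y).card : ℝ) ≤ m := by exact_mod_cast this
          gcongr
      _ = c * m * d := by ring
  have hXm : (X.card : ℝ) ≤ m := by
    have := Finset.card_le_card hX
    rw [Finset.card_range] at this
    exact_mod_cast this
  have e2 : ∑ j ∈ Y, (dX PA (range m \ X) j : ℝ) = ∑ j ∈ Y, (dX PA (range m) j : ℝ) -
      ∑ j ∈ Y, (dX PA X j : ℝ) := by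
    rw [← Finset.sum_sub_distrib]
    refine Finset.sum_congr rfl fun j _ => ?_
    have := dX_sdiff PA hX j
    have : (dX PA (range m \ X) j : ℝ) + dX PA X j = dX PA (range m) j := by exact_mod_cast this
    linarith
  have e3 : ∑ j ∈ Y, (dX PA (range m) j : ℝ) ≤ (1 + c) * d * Y.card := by
    calc ∑ j ∈ Y, (dX PA (range m) j : ℝ) ≤ ∑ j ∈ Y, (1 + c) * d :=
          Finset.sum_le_sum fun j hj => (hdeg j (Finset.mem_range.1 (hYs hj))).2
      _ = _ := by rw [Finset.sum_const, nsmul_eq_mul]; ring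
  have e4 : ∑ j ∈ range m, (dX PA X j : ℝ) = ∑ i ∈ X, (dX PA (range m) i : ℝ) := by
    have h5 := sum_dX PA X (range m)
    have h6 : ∑ i ∈ X, ((range m).filter (fun j => PA i j)).card = ∑ i ∈ X, dX PA (range m) i :=
      Finset.sum_congr rfl fun i _ => (dX_PA_eq (range m) i).symm
    rw [h6] at h5
    exact_mod_cast h5
  have e5 : (1 - c) * d * X.card ≤ ∑ i ∈ X, (dX PA (range m) i : ℝ) := by
    calc (1 - c) * d * X.card = ∑ i ∈ X, (1 - c) * d := by
          rw [Finset.sum_const, nsmul_eq_mul]; ring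
      _ ≤ _ := Finset.sum_le_sum fun i hi => (hdeg i (Finset.mem_range.1 (hX hi))).1
  have e6 : ∑ j ∈ range m, (dX PA X j : ℝ) = ∑ j ∈ range m \ Y, (dX PA X j : ℝ) +
      ∑ j ∈ Y, (dX PA X j : ℝ) := (Finset.sum_sdiff hYs).symm
  have e7 : (1 + c) * d * Y.card ≤ (1 + c) * d * (X.card + c * m) := by
    gcongr
  have hm0 : (0 : ℝ) ≤ m := Nat.cast_nonneg m
  have e8 : 2 * c * d * X.card ≤ 2 * c * d * m := by gcongr
  have e9 : c * c * (d * m) ≤ 1 * c * (d * m) := by gcongr
  nlinarith [e1, e3, e5, e7, e8, e9]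

/-- The shifts between elements of `K`. -/
def shifts (K : Finset ℕ) (D : ℕ) : Finset ℕ := by
  classical
  exact (Ico 1 D).filter (fun h => ∃ k ∈ K, k + h ∈ K)

/-- A sieve type majorant for the number of pairs forces many different shifts. -/
lemma shifts_card {K : Finset ℕ} {D : ℕ} {a : ℕ} (hK : K ⊆ Ico a (a + D)) (hK2 : 2 ≤ K.card)
    {B : ℝ} (hB : ∑ h ∈ Ico 1 D, ((K.filter (fun k => k + h ∈ K)).card : ℝ) ^ 2 ≤ B) :
    ((K.card : ℝ) ^ 2 / 4) ^ 2 ≤ (shifts K D).card * B := by
  classical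
  -- the number of ordered pairs
  have h1 : K.card * (K.card - 1) / 2 ≤ ∑ h ∈ shifts K D, (K.filter (fun k => k + h ∈ K)).card := by
    have h2 : ((K ×ˢ K).filter (fun x => x.1 < x.2)).card ≤
        ((shifts K D).sigma (fun h => K.filter (fun k => k + h ∈ K))).card := by
      refine Finset.card_le_card_of_injOn
        (fun x : ℕ × ℕ => (⟨x.2 - x.1, x.1⟩ : Σ _ : ℕ, ℕ)) ?_ ?_
      · rintro ⟨x, y⟩ hxy
        simp only [Finset.coe_filter, Finset.mem_product, Set.mem_ofPred_eq] at hxy
        obtain ⟨⟨hx, hy⟩, hlt⟩ := hxy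
        have hx' := Finset.mem_Ico.1 (hK hx)
        have hy' := Finset.mem_Ico.1 (hK hy)
        have e : x + (y - x) = y := by omega
        simp only [Finset.coe_sigma, Set.mem_sigma_iff, Finset.mem_coe, Finset.mem_filter]
        refine ⟨?_, hx, by rw [e]; exact hy⟩
        unfold shifts
        rw [Finset.mem_filter, Finset.mem_Ico]
        exact ⟨by omega, x, hx, by rw [e]; exact hy⟩
      · rintro ⟨x, y⟩ hxy ⟨x', y'⟩ hxy' heq
        simp only [Finset.coe_filter, Finset.mem_product, Set.mem_ofPred_eq] at hxy hxy'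
        simp only [Sigma.mk.injEq, heq_eq_eq] at heq
        obtain ⟨h3, h4⟩ := heq
        have : y = y' := by omega
        rw [h4, this]
    rw [Finset.card_sigma] at h2
    refine le_trans ?_ h2
    -- count pairs
    have h3 : (K ×ˢ K).card = ((K ×ˢ K).filter (fun x => x.1 < x.2)).card +
        ((K ×ˢ K).filter (fun x => ¬ x.1 < x.2)).card := by
      rw [Finset.card_filter_add_card_filter_not]
    have h4 : ((K ×ˢ K).filter (fun x => ¬ x.1 < x.2)).card ≤
        K.card + ((K ×ˢ K).filter (fun x => x.1 < x.2)).card := by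
      have h5 : (K ×ˢ K).filter (fun x => ¬ x.1 < x.2) ⊆
          K.image (fun k => (k, k)) ∪ ((K ×ˢ K).filter (fun x => x.1 < x.2)).image Prod.swap := by
        rintro ⟨x, y⟩ hxy
        rw [Finset.mem_filter, Finset.mem_product] at hxy
        rw [Finset.mem_union]
        obtain ⟨⟨hx, hy⟩, hle⟩ := hxy
        simp only at hx hy hle
        rcases Nat.eq_or_lt_of_le (not_lt.1 hle) with h | h
        · left
          rw [Finset.mem_image]
          exact ⟨x, hx, by rw [h]⟩
        · right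
          rw [Finset.mem_image]
          refine ⟨(y, x), ?_, rfl⟩
          rw [Finset.mem_filter, Finset.mem_product]
          exact ⟨⟨hy, hx⟩, h⟩
      calc _ ≤ _ := Finset.card_le_card h5
        _ ≤ _ := Finset.card_union_le _ _
        _ ≤ _ := Nat.add_le_add Finset.card_image_le Finset.card_image_le
    rw [Finset.card_product] at h3
    have h6 : K.card * (K.card - 1) = K.card * K.card - K.card := by
      rw [Nat.mul_sub, mul_one]
    omega
  have h1' : (K.card : ℝ) ^ 2 / 4 ≤ ∑ h ∈ shifts K D, ((K.filter (fun k => k + h ∈ K)).card : ℝ) := by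
    have h2 : (K.card : ℝ) ^ 2 / 4 ≤ ((K.card * (K.card - 1) / 2 : ℕ) : ℝ) := by
      have h3 : K.card * (K.card - 1) / 2 * 2 = K.card * (K.card - 1) := by
        exact Nat.div_mul_cancel (Nat.even_mul_pred_self _).two_dvd
      have h4 : ((K.card * (K.card - 1) / 2 : ℕ) : ℝ) * 2 = K.card * ((K.card : ℝ) - 1) := by
        have h5 : ((K.card - 1 : ℕ) : ℝ) = (K.card : ℝ) - 1 := by
          rw [Nat.cast_sub (by omega)]; norm_num
        rw [← h5]
        exact_mod_cast h3
      have h6 : (2 : ℝ) ≤ K.card := by exact_mod_cast hK2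
      nlinarith
    exact h2.trans (by exact_mod_cast h1)
  have hcs := Finset.sum_mul_sq_le_sq_mul_sq (shifts K D) (fun _ => (1 : ℝ))
    (fun h => ((K.filter (fun k => k + h ∈ K)).card : ℝ))
  simp only [one_mul, one_pow, Finset.sum_const, nsmul_eq_mul, mul_one] at hcs
  have hsub : shifts K D ⊆ Ico 1 D := by
    unfold shifts
    exact Finset.filter_subset _ _
  calc ((K.card : ℝ) ^ 2 / 4) ^ 2
      ≤ (∑ h ∈ shifts K D, ((K.filter (fun k => k + h ∈ K)).card : ℝ)) ^ 2 := by gcongr
    _ ≤ (shifts K D).card * ∑ h ∈ shifts K D, ((K.filter (fun k => k + h ∈ K)).card : ℝ) ^ 2 := hcs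
    _ ≤ (shifts K D).card * B := by
        gcongr
        refine le_trans (Finset.sum_le_sum_of_subset_of_nonneg hsub ?_) hB
        intro _ _ _
        positivity

end Pool.Agent.PC
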