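import Mathlib
import Pool.Agent.PC.Basic

set_option autoImplicit false

/-! Block C: consequences of the prime number theorem in arithmetic progressions. -/

namespace Pool.Agent.PC

open Finset Filter Topology

/-- Number of primes `p < N` with `p = b` modulo `q`. -/
def pc (q b N : ℕ) : ℕ := ((range N).filter (fun p => p.Prime ∧ p % q = b % q)).card

lemma pc_mono (q b : ℕ) : Monotone (pc q b) := fun _ _ h =>
  Finset.card_le_card (Finset.filter_subset_filter _ (Finset.range_subset_range.2 h))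

lemma pc_comp {q b : ℕ} {κ : ℝ}
    (h : Tendsto (fun N : ℕ => (pc q b N : ℝ) * Real.log N / N) atTop (𝓝 κ))
    {g : ℕ → ℕ} {α : ℝ} (hα : 0 < α) (hg : Tendsto (fun m : ℕ => (g m : ℝ) / m) atTop (𝓝 α)) :
    Tendsto (fun m : ℕ => (pc q b (g m) : ℝ) * Real.log m / m) atTop (𝓝 (κ * α)) := by
  have hm : Tendsto (fun m : ℕ => (m : ℝ)) atTop atTop := tendsto_natCast_atTop_atTop
  have hgr : Tendsto (fun m : ℕ => (g m : ℝ)) atTop atTop := by
    have h1 := Tendsto.pos_mul_atTop hα hg hm
    refine h1.congr' ?_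
    filter_upwards [eventually_ge_atTop 1] with m hm1
    have : (m : ℝ) ≠ 0 := by positivity
    field_simp
  have hgn : Tendsto g atTop atTop := by
    rw [← tendsto_natCast_atTop_iff (R := ℝ)]
    exact hgr
  have h1 := h.comp hgn
  have hlog : Tendsto (fun m : ℕ => Real.log m / Real.log (g m)) atTop (𝓝 1) := by
    have hl : Tendsto (fun m : ℕ => Real.log m) atTop atTop := Real.tendsto_log_atTop.comp hm
    have h2 : Tendsto (fun m : ℕ => Real.log ((g m : ℝ) / m) / Real.log m) atTop (𝓝 0) := by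
      have h3 : Tendsto (fun m : ℕ => Real.log ((g m : ℝ) / m)) atTop (𝓝 (Real.log α)) :=
        (Real.continuousAt_log hα.ne').tendsto.comp hg
      exact h3.div_atTop hl
    have h4 : Tendsto (fun m : ℕ => Real.log (g m) / Real.log m) atTop (𝓝 1) := by
      have h5 : Tendsto (fun m : ℕ => 1 + Real.log ((g m : ℝ) / m) / Real.log m) atTop (𝓝 (1 + 0)) :=
        tendsto_const_nhds.add h2
      rw [add_zero] at h5
      refine h5.congr' ?_
      filter_upwards [eventually_ge_atTop 2, hgn.eventually_ge_atTop 1] with m hm2 hg1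
      have hm0 : (m : ℝ) ≠ 0 := by positivity
      have hg0 : (g m : ℝ) ≠ 0 := by positivity
      have hl0 : Real.log m ≠ 0 := by
        have : (1 : ℝ) < m := by exact_mod_cast hm2
        exact (Real.log_pos this).ne'
      rw [Real.log_div hg0 hm0]
      field_simp
      ring
    have h6 := h4.inv₀ one_ne_zero
    rw [inv_one] at h6
    refine h6.congr fun m => ?_
    rw [inv_div]
  have h7 := (h1.mul hg).mul hlog
  rw [mul_one] at h7
  refine h7.congr' ?_
  filter_upwards [eventually_ge_atTop 2, hgn.eventually_ge_atTop 2] with m hm2 hg2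
  simp only [Function.comp]
  have hm0 : (m : ℝ) ≠ 0 := by positivity
  have hg0 : (g m : ℝ) ≠ 0 := by positivity
  have hl0 : Real.log (g m) ≠ 0 := by
    have : (1 : ℝ) < g m := by exact_mod_cast hg2
    exact (Real.log_pos this).ne'
  field_simp

lemma floor_div_tendsto {α : ℝ} (hα : 0 ≤ α) :
    Tendsto (fun m : ℕ => ((⌊α * m⌋₊ : ℕ) : ℝ) / m) atTop (𝓝 α) := by
  have h1 := tendsto_nat_floor_mul_div_atTop (R := ℝ) hα
  exact h1.comp tendsto_natCast_atTop_atTop

/-- Uniform version on `[0, 5 m]`. -/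
lemma pc_unif {q b : ℕ} {κ : ℝ} (hκ : 0 ≤ κ)
    (h : Tendsto (fun N : ℕ => (pc q b N : ℝ) * Real.log N / N) atTop (𝓝 κ)) {τ : ℝ} (hτ : 0 < τ) :
    ∀ᶠ m : ℕ in atTop, ∀ N : ℕ, N ≤ 5 * m →
      |(pc q b N : ℝ) * Real.log m / m - κ * (N / m)| ≤ τ := by
  -- grid
  set θ : ℝ := τ / (2 * (κ + 1)) with hθ
  have hθ0 : 0 < θ := by positivity
  obtain ⟨J, hJ⟩ := exists_nat_gt (5 / θ)
  have hgrid : ∀ j : ℕ, ∀ᶠ m : ℕ in atTop,
      |(pc q b ⌊θ * j * m⌋₊ : ℝ) * Real.log m / m - κ * (θ * j)| ≤ τ / 2 := by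
    intro j
    rcases Nat.eq_zero_or_pos j with rfl | hj
    · refine Filter.Eventually.of_forall fun m => ?_
      simp [pc]
      positivity
    · have hα : 0 < θ * j := by positivity
      have h1 := pc_comp h hα (floor_div_tendsto hα.le)
      have h2 := (Metric.tendsto_nhds.1 h1) (τ / 2) (by positivity)
      filter_upwards [h2] with m hm
      rw [Real.dist_eq] at hm
      exact hm.le
  have hall : ∀ᶠ m : ℕ in atTop, ∀ j ∈ range (J + 2),
      |(pc q b ⌊θ * j * m⌋₊ : ℝ) * Real.log m / m - κ * (θ * j)| ≤ τ / 2 := by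
    rw [Filter.eventually_all_finset]
    exact fun j _ => hgrid j
  filter_upwards [hall, eventually_ge_atTop 2] with m hall hm2 N hN
  have hm0 : (0 : ℝ) < m := by positivity
  have hl0 : 0 < Real.log m := by
    have : (1 : ℝ) < m := by exact_mod_cast hm2
    exact Real.log_pos this
  -- choose j with θ j m ≤ N < θ (j+1) m
  set j : ℕ := ⌊(N : ℝ) / (θ * m)⌋₊ with hj
  have hj1 : (j : ℝ) ≤ N / (θ * m) := Nat.floor_le (by positivity)
  have hj2 : (N : ℝ) / (θ * m) < j + 1 := Nat.lt_floor_add_one _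
  have hjJ : j < J := by
    have h1 : (N : ℝ) / (θ * m) ≤ 5 / θ := by
      rw [div_le_div_iff₀ (by positivity) hθ0]
      have : (N : ℝ) ≤ 5 * m := by exact_mod_cast hN
      nlinarith
    have : (j : ℝ) < J := by linarith
    exact_mod_cast this
  have ha := hall j (Finset.mem_range.2 (by omega))
  have hb := hall (j + 1) (Finset.mem_range.2 (by omega))
  have hc1 : θ * j * m ≤ N := by
    rw [le_div_iff₀ (by positivity)] at hj1
    nlinarith
  have hc2 : (N : ℝ) ≤ θ * ((j + 1 : ℕ) : ℝ) * m := by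
    rw [div_lt_iff₀ (by positivity)] at hj2
    push_cast
    nlinarith
  have hd1 : pc q b ⌊θ * j * m⌋₊ ≤ pc q b N := by
    refine pc_mono q b ?_
    exact Nat.floor_le_of_le hc1
  have hd2 : pc q b N ≤ pc q b ⌊θ * ((j + 1 : ℕ) : ℝ) * m⌋₊ := by
    refine pc_mono q b ?_
    exact Nat.le_floor hc2
  have hd1' : (pc q b ⌊θ * j * m⌋₊ : ℝ) * Real.log m / m ≤ (pc q b N : ℝ) * Real.log m / m := by
    have : (pc q b ⌊θ * j * m⌋₊ : ℝ) ≤ pc q b N := by exact_mod_cast hd1
    gcongr
  have hd2' : (pc q b N : ℝ) * Real.log m / m ≤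
      (pc q b ⌊θ * ((j + 1 : ℕ) : ℝ) * m⌋₊ : ℝ) * Real.log m / m := by
    have : (pc q b N : ℝ) ≤ pc q b ⌊θ * ((j + 1 : ℕ) : ℝ) * m⌋₊ := by exact_mod_cast hd2
    gcongr
  rw [abs_le] at ha hb ⊢
  have he1 : θ * j ≤ N / m := by rw [le_div_iff₀ hm0]; exact hc1
  have he2 : (N : ℝ) / m ≤ θ * ((j + 1 : ℕ) : ℝ) := by rw [div_le_iff₀ hm0]; exact hc2
  have hκθ : κ * θ ≤ τ / 2 := by
    rw [hθ]
    rw [mul_div_assoc', div_le_div_iff₀ (by positivity) (by norm_num)]
    nlinarith
  push_cast at hb he2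
  have hf1 : κ * (θ * j) ≤ κ * (N / m) := by gcongr
  have hf2 : κ * (N / m) ≤ κ * (θ * (j + 1)) := by gcongr
  have hf3 : κ * (θ * (j + 1)) = κ * (θ * j) + κ * θ := by ring
  constructor
  · nlinarith [ha.1, hd1', hf2]
  · have := hb.2
    push_cast at hd2'
    nlinarith [hf1]

lemma pc_window (q r : ℕ) {a b : ℕ} (hab : a ≤ b) :
    ((Ico a b).filter (fun k => (2 * k + 3).Prime ∧ (2 * k + 3) % q = r % q)).card +
      pc q r (2 * a + 3) = pc q r (2 * b + 3) := by
  have h1 : ((Ico a b).filter (fun k => (2 * k + 3).Prime ∧ (2 * k + 3) % q = r % q)).card =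
      ((Ico (2 * a + 3) (2 * b + 3)).filter (fun p => p.Prime ∧ p % q = r % q)).card := by
    refine Finset.card_bij (fun k _ => 2 * k + 3) ?_ ?_ ?_
    · intro k hk
      rw [Finset.mem_filter, Finset.mem_Ico] at hk ⊢
      exact ⟨by omega, hk.2⟩
    · intro k _ l _ h
      omega
    · intro p hp
      rw [Finset.mem_filter, Finset.mem_Ico] at hp
      obtain ⟨⟨h1, h2⟩, hpp, hpm⟩ := hp
      have hodd : p % 2 = 1 := by
        rcases hpp.eq_two_or_odd with h | h
        · omega
        · exact h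
      refine ⟨(p - 3) / 2, ?_, by omega⟩
      have e : 2 * ((p - 3) / 2) + 3 = p := by omega
      rw [Finset.mem_filter, Finset.mem_Ico, e]
      exact ⟨by omega, hpp, hpm⟩
  rw [h1]
  unfold pc
  rw [← Finset.card_union_of_disjoint]
  · congr 1
    rw [← Finset.filter_union]
    congr 1
    ext x
    simp only [Finset.mem_union, Finset.mem_Ico, Finset.mem_range]
    omega
  · refine Finset.disjoint_filter_filter ?_
    rw [Finset.disjoint_left]
    intro x hx hx'
    rw [Finset.mem_Ico] at hx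
    rw [Finset.mem_range] at hx'
    omega

/-- The prime number theorem in arithmetic progressions, as a statement. -/
def PNTAP : Prop := ∀ q a : ℕ, 0 < q → Nat.Coprime a q →
    Tendsto (fun N : ℕ => (((range N).filter (fun p => p.Prime ∧ p % q = a % q)).card : ℝ) *
      Real.log N / N) atTop (nhds (1 / (Nat.totient q : ℝ)))

theorem deg_PA (hP : PNTAP) (ε : ℝ) (hε : 0 < ε) : ∀ᶠ m : ℕ in atTop, ∀ i < m,
    (1 - ε) * dd m ≤ (dX PA (range m) i : ℝ) ∧ (dX PA (range m) i : ℝ) ≤ (1 + ε) * dd m := by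
  have h0 := hP 1 0 one_pos (by norm_num)
  have h1 : Tendsto (fun N : ℕ => (pc 1 0 N : ℝ) * Real.log N / N) atTop (𝓝 1) := by
    have := h0
    rw [Nat.totient_one] at this
    norm_num at this
    refine (this.congr ?_)
    intro N
    unfold pc
    simp [Nat.mod_one]
  filter_upwards [pc_unif zero_le_one h1 hε, eventually_ge_atTop 3] with m hm hm3 i hi
  have hm0 : (0 : ℝ) < m := by positivity
  have hl0 : 0 < Real.log m := by
    have : (1 : ℝ) < m := by exact_mod_cast (by omega : 1 < m)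
    exact Real.log_pos this
  have hd : dX PA (range m) i + pc 1 0 (2 * i + 3) = pc 1 0 (2 * (i + m) + 3) := by
    rw [← pc_window 1 0 (Nat.le_add_right i m)]
    congr 1
    classical
    unfold dX
    refine Finset.card_bij (fun k _ => i + k) ?_ ?_ ?_
    · intro k hk
      rw [Finset.mem_filter, Finset.mem_range] at hk
      rw [Finset.mem_filter, Finset.mem_Ico]
      obtain ⟨hk1, hk2⟩ := hk
      unfold PA at hk2
      refine ⟨by omega, ?_, by simp [Nat.mod_one]⟩
      rwa [add_comm i k]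
    · intro k _ l _ h
      omega
    · intro k hk
      rw [Finset.mem_filter, Finset.mem_Ico] at hk
      refine ⟨k - i, ?_, by omega⟩
      rw [Finset.mem_filter, Finset.mem_range]
      refine ⟨by omega, ?_⟩
      unfold PA
      have e : k - i + i = k := by omega
      rw [e]
      exact hk.2.1
  have hdr : (dX PA (range m) i : ℝ) = pc 1 0 (2 * (i + m) + 3) - pc 1 0 (2 * i + 3) := by
    have : (dX PA (range m) i : ℝ) + pc 1 0 (2 * i + 3) = pc 1 0 (2 * (i + m) + 3) := by
      exact_mod_cast hd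
    linarith
  have ha := abs_le.1 (hm (2 * (i + m) + 3) (by omega))
  have hb := abs_le.1 (hm (2 * i + 3) (by omega))
  have hkey : (dX PA (range m) i : ℝ) * Real.log m / m =
      (pc 1 0 (2 * (i + m) + 3) : ℝ) * Real.log m / m - (pc 1 0 (2 * i + 3) : ℝ) * Real.log m / m := by
    rw [hdr]; ring
  have hN : 1 * (((2 * (i + m) + 3 : ℕ) : ℝ) / m) - 1 * (((2 * i + 3 : ℕ) : ℝ) / m) = 2 := by
    push_cast
    field_simp
    ring
  have hx : dd m * Real.log m / m = 2 := by
    unfold dd
    field_simp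
  have hpos : 0 < Real.log m / m := by positivity
  constructor
  · have h2 : (1 - ε) * dd m * (Real.log m / m) ≤ (dX PA (range m) i : ℝ) * (Real.log m / m) := by
      have e1 : (1 - ε) * dd m * (Real.log m / m) = (1 - ε) * (dd m * Real.log m / m) := by ring
      have e2 : (dX PA (range m) i : ℝ) * (Real.log m / m) = (dX PA (range m) i : ℝ) * Real.log m / m := by
        ring
      rw [e1, e2, hx, hkey]
      linarith [ha.1, hb.2]
    exact le_of_mul_le_mul_right h2 hpos
  · have h2 : (dX PA (range m) i : ℝ) * (Real.log m / m) ≤ (1 + ε) * dd m * (Real.log m / m) := by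
      have e1 : (1 + ε) * dd m * (Real.log m / m) = (1 + ε) * (dd m * Real.log m / m) := by ring
      have e2 : (dX PA (range m) i : ℝ) * (Real.log m / m) = (dX PA (range m) i : ℝ) * Real.log m / m := by
        ring
      rw [e1, e2, hx, hkey]
      linarith [ha.2, hb.1]
    exact le_of_mul_le_mul_right h2 hpos

theorem window_ap (hP : PNTAP) {q r : ℕ} (hq : 0 < q) (hr : Nat.Coprime r q) {δ : ℝ} (hδ : 0 < δ)
    (hδ1 : δ ≤ 1) : ∀ᶠ m : ℕ in atTop,
    δ / (2 * (Nat.totient q : ℝ)) * dd m ≤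
      (((Ico (m - ⌊δ * m⌋₊) m).filter (fun k => (2 * k + 3).Prime ∧ (2 * k + 3) % q = r % q)).card : ℝ) := by
  have hφ : (0 : ℝ) < Nat.totient q := by exact_mod_cast Nat.totient_pos.2 hq
  set κ : ℝ := 1 / (Nat.totient q : ℝ) with hκ
  have hκ0 : 0 < κ := by positivity
  have h1 : Tendsto (fun N : ℕ => (pc q r N : ℝ) * Real.log N / N) atTop (𝓝 κ) := hP q r hq hr
  have hτ : 0 < κ * δ / 4 := by positivity
  obtain ⟨N1, hN1⟩ := exists_nat_gt (4 / δ)
  filter_upwards [pc_unif hκ0.le h1 hτ, eventually_ge_atTop 3, eventually_ge_atTop N1] with m hm hm3 hmN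
  have hm0 : (0 : ℝ) < m := by positivity
  have hl0 : 0 < Real.log m := by
    have : (1 : ℝ) < m := by exact_mod_cast (by omega : 1 < m)
    exact Real.log_pos this
  set D := ⌊δ * m⌋₊ with hD
  have hDm : D ≤ m := by
    have : (D : ℝ) ≤ δ * m := Nat.floor_le (by positivity)
    have : (D : ℝ) ≤ m := this.trans (by nlinarith)
    exact_mod_cast this
  have hD2 : δ * m < D + 1 := Nat.lt_floor_add_one _
  have hw := pc_window q r (Nat.sub_le m D)
  set W := ((Ico (m - D) m).filter (fun k => (2 * k + 3).Prime ∧ (2 * k + 3) % q = r % q)).card with hW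
  have hwr : (W : ℝ) = pc q r (2 * m + 3) - pc q r (2 * (m - D) + 3) := by
    have : (W : ℝ) + pc q r (2 * (m - D) + 3) = pc q r (2 * m + 3) := by exact_mod_cast hw
    linarith
  have ha := abs_le.1 (hm (2 * m + 3) (by omega))
  have hb := abs_le.1 (hm (2 * (m - D) + 3) (by omega))
  have hkey : (W : ℝ) * Real.log m / m =
      (pc q r (2 * m + 3) : ℝ) * Real.log m / m - (pc q r (2 * (m - D) + 3) : ℝ) * Real.log m / m := by
    rw [hwr]; ring
  have hN : κ * (((2 * m + 3 : ℕ) : ℝ) / m) - κ * (((2 * (m - D) + 3 : ℕ) : ℝ) / m) =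
      κ * (2 * D / m) := by
    have : ((m - D : ℕ) : ℝ) = (m : ℝ) - D := by rw [Nat.cast_sub hDm]
    push_cast
    rw [this]
    field_simp
    ring
  have h3 : κ * δ ≤ (W : ℝ) * Real.log m / m := by
    have h4 : δ * (3 / 4) ≤ D / m := by
      rw [le_div_iff₀ hm0]
      have h5 : (4 : ℝ) / δ < m := hN1.trans_le (by exact_mod_cast hmN)
      have h6 : 4 < m * δ := by rwa [div_lt_iff₀ hδ] at h5
      nlinarith
    have h5 : κ * (2 * (δ * (3 / 4))) ≤ κ * (2 * D / m) := by
      have : 2 * (δ * (3 / 4)) ≤ 2 * (D : ℝ) / m := by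
        rw [mul_div_assoc]; linarith
      gcongr
    rw [hkey]
    nlinarith [ha.1, hb.2]
  have hpos : 0 < Real.log m / m := by positivity
  have hx : dd m * Real.log m / m = 2 := by
    unfold dd
    field_simp
  have h2 : δ / (2 * (Nat.totient q : ℝ)) * dd m * (Real.log m / m) ≤ (W : ℝ) * (Real.log m / m) := by
    have e1 : δ / (2 * (Nat.totient q : ℝ)) * dd m * (Real.log m / m) =
        δ / (2 * (Nat.totient q : ℝ)) * (dd m * Real.log m / m) := by ring
    have e2 : (W : ℝ) * (Real.log m / m) = (W : ℝ) * Real.log m / m := by ring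
    rw [e1, e2, hx]
    have e3 : δ / (2 * (Nat.totient q : ℝ)) * 2 = κ * δ := by
      rw [hκ]; field_simp
    rw [e3]
    exact h3
  exact le_of_mul_le_mul_right h2 hpos

end Pool.Agent.PC
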