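import Mathlib
import Pool.Agent.PC.Expand
import Pool.Agent.PC.PrimeCount
import Pool.Agent.PC.CodegPA

set_option autoImplicit false

/-! Block D: the expansion property of the prime sum graph. -/

namespace Pool.Agent.PC

open Finset Filter Topology

set_option maxHeartbeats 1000000 in
/-- The deterministic core: contradiction for one large `m`. -/
lemma exp_core {m D R g η Kc : ℕ} {X Y : Finset ℕ} {d δ θ ε0 η0 c2 : ℝ}
    (hR2 : 2 ≤ R) (hg : g = R.factorial) (hRD : 2 * R ≤ D) (hDg : 4 * D * g ≤ m - D) (hDm : D ≤ m)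
    (hd : 0 < d) (hθ : 0 < θ) (hθδ : θ ≤ δ / 2) (hε0 : 0 < ε0) (hη0 : 0 < η0)
    (hη : η = ⌊η0 * m⌋₊)
    (hX : X ⊆ range m) (hX1 : ε0 * m ≤ (X.card : ℝ)) (hX2 : (X.card : ℝ) ≤ (1 - ε0) * m)
    (hDε : (D : ℝ) ≤ ε0 / 8 * m) (hm0 : (0 : ℝ) < m)
    (hc2 : 2 < (R + 1) * c2)
    -- windows
    (hKw : δ / 2 * d ≤ ((Kw m D).card : ℝ))
    (hK1 : θ * d ≤ (((Ico (m - D) m).filter (fun k => (2 * k + 3).Prime ∧ (2 * k + 3) % (2 * g) = 1 % (2 * g))).card : ℝ))
    (hK2 : θ * d ≤ (((Ico (m - D) m).filter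
      (fun k => (2 * k + 3).Prime ∧ (2 * k + 3) % (2 * g) = (2 * g - 1) % (2 * g))).card : ℝ))
    -- bad elements
    (hbad : ∑ k ∈ Kw m D, (Bad X Y k : ℝ) ≤ η0 * m * (θ * d / 4))
    -- density
    (hdens : ∀ K ⊆ Kw m D, δ / 4 * d ≤ (K.card : ℝ) → c2 * D ≤ ((shifts K D).card : ℝ))
    (hKc : (m - D) / (D / R) + D / (D / R) + 2 ≤ Kc)
    (hfin : 32 * ((4 * g * Kc + 2 * g * (4 * g * Kc + 1) : ℕ) : ℝ) * η0 ≤ ε0 ^ 2) : False := by
  classical
  set M := m - D with hM
  -- good elements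
  set G := (Kw m D).filter (fun k => (Bad X Y k : ℝ) ≤ η0 * m / 2) with hG
  set Bd := (Kw m D).filter (fun k => ¬ (Bad X Y k : ℝ) ≤ η0 * m / 2) with hBd
  have hBdc : (Bd.card : ℝ) ≤ θ * d / 2 := by
    have h1 : (Bd.card : ℝ) * (η0 * m / 2) ≤ η0 * m * (θ * d / 4) := by
      calc (Bd.card : ℝ) * (η0 * m / 2) = ∑ k ∈ Bd, η0 * m / 2 := by
            rw [Finset.sum_const, nsmul_eq_mul]
        _ ≤ ∑ k ∈ Bd, (Bad X Y k : ℝ) := Finset.sum_le_sum fun k hk =>
            (not_le.1 (Finset.mem_filter.1 hk).2).le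
        _ ≤ ∑ k ∈ Kw m D, (Bad X Y k : ℝ) := Finset.sum_le_sum_of_subset_of_nonneg
            (Finset.filter_subset _ _) (fun _ _ _ => Nat.cast_nonneg _)
        _ ≤ _ := hbad
    have h2 : 0 < η0 * m := by positivity
    nlinarith
  have hGc : δ / 4 * d ≤ (G.card : ℝ) := by
    have h1 : (G.card : ℝ) + Bd.card = (Kw m D).card := by
      rw [hG, hBd]
      exact_mod_cast Finset.card_filter_add_card_filter_not _
    have h2 : θ * d / 2 ≤ δ / 4 * d := by nlinarith
    linarith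
  have hgood : ∀ r : ℕ, θ * d ≤ (((Ico (m - D) m).filter
      (fun k => (2 * k + 3).Prime ∧ (2 * k + 3) % (2 * g) = r % (2 * g))).card : ℝ) →
      ∃ k ∈ G, (2 * k + 3) % (2 * g) = r % (2 * g) := by
    intro r hr
    by_contra hcon
    push Not at hcon
    have h1 : (Ico (m - D) m).filter
        (fun k => (2 * k + 3).Prime ∧ (2 * k + 3) % (2 * g) = r % (2 * g)) ⊆ Bd := by
      intro k hk
      rw [Finset.mem_filter] at hk
      have hkw : k ∈ Kw m D := by
        unfold Kw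
        rw [Finset.mem_filter]
        exact ⟨hk.1, hk.2.1⟩
      rw [hBd, Finset.mem_filter]
      refine ⟨hkw, fun h2 => hcon k ?_ hk.2.2⟩
      rw [hG, Finset.mem_filter]
      exact ⟨hkw, h2⟩
    have h2 : (((Ico (m - D) m).filter
        (fun k => (2 * k + 3).Prime ∧ (2 * k + 3) % (2 * g) = r % (2 * g))).card : ℝ) ≤ Bd.card := by
      exact_mod_cast Finset.card_le_card h1
    have h3 : 0 < θ * d := by positivity
    linarith
  have hGsub : ∀ k ∈ G, M ≤ k ∧ k < m ∧ (Bad X Y k : ℝ) ≤ η0 * m / 2 := by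
    intro k hk
    rw [hG, Finset.mem_filter] at hk
    obtain ⟨h1, h2⟩ := hk
    unfold Kw at h1
    rw [Finset.mem_filter, Finset.mem_Ico] at h1
    exact ⟨h1.1.1, h1.1.2, h2⟩
  have hnear : ∀ k ∈ G, ∀ h, k + h ∈ G → Nn (fun i => i ∈ X) M h ≤ η := by
    intro k hk h hkh
    have h1 := near_from_bad X Y (M := M) (k := k) (h := h) (hGsub k hk).1
    have h2 : ((Bad X Y k + Bad X Y (k + h) : ℕ) : ℝ) ≤ η0 * m := by
      push_cast
      have := (hGsub k hk).2.2
      have := (hGsub _ hkh).2.2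
      linarith
    rw [hη]
    exact Nat.le_floor ((by exact_mod_cast h1 : ((Nn (fun i => i ∈ X) M h : ℕ) : ℝ) ≤
      ((Bad X Y k + Bad X Y (k + h) : ℕ) : ℝ)).trans h2)
  -- the set of good shifts
  have hA1 : ∀ a ∈ shifts G D, a < D := by
    intro a ha
    unfold shifts at ha
    exact (Finset.mem_Ico.1 (Finset.mem_filter.1 ha).1).2
  have hA2 : ∀ a ∈ shifts G D, Nn (fun i => i ∈ X) M a ≤ η := by
    intro a ha
    unfold shifts at ha
    obtain ⟨k, hk, hka⟩ := (Finset.mem_filter.1 ha).2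
    exact hnear k hk a hka
  have hA3 : 2 * D < (R + 1) * (shifts G D).card := by
    have h1 := hdens G (Finset.filter_subset _ _) hGc
    have hD0 : (0 : ℝ) < D := by exact_mod_cast (by omega : 0 < D)
    have h2 : (2 : ℝ) * D < (R + 1) * (shifts G D).card := by
      have h3 : ((R : ℝ) + 1) * (c2 * D) ≤ (R + 1) * (shifts G D).card := by gcongr
      nlinarith
    exact_mod_cast h2
  -- the special shift
  have hspec : ∃ s, s < D ∧ Nn (fun i => i ∈ X) M s ≤ η ∧ (g ∣ s + 1 ∨ g ∣ s - 1 ∧ 1 ≤ s) := by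
    obtain ⟨k1, hk1, hk1'⟩ := hgood 1 hK1
    obtain ⟨k2, hk2, hk2'⟩ := hgood (2 * g - 1) hK2
    have hg2 : 2 ≤ g := by
      rw [hg]
      exact hR2.trans (Nat.self_le_factorial R)
    have b1 := hGsub k1 hk1
    have b2 := hGsub k2 hk2
    have e1 : (2 * g : ℕ) ∣ (2 * k1 + 3) - 1 := by
      rw [← Nat.modEq_iff_dvd' (by omega)]
      exact hk1'.symm
    have e2 : (2 * g : ℕ) ∣ (2 * k2 + 3) + 1 := by
      have h1 : (2 * k2 + 3) ≡ (2 * g - 1) [MOD 2 * g] := hk2'
      have h2 : (2 * k2 + 3) + 1 ≡ (2 * g - 1) + 1 [MOD 2 * g] := Nat.ModEq.add_right 1 h1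
      have h3 : 2 * g - 1 + 1 = 2 * g := by omega
      rw [h3] at h2
      exact (Nat.modEq_zero_iff_dvd.1 (h2.trans (by simp [Nat.ModEq])))
    obtain ⟨u, hu⟩ := e1
    obtain ⟨v, hv⟩ := e2
    have hu' : k1 + 1 = g * u := by
      have : 2 * (g * u) = 2 * k1 + 3 - 1 := by rw [hu]; ring
      omega
    have hv' : k2 + 2 = g * v := by
      have : 2 * (g * v) = 2 * k2 + 3 + 1 := by rw [hv]; ring
      omega
    rcases le_or_gt k1 k2 with h | h
    · refine ⟨k2 - k1, by omega, hnear k1 hk1 _ (by rw [Nat.add_sub_cancel' h]; exact hk2), Or.inl ?_⟩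
      have e : k2 - k1 + 1 = g * v - g * u := by omega
      rw [e, ← Nat.mul_sub]
      exact Dvd.intro _ rfl
    · refine ⟨k1 - k2, by omega, hnear k2 hk2 _ (by rw [Nat.add_sub_cancel' h.le]; exact hk1), Or.inr ⟨?_, by omega⟩⟩
      have e : k1 - k2 - 1 = g * u - g * v := by omega
      rw [e, ← Nat.mul_sub]
      exact Dvd.intro _ rfl
  obtain ⟨s, hs, hs1, hs2⟩ := hspec
  have hall : ∀ h < M, Nn (fun i => i ∈ X) M h ≤ (4 * g * Kc + 2 * g * (4 * g * Kc + 1)) * η := by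
    intro h hh
    have h1 := near_all (fun i => i ∈ X) M D R η (shifts G D) (by omega) (by omega)
      (by rw [← hg]; exact hDg) hA1 hA3 hA2 s hs hs1 (by rw [← hg]; exact hs2) h hh
    rw [← hg] at h1
    refine h1.trans ?_
    have h2 : 4 * g * η * (M / (D / R) + D / (D / R) + 2) ≤ 4 * g * η * Kc := Nat.mul_le_mul_left _ hKc
    calc 4 * g * η * (M / (D / R) + D / (D / R) + 2) +
        2 * g * (4 * g * η * (M / (D / R) + D / (D / R) + 2) + η)
        ≤ 4 * g * η * Kc + 2 * g * (4 * g * η * Kc + η) := by gcongr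
      _ = _ := by ring
  have hsum : ∑ h ∈ range M, Nn (fun i => i ∈ X) M h ≤ M * ((4 * g * Kc + 2 * g * (4 * g * Kc + 1)) * η) := by
    calc _ ≤ ∑ h ∈ range M, (4 * g * Kc + 2 * g * (4 * g * Kc + 1)) * η :=
          Finset.sum_le_sum fun h hh => hall h (Finset.mem_range.1 hh)
      _ = _ := by rw [Finset.sum_const, Finset.card_range, smul_eq_mul]
  have hpairs := (pairs_le (fun i => i ∈ X) M).trans hsum
  -- sizes
  set X1 := (range M).filter (fun i => i ∈ X) with hX1d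
  set X2 := (range M).filter (fun i => ¬ i ∈ X) with hX2d
  have hMr : (M : ℝ) = m - D := by rw [hM, Nat.cast_sub hDm]
  have hs1' : (X.card : ℝ) - D ≤ X1.card := by
    have h1 : X.card ≤ X1.card + D := by
      have h2 : X ⊆ X1 ∪ Ico M m := by
        intro x hx
        have := Finset.mem_range.1 (hX hx)
        rw [Finset.mem_union]
        by_cases h3 : x < M
        · left
          rw [hX1d, Finset.mem_filter, Finset.mem_range]
          exact ⟨h3, hx⟩
        · right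
          rw [Finset.mem_Ico]
          omega
      have h3 := (Finset.card_le_card h2).trans (Finset.card_union_le _ _)
      rw [Nat.card_Ico] at h3
      omega
    have : (X.card : ℝ) ≤ X1.card + D := by exact_mod_cast h1
    linarith
  have hs2' : (m : ℝ) - D - X.card ≤ X2.card := by
    have h1 : M ≤ X.card + X2.card := by
      have h2 : range M ⊆ X ∪ X2 := by
        intro x hx
        rw [Finset.mem_union]
        by_cases h3 : x ∈ X
        · left; exact h3
        · right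
          rw [hX2d, Finset.mem_filter]
          exact ⟨hx, h3⟩
      have h3 := (Finset.card_le_card h2).trans (Finset.card_union_le _ _)
      rwa [Finset.card_range] at h3
    have : (M : ℝ) ≤ X.card + X2.card := by exact_mod_cast h1
    linarith
  have hp : (X1.card : ℝ) * X2.card ≤ M * (((4 * g * Kc + 2 * g * (4 * g * Kc + 1) : ℕ) : ℝ) * η) := by
    have h1 : X1.card * X2.card ≤ M * ((4 * g * Kc + 2 * g * (4 * g * Kc + 1)) * η) := by
      refine le_trans (le_of_eq ?_) hpairs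
      congr!
    exact_mod_cast h1
  have hηr : (η : ℝ) ≤ η0 * m := by rw [hη]; exact Nat.floor_le (by positivity)
  set Λ : ℝ := ((4 * g * Kc + 2 * g * (4 * g * Kc + 1) : ℕ) : ℝ) with hΛ
  have hΛ0 : 0 ≤ Λ := Nat.cast_nonneg _
  have hl1 : 7 / 8 * ε0 * m ≤ X1.card := by linarith
  have hl2 : 7 / 8 * ε0 * m ≤ X2.card := by linarith
  have hprod : (7 / 8 * ε0 * m) * (7 / 8 * ε0 * m) ≤ (X1.card : ℝ) * X2.card := by gcongr
  have hMm : (M : ℝ) ≤ m := by rw [hMr]; linarith [Nat.cast_nonneg (α := ℝ) D]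
  have hup : (M : ℝ) * (Λ * η) ≤ m * (Λ * (η0 * m)) := by gcongr
  have hΛη : Λ * η0 ≤ ε0 ^ 2 / 32 := by linarith
  have hup2 : (m : ℝ) * (Λ * (η0 * m)) ≤ ε0 ^ 2 / 32 * m ^ 2 := by
    calc (m : ℝ) * (Λ * (η0 * m)) = (Λ * η0) * m ^ 2 := by ring
      _ ≤ _ := by gcongr
  have : 0 < ε0 ^ 2 * (m : ℝ) ^ 2 := by positivity
  nlinarith

/-- Density of shifts, from the sieve. -/
lemma dens_core {C1 C2 : ℝ} (hC1 : 0 < C1) (hC2 : 0 < C2)
    (hS : ∀ M L h : ℕ, 2 ≤ L → 0 < h →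
    (((Ioc M (M + L)).filter (fun n => n.Prime ∧ (n + h).Prime)).card : ℝ) ≤
      C1 * ((h : ℝ) / Nat.totient h) * L / Real.log L ^ 2)
    (hR : ∀ H : ℕ, ∑ h ∈ Icc 1 H, ((h : ℝ) / Nat.totient h) ^ 2 ≤ C2 * H)
    {m D : ℕ} (hD : 1 ≤ D) (hDm : D ≤ m) {l : ℝ} (hl : 0 < l) (hl2 : l ≤ 2 * Real.log (2 * D))
    {K : Finset ℕ} (hK : K ⊆ Kw m D) (hK2 : 2 ≤ K.card) (hKl : (D : ℝ) / (2 * l) ≤ K.card) :
    1 / (65536 * C1 ^ 2 * C2) * D ≤ ((shifts K D).card : ℝ) := by
  have hD0 : (0 : ℝ) < D := by exact_mod_cast hD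
  have hB : ∑ h ∈ Ico 1 D, ((K.filter (fun k => k + h ∈ K)).card : ℝ) ^ 2 ≤
      256 * C1 ^ 2 * C2 * D ^ 3 / l ^ 4 := by
    have h1 : ∀ h ∈ Ico 1 D, ((K.filter (fun k => k + h ∈ K)).card : ℝ) ^ 2 ≤
        (16 * C1 * D / l ^ 2) ^ 2 * ((h : ℝ) / Nat.totient h) ^ 2 := by
      intro h hh
      rw [Finset.mem_Ico] at hh
      have h2 : ((K.filter (fun k => k + h ∈ K)).card : ℝ) ≤
          4 * C1 * ((h : ℝ) / Nat.totient h) * D / Real.log (2 * D) ^ 2 := by
        refine le_trans ?_ (pair_window hC1 hS (m - D) D h hD (by omega))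
        have h3 : K.filter (fun k => k + h ∈ K) ⊆ (Ico (m - D) (m - D + D)).filter
            (fun k => (2 * k + 3).Prime ∧ (2 * (k + h) + 3).Prime) := by
          intro k hk
          rw [Finset.mem_filter] at hk
          have h4 := hK hk.1
          have h5 := hK hk.2
          unfold Kw at h4 h5
          rw [Finset.mem_filter, Finset.mem_Ico] at h4 h5
          rw [Finset.mem_filter, Finset.mem_Ico]
          exact ⟨by omega, h4.2, h5.2⟩
        exact_mod_cast Finset.card_le_card h3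
      have h3 : 4 * C1 * ((h : ℝ) / Nat.totient h) * D / Real.log (2 * D) ^ 2 ≤
          16 * C1 * D / l ^ 2 * ((h : ℝ) / Nat.totient h) := by
        have h4 : 0 < Real.log (2 * D) := by linarith
        have h5 : l ^ 2 ≤ 4 * Real.log (2 * D) ^ 2 := by nlinarith
        rw [div_mul_eq_mul_div, div_le_div_iff₀ (by positivity) (by positivity)]
        calc 4 * C1 * ((h : ℝ) / Nat.totient h) * D * l ^ 2
            ≤ 4 * C1 * ((h : ℝ) / Nat.totient h) * D * (4 * Real.log (2 * D) ^ 2) := by gcongr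
          _ = _ := by ring
      calc ((K.filter (fun k => k + h ∈ K)).card : ℝ) ^ 2
          ≤ (16 * C1 * D / l ^ 2 * ((h : ℝ) / Nat.totient h)) ^ 2 := by
            gcongr
            exact h2.trans h3
        _ = _ := by ring
    calc _ ≤ ∑ h ∈ Ico 1 D, (16 * C1 * D / l ^ 2) ^ 2 * ((h : ℝ) / Nat.totient h) ^ 2 :=
          Finset.sum_le_sum h1
      _ ≤ ∑ h ∈ Icc 1 D, (16 * C1 * D / l ^ 2) ^ 2 * ((h : ℝ) / Nat.totient h) ^ 2 := by
          refine Finset.sum_le_sum_of_subset_of_nonneg ?_ (fun _ _ _ => by positivity)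
          intro h hh
          rw [Finset.mem_Ico] at hh
          rw [Finset.mem_Icc]
          omega
      _ = (16 * C1 * D / l ^ 2) ^ 2 * ∑ h ∈ Icc 1 D, ((h : ℝ) / Nat.totient h) ^ 2 := by
          rw [Finset.mul_sum]
      _ ≤ (16 * C1 * D / l ^ 2) ^ 2 * (C2 * D) := by
          gcongr
          exact hR D
      _ = _ := by ring
  have hKs : K ⊆ Ico (m - D) (m - D + D) := by
    intro k hk
    have h4 := hK hk
    unfold Kw at h4
    rw [Finset.mem_filter, Finset.mem_Ico] at h4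
    rw [Finset.mem_Ico]
    omega
  have h1 := shifts_card hKs hK2 hB
  have h2 : (((D : ℝ) / (2 * l)) ^ 2 / 4) ^ 2 ≤ ((K.card : ℝ) ^ 2 / 4) ^ 2 := by gcongr
  have h3 := h2.trans h1
  have h4 : (((D : ℝ) / (2 * l)) ^ 2 / 4) ^ 2 = (D / (65536 * C1 ^ 2 * C2)) * (256 * C1 ^ 2 * C2 * D ^ 3 / l ^ 4) := by
    field_simp
    ring
  rw [h4] at h3
  have h5 : 0 < 256 * C1 ^ 2 * C2 * (D : ℝ) ^ 3 / l ^ 4 := by positivity
  have h6 := le_of_mul_le_mul_right h3 h5
  calc 1 / (65536 * C1 ^ 2 * C2) * D = D / (65536 * C1 ^ 2 * C2) := by ring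
    _ ≤ _ := h6

set_option maxHeartbeats 4000000 in
theorem exp_PA (hP : PNTAP) (hS : PairSieve) (hR : SumRatio) (ε : ℝ) (hε : 0 < ε) :
    ∃ c : ℝ, 0 < c ∧ ∀ᶠ m : ℕ in atTop, ∀ X ⊆ range m,
    ε * m ≤ (X.card : ℝ) → (X.card : ℝ) ≤ (1 - ε) * m →
    (X.card : ℝ) + c * m ≤
      (((range m).filter (fun j => c * dd m ≤ (dX PA X j : ℝ))).card : ℝ) := by
  obtain ⟨C1, hC1, hS⟩ := hS
  obtain ⟨C2, hC2, hR'⟩ := hR
  set ε0 := min ε (1 / 4) with hε0d
  have hε0 : 0 < ε0 := by positivity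
  have hε0' : ε0 ≤ 1 / 4 := min_le_right _ _
  have hε0'' : ε0 ≤ ε := min_le_left _ _
  set c2 : ℝ := 1 / (65536 * C1 ^ 2 * C2) with hc2d
  have hc2 : 0 < c2 := by positivity
  obtain ⟨R, hR2, hRc⟩ : ∃ R : ℕ, 2 ≤ R ∧ 2 < ((R : ℝ) + 1) * c2 := by
    obtain ⟨R0, hR0⟩ := exists_nat_gt (2 / c2)
    refine ⟨R0 + 2, by omega, ?_⟩
    rw [div_lt_iff₀ hc2] at hR0
    push_cast
    nlinarith
  set g := R.factorial with hg
  have hg1 : 1 ≤ g := Nat.factorial_pos R
  have hgr : (1 : ℝ) ≤ g := by exact_mod_cast hg1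
  set δ : ℝ := ε0 / (16 * g) with hδd
  have hδ : 0 < δ := by positivity
  have hδ1 : δ ≤ 1 := by
    rw [hδd, div_le_one (by positivity)]
    linarith
  have hφ : 0 < Nat.totient (2 * g) := Nat.totient_pos.2 (by omega)
  have hφr : (1 : ℝ) ≤ Nat.totient (2 * g) := by exact_mod_cast hφ
  set θ : ℝ := δ / (2 * (Nat.totient (2 * g) : ℝ)) with hθd
  have hθ : 0 < θ := by positivity
  have hθδ : θ ≤ δ / 2 := by
    rw [hθd]
    apply div_le_div_of_nonneg_left hδ.le (by norm_num)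
    linarith
  obtain ⟨Kc, hKc⟩ := exists_nat_gt (4 * R / δ + 2 * R + 2)
  set Λ : ℝ := ((4 * g * Kc + 2 * g * (4 * g * Kc + 1) : ℕ) : ℝ) with hΛ
  have hΛ0 : 0 < Λ := by
    rw [hΛ]
    have : 0 < 4 * g * Kc + 2 * g * (4 * g * Kc + 1) := by positivity
    exact_mod_cast this
  set η0 : ℝ := ε0 ^ 2 / (32 * Λ) with hη0d
  have hη0 : 0 < η0 := by positivity
  set c : ℝ := min 1 (η0 * θ / 24) with hcd
  have hc : 0 < c := by positivity
  have hc1 : c ≤ 1 := min_le_left _ _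
  have hc' : c ≤ η0 * θ / 24 := min_le_right _ _
  refine ⟨c, hc, ?_⟩
  have hw0 := window_ap hP (q := 1) (r := 0) one_pos (by norm_num) hδ hδ1
  have hw1 := window_ap hP (q := 2 * g) (r := 1) (by omega) (by simp) hδ hδ1
  have hw2 := window_ap hP (q := 2 * g) (r := 2 * g - 1) (by omega) (by
    have h1 := Nat.coprime_self_sub_right (m := 1) (n := 2 * g) (by omega)
    rw [Nat.coprime_comm] at h1
    exact h1.2 (by simp)) hδ hδ1
  obtain ⟨N1, hN1⟩ := exists_nat_gt ((2 * R + 2) / δ)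
  obtain ⟨N2, hN2⟩ := exists_nat_gt (1 / δ ^ 2)
  have hbig : ∀ᶠ m : ℕ in atTop, 4 * (2 / δ) * Real.log m ≤ (m : ℝ) ^ (1 : ℝ) :=
    log_le_rpow one_pos (by positivity)
  filter_upwards [hw0, hw1, hw2, deg_PA hP c hc, hbig, eventually_ge_atTop 3, eventually_ge_atTop N1,
    eventually_ge_atTop N2] with m hw0 hw1 hw2 hdeg hbig hm3 hmN1 hmN2 X hX hX1 hX2
  by_contra hcon
  rw [not_le] at hcon
  have hm0 : (0 : ℝ) < m := by positivity
  have hl0 : 0 < Real.log m := by
    have : (1 : ℝ) < m := by exact_mod_cast (by omega : 1 < m)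
    exact Real.log_pos this
  have hd : 0 < dd m := dd_pos (by omega)
  set D := ⌊δ * m⌋₊ with hD
  have hD1 : (D : ℝ) ≤ δ * m := Nat.floor_le (by positivity)
  have hD2 : δ * m < D + 1 := Nat.lt_floor_add_one _
  have hDR : 2 * R ≤ D := by
    have h1 : (2 * R + 2 : ℝ) < m * δ := by
      have := hN1.trans_le (by exact_mod_cast hmN1 : (N1 : ℝ) ≤ m)
      rwa [div_lt_iff₀ hδ] at this
    have h2 : (2 * R : ℝ) < D := by linarith
    have : 2 * R < D := by exact_mod_cast h2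
    omega
  have hDm' : (D : ℝ) ≤ m := hD1.trans (by nlinarith)
  have hDm : D ≤ m := by exact_mod_cast hDm'
  have hD16 : (D : ℝ) * (16 * g) ≤ ε0 * m := by
    have : δ * m * (16 * g) = ε0 * m := by rw [hδd]; field_simp
    nlinarith
  have hDg : 4 * D * g ≤ m - D := by
    have h1 : (4 : ℝ) * D * g + D ≤ m := by nlinarith
    have h2 : 4 * D * g + D ≤ m := by exact_mod_cast h1
    omega
  have hDhalf : δ * m / 2 ≤ D := by
    have h1 : (2 * R + 2 : ℝ) < m * δ := by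
      have := hN1.trans_le (by exact_mod_cast hmN1 : (N1 : ℝ) ≤ m)
      rwa [div_lt_iff₀ hδ] at this
    have : (0 : ℝ) ≤ R := Nat.cast_nonneg _
    linarith
  have hD0 : (0 : ℝ) < D := by
    have : 0 < D := by omega
    exact_mod_cast this
  set Y := (range m).filter (fun j => c * dd m ≤ (dX PA X j : ℝ)) with hY
  have hKwm : ∀ k ∈ Kw m D, k < m ∧ (2 * k + 3).Prime := by
    intro k hk
    unfold Kw at hk
    rw [Finset.mem_filter, Finset.mem_Ico] at hk
    exact ⟨hk.1.2, hk.2⟩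
  have hbad := bad_total hX hc hc1 hd hdeg hKwm hcon
  rw [← hY] at hbad
  refine exp_core (m := m) (D := D) (R := R) (g := g) (η := ⌊η0 * m⌋₊) (Kc := Kc) (X := X) (Y := Y)
    (d := dd m) (δ := δ) (θ := θ) (ε0 := ε0) (η0 := η0) (c2 := c2) hR2 hg hDR hDg hDm hd hθ hθδ hε0 hη0 rfl
    hX ?_ ?_ ?_ hm0 hRc ?_ hw1 hw2 ?_ ?_ ?_ ?_
  · exact le_trans (by gcongr) hX1
  · exact hX2.trans (by gcongr)
  · nlinarith
  · rw [Nat.totient_one] at hw0
    norm_num at hw0
    have : Kw m D = (Ico (m - D) m).filter (fun k => (2 * k + 3).Prime ∧ (2 * k + 3) % 1 = 0 % 1) := by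
      unfold Kw
      congr 1
      ext k
      simp [Nat.mod_one]
    rw [this]
    convert hw0 using 4
  · refine hbad.trans ?_
    have h1 : 6 * c * m * dd m ≤ 6 * (η0 * θ / 24) * m * dd m := by gcongr
    calc _ ≤ _ := h1
      _ = η0 * m * (θ * dd m / 4) := by ring
  · intro K hK hKc
    have hKl : (D : ℝ) / (2 * Real.log m) ≤ K.card := by
      refine le_trans ?_ hKc
      have : δ / 4 * dd m = δ * m / (2 * Real.log m) := by unfold dd; field_simp; ring
      rw [this]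
      gcongr
    refine dens_core hC1 hC2 hS hR' (l := Real.log m) (by omega) hDm hl0 ?_ hK ?_ hKl
    · -- log m ≤ 2 log (2 D)
      have h1 : (m : ℝ) ≤ (2 * D) ^ 2 := by
        have h2 : 1 < m * δ ^ 2 := by
          have := hN2.trans_le (by exact_mod_cast hmN2 : (N2 : ℝ) ≤ m)
          rwa [div_lt_iff₀ (by positivity)] at this
        have h3 : (δ * m) ^ 2 ≤ (2 * D) ^ 2 := pow_le_pow_left₀ (by positivity) (by linarith) 2
        nlinarith
      calc Real.log m ≤ Real.log ((2 * D) ^ 2) := Real.log_le_log hm0 h1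
        _ = 2 * Real.log (2 * D) := by rw [Real.log_pow]; norm_num
    · have h1 : (2 : ℝ) ≤ D / (2 * Real.log m) := by
        rw [le_div_iff₀ (by positivity)]
        rw [Real.rpow_one] at hbig
        have h2 : 4 * (2 / δ) * Real.log m * δ ≤ m * δ := by gcongr
        have h3 : 4 * (2 / δ) * Real.log m * δ = 8 * Real.log m := by field_simp; ring
        nlinarith
      have h2 : (2 : ℝ) ≤ K.card := h1.trans hKl
      exact_mod_cast h2
  · -- Kc
    have hq : (D : ℝ) / (2 * R) ≤ ((D / R : ℕ) : ℝ) := by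
      have h1 : D < R * (D / R) + R := by
        have h2 := Nat.div_add_mod D R
        have h3 := Nat.mod_lt D (show 0 < R by omega)
        omega
      have h4 : (D : ℝ) < R * ((D / R : ℕ) : ℝ) + R := by exact_mod_cast h1
      have h5 : (2 : ℝ) * R ≤ D := by exact_mod_cast hDR
      have hR0 : (0 : ℝ) < R := by
        have : 0 < R := by omega
        exact_mod_cast this
      rw [div_le_iff₀ (by positivity)]
      nlinarith
    have hR0 : (0 : ℝ) < R := by
      have : 0 < R := by omega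
      exact_mod_cast this
    have hq0 : (0 : ℝ) < ((D / R : ℕ) : ℝ) := lt_of_lt_of_le (by positivity) hq
    have h1 : (((m - D) / (D / R) : ℕ) : ℝ) ≤ 4 * R / δ := by
      have h2 : (((m - D) / (D / R) : ℕ) : ℝ) ≤ ((m - D : ℕ) : ℝ) / ((D / R : ℕ) : ℝ) := Nat.cast_div_le
      refine h2.trans ?_
      rw [div_le_div_iff₀ hq0 hδ]
      have h3 : ((m - D : ℕ) : ℝ) ≤ m := by exact_mod_cast Nat.sub_le m D
      have h4 : (D : ℝ) ≤ 2 * R * ((D / R : ℕ) : ℝ) := by
        rw [div_le_iff₀ (by positivity)] at hq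
        linarith
      calc ((m - D : ℕ) : ℝ) * δ ≤ m * δ := by gcongr
        _ ≤ 2 * D := by linarith
        _ ≤ 2 * (2 * R * ((D / R : ℕ) : ℝ)) := by gcongr
        _ = _ := by ring
    have h2 : ((D / (D / R) : ℕ) : ℝ) ≤ 2 * R := by
      have h2 : ((D / (D / R) : ℕ) : ℝ) ≤ (D : ℝ) / ((D / R : ℕ) : ℝ) := Nat.cast_div_le
      refine h2.trans ?_
      rw [div_le_iff₀ hq0]
      rw [div_le_iff₀ (by positivity)] at hq
      linarith
    have h3 : (((m - D) / (D / R) + D / (D / R) + 2 : ℕ) : ℝ) ≤ Kc := by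
      push_cast
      linarith
    exact_mod_cast h3
  · rw [hη0d]
    rw [← hΛ]
    apply le_of_eq
    field_simp

/-- The prime sum graph has all the properties used in the combinatorial part. -/
theorem pg_PA_of (hP : PNTAP) (hS : PairSieve) (hR : SumRatio) : PG PA :=
  ⟨PA_symm, deg_PA hP, codeg_PA hS hR, exp_PA hP hS hR⟩

end Pool.Agent.PC
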