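import Mathlib

set_option autoImplicit false

/-!
# Block F: the van der Waerden permanent inequality (Gurvits' proof)
-/

namespace Pool.Agent.PC

open Finset

namespace BlockF

lemma msum_pos (m : Multiset ℝ) (h : ∀ x ∈ m, 0 < x) (hm : m ≠ 0) : 0 < m.sum := by
  induction m using Multiset.induction with
  | empty => exact absurd rfl hm
  | cons a m ih =>
    rw [Multiset.sum_cons]
    have ha := h a (Multiset.mem_cons_self a m)
    by_cases h0 : m = 0
    · simpa [h0] using ha
    · have := ih (fun x hx => h x (Multiset.mem_cons_of_mem hx)) h0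
      linarith

open Polynomial in
/-- The univariate step. -/
lemma real_rooted_bound (R : ℝ[X]) (hs : R.Splits) (n : ℕ) (hn : 1 ≤ n)
    (hdeg : R.natDegree = n + 1) (hroots : ∀ ρ ∈ R.roots, ρ < 0) (h0 : 0 < R.eval 0) (c : ℝ)
    (hc : ∀ t : ℝ, 0 < t → c * t ≤ R.eval t) :
    c * ((n : ℝ) / (n + 1)) ^ n ≤ R.derivative.eval 0 := by
  have hn0 : (0 : ℝ) < n := by exact_mod_cast hn
  set s : ℝ := (R.roots.map fun w => 1 / (0 - w)).sum with hs_def
  have hcard : R.roots.card = n + 1 := by rw [← hs.natDegree_eq_card_roots, hdeg]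
  have hsum : R.derivative.eval 0 / R.eval 0 = s :=
    hs.eval_derivative_div_eval_of_ne_zero h0.ne'
  have hspos : 0 < s := by
    rw [hs_def]
    apply msum_pos
    · intro x hx
      rw [Multiset.mem_map] at hx
      obtain ⟨w, hw, rfl⟩ := hx
      have := hroots w hw
      exact one_div_pos.2 (by linarith)
    · intro h
      have := congrArg Multiset.card h
      simp [hcard] at this
  set l : ℝ := (n : ℝ) / (n + 1) with hl
  have hl0 : 0 < l := by positivity
  set t : ℝ := (n + 1) / (n * s) with ht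
  have ht0 : 0 < t := by positivity
  have hR : R.eval t = R.eval 0 * (R.roots.map fun w => 1 + t * (1 / (0 - w))).prod := by
    rw [hs.eval_eq_prod_roots t, hs.eval_eq_prod_roots 0, mul_assoc, ← Multiset.prod_map_mul]
    congr 2
    apply Multiset.map_congr rfl
    intro w hw
    have := hroots w hw
    have hw0 : w ≠ 0 := this.ne
    field_simp
    ring
  have hprod : (R.roots.map fun w => l * (1 + t * (1 / (0 - w)))).prod ≤ 1 := by
    have h1 : (R.roots.map fun w => l * (1 + t * (1 / (0 - w)))).prod ≤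
        (R.roots.map fun w => Real.exp (l * (1 + t * (1 / (0 - w))) - 1)).prod := by
      apply Multiset.prod_map_le_prod_map₀
      · intro w hw
        have := hroots w hw
        have : 0 < 1 / (0 - w) := one_div_pos.2 (by linarith)
        positivity
      · intro w hw
        have := Real.add_one_le_exp (l * (1 + t * (1 / (0 - w))) - 1)
        linarith
    refine h1.trans (le_of_eq ?_)
    have h2 : (R.roots.map fun w => Real.exp (l * (1 + t * (1 / (0 - w))) - 1)) =
        (R.roots.map fun w => l * (1 + t * (1 / (0 - w))) - 1).map Real.exp := by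
      rw [Multiset.map_map]; rfl
    rw [h2, ← Real.exp_multiset_sum]
    have h3 : (R.roots.map fun w => l * (1 + t * (1 / (0 - w))) - 1).sum =
        l * ((n + 1) + t * s) - (n + 1) := by
      rw [Multiset.sum_map_sub, Multiset.sum_map_mul_left, Multiset.sum_map_add,
        Multiset.sum_map_mul_left, Multiset.map_const', Multiset.sum_replicate, hcard]
      simp [hs_def]
    rw [h3, Real.exp_eq_one_iff, hl, ht]
    field_simp
    ring
  have hprod2 : (R.roots.map fun w => l * (1 + t * (1 / (0 - w)))).prod =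
      l ^ (n + 1) * (R.roots.map fun w => 1 + t * (1 / (0 - w))).prod := by
    rw [Multiset.prod_map_mul, Multiset.map_const', Multiset.prod_replicate, hcard]
  rw [hprod2] at hprod
  have h4 : c * t * l ^ (n + 1) ≤ R.eval 0 := by
    calc c * t * l ^ (n + 1) ≤ R.eval t * l ^ (n + 1) :=
          mul_le_mul_of_nonneg_right (hc t ht0) (by positivity)
      _ = R.eval 0 * (l ^ (n + 1) * (R.roots.map fun w => 1 + t * (1 / (0 - w))).prod) := by
          rw [hR]; ring
      _ ≤ R.eval 0 * 1 := mul_le_mul_of_nonneg_left hprod h0.le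
      _ = _ := mul_one _
  have h5 : R.derivative.eval 0 = s * R.eval 0 := by
    rw [← hsum]; field_simp
  rw [h5]
  calc c * l ^ n = s * (c * t * l ^ (n + 1)) := by
        rw [pow_succ, ht, hl]
        field_simp
    _ ≤ _ := mul_le_mul_of_nonneg_left h4 hspos.le

section mv

open MvPolynomial

lemma hom_smul {K : Type*} [Field K] {n k : ℕ} {P : MvPolynomial (Fin n) K}
    (hP : P.IsHomogeneous k) (c : K) (z : Fin n → K) : eval (c • z) P = c ^ k * eval z P := by
  rw [eval_eq, eval_eq, Finset.mul_sum]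
  apply Finset.sum_congr rfl
  intro d hd
  have h1 := hP.degree_eq_sum_deg_support hd
  simp only [Pi.smul_apply, smul_eq_mul, mul_pow, Finset.prod_mul_distrib]
  rw [Finset.prod_pow_eq_pow_sum, ← h1]
  ring

lemma coeff_fin_zero {K : Type*} [Field K] {n k : ℕ} {P : MvPolynomial (Fin (n + 1)) K}
    (hP : P.IsHomogeneous k) {i : ℕ} (hi : k < i) : (finSuccEquiv K n P).coeff i = 0 := by
  ext m
  rw [finSuccEquiv_coeff_coeff, coeff_zero]
  apply hP.coeff_eq_zero
  have : (Finsupp.cons i m).degree = i + m.degree := by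
    rw [Finsupp.degree_eq_sum, Finsupp.degree_eq_sum, Fin.sum_univ_succ]
    simp
  omega

/-- The restriction of a polynomial to a line parallel to the first axis. -/
noncomputable def RR {K : Type*} [Field K] {n : ℕ} (P : MvPolynomial (Fin (n + 1)) K)
    (z : Fin n → K) : Polynomial K := (finSuccEquiv K n P).map (eval z)

lemma RR_eval {K : Type*} [Field K] {n : ℕ} (P : MvPolynomial (Fin (n + 1)) K)
    (z : Fin n → K) (t : K) : (RR P z).eval t = eval (Fin.cons t z : Fin (n + 1) → K) P :=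
  (eval_eq_eval_mv_eval' z t P).symm

lemma RR_coeff {K : Type*} [Field K] {n : ℕ} (P : MvPolynomial (Fin (n + 1)) K)
    (z : Fin n → K) (i : ℕ) : (RR P z).coeff i = eval z ((finSuccEquiv K n P).coeff i) :=
  Polynomial.coeff_map _ _

lemma RR_natDegree {K : Type*} [Field K] {n k : ℕ} {P : MvPolynomial (Fin (n + 1)) K}
    (hP : P.IsHomogeneous k) (h : eval (Fin.cons 1 0 : Fin (n + 1) → K) P ≠ 0) (z : Fin n → K) :
    (RR P z).natDegree = k := by
  have hle : ∀ w : Fin n → K, (RR P w).natDegree ≤ k := by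
    intro w
    rw [Polynomial.natDegree_le_iff_coeff_eq_zero]
    intro i hi
    rw [RR_coeff, coeff_fin_zero hP hi, map_zero]
  apply Polynomial.natDegree_eq_of_le_of_coeff_ne_zero (hle z)
  rw [RR_coeff]
  have h1 : ((finSuccEquiv K n P).coeff k).IsHomogeneous 0 :=
    hP.finSuccEquiv_coeff_isHomogeneous k 0 (by simp)
  have h2 := hom_smul h1 0 z
  rw [zero_smul, pow_zero, one_mul] at h2
  rw [← h2]
  intro h3
  apply h
  rw [← RR_eval, Polynomial.eval_eq_sum_range' (Nat.lt_succ_of_le (hle 0))]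
  apply Finset.sum_eq_zero
  intro i hi
  rw [Finset.mem_range] at hi
  rw [RR_coeff, one_pow, mul_one]
  rcases Nat.lt_or_ge i k with hik | hik
  · have h4 : ((finSuccEquiv K n P).coeff i).IsHomogeneous (k - i) :=
      hP.finSuccEquiv_coeff_isHomogeneous i (k - i) (by omega)
    have h5 := hom_smul h4 0 (0 : Fin n → K)
    rwa [smul_zero, zero_pow (by omega), zero_mul] at h5
  · have : i = k := by omega
    rw [this]; exact h3

/-- `H`-stability on the closed half space minus the boundary. -/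
def Stb {n : ℕ} (p : MvPolynomial (Fin n) ℝ) : Prop :=
  ∀ z : Fin n → ℂ, (∀ i, 0 ≤ (z i).re) → (∃ i, 0 < (z i).re) →
    eval z (map (algebraMap ℝ ℂ) p) ≠ 0

/-- Derivative in the first variable, restricted to the hyperplane. -/
noncomputable def DD {n : ℕ} (p : MvPolynomial (Fin (n + 1)) ℝ) : MvPolynomial (Fin n) ℝ :=
  (finSuccEquiv ℝ n p).coeff 1

lemma map_coeff {n : ℕ} (p : MvPolynomial (Fin (n + 1)) ℝ) (i : ℕ) :
    (finSuccEquiv ℂ n (map (algebraMap ℝ ℂ) p)).coeff i =
      map (algebraMap ℝ ℂ) ((finSuccEquiv ℝ n p).coeff i) := by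
  ext m
  rw [finSuccEquiv_coeff_coeff, coeff_map, coeff_map, finSuccEquiv_coeff_coeff]

lemma RR_map {n : ℕ} (p : MvPolynomial (Fin (n + 1)) ℝ) (x : Fin n → ℝ) :
    (RR p x).map (algebraMap ℝ ℂ) = RR (map (algebraMap ℝ ℂ) p) (algebraMap ℝ ℂ ∘ x) := by
  ext1 i
  rw [Polynomial.coeff_map, RR_coeff, RR_coeff, map_coeff, MvPolynomial.map_eval]

lemma stb_one {n : ℕ} {p : MvPolynomial (Fin (n + 1)) ℝ} (hs : Stb p) :
    eval (Fin.cons 1 0 : Fin (n + 1) → ℂ) (map (algebraMap ℝ ℂ) p) ≠ 0 := by
  apply hs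
  · intro i
    refine Fin.cases ?_ (fun j => ?_) i <;> simp
  · exact ⟨0, by simp⟩

lemma stb_root {n : ℕ} {p : MvPolynomial (Fin (n + 1)) ℝ} (hs : Stb p) {z : Fin n → ℂ}
    (hz : ∀ i, 0 ≤ (z i).re) (hz' : ∃ i, 0 < (z i).re) {w : ℂ} (hw : 0 ≤ w.re) :
    (RR (map (algebraMap ℝ ℂ) p) z).eval w ≠ 0 := by
  rw [RR_eval]
  apply hs
  · intro i
    refine Fin.cases ?_ (fun j => ?_) i
    · simpa using hw
    · simpa using hz j
  · obtain ⟨i, hi⟩ := hz'
    exact ⟨i.succ, by simpa using hi⟩

lemma stb_D {n k : ℕ} {p : MvPolynomial (Fin (n + 1)) ℝ} (hp : p.IsHomogeneous (k + 1))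
    (hs : Stb p) : Stb (DD p) := by
  intro z hz hz'
  set R := RR (map (algebraMap ℝ ℂ) p) z with hR
  have h0 : R.eval 0 ≠ 0 := stb_root hs hz hz' (by simp)
  have hdeg : R.natDegree = k + 1 := RR_natDegree (hp.map _) (stb_one hs) z
  have hsp : R.Splits := IsAlgClosed.splits R
  have hcard : R.roots.card = k + 1 := by rw [← hsp.natDegree_eq_card_roots, hdeg]
  have h1 := hsp.eval_derivative_div_eval_of_ne_zero h0
  have h2 : eval z (map (algebraMap ℝ ℂ) (DD p)) = R.derivative.eval 0 := by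
    rw [DD, ← map_coeff, ← RR_coeff, ← Polynomial.coeff_zero_eq_eval_zero,
      Polynomial.coeff_derivative]
    simp [hR]
  rw [h2]
  intro h3
  rw [h3, zero_div] at h1
  have h4 : 0 < ((R.roots.map fun w => 1 / (0 - w)).sum).re := by
    have e : ((R.roots.map fun w => 1 / (0 - w)).sum).re =
        ((R.roots.map fun w => 1 / (0 - w)).map Complex.re).sum :=
      map_multiset_sum Complex.reAddGroupHom _
    rw [e]
    apply msum_pos
    · intro x hx
      rw [Multiset.mem_map] at hx
      obtain ⟨y, hy, rfl⟩ := hx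
      rw [Multiset.mem_map] at hy
      obtain ⟨w, hw, rfl⟩ := hy
      have hw2 : R.eval w = 0 := (Polynomial.mem_roots'.1 hw).2
      have hw3 : w.re < 0 := by
        by_contra hcon
        exact stb_root hs hz hz' (not_lt.1 hcon) hw2
      rw [one_div, zero_sub, Complex.inv_re, Complex.neg_re, Complex.normSq_neg]
      apply div_pos (by linarith)
      rw [Complex.normSq_pos]
      intro h
      rw [h] at hw3
      simp at hw3
    · intro h
      have := congrArg Multiset.card h
      simp [hcard] at this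
  rw [← h1] at h4
  simp at h4

lemma real_roots {n k : ℕ} {p : MvPolynomial (Fin (n + 1)) ℝ} (hp : p.IsHomogeneous k)
    (hs : Stb p) (hn : 0 < n) {x : Fin n → ℝ} (hx : ∀ i, 0 < x i) {w : ℂ}
    (hw : (RR (map (algebraMap ℝ ℂ) p) (algebraMap ℝ ℂ ∘ x)).eval w = 0) :
    w.re < 0 ∧ w.im = 0 := by
  have hre : w.re < 0 := by
    by_contra hcon
    refine stb_root hs (z := algebraMap ℝ ℂ ∘ x) (fun i => ?_) ⟨⟨0, hn⟩, ?_⟩ (not_lt.1 hcon) hw
    · simpa using (hx i).le
    · simpa using hx _
  refine ⟨hre, ?_⟩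
  by_contra him
  -- rotate
  obtain ⟨c, hc1, hc2⟩ : ∃ c : ℂ, 0 < c.re ∧ 0 ≤ (c * w).re := by
    rcases lt_or_gt_of_ne him with h | h
    · refine ⟨⟨-w.im, -w.re⟩, by simpa using h, ?_⟩
      rw [Complex.mul_re]
      simp only
      nlinarith
    · refine ⟨⟨w.im, w.re⟩, by simpa using h, ?_⟩
      rw [Complex.mul_re]
      simp only
      nlinarith
  rw [RR_eval] at hw
  have h1 := hom_smul (hp.map (algebraMap ℝ ℂ)) c (Fin.cons w (algebraMap ℝ ℂ ∘ x))
  rw [hw, mul_zero] at h1
  refine hs _ (fun i => ?_) ⟨Fin.succ ⟨0, hn⟩, ?_⟩ h1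
  · refine Fin.cases ?_ (fun j => ?_) i
    · simpa using hc2
    · have := mul_pos hc1 (hx j)
      simpa using this.le
  · have e : (c • (Fin.cons w (algebraMap ℝ ℂ ∘ x) : Fin (n + 1) → ℂ)) (Fin.succ ⟨0, hn⟩) =
      c * ((x ⟨0, hn⟩ : ℝ) : ℂ) := rfl
    rw [e, Complex.mul_re, Complex.ofReal_re, Complex.ofReal_im, mul_zero, sub_zero]
    exact mul_pos hc1 (hx ⟨0, hn⟩)

lemma eval_nonneg {n : ℕ} {p : MvPolynomial (Fin n) ℝ} (hc : ∀ m, 0 ≤ coeff m p)
    {x : Fin n → ℝ} (hx : ∀ i, 0 ≤ x i) : 0 ≤ eval x p := by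
  rw [eval_eq]
  exact Finset.sum_nonneg (fun d _ => mul_nonneg (hc d)
    (Finset.prod_nonneg (fun i _ => pow_nonneg (hx i) _)))

lemma cons_nonneg {n : ℕ} {x : Fin n → ℝ} (hx : ∀ i, 0 < x i) {t : ℝ} (ht : 0 ≤ t) :
    ∀ i, 0 ≤ (Fin.cons t x : Fin (n + 1) → ℝ) i := by
  intro i
  refine Fin.cases ?_ (fun j => ?_) i
  · simpa using ht
  · simpa using (hx j).le

lemma step_bound {n : ℕ} {p : MvPolynomial (Fin (n + 1)) ℝ} (hp : p.IsHomogeneous (n + 1))
    (hco : ∀ m, 0 ≤ coeff m p) (hs : Stb p) {c : ℝ}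
    (hc : ∀ x : Fin (n + 1) → ℝ, (∀ i, 0 < x i) → c * ∏ i, x i ≤ eval x p)
    {x : Fin n → ℝ} (hx : ∀ i, 0 < x i) :
    c * ((n : ℝ) / (n + 1)) ^ n * ∏ i, x i ≤ eval x (DD p) := by
  have hR1 : (RR p x).derivative.eval 0 = eval x (DD p) := by
    rw [DD, ← RR_coeff, ← Polynomial.coeff_zero_eq_eval_zero, Polynomial.coeff_derivative]
    simp
  have hc' : ∀ t : ℝ, 0 < t → (c * ∏ i, x i) * t ≤ (RR p x).eval t := by
    intro t ht
    rw [RR_eval]
    refine le_trans (le_of_eq ?_) (hc (Fin.cons t x) (fun i => ?_))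
    · rw [Fin.prod_univ_succ]
      simp only [Fin.cons_zero, Fin.cons_succ]
      ring
    · refine Fin.cases ?_ (fun j => ?_) i
      · simpa using ht
      · simpa using hx j
  have hdegC : (RR (map (algebraMap ℝ ℂ) p) (algebraMap ℝ ℂ ∘ x)).natDegree = n + 1 :=
    RR_natDegree (hp.map _) (stb_one hs) _
  have hdeg : (RR p x).natDegree = n + 1 := by
    rw [← hdegC, ← RR_map, Polynomial.natDegree_map]
  rcases Nat.eq_zero_or_pos n with rfl | hn
  · simp only [Nat.cast_zero, zero_div, pow_zero, mul_one]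
    have h1 := hc' 1 one_pos
    rw [mul_one] at h1
    refine h1.trans (le_of_eq ?_)
    rw [← hR1, Polynomial.eval_eq_sum_range, hdeg]
    have h0 : (RR p x).coeff 0 = 0 := by
      rw [RR_coeff]
      have h4 : ((finSuccEquiv ℝ 0 p).coeff 0).IsHomogeneous 1 :=
        hp.finSuccEquiv_coeff_isHomogeneous 0 1 (by simp)
      have h5 := hom_smul h4 0 x
      have h6 : (0 : ℝ) • x = x := Subsingleton.elim _ _
      rw [h6, pow_one, zero_mul] at h5
      exact h5
    simp [Finset.sum_range_succ, h0, ← Polynomial.coeff_zero_eq_eval_zero,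
      Polynomial.coeff_derivative]
  · have hrange : ∀ a ∈ ((RR p x).map (algebraMap ℝ ℂ)).roots, a ∈ (algebraMap ℝ ℂ).range := by
      intro w hw
      have hw2 := (Polynomial.mem_roots'.1 hw).2
      rw [RR_map] at hw2
      have := (real_roots hp hs hn hx hw2).2
      exact ⟨w.re, Complex.ext (by simp) (by simp [this])⟩
    have hsp : (RR p x).Splits :=
      Polynomial.Splits.of_splits_map (algebraMap ℝ ℂ) (IsAlgClosed.splits _) hrange
    have hroots : ∀ ρ ∈ (RR p x).roots, ρ < 0 := by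
      intro r hr
      have h1 : (RR p x).eval r = 0 := (Polynomial.mem_roots'.1 hr).2
      have h2 : (RR (map (algebraMap ℝ ℂ) p) (algebraMap ℝ ℂ ∘ x)).eval
          ((algebraMap ℝ ℂ) r) = 0 := by
        rw [← RR_map, Polynomial.eval_map_algebraMap, Polynomial.aeval_algebraMap_apply]
        simp [h1]
      simpa using (real_roots hp hs hn hx h2).1
    have h0 : 0 < (RR p x).eval 0 := by
      rw [RR_eval]
      apply lt_of_le_of_ne (eval_nonneg hco (cons_nonneg hx le_rfl))
      intro h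
      have h2 := stb_root hs (z := algebraMap ℝ ℂ ∘ x) (fun i => by simpa using (hx i).le)
        ⟨⟨0, hn⟩, by simpa using hx _⟩ (w := 0) (by simp)
      apply h2
      rw [← RR_map, ← map_zero (algebraMap ℝ ℂ), Polynomial.eval_map_algebraMap,
        Polynomial.aeval_algebraMap_apply]
      simp [RR_eval, ← h]
    have := real_rooted_bound (RR p x) hsp n hn hdeg hroots h0 _ hc'
    rw [hR1] at this
    refine le_trans (le_of_eq ?_) this
    ring

/-- The capacity inequality. -/
lemma capacity (n : ℕ) : ∀ p : MvPolynomial (Fin n) ℝ, p.IsHomogeneous n →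
    (∀ m, 0 ≤ coeff m p) → Stb p → ∀ c : ℝ,
    (∀ x : Fin n → ℝ, (∀ i, 0 < x i) → c * ∏ i, x i ≤ eval x p) →
    c * ((n.factorial : ℝ) / (n : ℝ) ^ n) ≤ coeff (Finsupp.equivFunOnFinite.symm fun _ => 1) p := by
  induction n with
  | zero =>
    intro p hp _ _ c hc
    have h1 := hc 0 (fun i => i.elim0)
    simp only [Finset.univ_eq_empty, Finset.prod_empty, mul_one] at h1
    have e0 : (Finsupp.equivFunOnFinite.symm fun _ => 1 : Fin 0 →₀ ℕ) = 0 :=
      Subsingleton.elim _ _
    rw [e0]
    have h2 : p = C (coeff 0 p) := by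
      ext m
      have : m = 0 := Subsingleton.elim _ _
      rw [this]
      simp
    have h3 : eval (0 : Fin 0 → ℝ) p = coeff 0 p := by
      conv_lhs => rw [h2]
      simp
    rw [h3] at h1
    simpa using h1
  | succ n ih =>
    intro p hp hco hs c hc
    have h1 : (DD p).IsHomogeneous n := hp.finSuccEquiv_coeff_isHomogeneous 1 n (by ring)
    have h2 : ∀ m, 0 ≤ coeff m (DD p) := by
      intro m
      rw [DD, finSuccEquiv_coeff_coeff]
      exact hco _
    have h3 := ih (DD p) h1 h2 (stb_D hp hs) (c * ((n : ℝ) / (n + 1)) ^ n)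
      (fun x hx => step_bound hp hco hs hc hx)
    have h4 : coeff (Finsupp.equivFunOnFinite.symm fun _ => 1) (DD p) =
        coeff (Finsupp.equivFunOnFinite.symm fun _ => 1) p := by
      rw [DD, finSuccEquiv_coeff_coeff]
      congr 1
      ext i
      refine Fin.cases ?_ (fun j => ?_) i
      · simp
      · simp
    rw [h4] at h3
    refine le_trans (le_of_eq ?_) h3
    rw [Nat.factorial_succ]
    rcases Nat.eq_zero_or_pos n with rfl | hn
    · simp
    · have : (0 : ℝ) < n := by exact_mod_cast hn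
      push_cast
      rw [pow_succ, div_pow]
      field_simp

/-- The product polynomial of a matrix. -/
noncomputable def PP {n : ℕ} (M : Matrix (Fin n) (Fin n) ℝ) : MvPolynomial (Fin n) ℝ :=
  ∏ i, ∑ j, C (M i j) * X j

lemma PP_hom {n : ℕ} (M : Matrix (Fin n) (Fin n) ℝ) : (PP M).IsHomogeneous n := by
  have h := IsHomogeneous.prod (Finset.univ : Finset (Fin n))
    (fun i => ∑ j, C (M i j) * (X j : MvPolynomial (Fin n) ℝ)) (fun _ => 1)
    (fun i _ => IsHomogeneous.sum _ _ _ (fun j _ => isHomogeneous_C_mul_X _ _))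
  simpa [PP] using h

lemma PP_coeff_nonneg {n : ℕ} {M : Matrix (Fin n) (Fin n) ℝ} (hM : ∀ i j, 0 ≤ M i j) :
    ∀ m, 0 ≤ coeff m (PP M) := by
  rw [PP]
  apply Finset.prod_induction (p := fun q : MvPolynomial (Fin n) ℝ => ∀ m, 0 ≤ coeff m q)
  · intro a b ha hb m
    rw [coeff_mul]
    exact Finset.sum_nonneg (fun x _ => mul_nonneg (ha _) (hb _))
  · intro m
    rw [coeff_one]
    split_ifs <;> norm_num
  · intro i _ m
    rw [coeff_sum]
    apply Finset.sum_nonneg
    intro j _
    rw [coeff_C_mul]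
    apply mul_nonneg (hM i j)
    rw [coeff_X]
    split_ifs <;> norm_num

lemma PP_stb {n : ℕ} {M : Matrix (Fin n) (Fin n) ℝ} (hM : ∀ i j, 0 < M i j) : Stb (PP M) := by
  intro z hz hz'
  rw [PP, map_prod, map_prod, Finset.prod_ne_zero_iff]
  intro i _
  intro h
  have h1 := congrArg Complex.re h
  simp only [map_sum, map_mul, map_C, map_X, eval_C, eval_X, Complex.re_sum] at h1
  have h2 : ∀ j, ((algebraMap ℝ ℂ) (M i j) * z j).re = M i j * (z j).re := by
    intro j
    simp
  simp only [h2, Complex.zero_re] at h1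
  obtain ⟨j, hj⟩ := hz'
  have h3 : 0 < ∑ j, M i j * (z j).re :=
    Finset.sum_pos' (fun j _ => mul_nonneg (hM i j).le (hz j))
      ⟨j, Finset.mem_univ _, mul_pos (hM i j) hj⟩
  exact h3.ne' h1

lemma sum_single_eq_one_iff {n : ℕ} (f : Fin n → Fin n) :
    (∑ i, Finsupp.single (f i) 1 : Fin n →₀ ℕ) = (Finsupp.equivFunOnFinite.symm fun _ => 1) ↔
      Function.Bijective f := by
  constructor
  · intro h
    rw [← Finite.surjective_iff_bijective]
    intro j
    have h1 := DFunLike.congr_fun h j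
    by_contra hcon
    push Not at hcon
    rw [Finsupp.finsetSum_apply, Finset.sum_eq_zero (fun i _ => by
      rw [Finsupp.single_apply, if_neg (hcon i)])] at h1
    simp at h1
  · intro h
    ext j
    rw [Finsupp.finsetSum_apply]
    obtain ⟨i, hi⟩ := h.2 j
    rw [Finset.sum_eq_single i]
    · simp [hi]
    · intro b _ hb
      rw [Finsupp.single_apply, if_neg]
      intro h2
      exact hb (h.1 (h2.trans hi.symm))
    · intro h2
      exact absurd (Finset.mem_univ _) h2

lemma PP_coeff {n : ℕ} (M : Matrix (Fin n) (Fin n) ℝ) :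
    coeff (Finsupp.equivFunOnFinite.symm fun _ => 1) (PP M) = M.permanent := by
  rw [PP, Finset.prod_univ_sum, Fintype.piFinset_univ, coeff_sum]
  have h1 : ∀ f : Fin n → Fin n,
      coeff (Finsupp.equivFunOnFinite.symm fun _ => 1)
        (∏ i, (C (M i (f i)) * (X (f i) : MvPolynomial (Fin n) ℝ))) =
      if Function.Bijective f then ∏ i, M i (f i) else 0 := by
    intro f
    have h2 : (∏ i, (C (M i (f i)) * (X (f i) : MvPolynomial (Fin n) ℝ))) =
        monomial (∑ i, Finsupp.single (f i) 1) (∏ i, M i (f i)) := by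
      rw [Finset.prod_mul_distrib, ← map_prod]
      have h3 : ∏ i, (X (f i) : MvPolynomial (Fin n) ℝ) =
          monomial (∑ i, Finsupp.single (f i) 1) 1 := by
        rw [monomial_sum_one]
        rfl
      rw [h3, C_mul_monomial, mul_one]
    rw [h2, coeff_monomial]
    by_cases h : Function.Bijective f
    · rw [if_pos h, if_pos ((sum_single_eq_one_iff f).2 h)]
    · rw [if_neg h, if_neg (fun h' => h ((sum_single_eq_one_iff f).1 h'))]
  rw [Finset.sum_congr rfl (fun f _ => h1 f), ← Finset.sum_filter, ← Matrix.permanent_transpose,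
    Matrix.permanent]
  symm
  apply Finset.sum_bij (fun (σ : Equiv.Perm (Fin n)) _ => (σ : Fin n → Fin n))
  · intro σ _
    rw [Finset.mem_filter]
    exact ⟨Finset.mem_univ _, σ.bijective⟩
  · intro σ _ τ _ h
    exact DFunLike.coe_injective h
  · intro f hf
    rw [Finset.mem_filter] at hf
    exact ⟨Equiv.ofBijective f hf.2, Finset.mem_univ _, rfl⟩
  · intro σ _
    rfl

lemma PP_capacity {n : ℕ} {M : Matrix (Fin n) (Fin n) ℝ} (hM : ∀ i j, 0 ≤ M i j)
    (hr : ∀ i, ∑ j, M i j = 1) (hc : ∀ j, ∑ i, M i j = 1) (x : Fin n → ℝ) (hx : ∀ i, 0 < x i) :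
    1 * ∏ i, x i ≤ eval x (PP M) := by
  rw [one_mul, PP, map_prod]
  have h1 : ∏ i, x i = ∏ i, ∏ j, x j ^ (M i j) := by
    rw [Finset.prod_comm]
    apply Finset.prod_congr rfl
    intro j _
    rw [← Real.rpow_sum_of_pos (hx j), hc j, Real.rpow_one]
  rw [h1]
  apply Finset.prod_le_prod
  · intro i _
    exact Finset.prod_nonneg (fun j _ => Real.rpow_nonneg (hx j).le _)
  · intro i _
    have := Real.geom_mean_le_arith_mean_weighted (Finset.univ : Finset (Fin n))
      (fun j => M i j) x (fun j _ => hM i j) (hr i) (fun j _ => (hx j).le)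
    simpa using this

lemma vdw_pos {n : ℕ} {M : Matrix (Fin n) (Fin n) ℝ} (hM : ∀ i j, 0 < M i j)
    (hr : ∀ i, ∑ j, M i j = 1) (hc : ∀ j, ∑ i, M i j = 1) :
    (n.factorial : ℝ) / (n : ℝ) ^ n ≤ M.permanent := by
  have := capacity n (PP M) (PP_hom M) (PP_coeff_nonneg (fun i j => (hM i j).le)) (PP_stb hM) 1
    (PP_capacity (fun i j => (hM i j).le) hr hc)
  rwa [PP_coeff, one_mul] at this

end mv

end BlockF

/-- The van der Waerden / Egorychev / Falikman inequality for the permanent of a doubly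
stochastic matrix. -/
theorem vdw (n : ℕ) (M : Matrix (Fin n) (Fin n) ℝ) (hM : M ∈ doublyStochastic ℝ (Fin n)) :
    (n.factorial : ℝ) / (n : ℝ) ^ n ≤ M.permanent := by
  let f : ℝ → ℝ := fun s =>
    Matrix.permanent (Matrix.of fun i j : Fin n => (1 - s) * M i j + s * (1 / (n : ℝ)))
  have hf : Continuous f := by
    unfold f Matrix.permanent
    simp only [Matrix.of_apply]
    fun_prop
  have hf0 : f 0 = M.permanent := by
    simp only [f]
    congr 1
    ext i j
    simp
  have hlim : Filter.Tendsto f (nhdsWithin 0 (Set.Ioi 0)) (nhds M.permanent) := by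
    rw [← hf0]
    exact (hf.tendsto 0).mono_left nhdsWithin_le_nhds
  refine ge_of_tendsto hlim ?_
  have h1 : ∀ᶠ s : ℝ in nhdsWithin 0 (Set.Ioi 0), s < 1 :=
    (gt_mem_nhds (by norm_num : (0 : ℝ) < 1)).filter_mono nhdsWithin_le_nhds
  filter_upwards [h1, self_mem_nhdsWithin] with s hs1 hs0
  have hs0' : 0 < s := hs0
  apply BlockF.vdw_pos
  · intro i j
    have hn : 0 < (n : ℝ) := by exact_mod_cast (Fin.pos i)
    have h2 : 0 ≤ M i j := nonneg_of_mem_doublyStochastic hM
    have h3 : 0 ≤ (1 - s) * M i j := mul_nonneg (by linarith) h2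
    simp only [Matrix.of_apply]
    positivity
  · intro i
    have hn : 0 < (n : ℝ) := by exact_mod_cast (Fin.pos i)
    simp only [Matrix.of_apply]
    rw [Finset.sum_add_distrib, ← Finset.mul_sum, sum_row_of_mem_doublyStochastic hM i]
    simp
    field_simp
    ring
  · intro j
    have hn : 0 < (n : ℝ) := by exact_mod_cast (Fin.pos j)
    simp only [Matrix.of_apply]
    rw [Finset.sum_add_distrib, ← Finset.mul_sum, sum_col_of_mem_doublyStochastic hM j]
    simp
    field_simp
    ring

end Pool.Agent.PC
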