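import Mathlib
import Pool.Agent.PC.Defs
import Pool.Agent.PC.Basic
import Pool.Agent.PC.VdW

set_option autoImplicit false

namespace Pool.Agent.PC

open Finset Filter

namespace BlockE

section Hall

variable {α β : Type} [Fintype α] [Fintype β] [DecidableEq α] [DecidableEq β]

/-- The neighbourhoods in the auxiliary bipartite graph. -/
def nb (E : Finset (α × β)) (r : ℕ) :
    (α × Fin r) ⊕ E → Finset ((β × Fin r) ⊕ E)
  | Sum.inl ak => (univ.filter (fun e : E => e.1.1 = ak.1)).map Function.Embedding.inr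
  | Sum.inr e => insert (Sum.inr e)
      ((univ.filter (fun yk : β × Fin r => yk.1 = e.1.2)).map Function.Embedding.inl)

lemma hall_cond (E : Finset (α × β)) (r : ℕ)
    (hE : ∀ (X : Finset α) (Y : Finset β), r * (X.card + Y.card) ≤
      (E.filter (fun e => e.1 ∈ X ∧ e.2 ∈ Y)).card + r * Fintype.card β)
    (s : Finset ((α × Fin r) ⊕ E)) : s.card ≤ (s.biUnion (nb E r)).card := by
  classical
  let X : Finset α := univ.filter (fun a => ∃ k : Fin r, Sum.inl (a, k) ∈ s)
  let F : Finset E := univ.filter (fun e => (Sum.inr e : (α × Fin r) ⊕ E) ∈ s)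
  let Y : Finset β := F.image (fun e => e.1.2)
  let P : Finset (α × Fin r) := X ×ˢ univ
  let Q : Finset (β × Fin r) := Y ×ˢ univ
  let G : Finset E := univ.filter (fun e : E => e ∈ F ∨ e.1.1 ∈ X)
  have h1 : s ⊆ P.disjSum F := by
    intro x hx
    rcases x with ⟨a, k⟩ | e
    · rw [Finset.inl_mem_disjSum]
      simp only [P, X, Finset.mem_product, Finset.mem_filter, Finset.mem_univ, true_and, and_true]
      exact ⟨k, hx⟩
    · rw [Finset.inr_mem_disjSum]
      simp only [F, Finset.mem_filter, Finset.mem_univ, true_and]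
      exact hx
  have h2 : Q.disjSum G ⊆ s.biUnion (nb E r) := by
    intro x hx
    rw [Finset.mem_biUnion]
    rcases x with ⟨b, k⟩ | e
    · rw [Finset.inl_mem_disjSum] at hx
      simp only [Q, Y, Finset.mem_product, Finset.mem_univ, and_true, Finset.mem_image] at hx
      obtain ⟨e, he, heb⟩ := hx
      simp only [F, Finset.mem_filter, Finset.mem_univ, true_and] at he
      refine ⟨Sum.inr e, he, ?_⟩
      simp only [nb, Finset.mem_insert, Finset.mem_map, Finset.mem_filter, Finset.mem_univ, true_and]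
      exact Or.inr ⟨(b, k), heb.symm, rfl⟩
    · rw [Finset.inr_mem_disjSum] at hx
      simp only [G, Finset.mem_filter, Finset.mem_univ, true_and] at hx
      rcases hx with he | he
      · simp only [F, Finset.mem_filter, Finset.mem_univ, true_and] at he
        exact ⟨Sum.inr e, he, by simp [nb]⟩
      · simp only [X, Finset.mem_filter, Finset.mem_univ, true_and] at he
        obtain ⟨k, hk⟩ := he
        refine ⟨Sum.inl (e.1.1, k), hk, ?_⟩
        simp only [nb, Finset.mem_map, Finset.mem_filter, Finset.mem_univ, true_and]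
        exact ⟨e, rfl, rfl⟩
  have h3 := Finset.card_le_card h1
  have h4 := Finset.card_le_card h2
  rw [Finset.card_disjSum] at h3 h4
  have hP : P.card = r * X.card := by
    simp only [P, Finset.card_product, Finset.card_univ, Fintype.card_fin]
    ring
  have hQ : Q.card = r * Y.card := by
    simp only [Q, Finset.card_product, Finset.card_univ, Fintype.card_fin]
    ring
  have hG : F.card + (E.filter (fun e => e.1 ∈ X ∧ e.2 ∈ Yᶜ)).card ≤ G.card := by
    have h5 : (E.filter (fun e => e.1 ∈ X ∧ e.2 ∈ Yᶜ)).card =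
        ((univ : Finset E).filter (fun e => e.1.1 ∈ X ∧ e.1.2 ∈ Yᶜ)).card := by
      refine (Finset.card_bij (fun e _ => e.1) ?_ ?_ ?_).symm
      · intro e he
        rw [Finset.mem_filter] at he ⊢
        exact ⟨e.2, he.2⟩
      · intro e _ e' _ hee
        exact Subtype.ext hee
      · intro e he
        rw [Finset.mem_filter] at he
        exact ⟨⟨e, he.1⟩, by simpa using he.2, rfl⟩
    rw [h5, ← Finset.card_union_of_disjoint]
    · apply Finset.card_le_card
      intro e he
      rw [Finset.mem_union] at he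
      simp only [G, Finset.mem_filter, Finset.mem_univ, true_and]
      rcases he with he | he
      · exact Or.inl he
      · exact Or.inr (Finset.mem_filter.1 he).2.1
    · rw [Finset.disjoint_left]
      intro e he he'
      have h6 := (Finset.mem_filter.1 he').2.2
      rw [Finset.mem_compl] at h6
      exact h6 (Finset.mem_image_of_mem _ he)
  have h7 := hE X Yᶜ
  have h8 : Yᶜ.card + Y.card = Fintype.card β := Finset.card_compl_add_card Y
  have h9 : r * X.card ≤ (E.filter (fun e => e.1 ∈ X ∧ e.2 ∈ Yᶜ)).card + r * Y.card := by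
    have : r * Fintype.card β = r * Yᶜ.card + r * Y.card := by rw [← h8]; ring
    rw [this] at h7
    have h10 : r * (X.card + Yᶜ.card) = r * X.card + r * Yᶜ.card := by ring
    omega
  omega

/-- Ore-Ryser: a regular factor of a bipartite graph. -/
theorem ore_ryser (E : Finset (α × β)) (r : ℕ) (hcard : Fintype.card α = Fintype.card β)
    (hE : ∀ (X : Finset α) (Y : Finset β), r * (X.card + Y.card) ≤
      (E.filter (fun e => e.1 ∈ X ∧ e.2 ∈ Y)).card + r * Fintype.card β) :
    ∃ B : Finset (α × β), B ⊆ E ∧ (∀ a, (B.filter (fun e => e.1 = a)).card = r) ∧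
      (∀ b, (B.filter (fun e => e.2 = b)).card = r) := by
  classical
  obtain ⟨f, hf, hft⟩ := (Finset.all_card_le_biUnion_card_iff_exists_injective (nb E r)).1
    (hall_cond E r hE)
  have hbij : Function.Bijective f := by
    rw [Fintype.bijective_iff_injective_and_card]
    refine ⟨hf, ?_⟩
    simp only [Fintype.card_sum, Fintype.card_prod, hcard]
  have hsurj := hbij.2
  -- left nodes
  have hg : ∀ a (k : Fin r), ∃ e : E, f (Sum.inl (a, k)) = Sum.inr e ∧ e.1.1 = a := by
    intro a k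
    have h := hft (Sum.inl (a, k))
    simp only [nb, Finset.mem_map, Finset.mem_filter, Finset.mem_univ, true_and] at h
    obtain ⟨e, he, heq⟩ := h
    exact ⟨e, heq.symm, he⟩
  choose g hg1 hg2 using hg
  have hr : ∀ e : E, f (Sum.inr e) = Sum.inr e ∨ ∃ k : Fin r, f (Sum.inr e) = Sum.inl (e.1.2, k) := by
    intro e
    have h := hft (Sum.inr e)
    simp only [nb, Finset.mem_insert, Finset.mem_map, Finset.mem_filter, Finset.mem_univ,
      true_and] at h
    rcases h with h | ⟨⟨b, k⟩, hb, heq⟩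
    · exact Or.inl h
    · simp only at hb
      subst hb
      exact Or.inr ⟨k, heq.symm⟩
  have hh : ∀ b (k : Fin r), ∃ e : E, f (Sum.inr e) = Sum.inl (b, k) ∧ e.1.2 = b := by
    intro b k
    obtain ⟨x, hx⟩ := hsurj (Sum.inl (b, k))
    rcases x with ⟨a, l⟩ | e
    · rw [hg1] at hx
      exact absurd hx (by simp)
    · refine ⟨e, hx, ?_⟩
      rcases hr e with h | ⟨l, h⟩
      · rw [h] at hx
        exact absurd hx (by simp)
      · rw [h] at hx
        have h3 := Sum.inl_injective hx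
        exact congrArg Prod.fst h3
  choose h hh1 hh2 using hh
  let B : Finset (α × β) := E.filter (fun e => ∃ he : e ∈ E, f (Sum.inr ⟨e, he⟩) ≠ Sum.inr ⟨e, he⟩)
  refine ⟨B, Finset.filter_subset _ _, ?_, ?_⟩
  · intro a
    rw [← Fintype.card_fin r, ← Finset.card_univ (α := Fin r)]
    refine (Finset.card_bij (fun k _ => (g a k).1) ?_ ?_ ?_).symm
    · intro k _
      rw [Finset.mem_filter, Finset.mem_filter]
      refine ⟨⟨(g a k).2, (g a k).2, ?_⟩, hg2 a k⟩
      intro hc
      have := hf ((hg1 a k).trans hc.symm)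
      exact absurd this (by simp)
    · intro k _ k' _ hkk
      have h1 : g a k = g a k' := Subtype.ext hkk
      have h2 : f (Sum.inl (a, k)) = f (Sum.inl (a, k')) := by rw [hg1, hg1, h1]
      have h3 := hf h2
      simpa using h3
    · intro e he
      rw [Finset.mem_filter, Finset.mem_filter] at he
      obtain ⟨⟨_, he, hne⟩, hea⟩ := he
      obtain ⟨x, hx⟩ := hsurj (Sum.inr ⟨e, he⟩)
      rcases x with ⟨a', k⟩ | e'
      · rw [hg1] at hx
        have h1 : g a' k = ⟨e, he⟩ := Sum.inr_injective hx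
        have h2 : a' = a := by rw [← hg2 a' k, h1]; exact hea
        subst h2
        exact ⟨k, Finset.mem_univ _, by rw [h1]⟩
      · exfalso
        rcases hr e' with h1 | ⟨k, h1⟩
        · rw [h1] at hx
          have h2 : e' = ⟨e, he⟩ := Sum.inr_injective hx
          rw [h2] at h1
          exact hne h1
        · rw [h1] at hx
          exact absurd hx (by simp)
  · intro b
    rw [← Fintype.card_fin r, ← Finset.card_univ (α := Fin r)]
    refine (Finset.card_bij (fun k _ => (h b k).1) ?_ ?_ ?_).symm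
    · intro k _
      rw [Finset.mem_filter, Finset.mem_filter]
      refine ⟨⟨(h b k).2, (h b k).2, ?_⟩, hh2 b k⟩
      intro hc
      have := (hh1 b k).symm.trans hc
      exact absurd this (by simp)
    · intro k _ k' _ hkk
      have h1 : h b k = h b k' := Subtype.ext hkk
      have h2 := hh1 b k
      rw [h1, hh1 b k'] at h2
      have h3 := Sum.inl_injective h2
      simpa using h3.symm
    · intro e he
      rw [Finset.mem_filter, Finset.mem_filter] at he
      obtain ⟨⟨_, he, hne⟩, heb⟩ := he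
      rcases hr ⟨e, he⟩ with h1 | ⟨k, h1⟩
      · exact absurd h1 hne
      · simp only at h1
        refine ⟨k, Finset.mem_univ _, ?_⟩
        have h2 : f (Sum.inr (h b k)) = f (Sum.inr ⟨e, he⟩) := by rw [hh1, h1, heb]
        have h3 := hf h2
        rw [Sum.inr_injective h3]

end Hall

open scoped Classical in
lemma ore_ryser_nat (A : ℕ → ℕ → Prop) (S T : Finset ℕ) (hST : S.card = T.card) (r : ℕ)
    (hE : ∀ X ⊆ S, ∀ Y ⊆ T, r * (X.card + Y.card) ≤ (∑ j ∈ Y, dX A X j) + r * T.card) :
    ∃ B : ℕ → ℕ → Prop, (∀ i j, B i j → A i j) ∧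
      (∀ i ∈ S, (T.filter (fun j => B i j)).card = r) ∧
      (∀ j ∈ T, (S.filter (fun i => B i j)).card = r) := by
  let E : Finset (S × T) := univ.filter (fun e => A e.1 e.2)
  have hcond : ∀ (X : Finset S) (Y : Finset T), r * (X.card + Y.card) ≤
      (E.filter (fun e => e.1 ∈ X ∧ e.2 ∈ Y)).card + r * Fintype.card T := by
    intro X Y
    have h1 := hE (X.map (Function.Embedding.subtype _)) (fun i hi => by
      rw [Finset.mem_map] at hi
      obtain ⟨a, _, rfl⟩ := hi
      exact a.2) (Y.map (Function.Embedding.subtype _)) (fun i hi => by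
      rw [Finset.mem_map] at hi
      obtain ⟨a, _, rfl⟩ := hi
      exact a.2)
    rw [Finset.card_map, Finset.card_map, Finset.sum_map] at h1
    rw [Fintype.card_coe]
    refine h1.trans (Nat.add_le_add_right (le_of_eq ?_) _)
    have h2 : E.filter (fun e => e.1 ∈ X ∧ e.2 ∈ Y) =
        (X ×ˢ Y).filter (fun e => A (e.1 : ℕ) (e.2 : ℕ)) := by
      ext e
      simp only [E, Finset.mem_filter, Finset.mem_univ, true_and, Finset.mem_product]
      tauto
    rw [h2, Finset.card_filter, Finset.sum_product_right]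
    refine Finset.sum_congr rfl fun j _ => ?_
    unfold dX
    rw [Finset.card_filter, Finset.sum_map]
    rfl
  obtain ⟨B0, hB0, hBl, hBr⟩ := ore_ryser E r (by simp [hST]) hcond
  obtain ⟨B, hB⟩ : ∃ B : ℕ → ℕ → Prop, ∀ i j, B i j ↔
      ∃ (hi : i ∈ S) (hj : j ∈ T), ((⟨i, hi⟩ : S), (⟨j, hj⟩ : T)) ∈ B0 :=
    ⟨_, fun _ _ => Iff.rfl⟩
  refine ⟨B, ?_, ?_, ?_⟩
  · intro i j hij
    obtain ⟨hi, hj, hij⟩ := (hB i j).1 hij
    have := hB0 hij
    simp only [E, Finset.mem_filter, Finset.mem_univ, true_and] at this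
    exact this
  · intro i hi
    rw [← hBl ⟨i, hi⟩]
    refine (Finset.card_bij (fun e _ => (e.2 : ℕ)) ?_ ?_ ?_).symm
    · rintro ⟨a, b⟩ he
      rw [Finset.mem_filter] at he
      obtain ⟨he, hea⟩ := he
      simp only at hea
      subst hea
      rw [Finset.mem_filter, hB]
      exact ⟨b.2, hi, b.2, he⟩
    · rintro ⟨a, b⟩ he ⟨a', b'⟩ he' heq
      rw [Finset.mem_filter] at he he'
      have h1 := he.2
      have h2 := he'.2
      simp only at h1 h2 heq
      rw [h1, h2, Subtype.ext heq]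
    · intro j hj
      rw [Finset.mem_filter, hB] at hj
      obtain ⟨_, hi', hj', hij⟩ := hj
      exact ⟨(⟨i, hi'⟩, ⟨j, hj'⟩), Finset.mem_filter.2 ⟨hij, rfl⟩, rfl⟩
  · intro j hj
    rw [← hBr ⟨j, hj⟩]
    refine (Finset.card_bij (fun e _ => (e.1 : ℕ)) ?_ ?_ ?_).symm
    · rintro ⟨a, b⟩ he
      rw [Finset.mem_filter] at he
      obtain ⟨he, hea⟩ := he
      simp only at hea
      subst hea
      rw [Finset.mem_filter, hB]
      exact ⟨a.2, a.2, hj, he⟩
    · rintro ⟨a, b⟩ he ⟨a', b'⟩ he' heq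
      rw [Finset.mem_filter] at he he'
      have h1 := he.2
      have h2 := he'.2
      simp only at h1 h2 heq
      rw [h1, h2, Subtype.ext heq]
    · intro i hi
      rw [Finset.mem_filter, hB] at hi
      obtain ⟨_, hi', hj', hij⟩ := hi
      exact ⟨(⟨i, hi'⟩, ⟨j, hj'⟩), Finset.mem_filter.2 ⟨hij, rfl⟩, rfl⟩

lemma low_deg {A : ℕ → ℕ → Prop} {m : ℕ} {V : Finset ℕ} {δ d : ℝ}
    (hV : (V.card : ℝ) ≤ δ * d) (hdeg : ∀ i < m, (1 - δ) * d ≤ (dX A (range m) i : ℝ))
    {i : ℕ} (hi : i < m) : (1 - 2 * δ) * d ≤ (dX A (range m \ V) i : ℝ) := by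
  classical
  have h1 : dX A (range m) i ≤ dX A (range m \ V) i + V.card := by
    unfold dX
    calc ((range m).filter (fun j => A j i)).card
        ≤ (((range m \ V).filter (fun j => A j i)) ∪ V).card := by
          apply Finset.card_le_card
          intro j hj
          rw [Finset.mem_filter] at hj
          rw [Finset.mem_union, Finset.mem_filter, Finset.mem_sdiff]
          tauto
      _ ≤ _ := Finset.card_union_le _ _
  have h2 : (dX A (range m) i : ℝ) ≤ (dX A (range m \ V) i : ℝ) + V.card := by exact_mod_cast h1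
  have h3 := hdeg i hi
  nlinarith

lemma low_sum {A : ℕ → ℕ → Prop} (h : PG A) {m : ℕ} {V X Y : Finset ℕ} {δ d : ℝ}
    (hV : (V.card : ℝ) ≤ δ * d) (hdeg : ∀ i < m, (1 - δ) * d ≤ (dX A (range m) i : ℝ))
    (hX : X ⊆ range m) (hY : Y ⊆ range m \ V) :
    (X.card : ℝ) * ((1 - 2 * δ) * d) ≤
      ∑ j ∈ Y, (dX A X j : ℝ) + ∑ j ∈ (range m \ V) \ Y, (dX A X j : ℝ) := by
  have h1 : ∑ j ∈ Y, (dX A X j : ℝ) + ∑ j ∈ (range m \ V) \ Y, (dX A X j : ℝ) =
      ∑ j ∈ range m \ V, (dX A X j : ℝ) := by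
    rw [add_comm]
    exact Finset.sum_sdiff hY
  rw [h1]
  have h2 : ∑ j ∈ range m \ V, (dX A X j : ℝ) = ∑ i ∈ X, (dX A (range m \ V) i : ℝ) := by
    exact_mod_cast sum_dX_range h X (range m \ V)
  rw [h2, ← nsmul_eq_mul]
  exact Finset.card_nsmul_le_sum _ _ _ fun i hi => low_deg hV hdeg (Finset.mem_range.1 (hX hi))

lemma sparse {A : ℕ → ℕ → Prop} {m : ℕ} {X Z : Finset ℕ} {C ε η d : ℝ} (hε : 0 < ε)
    (hd : 0 < d) (hm : 0 < m) (hC : 0 < C)
    (hE2 : ∑ j ∈ range m, (dX A X j : ℝ) ^ 2 ≤ C * X.card * Real.sqrt (X.card / m) * d ^ 2)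
    (hx : (X.card : ℝ) ≤ η * m) (hη : C * Real.sqrt η ≤ ε ^ 2 / 4) (hZ : Z ⊆ range m)
    (hZX : Z.card ≤ X.card) : ∑ j ∈ Z, (dX A X j : ℝ) ≤ ε / 2 * X.card * d := by
  have hm0 : (0 : ℝ) < m := by exact_mod_cast hm
  have hcs := Finset.sum_mul_sq_le_sq_mul_sq Z (fun _ => (1 : ℝ)) (fun k => (dX A X k : ℝ))
  simp only [one_mul, one_pow, Finset.sum_const, nsmul_eq_mul, mul_one] at hcs
  have h1 : ∑ j ∈ Z, (dX A X j : ℝ) ^ 2 ≤ C * X.card * Real.sqrt (X.card / m) * d ^ 2 :=
    le_trans (Finset.sum_le_sum_of_subset_of_nonneg hZ (fun _ _ _ => by positivity)) hE2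
  have h2 : Real.sqrt (X.card / m) ≤ Real.sqrt η :=
    Real.sqrt_le_sqrt (by rw [div_le_iff₀ hm0]; exact hx)
  have h3 : (Z.card : ℝ) ≤ X.card := by exact_mod_cast hZX
  have hx0 : (0 : ℝ) ≤ X.card := Nat.cast_nonneg _
  refine le_of_sq_le_sq (hcs.trans ?_) (by positivity)
  calc (Z.card : ℝ) * ∑ j ∈ Z, (dX A X j : ℝ) ^ 2
      ≤ X.card * (C * X.card * Real.sqrt η * d ^ 2) := by gcongr; exact h1.trans (by gcongr)
    _ = (C * Real.sqrt η) * (X.card ^ 2 * d ^ 2) := by ring
    _ ≤ (ε ^ 2 / 4) * (X.card ^ 2 * d ^ 2) := by gcongr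
    _ = (ε / 2 * X.card * d) ^ 2 := by ring

lemma cond_fin {A : ℕ → ℕ → Prop} (h : PG A) {m : ℕ} (hm : 0 < m) {ε δ η t c C d : ℝ}
    (hε : 0 < ε) (hε1 : ε < 1) (hδ : 0 < δ) (hδ1 : δ ≤ ε / 4) (hδ2 : 3 * δ ≤ ε * t)
    (hη : C * Real.sqrt η ≤ ε ^ 2 / 4) (ht : 0 < t) (ht1 : t ≤ η / 2) (ht2 : t ≤ c ^ 2 / 2)
    (hc : 0 < c) (hC : 0 < C) (hd : 0 < d)
    (hdeg : ∀ i < m, (1 - δ) * d ≤ (dX A (range m) i : ℝ) ∧ (dX A (range m) i : ℝ) ≤ (1 + δ) * d)
    (hE2 : ∀ X ⊆ range m, ∑ j ∈ range m, (dX A X j : ℝ) ^ 2 ≤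
      C * X.card * Real.sqrt (X.card / m) * d ^ 2)
    (hexp : ∀ X ⊆ range m, η / 2 * m ≤ (X.card : ℝ) → (X.card : ℝ) ≤ (1 - η / 2) * m →
      (X.card : ℝ) + c * m ≤ (((range m).filter (fun j => c * d ≤ (dX A X j : ℝ))).card : ℝ))
    {U V : Finset ℕ} (hU : U ⊆ range m) (hV : V ⊆ range m) (hUV : U.card = V.card)
    (hu1 : (U.card : ℝ) ≤ δ * d) (hu2 : (U.card : ℝ) ≤ c / 2 * m)
    {X Y : Finset ℕ} (hX : X ⊆ range m \ U) (hY : Y ⊆ range m \ V) {k : ℝ}
    (hk : k = X.card + Y.card - (m - V.card)) (hk0 : 0 < k) :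
    (1 - ε) * d * k ≤ ∑ j ∈ Y, (dX A X j : ℝ) := by
  classical
  have hm0 : (0 : ℝ) < m := by exact_mod_cast hm
  have hXm : X ⊆ range m := hX.trans Finset.sdiff_subset
  have hYm : Y ⊆ range m := hY.trans Finset.sdiff_subset
  have hSc : ((range m \ U).card : ℝ) = m - V.card := by
    rw [Finset.card_sdiff_of_subset hU, Finset.card_range, Nat.cast_sub, hUV]
    simpa using Finset.card_le_card hU
  have hTc : ((range m \ V).card : ℝ) = m - V.card := by
    rw [Finset.card_sdiff_of_subset hV, Finset.card_range, Nat.cast_sub]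
    simpa using Finset.card_le_card hV
  have hXS : (X.card : ℝ) ≤ m - V.card := by
    rw [← hSc]; exact_mod_cast Finset.card_le_card hX
  have hYT : (Y.card : ℝ) ≤ m - V.card := by
    rw [← hTc]; exact_mod_cast Finset.card_le_card hY
  have hTY : (((range m \ V) \ Y).card : ℝ) = m - V.card - Y.card := by
    rw [Finset.card_sdiff_of_subset hY, Nat.cast_sub (Finset.card_le_card hY), hTc]
  have hSX : (((range m \ U) \ X).card : ℝ) = m - V.card - X.card := by
    rw [Finset.card_sdiff_of_subset hX, Nat.cast_sub (Finset.card_le_card hX), hSc]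
  have hV0 : (0 : ℝ) ≤ V.card := Nat.cast_nonneg _
  have hX0 : (0 : ℝ) ≤ X.card := Nat.cast_nonneg _
  have hY0 : (0 : ℝ) ≤ Y.card := Nat.cast_nonneg _
  have hVc : (V.card : ℝ) ≤ δ * d := by rw [← hUV]; exact hu1
  have hlow := low_sum h hVc (fun i hi => (hdeg i hi).1) hXm hY
  by_cases hcase0 : t * m ≤ k
  · -- dense case
    have h1 : ∑ j ∈ (range m \ V) \ Y, (dX A X j : ℝ) ≤ (m - V.card - Y.card) * ((1 + δ) * d) := by
      rw [← hTY, ← nsmul_eq_mul]
      refine Finset.sum_le_card_nsmul _ _ _ fun j hj => ?_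
      have hjm : j < m := by
        rw [Finset.mem_sdiff, Finset.mem_sdiff, Finset.mem_range] at hj
        exact hj.1.1
      refine le_trans ?_ (hdeg j hjm).2
      exact_mod_cast dX_mono A hXm j
    have h2 : (m : ℝ) - V.card - Y.card = X.card - k := by rw [hk]; ring
    rw [h2] at h1
    have h3 : (X.card : ℝ) ≤ m := by linarith
    have h4 : ε * (t * m) ≤ ε * k := by gcongr
    have h5 : 3 * δ * m ≤ ε * t * m := by gcongr
    have h6 : 3 * δ * X.card ≤ 3 * δ * m := by gcongr
    have h7 : (3 * δ * X.card) * d ≤ (ε * k) * d := by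
      apply mul_le_mul_of_nonneg_right _ hd.le
      linarith
    have h8 : 0 ≤ δ * k * d := by positivity
    nlinarith
  · rw [not_le] at hcase0
    by_cases hx1 : (X.card : ℝ) < η / 2 * m
    · -- few vertices on the left
      have hZ : ((range m \ V) \ Y).card ≤ X.card := by
        have : (((range m \ V) \ Y).card : ℝ) ≤ X.card := by rw [hTY]; linarith
        exact_mod_cast this
      have hη0 : 0 < η := by linarith
      have h1 := sparse (A := A) (Z := (range m \ V) \ Y) hε hd hm hC (hE2 X hXm)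
        (hx1.le.trans (by nlinarith)) hη
        (Finset.sdiff_subset.trans Finset.sdiff_subset) hZ
      have h2 : k ≤ X.card := by linarith
      have h3 : (1 - ε) * d * k ≤ (1 - ε) * d * X.card := by
        apply mul_le_mul_of_nonneg_left h2
        have : 0 < 1 - ε := by linarith
        positivity
      have h4 : δ * (X.card * d) ≤ ε / 4 * (X.card * d) := by gcongr
      nlinarith
    · rw [not_lt] at hx1
      by_cases hx2 : (X.card : ℝ) ≤ (1 - η / 2) * m
      · -- expansion
        have h1 := hexp X hXm hx1 hx2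
        set P := (range m).filter (fun j => c * d ≤ (dX A X j : ℝ)) with hP
        have h2 : (P.card : ℝ) ≤ (P ∩ Y).card + (m - Y.card) := by
          have h3 : P.card ≤ (P ∩ Y).card + (range m \ Y).card := by
            rw [← Finset.card_union_of_disjoint]
            · apply Finset.card_le_card
              intro j hj
              rw [Finset.mem_union, Finset.mem_inter, Finset.mem_sdiff]
              by_cases hjY : j ∈ Y
              · exact Or.inl ⟨hj, hjY⟩
              · exact Or.inr ⟨(Finset.mem_filter.1 hj).1, hjY⟩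
            · rw [Finset.disjoint_left]
              intro j hj hj'
              exact (Finset.mem_sdiff.1 hj').2 (Finset.mem_inter.1 hj).2
          have h4 : ((range m \ Y).card : ℝ) = m - Y.card := by
            rw [Finset.card_sdiff_of_subset hYm, Finset.card_range, Nat.cast_sub]
            simpa using Finset.card_le_card hYm
          rw [← h4]
          exact_mod_cast h3
        have h3 : c / 2 * m ≤ ((P ∩ Y).card : ℝ) := by
          rw [hUV] at hu2
          linarith
        have h4 : ((P ∩ Y).card : ℝ) * (c * d) ≤ ∑ j ∈ Y, (dX A X j : ℝ) := by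
          calc ((P ∩ Y).card : ℝ) * (c * d) ≤ ∑ j ∈ P ∩ Y, (dX A X j : ℝ) := by
                rw [← nsmul_eq_mul]
                exact Finset.card_nsmul_le_sum _ _ _ fun j hj =>
                  (Finset.mem_filter.1 (Finset.mem_inter.1 hj).1).2
            _ ≤ _ := Finset.sum_le_sum_of_subset_of_nonneg Finset.inter_subset_right
                (fun _ _ _ => by positivity)
        have h5 : c / 2 * m * (c * d) ≤ ((P ∩ Y).card : ℝ) * (c * d) := by gcongr
        have h6 : t * (m * d) ≤ c ^ 2 / 2 * (m * d) := by gcongr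
        have h7 : (1 - ε) * d * k ≤ d * k := by
          have : 0 < ε * (d * k) := by positivity
          nlinarith
        have h8 : d * k ≤ d * (t * m) := by gcongr
        nlinarith
      · -- few vertices on the right
        rw [not_le] at hx2
        have ht' : t * m ≤ η / 2 * m := by gcongr
        have hy : (Y.card : ℝ) ≤ η * m := by linarith
        have hZ : ((range m \ U) \ X).card ≤ Y.card := by
          have : (((range m \ U) \ X).card : ℝ) ≤ Y.card := by rw [hSX]; linarith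
          exact_mod_cast this
        have h1 := sparse (A := A) (Z := (range m \ U) \ X) hε hd hm hC (hE2 Y hYm)
          hy hη (Finset.sdiff_subset.trans Finset.sdiff_subset) hZ
        have hlow2 := low_sum h hu1 (fun i hi => (hdeg i hi).1) hYm hX
        have h0 : ∑ j ∈ X, (dX A Y j : ℝ) = ∑ j ∈ Y, (dX A X j : ℝ) := by
          exact_mod_cast sum_dX_range h Y X
        rw [h0] at hlow2
        have h2 : k ≤ Y.card := by linarith
        have h3 : (1 - ε) * d * k ≤ (1 - ε) * d * Y.card := by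
          apply mul_le_mul_of_nonneg_left h2
          have : 0 < 1 - ε := by linarith
          positivity
        have h4 : δ * (Y.card * d) ≤ ε / 4 * (Y.card * d) := by gcongr
        nlinarith

end BlockE

open BlockE

open scoped Classical in
/-- Regular factors of good bipartite graphs after the removal of small sets. -/
theorem regular_factor {A : ℕ → ℕ → Prop} (h : PG A) (ε : ℝ) (hε : 0 < ε) (hε1 : ε < 1) :
    ∀ᶠ m : ℕ in atTop, ∀ U V : Finset ℕ, Small m U V →
      ∃ B : ℕ → ℕ → Prop, (∀ i j, B i j → A i j) ∧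
        (∀ i ∈ range m \ U, ((range m \ V).filter (fun j => B i j)).card = ⌊(1 - ε) * dd m⌋₊) ∧
        (∀ j ∈ range m \ V, ((range m \ U).filter (fun i => B i j)).card = ⌊(1 - ε) * dd m⌋₊) := by
  obtain ⟨C, hC, hE2⟩ := sum_dX_sq h
  obtain ⟨η, hη0, hη⟩ : ∃ η : ℝ, 0 < η ∧ C * Real.sqrt η ≤ ε ^ 2 / 4 := by
    refine ⟨(ε ^ 2 / (4 * C)) ^ 2, by positivity, ?_⟩
    rw [Real.sqrt_sq (by positivity)]
    apply le_of_eq
    field_simp
  obtain ⟨c, hc, hexp⟩ := h.exp (η / 2) (by positivity)
  obtain ⟨t, ht, ht1, ht2⟩ : ∃ t : ℝ, 0 < t ∧ t ≤ η / 2 ∧ t ≤ c ^ 2 / 2 :=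
    ⟨min (η / 2) (c ^ 2 / 2), by positivity, min_le_left _ _, min_le_right _ _⟩
  obtain ⟨δ, hδ, hδ1, hδ2⟩ : ∃ δ : ℝ, 0 < δ ∧ δ ≤ ε / 4 ∧ 3 * δ ≤ ε * t := by
    refine ⟨min (ε / 4) (ε * t / 3), by positivity, min_le_left _ _, ?_⟩
    have := min_le_right (ε / 4) (ε * t / 3)
    linarith
  filter_upwards [hE2, hexp, h.deg δ hδ, eventually_ge_atTop 2, dd_le,
    dd_lower (δ := 0.1) (by norm_num) (K := 1 / δ + 2 / c) (by positivity)] with
    m hE2 hexp hdeg hm hdle hdlow U V hsm
  obtain ⟨hU, hV, hUV, husm⟩ := hsm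
  have hm0 : (0 : ℝ) < m := by positivity
  have hd := dd_pos hm
  have hpow : (m : ℝ) ^ (1 - 0.1 : ℝ) = (m : ℝ) ^ (0.9 : ℝ) := by norm_num
  rw [hpow] at hdlow
  have hp0 : (0 : ℝ) ≤ (m : ℝ) ^ (0.9 : ℝ) := by positivity
  have hu1 : (U.card : ℝ) ≤ δ * dd m := by
    have h1 : 1 / δ * (m : ℝ) ^ (0.9 : ℝ) ≤ dd m := by
      refine le_trans ?_ hdlow
      gcongr
      have : 0 < 2 / c := by positivity
      linarith
    have h2 : (m : ℝ) ^ (0.9 : ℝ) ≤ δ * dd m := by
      calc (m : ℝ) ^ (0.9 : ℝ) = δ * (1 / δ * (m : ℝ) ^ (0.9 : ℝ)) := by field_simp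
        _ ≤ δ * dd m := by gcongr
    linarith
  have hu2 : (U.card : ℝ) ≤ c / 2 * m := by
    have h1 : 2 / c * (m : ℝ) ^ (0.9 : ℝ) ≤ m := by
      refine le_trans (le_trans ?_ hdlow) hdle
      gcongr
      have : 0 < 1 / δ := by positivity
      linarith
    have h2 : (m : ℝ) ^ (0.9 : ℝ) ≤ c / 2 * m := by
      calc (m : ℝ) ^ (0.9 : ℝ) = c / 2 * (2 / c * (m : ℝ) ^ (0.9 : ℝ)) := by field_simp
        _ ≤ c / 2 * m := by gcongr
    linarith
  have hSc : (range m \ U).card = m - U.card := by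
    rw [Finset.card_sdiff_of_subset hU, Finset.card_range]
  have hTc : (range m \ V).card = m - V.card := by
    rw [Finset.card_sdiff_of_subset hV, Finset.card_range]
  have hVm : V.card ≤ m := by simpa using Finset.card_le_card hV
  apply ore_ryser_nat A (range m \ U) (range m \ V) (by rw [hSc, hTc, hUV])
  intro X hX Y hY
  set r := ⌊(1 - ε) * dd m⌋₊ with hr
  have hr1 : (r : ℝ) ≤ (1 - ε) * dd m :=
    Nat.floor_le (mul_nonneg (by linarith) hd.le)
  by_cases hk : X.card + Y.card ≤ (range m \ V).card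
  · calc r * (X.card + Y.card) ≤ r * (range m \ V).card := Nat.mul_le_mul_left _ hk
      _ ≤ _ := Nat.le_add_left _ _
  · rw [not_le] at hk
    have hTc' : ((range m \ V).card : ℝ) = m - V.card := by
      rw [hTc, Nat.cast_sub hVm]
    have hk' : 0 < (X.card : ℝ) + Y.card - (m - V.card) := by
      rw [← hTc']
      have : ((range m \ V).card : ℝ) < X.card + Y.card := by exact_mod_cast hk
      linarith
    have hmain := cond_fin h (by omega) hε hε1 hδ hδ1 hδ2 hη ht ht1 ht2 hc hC hd hdeg hE2 hexp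
      hU hV hUV hu1 hu2 hX hY rfl hk'
    have h1 : (r : ℝ) * ((X.card : ℝ) + Y.card - (m - V.card)) ≤
        (1 - ε) * dd m * ((X.card : ℝ) + Y.card - (m - V.card)) :=
      mul_le_mul_of_nonneg_right hr1 hk'.le
    have h2 : (r : ℝ) * (X.card + Y.card) ≤ (∑ j ∈ Y, (dX A X j : ℝ)) + r * (range m \ V).card := by
      rw [hTc']
      linarith
    exact_mod_cast h2

namespace BlockE

open scoped Classical in
lemma pm_count (B : ℕ → ℕ → Prop) (S T : Finset ℕ) (n r : ℕ) (hS : S.card = n) (hT : T.card = n)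
    (hr : 0 < r) (hl : ∀ i ∈ S, (T.filter (fun j => B i j)).card = r)
    (hrr : ∀ j ∈ T, (S.filter (fun i => B i j)).card = r) :
    ((r : ℝ) / Real.exp 1) ^ n ≤ (Nat.card (Mt B S T) : ℝ) := by
  have hr0 : (0 : ℝ) < r := by exact_mod_cast hr
  let eS : S ≃ Fin n := S.equivFinOfCardEq hS
  let eT : T ≃ Fin n := T.equivFinOfCardEq hT
  let M : Matrix (Fin n) (Fin n) ℝ :=
    fun a b => if B (eS.symm a : ℕ) (eT.symm b : ℕ) then 1 / (r : ℝ) else 0
  have hM : M ∈ doublyStochastic ℝ (Fin n) := by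
    rw [mem_doublyStochastic_iff_sum]
    refine ⟨fun a b => ?_, fun a => ?_, fun b => ?_⟩
    · simp only [M]
      split_ifs
      · positivity
      · exact le_refl _
    · have h1 : ∑ b, M a b = ∑ j ∈ T, if B (eS.symm a : ℕ) j then 1 / (r : ℝ) else 0 := by
        rw [← Finset.sum_coe_sort T]
        exact Equiv.sum_comp eT.symm (fun j : T => if B (eS.symm a : ℕ) (j : ℕ) then 1 / (r : ℝ) else 0)
      rw [h1, ← Finset.sum_filter, Finset.sum_const, hl _ (eS.symm a).2, nsmul_eq_mul]
      field_simp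
    · have h1 : ∑ a, M a b = ∑ i ∈ S, if B i (eT.symm b : ℕ) then 1 / (r : ℝ) else 0 := by
        rw [← Finset.sum_coe_sort S]
        exact Equiv.sum_comp eS.symm (fun i : S => if B (i : ℕ) (eT.symm b : ℕ) then 1 / (r : ℝ) else 0)
      rw [h1, ← Finset.sum_filter, Finset.sum_const, hrr _ (eT.symm b).2, nsmul_eq_mul]
      field_simp
  have hperm : M.permanent = ((univ.filter (fun σ : Equiv.Perm (Fin n) =>
      ∀ i, B (eS.symm (σ i) : ℕ) (eT.symm i : ℕ))).card : ℝ) * (1 / (r : ℝ)) ^ n := by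
    unfold Matrix.permanent
    rw [Finset.card_filter, Nat.cast_sum, Finset.sum_mul]
    refine Finset.sum_congr rfl fun σ _ => ?_
    by_cases hσ : ∀ i, B (eS.symm (σ i) : ℕ) (eT.symm i : ℕ)
    · rw [if_pos hσ]
      have : ∀ i ∈ (univ : Finset (Fin n)), M (σ i) i = 1 / (r : ℝ) := fun i _ => if_pos (hσ i)
      rw [Finset.prod_congr rfl this, Finset.prod_const, Finset.card_univ, Fintype.card_fin]
      simp
    · rw [if_neg hσ]
      push Not at hσ
      obtain ⟨i, hi⟩ := hσ
      rw [Finset.prod_eq_zero (Finset.mem_univ i) (if_neg hi)]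
      simp
  have hcount : ((univ.filter (fun σ : Equiv.Perm (Fin n) =>
      ∀ i, B (eS.symm (σ i) : ℕ) (eT.symm i : ℕ))).card) ≤ Nat.card (Mt B S T) := by
    have : Finite (Mt B S T) := by
      unfold Mt
      infer_instance
    rw [← Fintype.card_subtype, ← Nat.card_eq_fintype_card]
    refine Nat.card_le_card_of_injective
      (fun σ : {σ : Equiv.Perm (Fin n) // ∀ i, B (eS.symm (σ i) : ℕ) (eT.symm i : ℕ)} =>
        (⟨(eS.trans σ.1.symm).trans eT.symm, fun i => by
          have := σ.2 (σ.1.symm (eS i))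
          simpa using this⟩ : Mt B S T)) ?_
    intro σ τ hst
    have h1 : (eS.trans σ.1.symm).trans eT.symm = (eS.trans τ.1.symm).trans eT.symm :=
      congrArg Subtype.val hst
    apply Subtype.ext
    have h2 : σ.1.symm = τ.1.symm := by
      ext x
      have h3 := DFunLike.congr_fun h1 (eS.symm x)
      simp only [Equiv.trans_apply, Equiv.apply_symm_apply] at h3
      exact congrArg _ (eT.symm.injective h3)
    calc σ.1 = σ.1.symm.symm := (Equiv.symm_symm _).symm
      _ = τ.1.symm.symm := by rw [h2]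
      _ = τ.1 := Equiv.symm_symm _
  have hv := vdw n M hM
  rw [hperm] at hv
  have hexp : (n : ℝ) ^ n / n.factorial ≤ Real.exp n := Real.pow_div_factorial_le_exp (n : ℝ) (by positivity) n
  have hfac : (0 : ℝ) < n.factorial := by exact_mod_cast n.factorial_pos
  have hnn : (0 : ℝ) < (n : ℝ) ^ n := by
    rcases Nat.eq_zero_or_pos n with h0 | h0
    · rw [h0]; norm_num
    · positivity
  have h1 : (Real.exp 1 ^ n)⁻¹ ≤ (n.factorial : ℝ) / (n : ℝ) ^ n := by
    rw [inv_le_comm₀ (by positivity) (by positivity), inv_div, ← Real.exp_nat_mul, mul_one]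
    exact hexp
  have hcount' : ((univ.filter (fun σ : Equiv.Perm (Fin n) =>
      ∀ i, B (eS.symm (σ i) : ℕ) (eT.symm i : ℕ))).card : ℝ) ≤ (Nat.card (Mt B S T) : ℝ) := by
    exact_mod_cast hcount
  have h2 : (Real.exp 1 ^ n)⁻¹ ≤ (Nat.card (Mt B S T) : ℝ) * (1 / (r : ℝ)) ^ n :=
    h1.trans (hv.trans (by gcongr))
  have h3 : (0 : ℝ) < (r : ℝ) ^ n := by positivity
  calc ((r : ℝ) / Real.exp 1) ^ n = (r : ℝ) ^ n * (Real.exp 1 ^ n)⁻¹ := by
        rw [div_pow, div_eq_mul_inv]
    _ ≤ (r : ℝ) ^ n * ((Nat.card (Mt B S T) : ℝ) * (1 / (r : ℝ)) ^ n) := by gcongr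
    _ = (Nat.card (Mt B S T) : ℝ) := by
        rw [one_div, inv_pow]
        field_simp

lemma Mt_mono {A B : ℕ → ℕ → Prop} (hBA : ∀ i j, B i j → A i j) (S T : Finset ℕ) :
    Nat.card (Mt B S T) ≤ Nat.card (Mt A S T) := by
  have : Finite (Mt A S T) := by
    unfold Mt
    infer_instance
  refine Nat.card_le_card_of_injective
    (fun e : Mt B S T => (⟨e.1, fun i => hBA _ _ (e.2 i)⟩ : Mt A S T)) ?_
  intro e f hef
  exact Subtype.ext (Subtype.mk.inj hef)

end BlockE

/-- Lower bound for the number of perfect matchings after the removal of small sets. -/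
theorem count_lower {A : ℕ → ℕ → Prop} (h : PG A) (ε : ℝ) (hε : 0 < ε) (hε1 : ε < 1) :
    ∀ᶠ m : ℕ in atTop, ∀ U V : Finset ℕ, Small m U V →
      ((1 - ε) * dd m / Real.exp 1) ^ m ≤ (Nat.card (Mt A (range m \ U) (range m \ V)) : ℝ) := by
  classical
  have hρ : 1 < (1 - 3 * ε / 4) / (1 - ε) := by
    rw [lt_div_iff₀ (by linarith)]
    linarith
  set ρ := (1 - 3 * ε / 4) / (1 - ε) with hρdef
  have hlogρ : 0 < Real.log ρ := Real.log_pos hρ
  filter_upwards [regular_factor h (ε / 2) (by positivity) (by linarith), eventually_ge_atTop 2,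
    dd_le, dd_lower (δ := 0.1) (by norm_num) (K := 4 / ε) (by positivity),
    log_le_rpow (δ := 0.1) (by norm_num) (K := 1 / Real.log ρ) (by positivity)] with
    m hfac hm hdle hdlow hlog U V hsm
  obtain ⟨B, hBA, hBl, hBr⟩ := hfac U V hsm
  obtain ⟨hU, hV, hUV, husm⟩ := hsm
  have hm0 : (0 : ℝ) < m := by positivity
  have hm1 : (1 : ℝ) ≤ m := by exact_mod_cast (by omega : 1 ≤ m)
  have hd := dd_pos hm
  set r := ⌊(1 - ε / 2) * dd m⌋₊ with hr
  have hd1 : 4 / ε ≤ dd m := by
    refine le_trans ?_ hdlow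
    have : (1 : ℝ) ≤ (m : ℝ) ^ (1 - 0.1 : ℝ) := Real.one_le_rpow hm1 (by norm_num)
    have h4 : 0 < 4 / ε := by positivity
    nlinarith
  have hr1 : (1 - 3 * ε / 4) * dd m ≤ r := by
    have h1 : (1 - ε / 2) * dd m < r + 1 := Nat.lt_floor_add_one _
    have h2 : 1 ≤ ε / 4 * dd m := by
      calc (1 : ℝ) = ε / 4 * (4 / ε) := by field_simp
        _ ≤ ε / 4 * dd m := by gcongr
    linarith
  have ha0 : 0 < (1 - 3 * ε / 4) * dd m := by
    have : 0 < 1 - 3 * ε / 4 := by linarith
    positivity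
  have hrpos : 0 < r := by
    have : (0 : ℝ) < r := lt_of_lt_of_le ha0 hr1
    exact_mod_cast this
  have hUm : U.card ≤ m := by simpa using Finset.card_le_card hU
  have hSc : (range m \ U).card = m - U.card := by
    rw [Finset.card_sdiff_of_subset hU, Finset.card_range]
  have hTc : (range m \ V).card = m - U.card := by
    rw [Finset.card_sdiff_of_subset hV, Finset.card_range, hUV]
  have hpm := BlockE.pm_count B (range m \ U) (range m \ V) (m - U.card) r hSc hTc hrpos
    (fun i hi => by convert hBl i hi) (fun j hj => by convert hBr j hj)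
  have hmono : (Nat.card (Mt B (range m \ U) (range m \ V)) : ℝ) ≤
      (Nat.card (Mt A (range m \ U) (range m \ V)) : ℝ) := by
    exact_mod_cast BlockE.Mt_mono hBA _ _
  refine le_trans ?_ (hpm.trans hmono)
  set a := (1 - 3 * ε / 4) * dd m / Real.exp 1 with ha
  set b := (1 - ε) * dd m / Real.exp 1 with hb
  have ha1 : 0 < a := by positivity
  have hb1 : 0 < b := by
    have : 0 < 1 - ε := by linarith
    positivity
  have hab : a = ρ * b := by
    rw [ha, hb, hρdef]
    have : (1 - ε) ≠ 0 := by linarith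
    field_simp
  have ham : a ≤ m := by
    rw [ha, div_le_iff₀ (Real.exp_pos _)]
    have h1 : (1 - 3 * ε / 4) * dd m ≤ 1 * dd m := by
      apply mul_le_mul_of_nonneg_right _ hd.le
      linarith
    have h2 : (1 : ℝ) ≤ Real.exp 1 := Real.one_le_exp zero_le_one
    nlinarith
  have hau : a ^ U.card ≤ ρ ^ m := by
    calc a ^ U.card ≤ (m : ℝ) ^ U.card := by gcongr
      _ = Real.exp (U.card * Real.log m) := by
          rw [Real.exp_nat_mul, Real.exp_log hm0]
      _ ≤ Real.exp (m * Real.log ρ) := by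
          apply Real.exp_le_exp.2
          have h1 : Real.log m ≤ (m : ℝ) ^ (0.1 : ℝ) * Real.log ρ := by
            calc Real.log m = (1 / Real.log ρ * Real.log m) * Real.log ρ := by field_simp
              _ ≤ _ := by gcongr
          have h0 : 0 ≤ Real.log m := Real.log_nonneg hm1
          calc (U.card : ℝ) * Real.log m ≤ (m : ℝ) ^ (0.9 : ℝ) * ((m : ℝ) ^ (0.1 : ℝ) * Real.log ρ) := by
                gcongr
            _ = ((m : ℝ) ^ (0.9 : ℝ) * (m : ℝ) ^ (0.1 : ℝ)) * Real.log ρ := by ring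
            _ = m * Real.log ρ := by
                rw [← Real.rpow_add hm0]
                norm_num
      _ = ρ ^ m := by
          rw [Real.exp_nat_mul, Real.exp_log (by linarith)]
  have hkey : b ^ m * a ^ U.card ≤ a ^ (m - U.card) * a ^ U.card := by
    rw [← pow_add, Nat.sub_add_cancel hUm]
    calc b ^ m * a ^ U.card ≤ b ^ m * ρ ^ m := by gcongr
      _ = a ^ m := by rw [hab, mul_pow]; ring
  calc b ^ m ≤ a ^ (m - U.card) := le_of_mul_le_mul_right hkey (by positivity)
    _ ≤ ((r : ℝ) / Real.exp 1) ^ (m - U.card) := by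
        gcongr
        rw [ha]
        gcongr

end Pool.Agent.PC
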