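import Mathlib
import Pool.Agent.PC.Defs

set_option autoImplicit false

/-!
Block J, part 1: inserting paths into the gadgets.
-/

namespace Pool.Agent.PC.BlockJ

open Finset

/-- A path that can be inserted into a gadget: it starts on the odd side and ends on the even
side. -/
def IsPathAB (A : ℕ → ℕ → Prop) (m : ℕ) (P : List (Bool × ℕ)) : Prop :=
  P.IsChain (adjV A) ∧
    ∃ a b, a < m ∧ b < m ∧ P.head? = some (false, a) ∧ P.getLast? = some (true, b)

theorem adjV_symm {A : ℕ → ℕ → Prop} (hA : ∀ i j, A i j → A j i) {u v : Bool × ℕ}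
    (h : adjV A u v) : adjV A v u :=
  ⟨fun e => h.1 e.symm, hA _ _ h.2⟩

/-- Inserting one path into one gadget. -/
theorem insert_one {A : ℕ → ℕ → Prop} {m : ℕ} {Γ P : List (Bool × ℕ)}
    (hΓ : ∀ a < m, ∀ b < m, Absorbs A Γ a b) (hP : IsPathAB A m P) :
    ∃ W : List (Bool × ℕ), W.Perm (Γ ++ P) ∧ W.IsChain (adjV A) ∧ W.head? = Γ.head? ∧
      W.getLast? = Γ.getLast? ∧ P <:+: W := by
  obtain ⟨hPc, a, b, ha, hb, hPa, hPb⟩ := hP
  obtain ⟨L1, L2, x, y, hperm, hc1, hc2, hh, hl, hxa, hby⟩ := hΓ a ha b hb
  refine ⟨(L1 ++ [x]) ++ (P ++ (y :: L2)), ?_, ?_, ?_, ?_, ?_⟩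
  · have h1 : ((L1 ++ [x]) ++ (P ++ (y :: L2))).Perm ((L1 ++ [x]) ++ ((y :: L2) ++ P)) :=
      List.Perm.append_left _ List.perm_append_comm
    refine h1.trans ?_
    rw [← List.append_assoc]
    exact List.Perm.append_right _ hperm
  · rw [List.isChain_append]
    refine ⟨hc1, ?_, ?_⟩
    · rw [List.isChain_append]
      refine ⟨hPc, hc2, ?_⟩
      intro p hp q hq
      rw [hPb] at hp
      simp only [Option.mem_def, Option.some.injEq, List.head?_cons] at hp hq
      subst hp hq
      exact hby
    · intro p hp q hq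
      rw [List.getLast?_append] at hp
      rw [List.head?_append, hPa] at hq
      simp only [Option.mem_def, List.getLast?_singleton, Option.or_some, Option.some.injEq,
        Option.some_or] at hp hq
      subst hp hq
      exact hxa
  · rw [List.head?_append, ← hh]
    simp
  · rw [List.getLast?_append, List.getLast?_append, ← hl]
    simp [List.getLast?_cons]
  · exact ⟨L1 ++ [x], y :: L2, by simp⟩

/-- Inserting a list of paths into a closed chain of gadgets. -/
theorem insert_all {A : ℕ → ℕ → Prop} {m : ℕ} :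
    ∀ (Gs Ps : List (List (Bool × ℕ))), Ps.length ≤ Gs.length →
      Gs.flatten.IsChain (adjV A) →
      (∀ Γ ∈ Gs, ∀ a < m, ∀ b < m, Absorbs A Γ a b) → (∀ P ∈ Ps, IsPathAB A m P) →
      ∃ W : List (Bool × ℕ), W.Perm (Gs.flatten ++ Ps.flatten) ∧ W.IsChain (adjV A) ∧
        W.head? = Gs.flatten.head? ∧ W.getLast? = Gs.flatten.getLast? ∧ ∀ P ∈ Ps, P <:+: W := by
  intro Gs
  induction Gs with
  | nil =>
    intro Ps hlen hc _ _
    have : Ps = [] := by
      simpa using hlen
    subst this
    exact ⟨[], by simp⟩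
  | cons Γ Gs ih =>
    intro Ps hlen hc hG hP
    rw [List.flatten_cons] at hc
    cases Ps with
    | nil => exact ⟨(Γ :: Gs).flatten, by simp, by simpa using hc, rfl, rfl, by simp⟩
    | cons P Ps =>
      rw [List.isChain_append] at hc
      obtain ⟨W1, hp1, hc1, hh1, hl1, hi1⟩ := insert_one (m := m) (hG Γ (by simp)) (hP P (by simp))
      obtain ⟨W2, hp2, hc2, hh2, hl2, hi2⟩ := ih Ps (by simpa using hlen) hc.2.1
        (fun Γ' h' => hG Γ' (by simp [h'])) (fun P' h' => hP P' (by simp [h']))
      refine ⟨W1 ++ W2, ?_, ?_, ?_, ?_, ?_⟩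
      · rw [List.flatten_cons, List.flatten_cons]
        refine (hp1.append hp2).trans ?_
        rw [List.append_assoc, List.append_assoc]
        refine List.Perm.append_left _ ?_
        rw [← List.append_assoc, ← List.append_assoc]
        exact List.Perm.append_right _ List.perm_append_comm
      · rw [List.isChain_append]
        refine ⟨hc1, hc2, ?_⟩
        rw [hl1, hh2]
        exact hc.2.2
      · rw [List.flatten_cons, List.head?_append, List.head?_append, hh1, hh2]
      · rw [List.flatten_cons, List.getLast?_append, List.getLast?_append, hl1, hl2]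
      · intro Q hQ
        rcases List.mem_cons.1 hQ with rfl | hQ
        · exact hi1.trans ⟨[], W2, by simp⟩
        · exact (hi2 Q hQ).trans ⟨W1, [], by simp⟩

end Pool.Agent.PC.BlockJ
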