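import Mathlib
import Pool.Agent.PC.Defs

set_option autoImplicit false

/-!
Block J, part 2: a Hamilton cycle, given as a closed chain, gives two perfect matchings.
-/

namespace Pool.Agent.PC.BlockJ

open Finset

/-- `W` is a closed chain through all the vertices. -/
structure ClosedHam (A : ℕ → ℕ → Prop) (m : ℕ) (W : List (Bool × ℕ)) : Prop where
  nodup : W.Nodup
  mem : ∀ v, v ∈ W ↔ v.2 < m
  chain : W.IsChain (adjV A)
  closed : ∀ u w, W.head? = some u → W.getLast? = some w → adjV A w u

section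

variable {A : ℕ → ℕ → Prop} {m : ℕ} {W : List (Bool × ℕ)}

theorem adj_formPerm' (hnd : W.Nodup) (hch : W.IsChain (adjV A))
    (hcl : ∀ u w, W.head? = some u → W.getLast? = some w → adjV A w u)
    {v : Bool × ℕ} (hv : v ∈ W) :
    adjV A v (W.formPerm v) := by
  obtain ⟨i, hi, rfl⟩ := List.mem_iff_getElem.1 hv
  rw [List.formPerm_apply_getElem W hnd i hi]
  by_cases hi' : i + 1 < W.length
  · have h1 := List.isChain_iff_getElem.1 hch i hi'
    have h2 : (i + 1) % W.length = i + 1 := Nat.mod_eq_of_lt hi'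
    simpa [h2] using h1
  · have hl : i + 1 = W.length := by omega
    have h2 : (i + 1) % W.length = 0 := by rw [hl]; exact Nat.mod_self _
    have h0 : 0 < W.length := by omega
    have hne : W ≠ [] := by
      rintro rfl
      simp at h0
    have h3 := hcl W[0] W[i] (by rw [List.head?_eq_getElem?]; simp [h0]) (by
      rw [List.getLast?_eq_getElem?]
      have : W.length - 1 = i := by omega
      rw [this]
      simp [hi])
    simpa [h2] using h3

theorem adj_formPerm (h : ClosedHam A m W) {v : Bool × ℕ} (hv : v ∈ W) :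
    adjV A v (W.formPerm v) :=
  adj_formPerm' h.nodup h.chain h.closed hv

/-- odd and even vertices of a closed chain with this side -/
def side (W : List (Bool × ℕ)) (b : Bool) : Finset ℕ :=
  (W.toFinset.filter (fun v => v.1 = b)).image Prod.snd

theorem mem_side (W : List (Bool × ℕ)) (b : Bool) (x : ℕ) : x ∈ side W b ↔ (b, x) ∈ W := by
  rw [side, mem_image]
  constructor
  · rintro ⟨v, hv, rfl⟩
    rw [mem_filter, List.mem_toFinset] at hv
    obtain ⟨h1, rfl⟩ := hv
    exact h1
  · intro h
    exact ⟨(b, x), by simp [h], rfl⟩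

theorem card_side (W : List (Bool × ℕ)) (b : Bool) :
    (side W b).card = (W.toFinset.filter (fun v => v.1 = b)).card := by
  rw [side]
  apply card_image_of_injOn
  intro v hv w hw hvw
  simp only [coe_filter, List.mem_toFinset, Set.mem_setOf_eq] at hv hw
  exact Prod.ext (hv.2.trans hw.2.symm) hvw

theorem card_side_le (hnd : W.Nodup) (hch : W.IsChain (adjV A))
    (hcl : ∀ u w, W.head? = some u → W.getLast? = some w → adjV A w u) (b : Bool) :
    (side W b).card ≤ (side W (!b)).card := by
  rw [card_side, card_side]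
  apply card_le_card_of_injOn W.formPerm
  · intro v hv
    simp only [coe_filter, List.mem_toFinset, Set.mem_setOf_eq] at hv ⊢
    have h1 := (adj_formPerm' hnd hch hcl hv.1).1
    refine ⟨List.formPerm_apply_mem_of_mem hv.1, ?_⟩
    rw [hv.2] at h1
    revert h1
    generalize (W.formPerm v).1 = a
    cases a <;> cases b <;> simp
  · intro v _ w _ hvw
    exact W.formPerm.injective hvw

theorem formPerm_mem (h : ClosedHam A m W) {v : Bool × ℕ} (hv : v.2 < m) :
    (W.formPerm v).2 < m := by
  rw [← h.mem] at hv ⊢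
  exact List.formPerm_apply_mem_of_mem hv

theorem formPerm_inv_mem (h : ClosedHam A m W) {v : Bool × ℕ} (hv : v.2 < m) :
    (W.formPerm⁻¹ v).2 < m := by
  rw [← h.mem] at hv ⊢
  rw [← List.formPerm_mem_iff_mem]
  simpa using hv

theorem adj_formPerm_inv (h : ClosedHam A m W) {v : Bool × ℕ} (hv : v.2 < m) :
    adjV A (W.formPerm⁻¹ v) v := by
  have h1 := adj_formPerm h (v := W.formPerm⁻¹ v) ((h.mem _).2 (formPerm_inv_mem h hv))
  simpa using h1

theorem fst_formPerm (h : ClosedHam A m W) {v : Bool × ℕ} (hv : v.2 < m) :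
    (W.formPerm v).1 = !v.1 := by
  have h1 := (adj_formPerm h ((h.mem _).2 hv)).1
  revert h1
  generalize (W.formPerm v).1 = a
  generalize v.1 = b
  cases a <;> cases b <;> simp

theorem fst_formPerm_inv (h : ClosedHam A m W) {v : Bool × ℕ} (hv : v.2 < m) :
    (W.formPerm⁻¹ v).1 = !v.1 := by
  have h1 := (adj_formPerm_inv h hv).1
  revert h1
  generalize (W.formPerm⁻¹ v).1 = a
  generalize v.1 = b
  cases a <;> cases b <;> simp

theorem formPerm_eq (h : ClosedHam A m W) {b : Bool} {x : ℕ} (hx : x < m) :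
    W.formPerm (b, x) = (!b, (W.formPerm (b, x)).2) :=
  Prod.ext (fst_formPerm h hx) rfl

theorem formPerm_inv_eq (h : ClosedHam A m W) {b : Bool} {x : ℕ} (hx : x < m) :
    W.formPerm⁻¹ (b, x) = (!b, (W.formPerm⁻¹ (b, x)).2) :=
  Prod.ext (fst_formPerm_inv h hx) rfl

/-- successor of an odd vertex -/
noncomputable def succE (h : ClosedHam A m W) : range m ≃ range m where
  toFun x := ⟨(W.formPerm (false, (x : ℕ))).2,
    mem_range.2 (formPerm_mem h (mem_range.1 x.2))⟩
  invFun y := ⟨(W.formPerm⁻¹ (true, (y : ℕ))).2,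
    mem_range.2 (formPerm_inv_mem h (mem_range.1 y.2))⟩
  left_inv x := by
    apply Subtype.ext
    have h1 := formPerm_eq h (b := false) (mem_range.1 x.2)
    simp only [Bool.not_false] at h1
    change (W.formPerm⁻¹ (true, (W.formPerm (false, (x : ℕ))).2)).2 = x
    rw [← h1]
    simp
  right_inv y := by
    apply Subtype.ext
    have h1 := formPerm_inv_eq h (b := true) (mem_range.1 y.2)
    simp only [Bool.not_true] at h1
    change (W.formPerm (false, (W.formPerm⁻¹ (true, (y : ℕ))).2)).2 = y
    rw [← h1]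
    simp

/-- predecessor of an odd vertex -/
noncomputable def predE (h : ClosedHam A m W) : range m ≃ range m where
  toFun x := ⟨(W.formPerm⁻¹ (false, (x : ℕ))).2,
    mem_range.2 (formPerm_inv_mem h (mem_range.1 x.2))⟩
  invFun y := ⟨(W.formPerm (true, (y : ℕ))).2,
    mem_range.2 (formPerm_mem h (mem_range.1 y.2))⟩
  left_inv x := by
    apply Subtype.ext
    have h1 := formPerm_inv_eq h (b := false) (mem_range.1 x.2)
    simp only [Bool.not_false] at h1
    change (W.formPerm (true, (W.formPerm⁻¹ (false, (x : ℕ))).2)).2 = x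
    rw [← h1]
    simp
  right_inv y := by
    apply Subtype.ext
    have h1 := formPerm_eq h (b := true) (mem_range.1 y.2)
    simp only [Bool.not_true] at h1
    change (W.formPerm⁻¹ (false, (W.formPerm (true, (y : ℕ))).2)).2 = y
    rw [← h1]
    simp

/-- the matching `x ↦` successor of `x` -/
noncomputable def succM (h : ClosedHam A m W) : Mt A (range m) (range m) :=
  ⟨succE h, fun x => by
    have h1 := (adj_formPerm h (v := (false, (x : ℕ))) ((h.mem _).2 (mem_range.1 x.2))).2
    exact h1⟩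

/-- the matching `x ↦` predecessor of `x` -/
noncomputable def predM (hA : ∀ i j, A i j → A j i) (h : ClosedHam A m W) :
    Mt A (range m) (range m) :=
  ⟨predE h, fun x => by
    have h1 := hA _ _ (adj_formPerm_inv h (v := (false, (x : ℕ))) (mem_range.1 x.2)).2
    exact h1⟩

theorem zpow_intertwine {X Y : Type*} (ι : X → Y) (τ : Equiv.Perm X) (ρ : Equiv.Perm Y)
    (hι : ∀ x, ι (τ x) = ρ (ι x)) (k : ℤ) (x : X) : ι ((τ ^ k) x) = (ρ ^ k) (ι x) := by
  have hnat : ∀ (n : ℕ) (x : X), ι ((τ ^ n) x) = (ρ ^ n) (ι x) := by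
    intro n
    induction n with
    | zero => intro x; simp
    | succ n ih =>
      intro x
      rw [pow_succ, pow_succ, Equiv.Perm.mul_apply, Equiv.Perm.mul_apply, ih, hι]
  cases k with
  | ofNat n => simpa using hnat n x
  | negSucc n =>
    rw [zpow_negSucc, zpow_negSucc]
    have h1 := hnat (n + 1) ((τ ^ (n + 1))⁻¹ x)
    have h2 : (τ ^ (n + 1)) ((τ ^ (n + 1))⁻¹ x) = x := by
      rw [← Equiv.Perm.mul_apply, mul_inv_cancel, Equiv.Perm.one_apply]
    rw [h2] at h1
    rw [h1, ← Equiv.Perm.mul_apply, inv_mul_cancel, Equiv.Perm.one_apply]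

theorem fst_zpow (h : ClosedHam A m W) (k : ℤ) {v : Bool × ℕ} (hv : v.2 < m) :
    ((W.formPerm ^ k) v).2 < m ∧ (((W.formPerm ^ k) v).1 = v.1 ↔ Even k) := by
  have key : ∀ (n : ℕ) (v : Bool × ℕ), v.2 < m →
      ((W.formPerm ^ n) v).2 < m ∧ (((W.formPerm ^ n) v).1 = v.1 ↔ Even n) := by
    intro n
    induction n with
    | zero => intro v hv; simp [hv]
    | succ n ih =>
      intro v hv
      obtain ⟨h1, h2⟩ := ih v hv
      rw [pow_succ', Equiv.Perm.mul_apply]
      refine ⟨formPerm_mem h h1, ?_⟩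
      rw [fst_formPerm h h1, Nat.even_add_one, ← h2]
      generalize ((W.formPerm ^ n) v).1 = a
      generalize v.1 = b
      cases a <;> cases b <;> simp
  cases k with
  | ofNat n => simpa using key n v hv
  | negSucc n =>
    rw [zpow_negSucc]
    have h0 : ((W.formPerm ^ (n + 1))⁻¹ v).2 < m := by
      rw [← h.mem]
      have h3 := List.form_perm_zpow_apply_mem_imp_mem W v ((h.mem v).2 hv) (Int.negSucc n)
      rw [zpow_negSucc] at h3
      exact h3
    refine ⟨h0, ?_⟩
    have h4 := (key (n + 1) _ h0).2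
    have h2 : (W.formPerm ^ (n + 1)) ((W.formPerm ^ (n + 1))⁻¹ v) = v := by
      rw [← Equiv.Perm.mul_apply, mul_inv_cancel, Equiv.Perm.one_apply]
    rw [h2] at h4
    rw [Int.negSucc_eq, even_neg]
    have h5 : Even ((n : ℤ) + 1) ↔ Even (n + 1) := by
      have : ((n : ℤ) + 1) = ((n + 1 : ℕ) : ℤ) := by push_cast; rfl
      rw [this]
      exact Int.even_coe_nat _
    rw [h5, ← h4]
    exact eq_comm

theorem sameCycle_pred_succ (hA : ∀ i j, A i j → A j i) (h : ClosedHam A m W)
    (x y : range m) :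
    Equiv.Perm.SameCycle ((predM hA h).1.trans (succM h).1.symm) x y := by
  set σ := W.formPerm with hσ
  set τ : Equiv.Perm (range m) := (predM hA h).1.trans (succM h).1.symm with hτ
  have hx := mem_range.1 x.2
  have hy := mem_range.1 y.2
  have hι : ∀ z : range m, ((false, ((τ z : range m) : ℕ)) : Bool × ℕ) =
      ((σ⁻¹ * σ⁻¹ : Equiv.Perm (Bool × ℕ))) (false, (z : ℕ)) := by
    intro z
    have hz := mem_range.1 z.2
    have h1 := formPerm_inv_eq h (b := false) hz
    have h2 : ((τ z : range m) : ℕ) = (σ⁻¹ (true, (σ⁻¹ (false, (z : ℕ))).2)).2 := rfl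
    simp only [Bool.not_false] at h1
    rw [Equiv.Perm.mul_apply, h2, hσ, ← h1]
    have h3 := formPerm_inv_eq h (b := true) (x := (W.formPerm⁻¹ (false, (z : ℕ))).2)
      (formPerm_inv_mem h hz)
    simp only [Bool.not_true] at h3
    rw [← h1] at h3
    exact h3.symm
  -- length at least two
  have hxm : ((false, (x : ℕ)) : Bool × ℕ) ∈ W := (h.mem _).2 hx
  have hym : ((false, (y : ℕ)) : Bool × ℕ) ∈ W := (h.mem _).2 hy
  have hlen : 2 ≤ W.length := by
    by_contra hlt
    have h1 : σ = 1 := (List.formPerm_eq_one_iff _ h.nodup).2 (by omega)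
    have h2 := fst_formPerm h (v := (false, (x : ℕ))) hx
    rw [← hσ, h1] at h2
    simp at h2
  have hcyc : σ.IsCycle := List.isCycle_formPerm h.nodup hlen
  have hne : ∀ z : ℕ, z < m → σ (false, z) ≠ (false, z) := by
    intro z hz h2
    have h3 := fst_formPerm h (v := (false, z)) hz
    rw [← hσ, h2] at h3
    simp at h3
  obtain ⟨k, hk⟩ := hcyc.exists_zpow_eq (hne _ hx) (hne _ hy)
  have heven : Even k := by
    rw [← (fst_zpow h k (v := (false, (x : ℕ))) hx).2, ← hσ, hk]
  obtain ⟨j, hj⟩ := heven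
  refine ⟨-j, ?_⟩
  have h5 := zpow_intertwine (fun z : range m => ((false, (z : ℕ)) : Bool × ℕ)) τ (σ⁻¹ * σ⁻¹)
    hι (-j) x
  have h6 : ((σ⁻¹ * σ⁻¹ : Equiv.Perm (Bool × ℕ)) ^ (-j)) = σ ^ k := by
    rw [hj, ← pow_two, ← zpow_natCast, ← zpow_mul, inv_zpow, ← zpow_neg]
    congr 1
    push_cast
    ring
  rw [h6, hk] at h5
  apply Subtype.ext
  exact (Prod.ext_iff.1 h5).2

theorem formPerm_of_infix (h : ClosedHam A m W) {u v : Bool × ℕ} (huv : [u, v] <:+: W) :
    W.formPerm u = v := by
  obtain ⟨s, t, hst⟩ := huv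
  have hst' : s ++ u :: v :: t = W := by rw [← hst]; simp
  have hlt : s.length + 1 < W.length := by
    rw [← hst']
    simp only [List.length_append, List.length_cons]
    omega
  have h1 := List.formPerm_apply_lt_getElem W h.nodup s.length hlt
  have h2 : W[s.length] = u := by
    simp [← hst']
  have h3 : W[s.length + 1] = v := by
    simp [← hst']
  rw [h2, h3] at h1
  exact h1

theorem succM_of_infix (h : ClosedHam A m W) {x y : ℕ} (hx : x ∈ range m)
    (hxy : [((false, x) : Bool × ℕ), (true, y)] <:+: W) :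
    (((succM h).1 ⟨x, hx⟩ : range m) : ℕ) = y := by
  have h1 := formPerm_of_infix h hxy
  change (W.formPerm (false, x)).2 = y
  rw [h1]

theorem predM_of_infix (hA : ∀ i j, A i j → A j i) (h : ClosedHam A m W) {x y : ℕ}
    (hx : x ∈ range m) (hxy : [((true, y) : Bool × ℕ), (false, x)] <:+: W) :
    (((predM hA h).1 ⟨x, hx⟩ : range m) : ℕ) = y := by
  have h1 := formPerm_of_infix h hxy
  change (W.formPerm⁻¹ (false, x)).2 = y
  rw [← h1]
  simp

end

end Pool.Agent.PC.BlockJ
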