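import Mathlib
import Pool.Agent.PC.MergeA
import Pool.Agent.PC.MergeB

set_option autoImplicit false

/-!
Block J, part 3: the cycles of two perfect matchings, cut into paths.
-/

namespace Pool.Agent.PC.BlockJ

open Finset

section

variable {A : ℕ → ℕ → Prop} {S T : Finset ℕ}

/-- the step of two sides -/
def stp (M1 M2 : S ≃ T) : Equiv.Perm S := M1.trans M2.symm

/-- the path with `2 n` vertices from `a` -/
def pth (M1 M2 : S ≃ T) (a : S) : ℕ → List (Bool × ℕ)
  | 0 => []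
  | n + 1 => pth M1 M2 a n ++
      [(false, (((stp M1 M2 ^ n) a : S) : ℕ)), (true, ((M1 ((stp M1 M2 ^ n) a) : T) : ℕ))]

theorem M2_stp (M1 M2 : S ≃ T) (x : S) : M2 (stp M1 M2 x) = M1 x := by
  simp [stp]

theorem mem_pth (M1 M2 : S ≃ T) (a : S) (n : ℕ) (v : Bool × ℕ) :
    v ∈ pth M1 M2 a n ↔ ∃ i < n, v = (false, (((stp M1 M2 ^ i) a : S) : ℕ)) ∨
      v = (true, ((M1 ((stp M1 M2 ^ i) a) : T) : ℕ)) := by
  induction n with
  | zero => simp [pth]
  | succ n ih =>
    rw [pth, List.mem_append, ih]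
    constructor
    · rintro (⟨i, hi, h⟩ | h)
      · exact ⟨i, by omega, h⟩
      · refine ⟨n, by omega, ?_⟩
        simpa using h
    · rintro ⟨i, hi, h⟩
      by_cases hin : i = n
      · subst hin
        right
        simpa using h
      · left
        exact ⟨i, by omega, h⟩

theorem pth_head (M1 M2 : S ≃ T) (a : S) (n : ℕ) :
    (pth M1 M2 a (n + 1)).head? = some (false, (a : ℕ)) := by
  induction n with
  | zero => simp [pth]
  | succ n ih =>
    rw [pth, List.head?_append, ih]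
    rfl

theorem pth_last (M1 M2 : S ≃ T) (a : S) (n : ℕ) :
    (pth M1 M2 a (n + 1)).getLast? = some (true, ((M1 ((stp M1 M2 ^ n) a) : T) : ℕ)) := by
  rw [pth, List.getLast?_append]
  simp

theorem pth_chain (hA : ∀ i j, A i j → A j i) (M1 M2 : Mt A S T) (a : S) (n : ℕ) :
    (pth M1.1 M2.1 a n).IsChain (adjV A) := by
  induction n with
  | zero => simp [pth]
  | succ n ih =>
    rw [pth, List.isChain_append]
    refine ⟨ih, ?_, ?_⟩
    · rw [List.isChain_pair]
      exact ⟨by simp, M1.2 _⟩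
    · intro p hp q hq
      cases n with
      | zero => simp [pth] at hp
      | succ n =>
        rw [pth_last] at hp
        simp only [Option.mem_def, Option.some.injEq, List.head?_cons] at hp hq
        subst hp hq
        refine ⟨by simp, ?_⟩
        have h1 := M2.2 ((stp M1.1 M2.1 ^ (n + 1)) a)
        rw [pow_succ', Equiv.Perm.mul_apply, M2_stp] at h1
        rw [pow_succ', Equiv.Perm.mul_apply]
        exact hA _ _ h1

theorem pth_infix (M1 M2 : S ≃ T) (a : S) (n i : ℕ) (hi : i ≤ n) :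
    pth M1 M2 a i <+: pth M1 M2 a n := by
  induction n with
  | zero =>
    have : i = 0 := by omega
    subst this
    exact List.prefix_rfl
  | succ n ih =>
    by_cases h : i = n + 1
    · subst h
      exact List.prefix_rfl
    · exact (ih (by omega)).trans ⟨_, rfl⟩

theorem pth_infix_one (M1 M2 : S ≃ T) (a : S) (n i : ℕ) (hi : i < n) :
    [((false, (((stp M1 M2 ^ i) a : S) : ℕ)) : Bool × ℕ),
      (true, ((M1 ((stp M1 M2 ^ i) a) : T) : ℕ))] <:+: pth M1 M2 a n := by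
  have h1 := (pth_infix M1 M2 a n (i + 1) hi).isInfix
  refine List.IsInfix.trans ?_ h1
  rw [pth]
  exact ⟨pth M1 M2 a i, [], by simp⟩

theorem pth_infix_two (M1 M2 : S ≃ T) (a : S) (n i : ℕ) (hi : i + 1 < n) :
    [((true, ((M1 ((stp M1 M2 ^ i) a) : T) : ℕ)) : Bool × ℕ),
      (false, (((stp M1 M2 ^ (i + 1)) a : S) : ℕ))] <:+: pth M1 M2 a n := by
  have h1 := (pth_infix M1 M2 a n (i + 2) hi).isInfix
  refine List.IsInfix.trans ?_ h1
  rw [pth, pth]
  exact ⟨pth M1 M2 a i ++ [(false, (((stp M1 M2 ^ i) a : S) : ℕ))],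
    [(true, ((M1 ((stp M1 M2 ^ (i + 1)) a) : T) : ℕ))], by simp⟩

/-- length of the cycle of `a` -/
noncomputable def per (M1 M2 : S ≃ T) (a : S) : ℕ := Function.minimalPeriod (stp M1 M2) a

theorem per_pos (M1 M2 : S ≃ T) (a : S) : 0 < per M1 M2 a := by
  apply Function.IsPeriodicPt.minimalPeriod_pos (n := orderOf (stp M1 M2)) (orderOf_pos _)
  rw [Function.IsPeriodicPt, Function.IsFixedPt, Equiv.Perm.iterate_eq_pow, pow_orderOf_eq_one]
  rfl

theorem pow_inj (M1 M2 : S ≃ T) (a : S) {i j : ℕ} (hi : i < per M1 M2 a)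
    (hj : j < per M1 M2 a) (h : (stp M1 M2 ^ i) a = (stp M1 M2 ^ j) a) : i = j := by
  rw [← Equiv.Perm.iterate_eq_pow, ← Equiv.Perm.iterate_eq_pow] at h
  exact (Function.iterate_eq_iterate_iff_of_lt_minimalPeriod hi hj).1 h

theorem pth_nodup (M1 M2 : S ≃ T) (a : S) (n : ℕ) (hn : n ≤ per M1 M2 a) :
    (pth M1 M2 a n).Nodup := by
  induction n with
  | zero => simp [pth]
  | succ n ih =>
    rw [pth, List.nodup_append]
    refine ⟨ih (by omega), by simp, ?_⟩
    intro v hv w hw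
    rw [mem_pth] at hv
    obtain ⟨i, hi, hv⟩ := hv
    simp only [List.mem_cons, List.not_mem_nil, or_false] at hw
    rintro rfl
    rcases hv with rfl | rfl
    · rcases hw with hw | hw
      · have h1 := (Prod.ext_iff.1 hw).2
        simp only at h1
        have h2 := pow_inj M1 M2 a (by omega) (by omega) (Subtype.ext h1)
        omega
      · have h1 := (Prod.ext_iff.1 hw).1
        simp at h1
    · rcases hw with hw | hw
      · have h1 := (Prod.ext_iff.1 hw).1
        simp at h1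
      · have h1 := (Prod.ext_iff.1 hw).2
        simp only at h1
        have h2 := pow_inj M1 M2 a (by omega) (by omega) (M1.injective (Subtype.ext h1))
        omega

/-- the set of cycles -/
abbrev Cyc (M1 M2 : S ≃ T) : Type :=
  Quotient (Equiv.Perm.SameCycle.setoid (M2.trans M1.symm))

theorem stp_eq (M1 M2 : S ≃ T) : stp M1 M2 = (M2.trans M1.symm)⁻¹ := by
  ext x
  rfl

theorem mk_eq_iff (M1 M2 : S ≃ T) (x y : S) :
    (Quotient.mk (Equiv.Perm.SameCycle.setoid (M2.trans M1.symm)) x =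
      Quotient.mk (Equiv.Perm.SameCycle.setoid (M2.trans M1.symm)) y) ↔
      Equiv.Perm.SameCycle (stp M1 M2) x y := by
  rw [Quotient.eq, stp_eq, Equiv.Perm.sameCycle_inv]
  rfl

theorem exists_lt_per (M1 M2 : S ≃ T) {a x : S} (h : Equiv.Perm.SameCycle (stp M1 M2) a x) :
    ∃ i < per M1 M2 a, (stp M1 M2 ^ i) a = x := by
  obtain ⟨i, hi⟩ := h.exists_nat_pow_eq
  refine ⟨i % per M1 M2 a, Nat.mod_lt _ (per_pos _ _ _), ?_⟩
  rw [← hi, ← Equiv.Perm.iterate_eq_pow, ← Equiv.Perm.iterate_eq_pow]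
  exact Function.iterate_mod_minimalPeriod_eq

/-- the path of a cycle -/
noncomputable def cpath (M1 M2 : S ≃ T) (q : Cyc M1 M2) : List (Bool × ℕ) :=
  pth M1 M2 q.out (per M1 M2 q.out)

noncomputable instance (M1 M2 : S ≃ T) : Fintype (Cyc M1 M2) := Fintype.ofFinite _

/-- all the paths -/
noncomputable def cpaths (M1 M2 : S ≃ T) : List (List (Bool × ℕ)) :=
  (univ : Finset (Cyc M1 M2)).toList.map (cpath M1 M2)

theorem cpaths_length (M1 M2 : S ≃ T) : (cpaths M1 M2).length = cyc M1 M2 := by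
  rw [cpaths, List.length_map, Finset.length_toList, Finset.card_univ, cyc,
    Nat.card_eq_fintype_card]

theorem cpath_mem_cpaths (M1 M2 : S ≃ T) (q : Cyc M1 M2) : cpath M1 M2 q ∈ cpaths M1 M2 := by
  rw [cpaths, List.mem_map]
  exact ⟨q, by simp, rfl⟩

theorem cpath_isPathAB (hA : ∀ i j, A i j → A j i) (M1 M2 : Mt A S T) {m : ℕ}
    (hS : ∀ x ∈ S, x < m) (hT : ∀ x ∈ T, x < m) (q : Cyc M1.1 M2.1) :
    IsPathAB A m (cpath M1.1 M2.1 q) := by
  obtain ⟨n, hn⟩ : ∃ n, per M1.1 M2.1 q.out = n + 1 :=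
    ⟨per M1.1 M2.1 q.out - 1, by have := per_pos M1.1 M2.1 q.out; omega⟩
  refine ⟨pth_chain hA M1 M2 _ _, q.out, M1.1 ((stp M1.1 M2.1 ^ n) q.out), hS _ q.out.2,
    hT _ (M1.1 ((stp M1.1 M2.1 ^ n) q.out)).2, ?_, ?_⟩
  · rw [cpath, hn, pth_head]
  · rw [cpath, hn, pth_last]

theorem mem_cpath_false (M1 M2 : S ≃ T) (q : Cyc M1 M2) (x : ℕ) :
    ((false, x) : Bool × ℕ) ∈ cpath M1 M2 q ↔
      ∃ hx : x ∈ S, Quotient.mk (Equiv.Perm.SameCycle.setoid (M2.trans M1.symm)) ⟨x, hx⟩ = q := by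
  rw [cpath, mem_pth]
  constructor
  · rintro ⟨i, hi, h | h⟩
    · have h1 := (Prod.ext_iff.1 h).2
      simp only at h1
      subst h1
      refine ⟨((stp M1 M2 ^ i) q.out).2, ?_⟩
      conv_rhs => rw [← Quotient.out_eq q]
      rw [mk_eq_iff]
      exact (Equiv.Perm.SameCycle.symm ⟨i, by simp⟩)
    · have h1 := (Prod.ext_iff.1 h).1
      simp at h1
  · rintro ⟨hx, h⟩
    have h1 : Quotient.mk (Equiv.Perm.SameCycle.setoid (M2.trans M1.symm)) q.out =
        Quotient.mk (Equiv.Perm.SameCycle.setoid (M2.trans M1.symm)) ⟨x, hx⟩ := by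
      rw [h, Quotient.out_eq]
    rw [mk_eq_iff] at h1
    obtain ⟨i, hi, h2⟩ := exists_lt_per M1 M2 h1
    exact ⟨i, hi, Or.inl (by rw [h2])⟩

theorem mem_cpath_true (M1 M2 : S ≃ T) (q : Cyc M1 M2) (y : ℕ) :
    ((true, y) : Bool × ℕ) ∈ cpath M1 M2 q ↔
      ∃ hy : y ∈ T,
        Quotient.mk (Equiv.Perm.SameCycle.setoid (M2.trans M1.symm)) (M1.symm ⟨y, hy⟩) = q := by
  rw [cpath, mem_pth]
  constructor
  · rintro ⟨i, hi, h | h⟩
    · have h1 := (Prod.ext_iff.1 h).1
      simp at h1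
    · have h1 := (Prod.ext_iff.1 h).2
      simp only at h1
      subst h1
      refine ⟨(M1 ((stp M1 M2 ^ i) q.out)).2, ?_⟩
      conv_rhs => rw [← Quotient.out_eq q]
      rw [mk_eq_iff]
      simp only [Subtype.coe_eta, Equiv.symm_apply_apply]
      exact (Equiv.Perm.SameCycle.symm ⟨i, by simp⟩)
  · rintro ⟨hy, h⟩
    have h1 : Quotient.mk (Equiv.Perm.SameCycle.setoid (M2.trans M1.symm)) q.out =
        Quotient.mk (Equiv.Perm.SameCycle.setoid (M2.trans M1.symm)) (M1.symm ⟨y, hy⟩) := by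
      rw [h, Quotient.out_eq]
    rw [mk_eq_iff] at h1
    obtain ⟨i, hi, h2⟩ := exists_lt_per M1 M2 h1
    exact ⟨i, hi, Or.inr (by rw [h2, Equiv.apply_symm_apply])⟩

theorem cpaths_nodup (M1 M2 : S ≃ T) : (cpaths M1 M2).flatten.Nodup := by
  rw [List.nodup_flatten]
  refine ⟨?_, ?_⟩
  · intro l hl
    rw [cpaths, List.mem_map] at hl
    obtain ⟨q, -, rfl⟩ := hl
    exact pth_nodup M1 M2 _ _ le_rfl
  · rw [cpaths, List.pairwise_map]
    refine (Finset.nodup_toList _).imp ?_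
    intro q q' hne v hv hv'
    apply hne
    obtain ⟨b, x⟩ := v
    cases b with
    | false =>
      rw [mem_cpath_false] at hv hv'
      obtain ⟨h1, h2⟩ := hv
      obtain ⟨h3, h4⟩ := hv'
      rw [← h2, ← h4]
    | true =>
      rw [mem_cpath_true] at hv hv'
      obtain ⟨h1, h2⟩ := hv
      obtain ⟨h3, h4⟩ := hv'
      rw [← h2, ← h4]

theorem mem_cpaths_flatten (M1 M2 : S ≃ T) (b : Bool) (x : ℕ) :
    ((b, x) : Bool × ℕ) ∈ (cpaths M1 M2).flatten ↔ (b = false ∧ x ∈ S) ∨ (b = true ∧ x ∈ T) := by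
  rw [List.mem_flatten]
  constructor
  · rintro ⟨l, hl, h⟩
    rw [cpaths, List.mem_map] at hl
    obtain ⟨q, -, rfl⟩ := hl
    cases b with
    | false =>
      rw [mem_cpath_false] at h
      exact Or.inl ⟨rfl, h.1⟩
    | true =>
      rw [mem_cpath_true] at h
      exact Or.inr ⟨rfl, h.1⟩
  · rintro (⟨rfl, hx⟩ | ⟨rfl, hx⟩)
    · refine ⟨_, cpath_mem_cpaths M1 M2
        (Quotient.mk (Equiv.Perm.SameCycle.setoid (M2.trans M1.symm)) ⟨x, hx⟩), ?_⟩
      rw [mem_cpath_false]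
      exact ⟨hx, rfl⟩
    · refine ⟨_, cpath_mem_cpaths M1 M2
        (Quotient.mk (Equiv.Perm.SameCycle.setoid (M2.trans M1.symm)) (M1.symm ⟨x, hx⟩)), ?_⟩
      rw [mem_cpath_true]
      exact ⟨hx, rfl⟩

/-- the edge `x, M1 x` is on a path -/
theorem infix_one (M1 M2 : S ≃ T) (x : S) : ∃ P ∈ cpaths M1 M2,
    [((false, (x : ℕ)) : Bool × ℕ), (true, ((M1 x : T) : ℕ))] <:+: P := by
  set q : Cyc M1 M2 := Quotient.mk (Equiv.Perm.SameCycle.setoid (M2.trans M1.symm)) x with hq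
  have h1 : Quotient.mk (Equiv.Perm.SameCycle.setoid (M2.trans M1.symm)) q.out =
      Quotient.mk (Equiv.Perm.SameCycle.setoid (M2.trans M1.symm)) x := by
    rw [Quotient.out_eq]
  rw [mk_eq_iff] at h1
  obtain ⟨i, hi, h2⟩ := exists_lt_per M1 M2 h1
  refine ⟨_, cpath_mem_cpaths M1 M2 q, ?_⟩
  have h3 := pth_infix_one M1 M2 q.out _ i hi
  rw [h2] at h3
  exact h3

/-- the edge `M2 x, x` is on a path unless `x` is the representative of its cycle -/
theorem infix_two (M1 M2 : S ≃ T) (x : S)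
    (hx : (Quotient.mk (Equiv.Perm.SameCycle.setoid (M2.trans M1.symm)) x : Cyc M1 M2).out ≠ x) :
    ∃ P ∈ cpaths M1 M2,
      [((true, ((M2 x : T) : ℕ)) : Bool × ℕ), (false, (x : ℕ))] <:+: P := by
  set q : Cyc M1 M2 := Quotient.mk (Equiv.Perm.SameCycle.setoid (M2.trans M1.symm)) x with hq
  have h1 : Quotient.mk (Equiv.Perm.SameCycle.setoid (M2.trans M1.symm)) q.out =
      Quotient.mk (Equiv.Perm.SameCycle.setoid (M2.trans M1.symm)) x := by
    rw [Quotient.out_eq]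
  rw [mk_eq_iff] at h1
  obtain ⟨i, hi, h2⟩ := exists_lt_per M1 M2 h1
  refine ⟨_, cpath_mem_cpaths M1 M2 q, ?_⟩
  cases i with
  | zero =>
    exfalso
    apply hx
    simpa using h2
  | succ i =>
    have h3 := pth_infix_two M1 M2 q.out _ i hi
    rw [h2] at h3
    have h4 : M2 x = M1 ((stp M1 M2 ^ i) q.out) := by
      rw [← h2, pow_succ', Equiv.Perm.mul_apply, M2_stp]
    rw [h4]
    exact h3

end

end Pool.Agent.PC.BlockJ
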