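import Mathlib
import Pool.Agent.PC.MergeC

set_option autoImplicit false

/-!
Block J: merging the cycles of two perfect matchings into a Hamilton cycle with the help of the
reservoir.
-/

namespace Pool.Agent.PC

open Finset Filter BlockJ

open scoped Classical in
/-- Block J (merge), with the reservoir as a hypothesis. -/
theorem merge_of_reservoir {A : ℕ → ℕ → Prop} (h : PG A)
    (hres : ∀ᶠ m : ℕ in atTop, ∃ Gs : List (List (Bool × ℕ)),
      Gs.length = ⌊(m : ℝ) ^ (0.85 : ℝ)⌋₊ ∧ Gs.flatten.Nodup ∧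
      (∀ v ∈ Gs.flatten, v.2 < m) ∧ (Gs.flatten.length : ℝ) ≤ (m : ℝ) ^ (0.9 : ℝ) ∧
      Gs.flatten.IsChain (adjV A) ∧
      (∃ u w, Gs.flatten.head? = some u ∧ Gs.flatten.getLast? = some w ∧ adjV A w u) ∧
      ∀ Γ ∈ Gs, ∀ a < m, ∀ b < m, Absorbs A Γ a b) :
    ∀ᶠ m : ℕ in atTop, ∃ U V : Finset ℕ, Small m U V ∧
      ∀ M1 M2 : Mt A (range m \ U) (range m \ V), (cyc M1.1 M2.1 : ℝ) ≤ (m : ℝ) ^ (0.85 : ℝ) →
        ∃ N1 N2 : Mt A (range m) (range m),
          (∀ x y, Equiv.Perm.SameCycle (N2.1.trans N1.1.symm) x y) ∧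
          (∀ (x : ℕ) (hx : x ∈ range m \ U) (hx' : x ∈ range m),
            ((N1.1 ⟨x, hx'⟩ : range m) : ℕ) = ((M1.1 ⟨x, hx⟩ : (range m \ V : Finset ℕ)) : ℕ)) ∧
          (Nat.card {x : (range m \ U : Finset ℕ) // ∃ hx' : (x : ℕ) ∈ range m,
            ((N2.1 ⟨x, hx'⟩ : range m) : ℕ) ≠ ((M2.1 x : (range m \ V : Finset ℕ)) : ℕ)} : ℝ) ≤
            (m : ℝ) ^ (0.85 : ℝ) := by
  filter_upwards [hres] with m hm
  obtain ⟨Gs, hlen, hnd, hlt, hle, hch, ⟨u, w, hu, hw, huw⟩, habs⟩ := hm
  have hcl : ∀ u w, Gs.flatten.head? = some u → Gs.flatten.getLast? = some w → adjV A w u := by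
    intro u' w' hu' hw'
    rw [hu] at hu'
    rw [hw] at hw'
    simp only [Option.some.injEq] at hu' hw'
    subst hu' hw'
    exact huw
  refine ⟨side Gs.flatten false, side Gs.flatten true, ⟨?_, ?_, ?_, ?_⟩, ?_⟩
  · intro x hx
    rw [mem_side] at hx
    exact mem_range.2 (hlt _ hx)
  · intro x hx
    rw [mem_side] at hx
    exact mem_range.2 (hlt _ hx)
  · exact le_antisymm (card_side_le hnd hch hcl false) (card_side_le hnd hch hcl true)
  · refine le_trans ?_ hle
    rw [card_side]
    exact_mod_cast (card_filter_le _ _).trans (List.toFinset_card_le _)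
  · intro M1 M2 hcyc
    have hS : ∀ x ∈ range m \ side Gs.flatten false, x < m := by
      intro x hx
      exact mem_range.1 (mem_sdiff.1 hx).1
    have hT : ∀ x ∈ range m \ side Gs.flatten true, x < m := by
      intro x hx
      exact mem_range.1 (mem_sdiff.1 hx).1
    have hPl : (cpaths M1.1 M2.1).length ≤ Gs.length := by
      rw [cpaths_length, hlen]
      exact Nat.le_floor hcyc
    obtain ⟨W, hWp, hWc, hWh, hWl, hWi⟩ := insert_all (A := A) (m := m) Gs (cpaths M1.1 M2.1) hPl
      hch habs (by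
        intro P hP
        rw [cpaths, List.mem_map] at hP
        obtain ⟨q, -, rfl⟩ := hP
        exact cpath_isPathAB h.symm M1 M2 hS hT q)
    have hCH : ClosedHam A m W := by
      refine ⟨?_, ?_, hWc, ?_⟩
      · rw [hWp.nodup_iff, List.nodup_append]
        refine ⟨hnd, cpaths_nodup _ _, ?_⟩
        rintro ⟨b, x⟩ hx v hv rfl
        rw [mem_cpaths_flatten] at hv
        rcases hv with ⟨rfl, hv⟩ | ⟨rfl, hv⟩
        · exact (mem_sdiff.1 hv).2 ((mem_side _ _ _).2 hx)
        · exact (mem_sdiff.1 hv).2 ((mem_side _ _ _).2 hx)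
      · rintro ⟨b, x⟩
        rw [hWp.mem_iff, List.mem_append, mem_cpaths_flatten, Finset.mem_sdiff, Finset.mem_sdiff, mem_side,
          mem_side, mem_range]
        have h1 := hlt (b, x)
        simp only at h1 ⊢
        cases b
        · by_cases h2 : ((false, x) : Bool × ℕ) ∈ Gs.flatten
          · simp [h2, h1 h2]
          · simp [h2]
        · by_cases h2 : ((true, x) : Bool × ℕ) ∈ Gs.flatten
          · simp [h2, h1 h2]
          · simp [h2]
      · intro u' w' hu' hw'
        rw [hWh] at hu'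
        rw [hWl] at hw'
        exact hcl _ _ hu' hw'
    refine ⟨succM hCH, predM h.symm hCH, sameCycle_pred_succ h.symm hCH, ?_, ?_⟩
    · intro x hx hx'
      obtain ⟨P, hP, hi⟩ := infix_one M1.1 M2.1 ⟨x, hx⟩
      exact succM_of_infix hCH hx' (hi.trans (hWi P hP))
    · refine le_trans ?_ hcyc
      rw [cyc]
      norm_cast
      apply Nat.card_le_card_of_injective
        (fun x => (Quotient.mk (Equiv.Perm.SameCycle.setoid (M2.1.trans M1.1.symm)) x.1))
      have key : ∀ x : {x : (range m \ side Gs.flatten false : Finset ℕ) //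
          ∃ hx' : (x : ℕ) ∈ range m,
            (((predM h.symm hCH).1 ⟨x, hx'⟩ : range m) : ℕ) ≠
              ((M2.1 x : (range m \ side Gs.flatten true : Finset ℕ)) : ℕ)},
          (Quotient.mk (Equiv.Perm.SameCycle.setoid (M2.1.trans M1.1.symm)) x.1).out = x.1 := by
        rintro ⟨x, hx', hne⟩
        by_contra hout
        apply hne
        obtain ⟨P, hP, hi⟩ := infix_two M1.1 M2.1 x hout
        exact predM_of_infix h.symm hCH hx' (hi.trans (hWi P hP))
      intro x y hxy
      apply Subtype.ext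
      rw [← key x, ← key y]
      simp only at hxy
      rw [hxy]

end Pool.Agent.PC
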