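import Mathlib
import Pool.Agent.PC.ExpPA
import Pool.Agent.PC.PNTAP
import Pool.Agent.PC.Sieve

set_option autoImplicit false

namespace Pool.Agent.PC

/-- The prime sum graph has all the properties used in the combinatorial part. -/
theorem pg_PA : PG PA := pg_PA_of pnt_ap pair_sieve sum_ratio_sq

end Pool.Agent.PC
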