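import Mathlib
import Pool.Agent.PC.Defs
import Pool.Agent.PC.Bregman
import Pool.Agent.PC.Expand
import Pool.Agent.PrimeCircle.Upper

set_option autoImplicit false

/-! Block K, part 2: the upper bound for the number of prime circles. -/

namespace Pool.Agent.PC

open Finset Filter Topology Pool.Agent.PrimeCircle BlockG

/-- possible successors, as a finite set of indices -/
noncomputable def NS (m : ℕ) (x : Fin (2 * m)) : Finset (Fin (2 * m)) :=
  univ.filter (fun y => (x.1 + 1 + (y.1 + 1)).Prime)

lemma card_NS_even (m : ℕ) (x : Fin (2 * m)) (k : ℕ) (hk : x.1 = 2 * k) :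
    (NS m x).card ≤ dX PA (range m) k + 1 := by
  classical
  have h1 : ((NS m x).image Fin.val).card = (NS m x).card :=
    Finset.card_image_of_injective _ Fin.val_injective
  rw [← h1, dX_PA_eq]
  have h2 : (NS m x).image Fin.val ⊆
      ((range m).filter (fun j => PA k j)).image (fun j => 2 * j + 1) ∪ {0} := by
    intro y hy
    rw [Finset.mem_image] at hy
    obtain ⟨y, hy, rfl⟩ := hy
    unfold NS at hy
    have hy := (Finset.mem_filter.1 hy).2
    rw [Finset.mem_union, Finset.mem_image, Finset.mem_singleton]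
    rcases Nat.even_or_odd' y.1 with ⟨j, hj | hj⟩
    · right
      rw [hk, hj] at hy
      have h3 : 2 ∣ 2 * k + 1 + (2 * j + 1) := ⟨k + j + 1, by ring⟩
      have h4 := (Nat.prime_dvd_prime_iff_eq Nat.prime_two hy).1 h3
      omega
    · left
      refine ⟨j, ?_, hj.symm⟩
      rw [Finset.mem_filter, Finset.mem_range]
      refine ⟨by have := y.2; omega, ?_⟩
      unfold PA
      rw [hk, hj] at hy
      convert hy using 1
      ring
  calc _ ≤ _ := Finset.card_le_card h2
    _ ≤ _ := Finset.card_union_le _ _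
    _ ≤ _ := Nat.add_le_add Finset.card_image_le (by simp)

lemma card_NS_odd (m : ℕ) (x : Fin (2 * m)) (k : ℕ) (hk : x.1 = 2 * k + 1) :
    (NS m x).card ≤ dX PA (range m) k + 1 := by
  classical
  have h1 : ((NS m x).image Fin.val).card = (NS m x).card :=
    Finset.card_image_of_injective _ Fin.val_injective
  rw [← h1, dX_PA_eq]
  have h2 : (NS m x).image Fin.val ⊆
      ((range m).filter (fun j => PA k j)).image (fun j => 2 * j) := by
    intro y hy
    rw [Finset.mem_image] at hy
    obtain ⟨y, hy, rfl⟩ := hy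
    unfold NS at hy
    have hy := (Finset.mem_filter.1 hy).2
    rw [Finset.mem_image]
    rcases Nat.even_or_odd' y.1 with ⟨j, hj | hj⟩
    · refine ⟨j, ?_, hj.symm⟩
      rw [Finset.mem_filter, Finset.mem_range]
      refine ⟨by have := y.2; omega, ?_⟩
      unfold PA
      rw [hk, hj] at hy
      convert hy using 1
      ring
    · exfalso
      rw [hk, hj] at hy
      have h3 : 2 ∣ 2 * k + 1 + 1 + (2 * j + 1 + 1) := ⟨k + j + 2, by ring⟩
      have h4 := (Nat.prime_dvd_prime_iff_eq Nat.prime_two hy).1 h3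
      omega
  calc _ ≤ _ := Finset.card_le_card h2
    _ ≤ _ := Finset.card_image_le
    _ ≤ _ := Nat.le_succ _

/-- the number of prime circles is at most the number of successor permutations -/
lemma numPrimeCircles_le_cnt {m : ℕ} (hm : 0 < m) : numPrimeCircles m ≤ cnt (NS m) := by
  classical
  have : NeZero (2 * m) := ⟨by omega⟩
  -- successor map
  have hpos : ∀ (a : {a : ZMod (2 * m) → ℕ // IsPrimeCircle m a}) (x : Fin (2 * m)),
      ∃ i, a.1 i = x.1 + 1 ∧ nextOf a.1 x = a.1 (i + 1) := by
    intro a x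
    obtain ⟨i, hi⟩ := surj hm a.2 (x := x.1 + 1) (by omega) (by have := x.2; omega)
    exact ⟨i, hi, nextOf_eq a.2.1 x hi⟩
  let s : (a : {a : ZMod (2 * m) → ℕ // IsPrimeCircle m a}) → Fin (2 * m) → Fin (2 * m) := fun a x =>
    ⟨nextOf a.1 x - 1, by
      obtain ⟨i, _, hi⟩ := hpos a x
      rw [hi]
      have := a.2.2.1 (i + 1)
      omega⟩
  have hs : ∀ a x, ((s a x).1 : ℕ) + 1 = nextOf a.1 x := by
    intro a x
    obtain ⟨i, _, hi⟩ := hpos a x
    have := a.2.2.1 (i + 1)
    simp only [s]
    omega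
  have hinj : ∀ a, Function.Injective (s a) := by
    intro a x y hxy
    obtain ⟨i, hi1, hi2⟩ := hpos a x
    obtain ⟨j, hj1, hj2⟩ := hpos a y
    have h1 : nextOf a.1 x = nextOf a.1 y := by rw [← hs, ← hs, hxy]
    rw [hi2, hj2] at h1
    have h2 := a.2.1 h1
    have h3 : i = j := by simpa using h2
    rw [h3, hj1] at hi1
    exact Fin.ext (by omega)
  let F : Quotient (circleSetoid m) → {σ : Fin (2 * m) ≃ Fin (2 * m) // ∀ i, σ i ∈ NS m i} := fun q =>
    ⟨Equiv.ofBijective (s q.out) (Finite.injective_iff_bijective.1 (hinj q.out)), by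
      intro x
      rw [Equiv.ofBijective_apply]
      unfold NS
      rw [Finset.mem_filter]
      refine ⟨mem_univ _, ?_⟩
      rw [hs]
      obtain ⟨i, hi1, hi2⟩ := hpos q.out x
      rw [hi2, ← hi1]
      exact q.out.2.2.2 i⟩
  have hF : Function.Injective F := by
    intro p q hpq
    have h1 : nextOf p.out.1 = nextOf q.out.1 := by
      funext x
      have h2 := congrArg (fun e : {σ : Fin (2 * m) ≃ Fin (2 * m) // ∀ i, σ i ∈ NS m i} => e.1 x) hpq
      simp only [F, Equiv.ofBijective_apply] at h2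
      rw [← hs, ← hs, h2]
    have h2 := rel_of_nextOf_eq hm _ _ h1
    have h3 : Quotient.mk (circleSetoid m) p.out = Quotient.mk (circleSetoid m) q.out :=
      Quotient.sound h2
    rwa [Quotient.out_eq, Quotient.out_eq] at h3
  have := Nat.card_le_card_of_injective F hF
  rw [numPrimeCircles, cnt]
  exact this

theorem upper_main (hdeg : ∀ ε : ℝ, 0 < ε → ∀ᶠ m : ℕ in atTop, ∀ i < m,
    (1 - ε) * dd m ≤ (dX PA (range m) i : ℝ) ∧ (dX PA (range m) i : ℝ) ≤ (1 + ε) * dd m)
    (ε : ℝ) (hε : 0 < ε) :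
    ∀ᶠ m : ℕ in atTop,
      (numPrimeCircles m : ℝ) ≤ ((1 + ε) * dd m / Real.exp 1) ^ (2 * m) := by
  classical
  set δ : ℝ := ε / 2 with hδ
  have hδ0 : 0 < δ := by positivity
  set η : ℝ := Real.log (1 + ε) - Real.log (1 + δ) with hη
  have hη0 : 0 < η := sub_pos.2 (Real.log_lt_log (by linarith) (by linarith))
  obtain ⟨K, hK⟩ := eventually_atTop.1 (tendsto_aux.eventually (gt_mem_nhds hη0))
  set Z : ℝ := Real.log (1 + ε) - 1 with hZ
  -- small cardinalities are harmless because dd tends to infinity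
  obtain ⟨B, hB⟩ : ∃ B : ℝ, ∀ r < K + 1, G r ≤ B := by
    refine ⟨∑ r ∈ range (K + 1), |G r|, fun r hr => ?_⟩
    refine (le_abs_self _).trans ?_
    exact Finset.single_le_sum (f := fun r => |G r|) (fun _ _ => abs_nonneg _) (Finset.mem_range.2 hr)
  have h1 := tendsto_dd.eventually_ge_atTop (2 / δ)
  have h2 : ∀ᶠ m : ℕ in atTop, B + 1 ≤ Real.log (dd m) + Real.log (1 + ε) := by
    have := Real.tendsto_log_atTop.comp tendsto_dd
    filter_upwards [this.eventually_ge_atTop (B + 1 - Real.log (1 + ε))] with m hm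
    simp only [Function.comp] at hm
    linarith
  filter_upwards [h1, h2, hdeg (δ / 2) (by positivity), eventually_ge_atTop 2] with m hm hm2 hdeg hm3
  have hdd : 0 < dd m := dd_pos hm3
  refine le_trans (by exact_mod_cast numPrimeCircles_le_cnt (m := m) (by omega) :
    (numPrimeCircles m : ℝ) ≤ (cnt (NS m) : ℝ)) ?_
  rcases Nat.eq_zero_or_pos (cnt (NS m)) with h0 | h0
  · rw [h0, Nat.cast_zero]
    positivity
  have hb := bregman_log (2 * m) (Fin (2 * m)) (Fin (2 * m)) (NS m) (by simp) h0
  have hcard : ∀ x : Fin (2 * m), ((NS m x).card : ℝ) ≤ (1 + δ) * dd m := by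
    intro x
    have h5 : ∃ k < m, (NS m x).card ≤ dX PA (range m) k + 1 := by
      rcases Nat.even_or_odd' x.1 with ⟨k, hk | hk⟩
      · exact ⟨k, by have := x.2; omega, card_NS_even m x k hk⟩
      · exact ⟨k, by have := x.2; omega, card_NS_odd m x k hk⟩
    obtain ⟨k, hk, h6⟩ := h5
    have h7 : ((NS m x).card : ℝ) ≤ dX PA (range m) k + 1 := by exact_mod_cast h6
    have h8 := (hdeg k hk).2
    have h9 : 1 ≤ δ / 2 * dd m := by
      calc (1 : ℝ) = δ / 2 * (2 / δ) := by field_simp
        _ ≤ δ / 2 * dd m := by gcongr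
    nlinarith
  have hG : ∀ x, G (NS m x).card ≤ Real.log ((1 + ε) * dd m) - 1 := by
    intro x
    rw [Real.log_mul (by linarith) hdd.ne']
    by_cases hr : K + 1 ≤ (NS m x).card
    · have hr0 : (0 : ℝ) < (NS m x).card := by
        have : 0 < (NS m x).card := by omega
        exact_mod_cast this
      have g1 := G_le (r := (NS m x).card) (by omega)
      have g2 := hK (NS m x).card (by omega)
      have g3 : Real.log ((NS m x).card : ℝ) ≤ Real.log (1 + δ) + Real.log (dd m) := by
        rw [← Real.log_mul (by linarith) hdd.ne']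
        exact Real.log_le_log hr0 (hcard x)
      linarith
    · have := hB _ (not_le.1 hr)
      linarith
  have hsum : Real.log (cnt (NS m) : ℝ) ≤ (2 * m : ℕ) * (Real.log ((1 + ε) * dd m) - 1) := by
    refine hb.trans ((sum_le_sum (fun i _ => hG i)).trans (le_of_eq ?_))
    rw [sum_const, nsmul_eq_mul]
    simp
  have hpos : 0 < (1 + ε) * dd m / Real.exp 1 := by positivity
  rw [← Real.log_le_log_iff (by exact_mod_cast h0) (by positivity), Real.log_pow,
    Real.log_div (by positivity) (by positivity), Real.log_exp]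
  exact hsum

end Pool.Agent.PC
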