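import Mathlib
import Pool.Agent.PC.PGPrime
import Pool.Agent.PC.Count
import Pool.Agent.PC.UpperMain
import Pool.Agent.PC.Factor
import Pool.Agent.PC.Merge

set_option autoImplicit false

/-! Block K: the final assembly. -/

namespace Pool.Agent.PC

open Finset Filter Topology Pool.Agent.PrimeCircle

/-- Statement of block H for the prime sum graph. -/
def FewCycles : Prop := ∀ᶠ m : ℕ in atTop, ∀ U V : Finset ℕ, Small m U V →
      ∀ M1 : Mt PA (range m \ U) (range m \ V),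
        Nat.card (Mt PA (range m \ U) (range m \ V)) ≤
          2 * Nat.card {M2 : Mt PA (range m \ U) (range m \ V) //
            (cyc M1.1 M2.1 : ℝ) ≤ (m : ℝ) ^ (0.85 : ℝ)}

/-- Statement of block I for the prime sum graph. -/
def Reservoir : Prop := ∀ᶠ m : ℕ in atTop, ∃ Gs : List (List (Bool × ℕ)),
      Gs.length = ⌊(m : ℝ) ^ (0.85 : ℝ)⌋₊ ∧ Gs.flatten.Nodup ∧
      (∀ v ∈ Gs.flatten, v.2 < m) ∧ (Gs.flatten.length : ℝ) ≤ (m : ℝ) ^ (0.9 : ℝ) ∧
      Gs.flatten.IsChain (adjV PA) ∧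
      (∃ u w, Gs.flatten.head? = some u ∧ Gs.flatten.getLast? = some w ∧ adjV PA w u) ∧
      ∀ Γ ∈ Gs, ∀ a < m, ∀ b < m, Absorbs PA Γ a b

lemma pow_small {κ : ℝ} (hκ : 0 < κ) : ∀ᶠ m : ℕ in atTop,
    (4 : ℝ) * ((m : ℝ) * m) ^ ⌊(m : ℝ) ^ (0.85 : ℝ)⌋₊ ≤ Real.exp (κ * m) := by
  have h1 : ∀ᶠ m : ℕ in atTop, 4 / κ * Real.log m ≤ (m : ℝ) ^ (0.15 : ℝ) :=
    log_le_rpow (by norm_num) (by positivity)
  obtain ⟨N, hN⟩ := exists_nat_gt (2 * Real.log 4 / κ)
  filter_upwards [h1, eventually_ge_atTop 2, eventually_ge_atTop N] with m hm hm2 hmN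
  have hm0 : (0 : ℝ) < m := by positivity
  have hm1 : (1 : ℝ) < m := by exact_mod_cast hm2
  have hl0 : 0 < Real.log m := Real.log_pos hm1
  rw [← Real.exp_log (by positivity : (0 : ℝ) < 4 * ((m : ℝ) * m) ^ ⌊(m : ℝ) ^ (0.85 : ℝ)⌋₊)]
  apply Real.exp_le_exp.2
  rw [Real.log_mul (by norm_num) (by positivity), Real.log_pow, Real.log_mul hm0.ne' hm0.ne']
  have hc : (⌊(m : ℝ) ^ (0.85 : ℝ)⌋₊ : ℝ) ≤ (m : ℝ) ^ (0.85 : ℝ) := Nat.floor_le (by positivity)
  have h2 : (m : ℝ) ^ (0.85 : ℝ) * (m : ℝ) ^ (0.15 : ℝ) = m := by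
    rw [← Real.rpow_add hm0]; norm_num
  have h3 : (m : ℝ) ^ (0.85 : ℝ) * (4 / κ * Real.log m) ≤ m := by
    calc (m : ℝ) ^ (0.85 : ℝ) * (4 / κ * Real.log m) ≤ (m : ℝ) ^ (0.85 : ℝ) * (m : ℝ) ^ (0.15 : ℝ) :=
          mul_le_mul_of_nonneg_left hm (by positivity)
      _ = m := h2
  have h4 : (m : ℝ) ^ (0.85 : ℝ) * (Real.log m + Real.log m) ≤ κ * m / 2 := by
    have h5 : (m : ℝ) ^ (0.85 : ℝ) * (4 / κ * Real.log m) * (κ / 2) ≤ m * (κ / 2) := by gcongr
    have h6 : (m : ℝ) ^ (0.85 : ℝ) * (4 / κ * Real.log m) * (κ / 2) =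
        (m : ℝ) ^ (0.85 : ℝ) * (Real.log m + Real.log m) := by
      field_simp
      ring
    rw [h6] at h5
    linarith
  have h7 : Real.log 4 ≤ κ * m / 2 := by
    have h8 : 2 * Real.log 4 / κ < m := hN.trans_le (by exact_mod_cast hmN)
    rw [div_lt_iff₀ hκ] at h8
    linarith
  have h9 : (⌊(m : ℝ) ^ (0.85 : ℝ)⌋₊ : ℝ) * (Real.log m + Real.log m) ≤
      (m : ℝ) ^ (0.85 : ℝ) * (Real.log m + Real.log m) := by gcongr
  linarith

theorem lower_main (hF : FewCycles) (hR : Reservoir) (ε : ℝ) (hε : 0 < ε) (hε1 : ε < 1) :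
    ∀ᶠ m : ℕ in atTop,
      ((1 - ε) * dd m / Real.exp 1) ^ (2 * m) ≤ (numPrimeCircles m : ℝ) := by
  set κ : ℝ := 2 * (Real.log (1 - ε / 2) - Real.log (1 - ε)) with hκd
  have hκ : 0 < κ := by
    have := Real.log_lt_log (by linarith : (0 : ℝ) < 1 - ε) (by linarith : 1 - ε < 1 - ε / 2)
    rw [hκd]; linarith
  filter_upwards [hF, merge_of_reservoir pg_PA hR, count_lower pg_PA (ε / 2) (by positivity) (by linarith),
    pow_small hκ, eventually_ge_atTop 2] with m hF hM hC hP hm2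
  obtain ⟨U, V, hUV, hmg⟩ := hM
  have hm0 : (0 : ℝ) < m := by positivity
  have hd : 0 < dd m := dd_pos hm2
  have hne : (range m \ U).Nonempty := by
    rw [Finset.sdiff_nonempty]
    intro h1
    have h2 : m ≤ U.card := by
      have := Finset.card_le_card h1
      rwa [Finset.card_range] at this
    have h3 : (m : ℝ) ≤ (m : ℝ) ^ (0.9 : ℝ) := by
      have : (m : ℝ) ≤ U.card := by exact_mod_cast h2
      exact this.trans hUV.2.2.2
    have h4 : (m : ℝ) ^ (0.9 : ℝ) < (m : ℝ) ^ (1 : ℝ) :=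
      Real.rpow_lt_rpow_of_exponent_lt (by exact_mod_cast hm2) (by norm_num)
    rw [Real.rpow_one] at h4
    linarith
  have h1 := count_pairs (m := m) (c := ⌊(m : ℝ) ^ (0.85 : ℝ)⌋₊) (U := U) (V := V)
    (z := (m : ℝ) ^ (0.85 : ℝ)) (fun n hn => Nat.le_floor hn) hne (hF U V hUV) hmg
  have h2 := card_HP_le (m := m) (by omega)
  have h3 : ((Nat.card (Mt PA (range m \ U) (range m \ V)) : ℝ)) ^ 2 ≤
      numPrimeCircles m * (4 * ((m : ℝ) * m) ^ ⌊(m : ℝ) ^ (0.85 : ℝ)⌋₊) := by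
    have h4 : Nat.card (Mt PA (range m \ U) (range m \ V)) ^ 2 ≤
        2 * ((2 * numPrimeCircles m) * (m * m) ^ ⌊(m : ℝ) ^ (0.85 : ℝ)⌋₊) :=
      h1.trans (Nat.mul_le_mul_left _ (Nat.mul_le_mul_right _ h2))
    have h5 : ((Nat.card (Mt PA (range m \ U) (range m \ V)) : ℝ)) ^ 2 ≤
        2 * ((2 * numPrimeCircles m) * ((m : ℝ) * m) ^ ⌊(m : ℝ) ^ (0.85 : ℝ)⌋₊) := by
      exact_mod_cast h4
    calc _ ≤ _ := h5
      _ = _ := by ring
  have h4 : ((1 - ε / 2) * dd m / Real.exp 1) ^ (2 * m) ≤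
      numPrimeCircles m * Real.exp (κ * m) := by
    calc ((1 - ε / 2) * dd m / Real.exp 1) ^ (2 * m) = (((1 - ε / 2) * dd m / Real.exp 1) ^ m) ^ 2 := by
          rw [← pow_mul, mul_comm m 2]
      _ ≤ ((Nat.card (Mt PA (range m \ U) (range m \ V)) : ℝ)) ^ 2 := by
          have : 0 ≤ (1 - ε / 2) * dd m / Real.exp 1 := by
            have : 0 < 1 - ε / 2 := by linarith
            positivity
          exact pow_le_pow_left₀ (by positivity) (hC U V hUV) 2
      _ ≤ _ := h3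
      _ ≤ _ := by gcongr
  have h5 : ((1 - ε / 2) * dd m / Real.exp 1) ^ (2 * m) =
      ((1 - ε) * dd m / Real.exp 1) ^ (2 * m) * Real.exp (κ * m) := by
    have e1 : Real.exp (κ * m) = ((1 - ε / 2) / (1 - ε)) ^ (2 * m) := by
      have e2 : κ * m = (2 * m : ℕ) * Real.log ((1 - ε / 2) / (1 - ε)) := by
        rw [Real.log_div (by linarith) (by linarith), hκd]
        push_cast
        ring
      rw [e2, Real.exp_nat_mul, Real.exp_log]
      have : 0 < 1 - ε := by linarith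
      have : 0 < 1 - ε / 2 := by linarith
      positivity
    rw [e1, ← mul_pow]
    congr 1
    have : 1 - ε ≠ 0 := by linarith
    field_simp
  rw [h5] at h4
  exact le_of_mul_le_mul_right h4 (Real.exp_pos _)

/-- The asymptotic estimate for the number of prime circles, from the two remaining blocks. -/
theorem final_of (hF : FewCycles) (hR : Reservoir) :
    Tendsto (fun m : ℕ => (numPrimeCircles m : ℝ) ^ (1 / (2 * m : ℝ)) * Real.log m / m) atTop
      (nhds (2 / Real.exp 1)) := by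
  have he : 0 < Real.exp 1 := Real.exp_pos 1
  rw [Metric.tendsto_nhds]
  intro η hη
  set ε : ℝ := min (1 / 2) (η * Real.exp 1 / 4) with hεd
  have hε : 0 < ε := by positivity
  have hε1 : ε < 1 := (min_le_left _ _).trans_lt (by norm_num)
  have hε2 : ε ≤ η * Real.exp 1 / 4 := min_le_right _ _
  filter_upwards [lower_main hF hR ε hε hε1, upper_main pg_PA.deg ε hε, eventually_ge_atTop 2]
    with m hl hu hm2
  have hm0 : (0 : ℝ) < m := by positivity
  have hm1 : (1 : ℝ) < m := by exact_mod_cast hm2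
  have hl0 : 0 < Real.log m := Real.log_pos hm1
  have hd : 0 < dd m := dd_pos hm2
  have h1ε : 0 < 1 - ε := by linarith
  have hroot : ∀ y : ℝ, 0 ≤ y → (y ^ (2 * m)) ^ (1 / (2 * m : ℝ)) = y := by
    intro y hy
    rw [← Real.rpow_natCast, ← Real.rpow_mul hy]
    push_cast
    rw [mul_one_div_cancel (by positivity), Real.rpow_one]
  have hN0 : (0 : ℝ) ≤ numPrimeCircles m := Nat.cast_nonneg _
  have ha : (1 - ε) * dd m / Real.exp 1 ≤ (numPrimeCircles m : ℝ) ^ (1 / (2 * m : ℝ)) := by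
    rw [← hroot ((1 - ε) * dd m / Real.exp 1) (by positivity)]
    exact Real.rpow_le_rpow (by positivity) hl (by positivity)
  have hb : (numPrimeCircles m : ℝ) ^ (1 / (2 * m : ℝ)) ≤ (1 + ε) * dd m / Real.exp 1 := by
    rw [← hroot ((1 + ε) * dd m / Real.exp 1) (by positivity)]
    exact Real.rpow_le_rpow (by positivity) hu (by positivity)
  have hx : ∀ t : ℝ, t * dd m / Real.exp 1 * Real.log m / m = t * (2 / Real.exp 1) := by
    intro t
    unfold dd
    field_simp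
  have ha' : (1 - ε) * (2 / Real.exp 1) ≤
      (numPrimeCircles m : ℝ) ^ (1 / (2 * m : ℝ)) * Real.log m / m := by
    rw [← hx (1 - ε)]
    gcongr
  have hb' : (numPrimeCircles m : ℝ) ^ (1 / (2 * m : ℝ)) * Real.log m / m ≤
      (1 + ε) * (2 / Real.exp 1) := by
    rw [← hx (1 + ε)]
    gcongr
  have hsmall : ε * (2 / Real.exp 1) < η := by
    have h1 : ε * (2 / Real.exp 1) ≤ η * Real.exp 1 / 4 * (2 / Real.exp 1) := by gcongr
    have h2 : η * Real.exp 1 / 4 * (2 / Real.exp 1) = η / 2 := by field_simp; ring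
    linarith
  rw [Real.dist_eq, abs_lt]
  constructor
  · have : (1 - ε) * (2 / Real.exp 1) = 2 / Real.exp 1 - ε * (2 / Real.exp 1) := by ring
    linarith
  · have : (1 + ε) * (2 / Real.exp 1) = 2 / Real.exp 1 + ε * (2 / Real.exp 1) := by ring
    linarith

end Pool.Agent.PC
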