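import Mathlib
import Pool.Agent.PC.Defs
import Pool.Agent.PC.Basic

set_option autoImplicit false

/-!
Block I of the prime circle count: level sets towards a vertex (helper73).
-/

namespace Pool.Agent.PC.BlockI

open Finset Filter
open scoped Classical

/-- Pairs `(r, s)` with `s ∈ S`, `r ~ s`, `r ~ t`. -/
noncomputable def Fp (A : ℕ → ℕ → Prop) (m : ℕ) (S : Finset ℕ) (t : ℕ) : Finset (ℕ × ℕ) :=
  (range m ×ˢ range m).filter (fun p => p.2 ∈ S ∧ A p.1 p.2 ∧ A p.1 t)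

/-- Popular neighbours of `X`. -/
noncomputable def EX (A : ℕ → ℕ → Prop) (m : ℕ) (c : ℝ) (X : Finset ℕ) : Finset ℕ :=
  (range m).filter (fun j => c * dd m ≤ (dX A X j : ℝ))

lemma EX_mono {A : ℕ → ℕ → Prop} {m : ℕ} {c : ℝ} {X Y : Finset ℕ} (h : X ⊆ Y) :
    EX A m c X ⊆ EX A m c Y := by
  intro j hj
  unfold EX at hj ⊢
  rw [Finset.mem_filter] at hj ⊢
  refine ⟨hj.1, hj.2.trans ?_⟩
  exact_mod_cast dX_mono A h j

lemma EX_sub {A : ℕ → ℕ → Prop} {m : ℕ} {c : ℝ} {X : Finset ℕ} : EX A m c X ⊆ range m :=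
  Finset.filter_subset _ _

lemma card_Fp_dX {A : ℕ → ℕ → Prop} (h : PG A) {m : ℕ} {S : Finset ℕ} (hS : S ⊆ range m) (t : ℕ) :
    (Fp A m S t).card = ∑ r ∈ (range m).filter (fun r => A r t), dX A S r := by
  unfold Fp
  rw [Finset.card_filter, Finset.sum_product, Finset.sum_filter]
  refine Finset.sum_congr rfl fun r _ => ?_
  by_cases hr : A r t
  · rw [if_pos hr, dX_eq h, ← Finset.card_filter]
    congr 1
    ext s
    simp only [Finset.mem_filter, hr, and_true]
    constructor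
    · rintro ⟨_, h2, h3⟩
      exact ⟨h2, h3⟩
    · rintro ⟨h2, h3⟩
      exact ⟨hS h2, h2, h3⟩
  · simp [hr]

lemma card_Fp_codeg {A : ℕ → ℕ → Prop} (h : PG A) {m : ℕ} {S : Finset ℕ} (hS : S ⊆ range m) (t : ℕ) :
    (Fp A m S t).card = ∑ s ∈ S, codeg A m t s := by
  unfold Fp
  rw [Finset.card_filter, Finset.sum_product_right, ← Finset.sum_subset hS]
  · refine Finset.sum_congr rfl fun s hs => ?_
    rw [← Finset.card_filter]
    unfold codeg
    congr 1
    ext r
    simp only [Finset.mem_filter, hs, true_and]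
    refine and_congr_right fun _ => ?_
    constructor
    · rintro ⟨h2, h3⟩
      exact ⟨h.symm _ _ h3, h.symm _ _ h2⟩
    · rintro ⟨h2, h3⟩
      exact ⟨h.symm _ _ h3, h.symm _ _ h2⟩
  · intro s _ hs
    refine Finset.sum_eq_zero fun r _ => ?_
    simp [hs]

/-- second moment of the codegrees including the diagonal. -/
lemma sum_codeg_sq {A : ℕ → ℕ → Prop} (h : PG A) : ∃ C : ℝ, 0 < C ∧ ∀ᶠ m : ℕ in atTop, ∀ i < m,
    ∑ k ∈ (range m).erase i, (codeg A m i k : ℝ) ^ 2 ≤ C * dd m ^ 4 / m ∧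
    ∑ k ∈ range m, (codeg A m i k : ℝ) ^ 2 ≤ C * dd m ^ 4 / m := by
  obtain ⟨C, hC, hcod⟩ := h.codeg
  refine ⟨C + 4, by positivity, ?_⟩
  filter_upwards [hcod, h.deg 1 one_pos, sqrt_le_dd, eventually_ge_atTop 2] with m hcod hdeg hsq hm i hi
  have hm0 : (0 : ℝ) < m := by positivity
  have hd := dd_pos hm
  have h1 := hcod i hi
  have h2 : (codeg A m i i : ℝ) ≤ 2 * dd m := by
    rw [codeg_self h]
    have := (hdeg i hi).2
    norm_num at this
    exact this
  have h3 : (m : ℝ) ≤ dd m ^ 2 := by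
    have : Real.sqrt m ^ 2 ≤ dd m ^ 2 := by gcongr
    rwa [Real.sq_sqrt hm0.le] at this
  have h4 : 4 * dd m ^ 2 ≤ 4 * dd m ^ 4 / m := by
    rw [le_div_iff₀ hm0]
    nlinarith [sq_nonneg (dd m)]
  have h5 : C * dd m ^ 4 / m + 4 * dd m ^ 4 / m = (C + 4) * dd m ^ 4 / m := by ring
  have h6 : 0 ≤ 4 * dd m ^ 4 / m := by positivity
  refine ⟨by linarith, ?_⟩
  rw [← Finset.add_sum_erase (range m) _ (Finset.mem_range.2 hi)]
  have h7 : (codeg A m i i : ℝ) ^ 2 ≤ 4 * dd m ^ 2 := by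
    have : (codeg A m i i : ℝ) ^ 2 ≤ (2 * dd m) ^ 2 := by gcongr
    nlinarith
  linarith

/-- total number of walks of length two. -/
lemma sum_codeg_ge {A : ℕ → ℕ → Prop} (h : PG A) : ∀ᶠ m : ℕ in atTop, ∀ i < m,
    9 / 16 * dd m ^ 2 ≤ ∑ k ∈ range m, (codeg A m i k : ℝ) := by
  filter_upwards [h.deg (1 / 4) (by norm_num), eventually_ge_atTop 2] with m hdeg hm i hi
  have hd := dd_pos hm
  have h1 : ∑ k ∈ range m, (codeg A m i k : ℝ) =
      ∑ r ∈ (range m).filter (fun r => A r i), (dX A (range m) r : ℝ) := by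
    have h2 := card_Fp_codeg h (Finset.Subset.refl (range m)) i
    rw [card_Fp_dX h (Finset.Subset.refl (range m)) i] at h2
    exact_mod_cast h2.symm
  rw [h1]
  have h3 : 3 / 4 * dd m ≤ (((range m).filter (fun r => A r i)).card : ℝ) := by
    have := (hdeg i hi).1
    unfold dX at this
    norm_num at this ⊢
    exact this
  calc 9 / 16 * dd m ^ 2 = (3 / 4 * dd m) * (3 / 4 * dd m) := by ring
    _ ≤ (((range m).filter (fun r => A r i)).card : ℝ) * (3 / 4 * dd m) := by gcongr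
    _ = ∑ r ∈ (range m).filter (fun r => A r i), 3 / 4 * dd m := by
        rw [Finset.sum_const, nsmul_eq_mul]
    _ ≤ _ := by
        refine Finset.sum_le_sum fun r hr => ?_
        have := (hdeg r (Finset.mem_range.1 (Finset.mem_filter.1 hr).1)).1
        norm_num at this ⊢
        exact this

/-- the set of vertices with many common neighbours with `a`. -/
noncomputable def ZZ (A : ℕ → ℕ → Prop) (m a : ℕ) : Finset ℕ :=
  (range m).filter (fun r => dd m ^ 2 / (16 * m) ≤ (codeg A m a r : ℝ))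

lemma card_ZZ {A : ℕ → ℕ → Prop} (h : PG A) : ∃ c0 : ℝ, 0 < c0 ∧ ∀ᶠ m : ℕ in atTop, ∀ a < m,
    c0 * m ≤ ((ZZ A m a).card : ℝ) := by
  obtain ⟨C, hC, hcod⟩ := sum_codeg_sq h
  refine ⟨1 / (4 * C), by positivity, ?_⟩
  filter_upwards [hcod, sum_codeg_ge h, eventually_ge_atTop 2] with m hcod hge hm a ha
  have hm0 : (0 : ℝ) < m := by positivity
  have hd := dd_pos hm
  have h1 := hge a ha
  have h2 : ∑ k ∈ (range m).filter (fun r => ¬ dd m ^ 2 / (16 * m) ≤ (codeg A m a r : ℝ)),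
      (codeg A m a k : ℝ) ≤ dd m ^ 2 / 16 := by
    calc _ ≤ ∑ k ∈ (range m).filter (fun r => ¬ dd m ^ 2 / (16 * m) ≤ (codeg A m a r : ℝ)),
          dd m ^ 2 / (16 * m) := by
          refine Finset.sum_le_sum fun j hj => ?_
          exact (not_le.1 (Finset.mem_filter.1 hj).2).le
      _ ≤ m * (dd m ^ 2 / (16 * m)) := by
          rw [Finset.sum_const, nsmul_eq_mul]
          have : (((range m).filter (fun r => ¬ dd m ^ 2 / (16 * m) ≤
              (codeg A m a r : ℝ))).card : ℝ) ≤ m := by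
            have := Finset.card_filter_le (range m)
              (fun r => ¬ dd m ^ 2 / (16 * m) ≤ (codeg A m a r : ℝ))
            rw [Finset.card_range] at this
            exact_mod_cast this
          gcongr
      _ = dd m ^ 2 / 16 := by field_simp
  have h3 := Finset.sum_filter_add_sum_filter_not (range m)
    (fun r => dd m ^ 2 / (16 * m) ≤ (codeg A m a r : ℝ)) (fun k => (codeg A m a k : ℝ))
  have h4 : dd m ^ 2 / 2 ≤ ∑ k ∈ ZZ A m a, (codeg A m a k : ℝ) := by
    unfold ZZ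
    linarith
  have hcs := Finset.sum_mul_sq_le_sq_mul_sq (ZZ A m a) (fun _ => (1 : ℝ))
    (fun k => (codeg A m a k : ℝ))
  simp only [one_mul, one_pow, Finset.sum_const, nsmul_eq_mul, mul_one] at hcs
  have h5 : ∑ k ∈ ZZ A m a, (codeg A m a k : ℝ) ^ 2 ≤ C * dd m ^ 4 / m :=
    le_trans (Finset.sum_le_sum_of_subset_of_nonneg (Finset.filter_subset _ _)
      (fun _ _ _ => by positivity)) (hcod a ha).2
  have h6 : (dd m ^ 2 / 2) ^ 2 ≤ (ZZ A m a).card * (C * dd m ^ 4 / m) := by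
    calc (dd m ^ 2 / 2) ^ 2 ≤ (∑ k ∈ ZZ A m a, (codeg A m a k : ℝ)) ^ 2 := by gcongr
      _ ≤ _ := hcs
      _ ≤ _ := by gcongr
  have h7 : 0 < dd m ^ 4 := by positivity
  have h8 : (1 / (4 * C) * m) * (C * dd m ^ 4 / m) ≤ (ZZ A m a).card * (C * dd m ^ 4 / m) := by
    calc (1 / (4 * C) * m) * (C * dd m ^ 4 / m) = (dd m ^ 2 / 2) ^ 2 := by
          field_simp
          ring
      _ ≤ _ := h6
  exact le_of_mul_le_mul_right h8 (by positivity)

/-- Expansion, without the upper bound on the size. -/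
lemma expand {A : ℕ → ℕ → Prop} (h : PG A) {ε : ℝ} (hε : 0 < ε) (hε4 : ε ≤ 1 / 4) :
    ∃ c : ℝ, 0 < c ∧ ∀ᶠ m : ℕ in atTop, ∀ X ⊆ range m, ε * m ≤ (X.card : ℝ) →
      min ((1 - ε) * m) ((X.card : ℝ) + c * m) ≤ ((EX A m c X).card : ℝ) := by
  obtain ⟨c, hc, hexp⟩ := h.exp ε hε
  refine ⟨c, hc, ?_⟩
  filter_upwards [hexp, eventually_ge_atTop 2, eventually_ge_atTop ⌈1 / c⌉₊,
    eventually_ge_atTop ⌈1 / ε⌉₊] with m hexp hm hmc hme X hX hXe
  have hm0 : (0 : ℝ) < m := by positivity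
  have hmc' : 1 ≤ c * m := by
    have h1 : 1 / c ≤ m := (Nat.le_ceil _).trans (by exact_mod_cast hmc)
    rw [div_le_iff₀ hc] at h1
    linarith
  have hme' : 1 ≤ ε * m := by
    have h1 : 1 / ε ≤ m := (Nat.le_ceil _).trans (by exact_mod_cast hme)
    rw [div_le_iff₀ hε] at h1
    linarith
  by_cases hle : (X.card : ℝ) ≤ (1 - ε) * m
  · exact (min_le_right _ _).trans (hexp X hX hXe hle)
  · push Not at hle
    obtain ⟨X', hX', hcard⟩ := Finset.exists_subset_card_eq
      (s := X) (n := ⌊(1 - ε) * m⌋₊) (by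
        have : ((⌊(1 - ε) * m⌋₊ : ℕ) : ℝ) ≤ X.card :=
          (Nat.floor_le (by nlinarith)).trans hle.le
        exact_mod_cast this)
    have h1 : (1 - ε) * m - 1 < (X'.card : ℝ) := by
      rw [hcard]
      exact Nat.sub_one_lt_floor _
    have h2 : (X'.card : ℝ) ≤ (1 - ε) * m := by
      rw [hcard]
      exact Nat.floor_le (by nlinarith)
    have h3 := hexp X' (hX'.trans hX) (by nlinarith) h2
    have h4 : ((EX A m c X').card : ℝ) ≤ ((EX A m c X).card : ℝ) := by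
      exact_mod_cast Finset.card_le_card (EX_mono hX')
    refine (min_le_left _ _).trans (le_trans ?_ h4)
    unfold EX
    linarith

end Pool.Agent.PC.BlockI
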