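import Mathlib
import Pool.Agent.PC.Defs
import Pool.Agent.PC.Basic
import Pool.Agent.PC.ResLevels

set_option autoImplicit false

/-!
Block I of the prime circle count: existence of the level sets (helper73).
-/

namespace Pool.Agent.PC.BlockI

open Finset Filter
open scoped Classical

/-- the iterated popular neighbourhoods. -/
noncomputable def lv (A : ℕ → ℕ → Prop) (m : ℕ) (c : ℝ) (a : ℕ) : ℕ → Finset ℕ
  | 0 => EX A m c (ZZ A m a)
  | (i + 1) => EX A m c (EX A m c (lv A m c a i))

lemma lv_sub {A : ℕ → ℕ → Prop} {m : ℕ} {c : ℝ} {a i : ℕ} : lv A m c a i ⊆ range m := by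
  cases i <;> exact EX_sub

/-- the level sets. -/
noncomputable def SS (A : ℕ → ℕ → Prop) (m : ℕ) (c : ℝ) (K : ℕ) (i a : ℕ) : Finset ℕ :=
  match i with
  | 0 => (range m).filter (fun s => A a s)
  | (j + 1) => if j ≤ K then lv A m c a j else range m

lemma SS_sub {A : ℕ → ℕ → Prop} {m : ℕ} {c : ℝ} {K a i : ℕ} : SS A m c K i a ⊆ range m := by
  cases i with
  | zero => exact Finset.filter_subset _ _
  | succ j =>
    simp only [SS]
    split_ifs
    · exact lv_sub
    · exact Finset.Subset.refl _

lemma Fp_step {A : ℕ → ℕ → Prop} (h : PG A) {m : ℕ} {X Y : Finset ℕ} (hX : X ⊆ range m)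
    (hY : Y ⊆ range m) {t : ℕ} {u v : ℝ} (hv : 0 ≤ v) (h1 : ∀ r ∈ Y, v ≤ (dX A X r : ℝ))
    (h2 : u ≤ (dX A Y t : ℝ)) : u * v ≤ ((Fp A m X t).card : ℝ) := by
  rw [card_Fp_dX h hX]
  push_cast
  have h3 : Y.filter (fun r => A r t) ⊆ (range m).filter (fun r => A r t) :=
    Finset.filter_subset_filter _ hY
  calc u * v ≤ (dX A Y t : ℝ) * v := by gcongr
    _ = ∑ r ∈ Y.filter (fun r => A r t), v := by
        rw [Finset.sum_const, nsmul_eq_mul]
        rfl
    _ ≤ ∑ r ∈ Y.filter (fun r => A r t), (dX A X r : ℝ) :=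
        Finset.sum_le_sum fun r hr => h1 r (Finset.mem_filter.1 hr).1
    _ ≤ _ := Finset.sum_le_sum_of_subset_of_nonneg h3 (fun _ _ _ => by positivity)

theorem levels {A : ℕ → ℕ → Prop} (h : PG A) : ∃ (k : ℕ) (κ : ℝ), 1 ≤ k ∧ 0 < κ ∧ ∀ᶠ m : ℕ in atTop,
    ∃ S : ℕ → ℕ → Finset ℕ, (∀ a, ∀ t ∈ S 0 a, A a t) ∧ (∀ a, S k a = range m) ∧
      (∀ i a, S i a ⊆ range m) ∧
      ∀ i < k, ∀ a < m, ∀ t ∈ S (i + 1) a,
        κ * m * dd m / (Real.log m) ^ 2 ≤ ((Fp A m (S i a) t).card : ℝ) := by
  obtain ⟨C, hC, hcod⟩ := sum_codeg_sq h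
  obtain ⟨c0, hc0, hZ⟩ := card_ZZ h
  obtain ⟨ε, hε, hε4, hεc, hεC⟩ : ∃ ε : ℝ, 0 < ε ∧ ε ≤ 1 / 4 ∧ ε ≤ c0 ∧ ε * C ≤ 1 / 64 := by
    refine ⟨min (1 / 4) (min c0 (1 / (64 * C))), by positivity, min_le_left _ _,
      (min_le_right _ _).trans (min_le_left _ _), ?_⟩
    calc min (1 / 4) (min c0 (1 / (64 * C))) * C ≤ (1 / (64 * C)) * C := by
          gcongr
          exact (min_le_right _ _).trans (min_le_right _ _)
      _ = 1 / 64 := by field_simp
  obtain ⟨c, hc, hex⟩ := expand h hε hε4
  obtain ⟨K, hK⟩ : ∃ K : ℕ, 1 ≤ c0 + c + 2 * K * c := by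
    obtain ⟨K, hK⟩ := exists_nat_ge (1 / (2 * c))
    refine ⟨K, ?_⟩
    rw [div_le_iff₀ (by positivity)] at hK
    nlinarith
  refine ⟨K + 2, min (c / 4) (min (2 * c ^ 2) (7 / 8)), by omega, by positivity, ?_⟩
  set κ : ℝ := min (c / 4) (min (2 * c ^ 2) (7 / 8)) with hκ
  have hκ0 : 0 < κ := by positivity
  have hκ1 : κ ≤ c / 4 := min_le_left _ _
  have hκ2 : κ ≤ 2 * c ^ 2 := (min_le_right _ _).trans (min_le_left _ _)
  have hκ3 : κ ≤ 7 / 8 := (min_le_right _ _).trans (min_le_right _ _)
  filter_upwards [hcod, hZ, hex, sum_codeg_ge h, eventually_ge_atTop 3] with m hcod hZ hex hge hm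
  have hm0 : (0 : ℝ) < m := by positivity
  have hd := dd_pos (m := m) (by omega)
  have hm1 : (1 : ℝ) < m := by exact_mod_cast (by omega : 1 < m)
  have hl := Real.log_pos hm1
  have hl1 : 1 ≤ Real.log m := by
    have h3 : Real.log 3 ≤ Real.log m := Real.log_le_log (by norm_num) (by exact_mod_cast hm)
    have h4 : Real.exp 1 ≤ 3 := by
      have := Real.exp_one_lt_d9
      linarith
    have h5 : 1 ≤ Real.log 3 := by
      rw [Real.le_log_iff_exp_le (by norm_num)]
      exact h4
    linarith
  have hddl : dd m * Real.log m = 2 * m := by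
    unfold dd
    field_simp
  -- sizes
  have hstep : ∀ (α : ℝ) (X : Finset ℕ), X ⊆ range m → ε ≤ α →
      min ((1 - ε) * m) (α * m) ≤ (X.card : ℝ) →
      min ((1 - ε) * m) ((α + c) * m) ≤ ((EX A m c X).card : ℝ) := by
    intro α X hX hα hXc
    have h1 : ε * m ≤ (X.card : ℝ) := by
      refine le_trans (le_min ?_ ?_) hXc
      · nlinarith
      · gcongr
    refine le_trans ?_ (hex X hX h1)
    refine le_min (min_le_left _ _) ?_
    rcases le_total ((1 - ε) * (m : ℝ)) (α * m) with h2 | h2
    · rw [min_eq_left h2] at hXc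
      have : 0 ≤ c * m := by positivity
      exact (min_le_left _ _).trans (by linarith)
    · rw [min_eq_right h2] at hXc
      exact (min_le_right _ _).trans (by linarith)
  have hsize : ∀ a < m, ∀ i : ℕ, min ((1 - ε) * m) ((c0 + c + 2 * i * c) * m) ≤
      ((lv A m c a i).card : ℝ) := by
    intro a ha i
    induction i with
    | zero =>
      have := hstep c0 (ZZ A m a) (Finset.filter_subset _ _) hεc
        ((min_le_right _ _).trans (hZ a ha))
      simpa [lv] using this
    | succ i ih =>
      have hα : ε ≤ c0 + c + 2 * i * c := by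
        have : 0 ≤ 2 * (i : ℝ) * c := by positivity
        linarith
      have h1 := hstep _ _ lv_sub hα ih
      have h2 := hstep _ _ EX_sub (by linarith) h1
      have h3 : (c0 + c + 2 * (i : ℝ) * c + c + c) = c0 + c + 2 * ((i + 1 : ℕ) : ℝ) * c := by
        push_cast
        ring
      rw [h3] at h2
      exact h2
  refine ⟨SS A m c K, ?_, ?_, ?_, ?_⟩
  · intro a t ht
    simp only [SS, Finset.mem_filter] at ht
    exact ht.2
  · intro a
    simp [SS]
  · intro i a
    exact SS_sub
  · intro i hi a ha t ht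
    have hcase : i = 0 ∨ (∃ j, i = j + 1 ∧ j + 1 ≤ K) ∨ i = K + 1 := by
      rcases i with _ | j
      · left; rfl
      · right
        by_cases hj : j + 1 ≤ K
        · left; exact ⟨j, rfl, hj⟩
        · right; omega
    rcases hcase with rfl | ⟨j, rfl, hj⟩ | rfl
    · -- first level
      simp only [SS, Nat.zero_le, if_true, lv] at ht
      have h2 : c * dd m ≤ (dX A (ZZ A m a) t : ℝ) := (Finset.mem_filter.1 ht).2
      have h1 : ∀ r ∈ ZZ A m a, dd m ^ 2 / (16 * m) ≤ (dX A (SS A m c K 0 a) r : ℝ) := by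
        intro r hr
        have h3 := (Finset.mem_filter.1 hr).2
        have h4 : dX A (SS A m c K 0 a) r = codeg A m a r := by
          unfold dX codeg SS
          rw [Finset.filter_filter]
          congr 1
          ext j
          simp only [Finset.mem_filter]
          exact and_congr_right fun _ => and_congr_right fun _ =>
            ⟨fun h5 => h.symm _ _ h5, fun h5 => h.symm _ _ h5⟩
        rw [h4]
        exact h3
      have h3 := Fp_step h (SS_sub (A := A) (c := c) (K := K) (i := 0) (a := a))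
        (Finset.filter_subset _ _) (by positivity) h1 h2
      refine le_trans ?_ h3
      have h4 : c * dd m * (dd m ^ 2 / (16 * m)) = c / 4 * m * dd m / Real.log m ^ 2 := by
        have : dd m ^ 2 = 4 * m ^ 2 / Real.log m ^ 2 := by
          rw [eq_div_iff (by positivity), ← mul_pow, hddl]
          ring
        rw [this]
        field_simp
        ring
      rw [h4]
      gcongr
    · -- middle levels
      have ht' : t ∈ EX A m c (EX A m c (lv A m c a j)) := by
        have h5 : j + 1 ≤ K := hj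
        simp only [SS, h5, if_true, lv] at ht
        exact ht
      have hS : SS A m c K (j + 1) a = lv A m c a j := by
        have h5 : j ≤ K := by omega
        simp only [SS, h5, if_true]
      rw [hS]
      have h2 : c * dd m ≤ (dX A (EX A m c (lv A m c a j)) t : ℝ) := (Finset.mem_filter.1 ht').2
      have h1 : ∀ r ∈ EX A m c (lv A m c a j), c * dd m ≤ (dX A (lv A m c a j) r : ℝ) := by
        intro r hr
        exact (Finset.mem_filter.1 hr).2
      have h3 := Fp_step h lv_sub EX_sub (by positivity) h1 h2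
      refine le_trans ?_ h3
      have h4 : c * dd m * (c * dd m) = 2 * c ^ 2 * m * dd m / Real.log m := by
        have : dd m = 2 * m / Real.log m := rfl
        rw [eq_div_iff hl.ne']
        calc c * dd m * (c * dd m) * Real.log m = c ^ 2 * dd m * (dd m * Real.log m) := by ring
          _ = 2 * c ^ 2 * m * dd m := by rw [hddl]; ring
      rw [h4]
      have h5 : Real.log m ≤ Real.log m ^ 2 := by nlinarith
      calc κ * m * dd m / Real.log m ^ 2 ≤ 2 * c ^ 2 * m * dd m / Real.log m ^ 2 := by gcongr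
        _ ≤ 2 * c ^ 2 * m * dd m / Real.log m := by gcongr
    · -- last level
      have hS : SS A m c K (K + 1) a = lv A m c a K := by
        simp only [SS, le_refl, if_true]
      rw [hS]
      have ht' : t < m := by
        have := SS_sub ht
        exact Finset.mem_range.1 this
      have hX : (1 - ε) * m ≤ ((lv A m c a K).card : ℝ) := by
        refine le_trans (le_min le_rfl ?_) (hsize a ha K)
        have : (1 - ε) ≤ c0 + c + 2 * K * c := by linarith
        gcongr
      have h1 : ((Fp A m (lv A m c a K) t).card : ℝ) =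
          ∑ s ∈ lv A m c a K, (codeg A m t s : ℝ) := by
        exact_mod_cast card_Fp_codeg h lv_sub t
      rw [h1]
      have h2 := hge t ht'
      have h3 := Finset.sum_sdiff (lv_sub (A := A) (m := m) (c := c) (a := a) (i := K))
        (f := fun s => (codeg A m t s : ℝ))
      have h4 : (((range m) \ lv A m c a K).card : ℝ) ≤ ε * m := by
        have h5 := Finset.card_sdiff_add_card_eq_card (lv_sub (A := A) (m := m) (c := c) (a := a) (i := K))
        rw [Finset.card_range] at h5
        have h6 : (((range m) \ lv A m c a K).card : ℝ) + ((lv A m c a K).card : ℝ) = m := by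
          exact_mod_cast h5
        linarith
      have hcs := Finset.sum_mul_sq_le_sq_mul_sq ((range m) \ lv A m c a K) (fun _ => (1 : ℝ))
        (fun k => (codeg A m t k : ℝ))
      simp only [one_mul, one_pow, Finset.sum_const, nsmul_eq_mul, mul_one] at hcs
      have h5 : ∑ k ∈ (range m) \ lv A m c a K, (codeg A m t k : ℝ) ^ 2 ≤ C * dd m ^ 4 / m :=
        le_trans (Finset.sum_le_sum_of_subset_of_nonneg Finset.sdiff_subset
          (fun _ _ _ => by positivity)) (hcod t ht').2
      have h6 : (∑ k ∈ (range m) \ lv A m c a K, (codeg A m t k : ℝ)) ^ 2 ≤ (dd m ^ 2 / 8) ^ 2 := by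
        refine hcs.trans ?_
        calc (((range m) \ lv A m c a K).card : ℝ) *
              ∑ k ∈ (range m) \ lv A m c a K, (codeg A m t k : ℝ) ^ 2
            ≤ (ε * m) * (C * dd m ^ 4 / m) := by gcongr
          _ = (ε * C) * dd m ^ 4 := by field_simp
          _ ≤ 1 / 64 * dd m ^ 4 := by gcongr
          _ = (dd m ^ 2 / 8) ^ 2 := by ring
      have h7 : ∑ k ∈ (range m) \ lv A m c a K, (codeg A m t k : ℝ) ≤ dd m ^ 2 / 8 :=
        le_of_sq_le_sq h6 (by positivity)
      have h8 : 7 / 16 * dd m ^ 2 ≤ ∑ s ∈ lv A m c a K, (codeg A m t s : ℝ) := by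
        linarith
      refine le_trans ?_ h8
      have h9 : 7 / 16 * dd m ^ 2 = 7 / 8 * m * dd m / Real.log m := by
        rw [eq_div_iff hl.ne']
        calc 7 / 16 * dd m ^ 2 * Real.log m = 7 / 16 * dd m * (dd m * Real.log m) := by ring
          _ = 7 / 8 * m * dd m := by rw [hddl]; ring
      rw [h9]
      have h10 : Real.log m ≤ Real.log m ^ 2 := by nlinarith
      calc κ * m * dd m / Real.log m ^ 2 ≤ 7 / 8 * m * dd m / Real.log m ^ 2 := by gcongr
        _ ≤ 7 / 8 * m * dd m / Real.log m := by gcongr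

end Pool.Agent.PC.BlockI
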