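import Mathlib
import Pool.Agent.PC.Defs
import Pool.Agent.PC.Basic
import Pool.Agent.PC.ResLevels
import Pool.Agent.PC.ResLevels2

set_option autoImplicit false

/-!
Block I of the prime circle count: avoiding a small set, connecting paths (helper73).
-/

namespace Pool.Agent.PC.BlockI

open Finset Filter
open scoped Classical

/-- the edges -/
noncomputable def EE (A : ℕ → ℕ → Prop) (m : ℕ) : Finset (ℕ × ℕ) :=
  (range m ×ˢ range m).filter (fun p => A p.1 p.2)

lemma Fp_sub_EE {A : ℕ → ℕ → Prop} {m : ℕ} {S : Finset ℕ} {t : ℕ} : Fp A m S t ⊆ EE A m := by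
  intro p hp
  unfold Fp at hp
  unfold EE
  rw [Finset.mem_filter] at hp ⊢
  exact ⟨hp.1, hp.2.2.1⟩

lemma card_EE_left {A : ℕ → ℕ → Prop} (h : PG A) {m : ℕ} {D : ℝ} (hD : 0 ≤ D)
    (hdeg : ∀ i < m, (dX A (range m) i : ℝ) ≤ D) (W : Finset ℕ) :
    (((EE A m).filter (fun p => p.1 ∈ W)).card : ℝ) ≤ W.card * D := by
  have h1 : ((EE A m).filter (fun p => p.1 ∈ W)).card =
      ∑ r ∈ (range m).filter (fun r => r ∈ W), dX A (range m) r := by
    unfold EE
    rw [Finset.filter_filter, Finset.card_filter, Finset.sum_product, Finset.sum_filter]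
    refine Finset.sum_congr rfl fun r _ => ?_
    by_cases hr : r ∈ W
    · rw [if_pos hr, dX_eq h, Finset.card_filter]
      refine Finset.sum_congr rfl fun s _ => ?_
      simp [hr]
    · simp [hr]
  rw [h1]
  push_cast
  calc ∑ r ∈ (range m).filter (fun r => r ∈ W), (dX A (range m) r : ℝ)
      ≤ ∑ r ∈ (range m).filter (fun r => r ∈ W), D :=
        Finset.sum_le_sum fun r hr => hdeg r (Finset.mem_range.1 (Finset.mem_filter.1 hr).1)
    _ = (((range m).filter (fun r => r ∈ W)).card : ℝ) * D := by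
        rw [Finset.sum_const, nsmul_eq_mul]
    _ ≤ W.card * D := by
        have h2 : ((range m).filter (fun r => r ∈ W)).card ≤ W.card := by
          apply Finset.card_le_card
          intro r hr
          exact (Finset.mem_filter.1 hr).2
        have h3 : (((range m).filter (fun r => r ∈ W)).card : ℝ) ≤ (W.card : ℝ) := by
          exact_mod_cast h2
        gcongr

lemma card_EE_right {A : ℕ → ℕ → Prop} (h : PG A) {m : ℕ} {D : ℝ} (hD : 0 ≤ D)
    (hdeg : ∀ i < m, (dX A (range m) i : ℝ) ≤ D) (W : Finset ℕ) :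
    (((EE A m).filter (fun p => p.2 ∈ W)).card : ℝ) ≤ W.card * D := by
  have h1 : ((EE A m).filter (fun p => p.2 ∈ W)).card = ((EE A m).filter (fun p => p.1 ∈ W)).card := by
    refine Finset.card_bij (fun p _ => (p.2, p.1)) ?_ ?_ ?_
    · intro p hp
      unfold EE at hp ⊢
      simp only [Finset.mem_filter, Finset.mem_product] at hp ⊢
      exact ⟨⟨⟨hp.1.1.2, hp.1.1.1⟩, h.symm _ _ hp.1.2⟩, hp.2⟩
    · intro p _ q _ hpq
      simp only [Prod.mk.injEq] at hpq
      exact Prod.ext hpq.2 hpq.1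
    · intro p hp
      refine ⟨(p.2, p.1), ?_, rfl⟩
      unfold EE at hp ⊢
      simp only [Finset.mem_filter, Finset.mem_product] at hp ⊢
      exact ⟨⟨⟨hp.1.1.2, hp.1.1.1⟩, h.symm _ _ hp.1.2⟩, hp.2⟩
  rw [h1]
  exact card_EE_left h hD hdeg W

lemma card_EE {A : ℕ → ℕ → Prop} (h : PG A) {m : ℕ} {D : ℝ} (hD : 0 ≤ D)
    (hdeg : ∀ i < m, (dX A (range m) i : ℝ) ≤ D) :
    ((EE A m).card : ℝ) ≤ m * D := by
  have h1 : (EE A m).filter (fun p => p.1 ∈ range m) = EE A m := by
    apply Finset.filter_true_of_mem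
    intro p hp
    unfold EE at hp
    simp only [Finset.mem_filter, Finset.mem_product] at hp
    exact hp.1.1
  have h2 := card_EE_left h hD hdeg (range m)
  rw [h1, Finset.card_range] at h2
  exact h2

/-- Large families of edges contain many edges that avoid a given small set. -/
lemma avoid {A : ℕ → ℕ → Prop} (h : PG A) {κ : ℝ} (hκ : 0 < κ) : ∀ᶠ m : ℕ in atTop,
    ∀ W : Finset (Bool × ℕ), (W.card : ℝ) ≤ (m : ℝ) ^ (0.95 : ℝ) → ∀ F ⊆ EE A m,
      κ * m * dd m / (Real.log m) ^ 2 ≤ (F.card : ℝ) → ∀ t0 : Bool,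
      κ / 2 * m * dd m / (Real.log m) ^ 2 ≤
        ((F.filter (fun p => (t0, p.1) ∉ W ∧ (!t0, p.2) ∉ W)).card : ℝ) := by
  filter_upwards [h.deg 1 one_pos, log_le_rpow (δ := 0.02) (by norm_num) (K := Real.sqrt (8 / κ))
    (by positivity), eventually_ge_atTop 3] with m hdeg hlog hm W hW F hF hFc t0
  have hm0 : (0 : ℝ) < m := by positivity
  have hm1 : (1 : ℝ) < m := by exact_mod_cast (by omega : 1 < m)
  have hd := dd_pos (m := m) (by omega)
  have hl := Real.log_pos hm1
  have hdeg' : ∀ i < m, (dX A (range m) i : ℝ) ≤ 2 * dd m := by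
    intro i hi
    have := (hdeg i hi).2
    norm_num at this
    exact this
  set W' : Finset ℕ := W.image Prod.snd with hW'
  have hW'c : (W'.card : ℝ) ≤ W.card := by exact_mod_cast Finset.card_image_le
  have hl2 := card_EE_left h (by positivity) hdeg' W'
  have hr2 := card_EE_right h (by positivity) hdeg' W'
  have hsub : F ⊆ (F.filter (fun p => (t0, p.1) ∉ W ∧ (!t0, p.2) ∉ W)) ∪
      ((EE A m).filter (fun p => p.1 ∈ W') ∪ (EE A m).filter (fun p => p.2 ∈ W')) := by
    intro p hp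
    by_cases h1 : (t0, p.1) ∈ W
    · refine Finset.mem_union_right _ (Finset.mem_union_left _ (Finset.mem_filter.2 ⟨hF hp, ?_⟩))
      exact Finset.mem_image.2 ⟨_, h1, rfl⟩
    · by_cases h2 : (!t0, p.2) ∈ W
      · refine Finset.mem_union_right _ (Finset.mem_union_right _ (Finset.mem_filter.2 ⟨hF hp, ?_⟩))
        exact Finset.mem_image.2 ⟨_, h2, rfl⟩
      · exact Finset.mem_union_left _ (Finset.mem_filter.2 ⟨hp, h1, h2⟩)
  have hcard := Finset.card_le_card hsub
  have h3 : (F.card : ℝ) ≤ ((F.filter (fun p => (t0, p.1) ∉ W ∧ (!t0, p.2) ∉ W)).card : ℝ) +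
      (((EE A m).filter (fun p => p.1 ∈ W')).card + ((EE A m).filter (fun p => p.2 ∈ W')).card) := by
    have h4 := hcard.trans (Finset.card_union_le _ _)
    have h5 := Finset.card_union_le ((EE A m).filter (fun p => p.1 ∈ W'))
      ((EE A m).filter (fun p => p.2 ∈ W'))
    have h6 : F.card ≤ (F.filter (fun p => (t0, p.1) ∉ W ∧ (!t0, p.2) ∉ W)).card +
      (((EE A m).filter (fun p => p.1 ∈ W')).card + ((EE A m).filter (fun p => p.2 ∈ W')).card) := by
      omega
    exact_mod_cast h6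
  have h4 : (W'.card : ℝ) * (2 * dd m) ≤ (m : ℝ) ^ (0.95 : ℝ) * (2 * dd m) := by
    gcongr
    exact hW'c.trans hW
  -- 4 m^0.95 dd <= kappa / 2 * m * dd / log^2
  have h5 : 8 / κ * Real.log m ^ 2 ≤ (m : ℝ) ^ (0.04 : ℝ) := by
    have h6 : (Real.sqrt (8 / κ) * Real.log m) ^ 2 ≤ ((m : ℝ) ^ (0.02 : ℝ)) ^ 2 := by gcongr
    rw [mul_pow, Real.sq_sqrt (by positivity), ← Real.rpow_natCast ((m : ℝ) ^ (0.02 : ℝ)),
      ← Real.rpow_mul hm0.le] at h6
    norm_num at h6 ⊢
    exact h6
  have h6 : (m : ℝ) ^ (0.95 : ℝ) * (m : ℝ) ^ (0.04 : ℝ) ≤ m := by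
    rw [← Real.rpow_add hm0]
    calc (m : ℝ) ^ ((0.95 : ℝ) + 0.04) ≤ (m : ℝ) ^ (1 : ℝ) :=
          Real.rpow_le_rpow_of_exponent_le hm1.le (by norm_num)
      _ = m := Real.rpow_one _
  have h7 : 2 * ((m : ℝ) ^ (0.95 : ℝ) * (2 * dd m)) ≤ κ / 2 * m * dd m / (Real.log m) ^ 2 := by
    rw [le_div_iff₀ (by positivity)]
    have h8 : (m : ℝ) ^ (0.95 : ℝ) * (8 / κ * Real.log m ^ 2) ≤ m := by
      refine le_trans ?_ h6
      gcongr
    have h9 : (m : ℝ) ^ (0.95 : ℝ) * (8 * Real.log m ^ 2) ≤ κ * m := by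
      have h10 : (m : ℝ) ^ (0.95 : ℝ) * (8 * Real.log m ^ 2) =
          κ * ((m : ℝ) ^ (0.95 : ℝ) * (8 / κ * Real.log m ^ 2)) := by
        field_simp
      rw [h10]
      gcongr
    calc 2 * ((m : ℝ) ^ (0.95 : ℝ) * (2 * dd m)) * Real.log m ^ 2 =
          ((m : ℝ) ^ (0.95 : ℝ) * (8 * Real.log m ^ 2)) * (dd m / 2) := by ring
      _ ≤ (κ * m) * (dd m / 2) := by gcongr
      _ = κ / 2 * m * dd m := by ring
  have h8 : κ / 2 * m * dd m / (Real.log m) ^ 2 + κ / 2 * m * dd m / (Real.log m) ^ 2 =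
      κ * m * dd m / (Real.log m) ^ 2 := by ring
  linarith

/-- One step of the connecting path: an edge `(r, s)` that avoids `W`. -/
lemma avoid_one {A : ℕ → ℕ → Prop} (h : PG A) {κ : ℝ} (hκ : 0 < κ) : ∀ᶠ m : ℕ in atTop,
    ∀ W : Finset (Bool × ℕ), (W.card : ℝ) ≤ (m : ℝ) ^ (0.95 : ℝ) → ∀ (S : Finset ℕ) (t : ℕ),
      κ * m * dd m / (Real.log m) ^ 2 ≤ ((Fp A m S t).card : ℝ) → ∀ t0 : Bool,
      ∃ p ∈ Fp A m S t, (t0, p.1) ∉ W ∧ (!t0, p.2) ∉ W := by
  filter_upwards [avoid h hκ, eventually_ge_atTop 3] with m hav hm W hW S t hF t0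
  have hm1 : (1 : ℝ) < m := by exact_mod_cast (by omega : 1 < m)
  have hm0 : (0 : ℝ) < m := by positivity
  have hd := dd_pos (m := m) (by omega)
  have hl := Real.log_pos hm1
  have h1 := hav W hW _ Fp_sub_EE hF t0
  have h2 : 0 < κ / 2 * m * dd m / (Real.log m) ^ 2 := by positivity
  have h3 : 0 < ((Fp A m S t).filter (fun p => (t0, p.1) ∉ W ∧ (!t0, p.2) ∉ W)).card := by
    have : (0 : ℝ) < (((Fp A m S t).filter (fun p => (t0, p.1) ∉ W ∧ (!t0, p.2) ∉ W)).card : ℝ) :=
      lt_of_lt_of_le h2 h1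
    exact_mod_cast this
  obtain ⟨p, hp⟩ := Finset.card_pos.1 h3
  rw [Finset.mem_filter] at hp
  exact ⟨p, hp.1, hp.2⟩

lemma adjV_symm {A : ℕ → ℕ → Prop} (h : PG A) {u v : Bool × ℕ} (huv : adjV A u v) : adjV A v u :=
  ⟨fun h1 => huv.1 h1.symm, h.symm _ _ huv.2⟩

/-- Paths between vertices on different sides. -/
lemma path_opp {A : ℕ → ℕ → Prop} (h : PG A) : ∃ L0 : ℕ, ∀ᶠ m : ℕ in atTop,
    ∀ (t0 : Bool) (a b : ℕ), a < m → b < m → ∀ W : Finset (Bool × ℕ),
      (W.card : ℝ) + L0 ≤ (m : ℝ) ^ (0.95 : ℝ) →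
      ∃ P : List (Bool × ℕ), P.length ≤ L0 ∧ P.Nodup ∧ (∀ v ∈ P, v ∉ W ∧ v.2 < m) ∧
        ((t0, a) :: (P ++ [(!t0, b)])).IsChain (adjV A) := by
  obtain ⟨k, κ, hk, hκ, hlev⟩ := levels h
  refine ⟨2 * k, ?_⟩
  filter_upwards [hlev, avoid_one h hκ] with m hlev hav t0 a b ha hb W hW
  obtain ⟨S, hS0, hSk, hSsub, hS⟩ := hlev
  have key : ∀ i ≤ k, ∀ t ∈ S i a, ∀ W : Finset (Bool × ℕ),
      (W.card : ℝ) + (2 * i : ℕ) ≤ (m : ℝ) ^ (0.95 : ℝ) →
      ∃ P : List (Bool × ℕ), P.length = 2 * i ∧ P.Nodup ∧ (∀ v ∈ P, v ∉ W ∧ v.2 < m) ∧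
        ((t0, a) :: (P ++ [(!t0, t)])).IsChain (adjV A) := by
    intro i
    induction i with
    | zero =>
      intro _ t ht W _
      refine ⟨[], rfl, List.nodup_nil, by simp, ?_⟩
      simp only [List.nil_append, List.isChain_cons_cons, List.isChain_singleton, and_true]
      refine ⟨?_, hS0 a t ht⟩
      cases t0 <;> simp
    | succ i ih =>
      intro hi t ht W hW
      have hW0 : (W.card : ℝ) ≤ (m : ℝ) ^ (0.95 : ℝ) := by
        have : (0 : ℝ) ≤ (2 * (i + 1) : ℕ) := by positivity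
        linarith
      obtain ⟨p, hp, hp1, hp2⟩ := hav W hW0 (S i a) t (hS i (by omega) a ha t ht) t0
      unfold Fp at hp
      simp only [Finset.mem_filter, Finset.mem_product, Finset.mem_range] at hp
      obtain ⟨⟨hpm1, hpm2⟩, hpS, hpA, hpt⟩ := hp
      have hcard : ((insert (t0, p.1) (insert (!t0, p.2) W)).card : ℝ) ≤ W.card + 2 := by
        have h1 := Finset.card_insert_le (t0, p.1) (insert (!t0, p.2) W)
        have h2 := Finset.card_insert_le (!t0, p.2) W
        have h3 : (insert (t0, p.1) (insert (!t0, p.2) W)).card ≤ W.card + 2 := by omega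
        exact_mod_cast h3
      obtain ⟨P, hP1, hP2, hP3, hP4⟩ := ih (by omega) p.2 hpS
        (insert (t0, p.1) (insert (!t0, p.2) W)) (by
          push_cast at hW ⊢
          linarith)
      refine ⟨P ++ [(!t0, p.2), (t0, p.1)], by simp [hP1]; ring, ?_, ?_, ?_⟩
      · rw [List.nodup_append]
        refine ⟨hP2, ?_, ?_⟩
        · simp
        · intro x hx y hy hxy
          subst hxy
          have h1 := (hP3 x hx).1
          simp only [List.mem_cons, List.not_mem_nil, or_false] at hy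
          rcases hy with rfl | rfl
          · exact h1 (by simp)
          · exact h1 (by simp)
      · intro v hv
        rw [List.mem_append] at hv
        rcases hv with hv | hv
        · have h1 := hP3 v hv
          refine ⟨fun h2 => h1.1 (by simp [h2]), h1.2⟩
        · simp only [List.mem_cons, List.not_mem_nil, or_false] at hv
          rcases hv with rfl | rfl
          · exact ⟨hp2, hpm2⟩
          · exact ⟨hp1, hpm1⟩
      · have e1 : (t0, a) :: (P ++ [(!t0, p.2), (t0, p.1)] ++ [(!t0, t)]) =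
            ((t0, a) :: (P ++ [(!t0, p.2)])) ++ [(t0, p.1), (!t0, t)] := by simp
        rw [e1, List.isChain_append]
        refine ⟨hP4, ?_, ?_⟩
        · simp only [List.isChain_cons_cons, List.isChain_singleton, and_true]
          refine ⟨?_, hpt⟩
          cases t0 <;> simp
        · intro x hx y hy
          have hx' : x = (!t0, p.2) := by
            rw [← List.cons_append, List.getLast?_append] at hx
            simpa using hx.symm
          have hy' : y = (t0, p.1) := by simpa using hy.symm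
          subst hx' hy'
          refine ⟨?_, h.symm _ _ hpA⟩
          cases t0 <;> simp
  obtain ⟨P, hP1, hP2, hP3, hP4⟩ := key k le_rfl b (by rw [hSk a]; exact Finset.mem_range.2 hb) W hW
  exact ⟨P, hP1.le, hP2, hP3, hP4⟩

/-- Paths between arbitrary vertices. -/
theorem connect {A : ℕ → ℕ → Prop} (h : PG A) : ∃ L0 : ℕ, ∀ᶠ m : ℕ in atTop,
    ∀ (x y : Bool × ℕ), x.2 < m → y.2 < m → ∀ W : Finset (Bool × ℕ),
      (W.card : ℝ) + L0 ≤ (m : ℝ) ^ (0.95 : ℝ) →
      ∃ P : List (Bool × ℕ), P.length ≤ L0 ∧ P.Nodup ∧ (∀ v ∈ P, v ∉ W ∧ v.2 < m) ∧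
        (x :: (P ++ [y])).IsChain (adjV A) := by
  obtain ⟨L1, hL1⟩ := path_opp h
  refine ⟨L1 + 1, ?_⟩
  filter_upwards [hL1, h.deg (1 / 2) (by norm_num), dd_lower (δ := 0.04) (by norm_num)
    (K := 4) (by norm_num), eventually_ge_atTop 3] with m hL hdeg hdd hm x y hx hy W hW
  have hm0 : (0 : ℝ) < m := by positivity
  have hm1 : (1 : ℝ) < m := by exact_mod_cast (by omega : 1 < m)
  obtain ⟨t0, a⟩ := x
  obtain ⟨t1, b⟩ := y
  simp only at hx hy
  push_cast at hW
  by_cases ht : t1 = !t0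
  · subst ht
    obtain ⟨P, h1, h2, h3, h4⟩ := hL t0 a b hx hy W (by linarith)
    exact ⟨P, by omega, h2, h3, h4⟩
  · have ht' : t1 = t0 := by
      cases t0 <;> cases t1 <;> simp_all
    subst ht'
    -- choose a neighbour of `b` outside `W`
    obtain ⟨s, hs1, hs2, hs3⟩ : ∃ s < m, A b s ∧ (!t1, s) ∉ W := by
      by_contra hcon
      push Not at hcon
      have h1 : dX A (range m) b ≤ W.card := by
        rw [dX_eq h]
        have h2 : ((range m).filter (fun j => A b j)).image (fun j => (!t1, j)) ⊆ W := by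
          intro v hv
          obtain ⟨j, hj, rfl⟩ := Finset.mem_image.1 hv
          simp only [Finset.mem_filter, Finset.mem_range] at hj
          exact hcon j hj.1 hj.2
        have h3 := Finset.card_le_card h2
        rwa [Finset.card_image_of_injective _ (fun i j hij => by simpa using hij)] at h3
      have h2 := (hdeg b hy).1
      have h3 : (dX A (range m) b : ℝ) ≤ W.card := by exact_mod_cast h1
      have h4 : (m : ℝ) ^ (0.95 : ℝ) ≤ (m : ℝ) ^ (1 - 0.04 : ℝ) :=
        Real.rpow_le_rpow_of_exponent_le hm1.le (by norm_num)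
      have h5 : (0 : ℝ) < (m : ℝ) ^ (0.95 : ℝ) := by positivity
      have h6 : (0 : ℝ) ≤ (L1 : ℝ) := by positivity
      nlinarith
    have hcard : ((insert (!t1, s) W).card : ℝ) ≤ W.card + 1 := by
      exact_mod_cast Finset.card_insert_le _ _
    obtain ⟨P, h1, h2, h3, h4⟩ := hL t1 a s hx hs1 (insert (!t1, s) W) (by linarith)
    refine ⟨P ++ [(!t1, s)], by simp; omega, ?_, ?_, ?_⟩
    · rw [List.nodup_append]
      refine ⟨h2, by simp, ?_⟩
      intro x hx y hy hxy
      subst hxy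
      simp only [List.mem_cons, List.not_mem_nil, or_false] at hy
      subst hy
      exact (h3 _ hx).1 (by simp)
    · intro v hv
      rw [List.mem_append] at hv
      rcases hv with hv | hv
      · exact ⟨fun h5 => (h3 v hv).1 (by simp [h5]), (h3 v hv).2⟩
      · simp only [List.mem_cons, List.not_mem_nil, or_false] at hv
        subst hv
        exact ⟨hs3, hs1⟩
    · have e1 : (t1, a) :: (P ++ [(!t1, s)] ++ [(t1, b)]) =
          ((t1, a) :: (P ++ [(!t1, s)])) ++ [(t1, b)] := by simp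
      rw [e1, List.isChain_append]
      refine ⟨h4, by simp, ?_⟩
      intro x hx y hy
      have hx' : x = (!t1, s) := by
        rw [← List.cons_append, List.getLast?_append] at hx
        simpa using hx.symm
      have hy' : y = (t1, b) := by simpa using hy.symm
      subst hx' hy'
      refine ⟨?_, h.symm _ _ hs2⟩
      cases t1 <;> simp

end Pool.Agent.PC.BlockI
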