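import Mathlib
import Pool.Agent.PC.Defs
import Pool.Agent.PC.Basic
import Pool.Agent.PC.ResConnect

set_option autoImplicit false

/-!
Block I of the prime circle count: rotations of a path (helper73).
-/

namespace Pool.Agent.PC.BlockI

open Finset Filter

section Generic

lemma last_app {α : Type*} (l1 : List α) (a : α) (l2 : List α) :
    (l1 ++ a :: l2).getLast? = (a :: l2).getLast? := by
  rw [List.getLast?_append]
  cases h : (a :: l2).getLast? with
  | none => simp at h
  | some x => simp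

variable {α : Type*} {R : α → α → Prop}

/-- the list contains the given pairs as consecutive entries, in the given order. -/
def Sub : List α → List (α × α) → Prop
  | _, [] => True
  | l, (e :: es) => ∃ X Y : List α, l = X ++ e.1 :: e.2 :: Y ∧ Sub Y es

/-- linking condition for the rotations. -/
def Link (R : α → α → Prop) : α → List (α × α) → α → Prop
  | r, [], y => y = r
  | r, (e :: es), y => R r e.2 ∧ Link R e.1 es y

lemma Sub.append {l : List α} {es : List (α × α)} (hs : Sub l es) (X : List α) :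
    Sub (X ++ l) es := by
  cases es with
  | nil => trivial
  | cons e es =>
    obtain ⟨Y, Z, rfl, h⟩ := hs
    exact ⟨X ++ Y, Z, by simp, h⟩

lemma Sub.sublist {es es' : List (α × α)} (hsub : es'.Sublist es) :
    ∀ l : List α, Sub l es → Sub l es' := by
  induction hsub with
  | slnil => intro l h; exact h
  | cons e _ ih =>
    rintro l ⟨X, Y, rfl, h⟩
    have h1 := (ih Y h).append (X ++ [e.1, e.2])
    simpa using h1
  | cons_cons e _ ih =>
    rintro l ⟨X, Y, rfl, h⟩
    exact ⟨X, Y, rfl, ih Y h⟩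

lemma Link.append {r y0 : α} {es : List (α × α)} (h : Link R r es y0) {e : α × α}
    (he : R y0 e.2) : Link R r (es ++ [e]) e.1 := by
  induction es generalizing r with
  | nil =>
    have : y0 = r := h
    subst this
    exact ⟨he, rfl⟩
  | cons f es ih => exact ⟨h.1, ih h.2⟩

theorem rotate (hsymm : ∀ x y, R x y → R y x) : ∀ (es : List (α × α)) (r : α) (R0 : List α) (y : α),
    (r :: R0).IsChain R → Sub R0 es → Link R r es y →
    ∃ L2 : List α, (y :: L2).Perm (r :: R0) ∧ (y :: L2).IsChain R ∧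
      (y :: L2).getLast? = (r :: R0).getLast? := by
  intro es
  induction es with
  | nil =>
    intro r R0 y hc _ hl
    have : y = r := hl
    subst this
    exact ⟨R0, List.Perm.refl _, hc, rfl⟩
  | cons e es ih =>
    rintro r R0 y hc ⟨X, Y, rfl, hY⟩ ⟨hl1, hl2⟩
    have e0 : r :: (X ++ e.1 :: e.2 :: Y) = (r :: (X ++ [e.1])) ++ e.2 :: Y := by simp
    rw [e0, List.isChain_append] at hc
    obtain ⟨hc1, hc2, _⟩ := hc
    have hrev : (e.1 :: (X.reverse ++ [r])).IsChain R := by
      have h1 : (r :: (X ++ [e.1])).reverse = e.1 :: (X.reverse ++ [r]) := by simp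
      rw [← h1, List.isChain_reverse]
      exact hc1.imp fun a b hab => hsymm _ _ hab
    have hnew : (e.1 :: ((X.reverse ++ [r]) ++ e.2 :: Y)).IsChain R := by
      rw [← List.cons_append, List.isChain_append]
      refine ⟨hrev, hc2, ?_⟩
      intro x hx z hz
      have hx' : x = r := by
        rw [← List.cons_append, List.getLast?_append] at hx
        simpa using hx.symm
      have hz' : z = e.2 := by simpa using hz.symm
      subst hx' hz'
      exact hl1
    have hsub : Sub ((X.reverse ++ [r]) ++ e.2 :: Y) es := by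
      have := hY.append (X.reverse ++ [r] ++ [e.2])
      simpa using this
    obtain ⟨L2, hp, hch, hlast⟩ := ih e.1 ((X.reverse ++ [r]) ++ e.2 :: Y) y hnew hsub hl2
    refine ⟨L2, hp.trans ?_, hch, ?_⟩
    · have h1 : (X.reverse ++ [r]).Perm (r :: X) := by
        have h2 : (X.reverse ++ [r]) = (r :: X).reverse := by simp
        rw [h2]
        exact List.reverse_perm _
      have h2 : (e.1 :: ((X.reverse ++ [r]) ++ e.2 :: Y)).Perm (e.1 :: ((r :: X) ++ e.2 :: Y)) :=
        List.Perm.cons _ (h1.append_right _)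
      refine h2.trans ?_
      have h3 : (e.1 :: ((r :: X) ++ e.2 :: Y)).Perm ((r :: X) ++ e.1 :: e.2 :: Y) :=
        List.perm_middle.symm
      simpa using h3
    · rw [hlast, ← List.cons_append, last_app, e0, last_app]

end Generic

/-- Absorption from a chain of edges. -/
lemma absorbs_of {A : ℕ → ℕ → Prop} (h : PG A) {X R0 : List (Bool × ℕ)} {s r y a b : ℕ}
    {es : List ((Bool × ℕ) × (Bool × ℕ))}
    (hc : (X ++ (true, s) :: (false, r) :: R0).IsChain (adjV A)) (hs : Sub R0 es)
    (hl : Link (adjV A) (false, r) es (false, y)) (ha : A a s) (hb : A y b) :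
    Absorbs A (X ++ (true, s) :: (false, r) :: R0) a b := by
  have e0 : X ++ (true, s) :: (false, r) :: R0 = (X ++ [(true, s)]) ++ (false, r) :: R0 := by simp
  have hc' := hc
  rw [e0, List.isChain_append] at hc'
  obtain ⟨hc1, hc2, _⟩ := hc'
  obtain ⟨L2, hp, hch, hlast⟩ := rotate (fun x y hxy => adjV_symm h hxy) es (false, r) R0 (false, y)
    hc2 hs hl
  refine ⟨X, L2, (true, s), (false, y), ?_, hc1, hch, ?_, ?_, ⟨by simp, h.symm _ _ ha⟩,
    ⟨by simp, h.symm _ _ hb⟩⟩
  · rw [e0]
    exact hp.append_left _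
  · rw [e0]
    cases X <;> simp
  · rw [hlast, e0, last_app]

lemma Absorbs.append_right {A : ℕ → ℕ → Prop} {Γ P : List (Bool × ℕ)} {a b : ℕ}
    (habs : Absorbs A Γ a b) (hc : (Γ ++ P).IsChain (adjV A)) : Absorbs A (Γ ++ P) a b := by
  obtain ⟨L1, L2, x, y, hp, h1, h2, h3, h4, h5, h6⟩ := habs
  refine ⟨L1, L2 ++ P, x, y, ?_, h1, ?_, ?_, ?_, h5, h6⟩
  · have := hp.append_right P
    simpa using this
  · rw [← List.cons_append, List.isChain_append]
    rw [List.isChain_append] at hc
    refine ⟨h2, hc.2.1, ?_⟩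
    rw [h4]
    exact hc.2.2
  · rw [h3]
    rcases Γ with _ | ⟨g, Γ⟩
    · rcases L1 with _ | ⟨l, L1⟩ <;> simp at h3
    · simp
  · rw [← List.cons_append, List.getLast?_append, List.getLast?_append, h4]

lemma Absorbs.append_left {A : ℕ → ℕ → Prop} {Γ P : List (Bool × ℕ)} {a b : ℕ}
    (habs : Absorbs A Γ a b) (hc : (P ++ Γ).IsChain (adjV A)) : Absorbs A (P ++ Γ) a b := by
  obtain ⟨L1, L2, x, y, hp, h1, h2, h3, h4, h5, h6⟩ := habs
  refine ⟨P ++ L1, L2, x, y, ?_, ?_, h2, ?_, ?_, h5, h6⟩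
  · have := hp.append_left P
    simpa using this
  · rw [List.append_assoc, List.isChain_append]
    rw [List.isChain_append] at hc
    refine ⟨hc.1, h1, ?_⟩
    rw [h3]
    exact hc.2.2
  · rw [List.append_assoc, List.head?_append, h3, ← List.head?_append]
  · rw [h4, List.getLast?_append]
    rcases hΓ : Γ.getLast? with _ | g
    · rw [hΓ] at h4
      simp at h4
    · simp

/-- Threading a path through a list of disjoint segments. -/
lemma thread {A : ℕ → ℕ → Prop} {m L0 : ℕ} {B : ℝ}
    (hcon : ∀ (x y : Bool × ℕ), x.2 < m → y.2 < m → ∀ W : Finset (Bool × ℕ),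
      (W.card : ℝ) + L0 ≤ B →
      ∃ P : List (Bool × ℕ), P.length ≤ L0 ∧ P.Nodup ∧ (∀ v ∈ P, v ∉ W ∧ v.2 < m) ∧
        (x :: (P ++ [y])).IsChain (adjV A)) :
    ∀ (Ts : List ((Bool × ℕ) × (Bool × ℕ))) (W : Finset (Bool × ℕ)),
      (∀ e ∈ Ts, adjV A e.1 e.2 ∧ e.1.2 < m ∧ e.2.2 < m) →
      (Ts.flatMap (fun e => [e.1, e.2])).Nodup → (∀ e ∈ Ts, e.1 ∉ W ∧ e.2 ∉ W) →
      (W.card : ℝ) + (L0 + 2 : ℕ) * (Ts.length : ℝ) ≤ B →
      ∃ Γ : List (Bool × ℕ), Sub Γ Ts ∧ Γ.IsChain (adjV A) ∧ Γ.Nodup ∧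
        (∀ v ∈ Γ, v ∉ W ∧ v.2 < m) ∧ Γ.length ≤ (L0 + 2) * Ts.length := by
  classical
  intro Ts
  induction Ts with
  | nil =>
    intro W _ _ _ _
    exact ⟨[], trivial, List.IsChain.nil, List.nodup_nil, by simp, by simp⟩
  | cons e Ts ih =>
    intro W hadj hnd hW hB
    have hnd' : e.1 ≠ e.2 ∧ (∀ f ∈ Ts, f.1 ≠ e.1 ∧ f.2 ≠ e.1 ∧ f.1 ≠ e.2 ∧ f.2 ≠ e.2) ∧
        (Ts.flatMap (fun e => [e.1, e.2])).Nodup := by
      simp only [List.flatMap_cons, List.cons_append, List.nil_append, List.nodup_cons,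
        List.mem_cons, not_or, List.mem_flatMap, List.not_mem_nil, or_false, not_exists] at hnd
      obtain ⟨⟨h1, h2⟩, h3, h4⟩ := hnd
      refine ⟨h1, ?_, h4⟩
      intro f hf
      have h5 := h2 f
      have h6 := h3 f
      simp only [not_and, not_or] at h5 h6
      exact ⟨fun h7 => (h5 hf).1 h7.symm, fun h7 => (h5 hf).2 h7.symm,
        fun h7 => (h6 hf).1 h7.symm, fun h7 => (h6 hf).2 h7.symm⟩
    obtain ⟨hne, hdis, hnd2⟩ := hnd'
    obtain ⟨he1, he2, he3⟩ := hadj e (by simp)
    obtain ⟨hw1, hw2⟩ := hW e (by simp)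
    have hc1 : (insert e.1 (insert e.2 W)).card ≤ W.card + 2 := by
      have h1 := Finset.card_insert_le e.1 (insert e.2 W)
      have h2 := Finset.card_insert_le e.2 W
      omega
    have hc1' : ((insert e.1 (insert e.2 W)).card : ℝ) ≤ W.card + 2 := by exact_mod_cast hc1
    simp only [List.length_cons, Nat.cast_add, Nat.cast_one, Nat.cast_ofNat] at hB
    have hL0 : (0 : ℝ) ≤ L0 := by positivity
    obtain ⟨Γ, hΓ1, hΓ2, hΓ3, hΓ4, hΓ5⟩ := ih (insert e.1 (insert e.2 W))
      (fun f hf => hadj f (by simp [hf])) hnd2 (by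
        intro f hf
        obtain ⟨h1, h2, h3, h4⟩ := hdis f hf
        obtain ⟨h5, h6⟩ := hW f (by simp [hf])
        simp only [Finset.mem_insert, not_or]
        exact ⟨⟨h1, h3, h5⟩, h2, h4, h6⟩) (by
          push_cast
          nlinarith)
    rcases Γ with _ | ⟨u, Γ⟩
    · refine ⟨[e.1, e.2], ?_, ?_, ?_, ?_, ?_⟩
      · exact ⟨[], [], by simp, hΓ1⟩
      · simpa using he1
      · simpa using hne
      · intro v hv
        simp only [List.mem_cons, List.not_mem_nil, or_false] at hv
        rcases hv with rfl | rfl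
        · exact ⟨hw1, he2⟩
        · exact ⟨hw2, he3⟩
      · simp only [List.length_cons, List.length_nil]
        nlinarith [Nat.zero_le L0, Nat.zero_le Ts.length, Nat.zero_le (L0 * Ts.length)]
    · have hu := (hΓ4 u (by simp)).2
      have hcW : ((insert e.1 (insert e.2 W) ∪ (u :: Γ).toFinset).card : ℝ) + L0 ≤ B := by
        have h1 := Finset.card_union_le (insert e.1 (insert e.2 W)) (u :: Γ).toFinset
        have h2 := List.toFinset_card_le (u :: Γ)
        have h3 : (insert e.1 (insert e.2 W) ∪ (u :: Γ).toFinset).card ≤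
            W.card + 2 + (L0 + 2) * Ts.length := by omega
        have h4 : ((insert e.1 (insert e.2 W) ∪ (u :: Γ).toFinset).card : ℝ) ≤
            W.card + 2 + (L0 + 2) * Ts.length := by exact_mod_cast h3
        nlinarith
      obtain ⟨P, hP1, hP2, hP3, hP4⟩ := hcon e.2 u he3 hu _ hcW
      have hP3' : ∀ v ∈ P, v ≠ e.1 ∧ v ≠ e.2 ∧ v ∉ W ∧ v ∉ (u :: Γ) ∧ v.2 < m := by
        intro v hv
        obtain ⟨h1, h2⟩ := hP3 v hv
        simp only [Finset.mem_union, Finset.mem_insert, List.mem_toFinset, not_or] at h1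
        exact ⟨h1.1.1, h1.1.2.1, h1.1.2.2, h1.2, h2⟩
      have hΓ4' : ∀ v ∈ (u :: Γ), v ≠ e.1 ∧ v ≠ e.2 ∧ v ∉ W ∧ v.2 < m := by
        intro v hv
        obtain ⟨h1, h2⟩ := hΓ4 v hv
        simp only [Finset.mem_insert, not_or] at h1
        exact ⟨h1.1, h1.2.1, h1.2.2, h2⟩
      refine ⟨e.1 :: e.2 :: (P ++ u :: Γ), ?_, ?_, ?_, ?_, ?_⟩
      · exact ⟨[], P ++ u :: Γ, by simp, hΓ1.append P⟩
      · rw [List.isChain_cons_cons]
        refine ⟨he1, ?_⟩
        have e1 : e.2 :: (P ++ u :: Γ) = (e.2 :: P) ++ (u :: Γ) := by simp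
        rw [e1, List.isChain_append]
        have e2 : e.2 :: (P ++ [u]) = (e.2 :: P) ++ [u] := by simp
        rw [e2, List.isChain_append] at hP4
        refine ⟨hP4.1, hΓ2, ?_⟩
        intro x hx y hy
        have hy' : y = u := by simpa using hy.symm
        subst hy'
        exact hP4.2.2 x hx y (by simp)
      · rw [List.nodup_cons, List.nodup_cons, List.nodup_append]
        refine ⟨?_, ?_, hP2, hΓ3, ?_⟩
        · simp only [List.mem_cons, List.mem_append, not_or]
          refine ⟨hne, fun h1 => (hP3' _ h1).1 rfl, fun h1 => (hΓ4' u (by simp)).1 h1.symm,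
            fun h1 => (hΓ4' e.1 (by simp [h1])).1 rfl⟩
        · simp only [List.mem_cons, List.mem_append, not_or]
          refine ⟨fun h1 => (hP3' _ h1).2.1 rfl, fun h1 => (hΓ4' u (by simp)).2.1 h1.symm,
            fun h1 => (hΓ4' e.2 (by simp [h1])).2.1 rfl⟩
        · intro x hx y hy hxy
          subst hxy
          exact (hP3' x hx).2.2.2.1 hy
      · intro v hv
        simp only [List.mem_cons, List.mem_append] at hv
        rcases hv with rfl | rfl | hv | hv | hv
        · exact ⟨hw1, he2⟩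
        · exact ⟨hw2, he3⟩
        · exact ⟨(hP3' v hv).2.2.1, (hP3' v hv).2.2.2.2⟩
        · subst hv
          exact ⟨(hΓ4' v (by simp)).2.2.1, (hΓ4' v (by simp)).2.2.2⟩
        · exact ⟨(hΓ4' v (by simp [hv])).2.2.1, (hΓ4' v (by simp [hv])).2.2.2⟩
      · simp only [List.length_cons, List.length_append] at hΓ5 ⊢
        nlinarith

end Pool.Agent.PC.BlockI
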