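import Mathlib
import Pool.Agent.PC.Defs
import Pool.Agent.PC.Basic
import Pool.Agent.PC.ResLevels
import Pool.Agent.PC.ResLevels2
import Pool.Agent.PC.ResConnect
import Pool.Agent.PC.ResRotate

set_option autoImplicit false

/-!
Block I of the prime circle count: absorbing gadgets (helper73).
-/

namespace Pool.Agent.PC.BlockI

open Finset Filter
open scoped Classical

/-- Greedy choice of a valid list hitting all the sets. -/
lemma greedy {ι η : Type*} (I : Finset ι) (F : ι → Finset η) (U : Finset η) (Val : List η → Prop)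
    (hFU : ∀ i ∈ I, F i ⊆ U) (N : ℕ) (Φ Ψ : ℝ) (hΦ : 0 < Φ) (hΦΨ : Φ ≤ Ψ)
    (hU : (U.card : ℝ) ≤ Ψ) (h0 : Val [])
    (hstep : ∀ B, Val B → B.length < N → ∀ i ∈ I,
      Φ ≤ (((F i).filter (fun e => Val (e :: B))).card : ℝ)) :
    ∀ n ≤ N, ∃ B, Val B ∧ B.length ≤ n ∧
      ((I.filter (fun i => ∀ e ∈ B, e ∉ F i)).card : ℝ) ≤ (1 - Φ / Ψ) ^ n * I.card := by
  have hΨ : 0 < Ψ := lt_of_lt_of_le hΦ hΦΨ
  have hρ : 0 ≤ 1 - Φ / Ψ := by
    rw [sub_nonneg, div_le_one hΨ]
    exact hΦΨ
  intro n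
  induction n with
  | zero =>
    intro _
    refine ⟨[], h0, le_rfl, ?_⟩
    simp
  | succ n ih =>
    intro hn
    obtain ⟨B, hB1, hB2, hB3⟩ := ih (by omega)
    set J := I.filter (fun i => ∀ e ∈ B, e ∉ F i) with hJ
    rcases J.eq_empty_or_nonempty with hJe | hJne
    · refine ⟨B, hB1, by omega, ?_⟩
      rw [← hJ, hJe]
      simp only [Finset.card_empty, Nat.cast_zero]
      positivity
    · set U' := U.filter (fun e => Val (e :: B)) with hU'
      have hsum : (J.card : ℝ) * Φ ≤ ∑ e ∈ U', ((J.filter (fun i => e ∈ F i)).card : ℝ) := by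
        have h1 : ∑ i ∈ J, (((F i).filter (fun e => Val (e :: B))).card : ℝ) =
            ∑ e ∈ U', ((J.filter (fun i => e ∈ F i)).card : ℝ) := by
          have h2 : ∀ i ∈ J, (((F i).filter (fun e => Val (e :: B))).card : ℝ) =
              ∑ e ∈ U', if e ∈ F i then (1 : ℝ) else 0 := by
            intro i hi
            rw [← Finset.sum_filter, Finset.sum_const, nsmul_eq_mul, mul_one]
            congr 2
            ext e
            simp only [hU', Finset.mem_filter]
            constructor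
            · rintro ⟨h3, h4⟩
              exact ⟨⟨hFU i (Finset.mem_filter.1 hi).1 h3, h4⟩, h3⟩
            · rintro ⟨⟨_, h4⟩, h3⟩
              exact ⟨h3, h4⟩
          rw [Finset.sum_congr rfl h2, Finset.sum_comm]
          refine Finset.sum_congr rfl fun e _ => ?_
          rw [← Finset.sum_filter, Finset.sum_const, nsmul_eq_mul, mul_one]
        rw [← h1]
        calc (J.card : ℝ) * Φ = ∑ i ∈ J, Φ := by rw [Finset.sum_const, nsmul_eq_mul]
          _ ≤ _ := Finset.sum_le_sum fun i hi =>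
            hstep B hB1 (by omega) i (Finset.mem_filter.1 hi).1
      have hJpos : (0 : ℝ) < J.card := by exact_mod_cast hJne.card_pos
      have hU'ne : U'.Nonempty := by
        rw [Finset.nonempty_iff_ne_empty]
        intro hc
        rw [hc, Finset.sum_empty] at hsum
        nlinarith [mul_pos hJpos hΦ]
      have hle : ∑ e ∈ U', (J.card : ℝ) * (Φ / Ψ) ≤
          ∑ e ∈ U', ((J.filter (fun i => e ∈ F i)).card : ℝ) := by
        refine le_trans ?_ hsum
        rw [Finset.sum_const, nsmul_eq_mul]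
        have h2 : (U'.card : ℝ) ≤ Ψ := by
          refine le_trans ?_ hU
          exact_mod_cast Finset.card_filter_le _ _
        calc (U'.card : ℝ) * ((J.card : ℝ) * (Φ / Ψ)) ≤ Ψ * ((J.card : ℝ) * (Φ / Ψ)) := by
              gcongr
          _ = J.card * Φ := by field_simp
      obtain ⟨e, he, hecard⟩ := Finset.exists_le_of_sum_le hU'ne hle
      refine ⟨e :: B, (Finset.mem_filter.1 he).2, by simp; omega, ?_⟩
      have h3 : I.filter (fun i => ∀ e' ∈ e :: B, e' ∉ F i) = J.filter (fun i => ¬ e ∈ F i) := by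
        ext i
        simp only [hJ, Finset.mem_filter, List.mem_cons, forall_eq_or_imp]
        tauto
      rw [h3]
      have h4 := Finset.card_filter_add_card_filter_not (s := J) (fun i => e ∈ F i)
      have h5 : ((J.filter (fun i => e ∈ F i)).card : ℝ) + ((J.filter (fun i => ¬ e ∈ F i)).card : ℝ) =
          J.card := by exact_mod_cast h4
      calc ((J.filter (fun i => ¬ e ∈ F i)).card : ℝ) ≤ J.card * (1 - Φ / Ψ) := by
            have : (J.card : ℝ) * (1 - Φ / Ψ) = J.card - J.card * (Φ / Ψ) := by ring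
            rw [this]
            linarith
        _ ≤ ((1 - Φ / Ψ) ^ n * I.card) * (1 - Φ / Ψ) := by gcongr
        _ = (1 - Φ / Ψ) ^ (n + 1) * I.card := by ring

/-- the two vertices of an edge. -/
def vert (x : ℕ × (ℕ × ℕ)) : List (Bool × ℕ) := [(false, x.2.1), (true, x.2.2)]

/-- the orientation of the edges of the block with number `x.1`. -/
def orient (x : ℕ × (ℕ × ℕ)) : (Bool × ℕ) × (Bool × ℕ) :=
  if x.1 = 0 then ((true, x.2.2), (false, x.2.1)) else ((false, x.2.1), (true, x.2.2))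

/-- regrouping a list by the first component. -/
lemma regroup (k : ℕ) (B : List (ℕ × (ℕ × ℕ))) (hB : ∀ x ∈ B, x.1 < k) :
    ((List.range k).flatMap (fun j => B.filter (fun x => x.1 = j))).Perm B := by
  rw [List.perm_iff_count]
  intro a
  rw [List.count_flatMap]
  have h1 : ∀ n : ℕ, (List.map (List.count a ∘ fun j => B.filter (fun x => x.1 = j))
      (List.range n)).sum = if a.1 < n then List.count a B else 0 := by
    intro n
    induction n with
    | zero => simp
    | succ n ih =>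
      rw [List.range_succ, List.map_append, List.sum_append, ih]
      simp only [List.map_cons, List.map_nil, List.sum_cons, List.sum_nil, Function.comp,
        add_zero]
      by_cases h2 : a.1 = n
      · rw [if_neg (by omega), if_pos (by omega), List.count_filter (by simpa using h2)]
        simp
      · have h3 : List.count a (B.filter (fun x => decide (x.1 = n))) = 0 := by
          rw [List.count_eq_zero]
          intro h4
          rw [List.mem_filter] at h4
          exact h2 (by simpa using h4.2)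
        rw [h3]
        by_cases h5 : a.1 < n
        · rw [if_pos h5, if_pos (by omega)]
          simp
        · rw [if_neg h5, if_neg (by omega)]
  rw [h1]
  split_ifs with h2
  · rfl
  · symm
    rw [List.count_eq_zero]
    intro h3
    exact h2 (hB a h3)

/-- a chain of edges in the blocks, from `a` to `t`. -/
lemma exists_chain {A : ℕ → ℕ → Prop} {m k : ℕ} {S : ℕ → ℕ → Finset ℕ}
    {B : List (ℕ × (ℕ × ℕ))} {a : ℕ} (hS0 : ∀ t ∈ S 0 a, A a t)
    (hhit : ∀ j < k, ∀ t ∈ S (j + 1) a, ∃ p, (j, p) ∈ B ∧ p ∈ Fp A m (S j a) t) :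
    ∀ n, n + 1 ≤ k → ∀ t ∈ S (n + 1) a, ∃ p0 : ℕ × ℕ, (0, p0) ∈ B ∧ A a p0.2 ∧
      ∃ xs : List (ℕ × (ℕ × ℕ)), xs.Sublist ((List.range' 1 n).flatMap
          (fun j => B.filter (fun x => x.1 = j))) ∧
        ∃ y : ℕ, Link (adjV A) (false, p0.1) (xs.map orient) (false, y) ∧ A y t := by
  intro n
  induction n with
  | zero =>
    intro hk t ht
    obtain ⟨p, hp1, hp2⟩ := hhit 0 (by omega) t ht
    unfold Fp at hp2
    simp only [Finset.mem_filter] at hp2
    refine ⟨p, hp1, hS0 _ hp2.2.1, [], by simp, p.1, rfl, hp2.2.2.2⟩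
  | succ n ih =>
    intro hk t ht
    obtain ⟨p, hp1, hp2⟩ := hhit (n + 1) (by omega) t ht
    unfold Fp at hp2
    simp only [Finset.mem_filter] at hp2
    obtain ⟨p0, h1, h2, xs, h3, y, h4, h5⟩ := ih (by omega) p.2 hp2.2.1
    refine ⟨p0, h1, h2, xs ++ [(n + 1, p)], ?_, p.1, ?_, hp2.2.2.2⟩
    · rw [List.range'_1_concat, List.flatMap_append]
      refine h3.append ?_
      simp only [List.flatMap_cons, List.flatMap_nil, List.append_nil, List.singleton_sublist]
      rw [List.mem_filter]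
      refine ⟨hp1, ?_⟩
      simp [Nat.add_comm]
    · rw [List.map_append]
      have h6 : orient (n + 1, p) = ((false, p.1), (true, p.2)) := by
        simp [orient]
      have h7 := h4.append (e := orient (n + 1, p)) (by
        rw [h6]
        exact ⟨by simp, h5⟩)
      rw [h6] at h7
      simpa [h6] using h7

lemma const_mul_rpow {C a b : ℝ} (hab : a < b) : ∀ᶠ m : ℕ in atTop,
    C * (m : ℝ) ^ a ≤ (m : ℝ) ^ b := by
  have h1 : Tendsto (fun x : ℝ => x ^ (b - a)) atTop atTop := tendsto_rpow_atTop (by linarith)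
  have h2 := (h1.comp (tendsto_natCast_atTop_atTop (R := ℝ))).eventually_ge_atTop C
  filter_upwards [h2, eventually_ge_atTop 1] with m hm hm1
  have hm0 : (0 : ℝ) < m := by exact_mod_cast hm1
  simp only [Function.comp] at hm
  calc C * (m : ℝ) ^ a ≤ (m : ℝ) ^ (b - a) * (m : ℝ) ^ a := by gcongr
    _ = (m : ℝ) ^ b := by
        rw [← Real.rpow_add hm0]
        congr 1
        ring

/-- validity of a list of edges with block numbers. -/
def VV (A : ℕ → ℕ → Prop) (m k : ℕ) (W : Finset (Bool × ℕ)) (B : List (ℕ × (ℕ × ℕ))) : Prop :=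
  (B.flatMap vert).Nodup ∧ ∀ x ∈ B, x.1 < k ∧ x.2 ∈ EE A m ∧ (false, x.2.1) ∉ W ∧ (true, x.2.2) ∉ W

lemma VV_step {A : ℕ → ℕ → Prop} {m k : ℕ} {W : Finset (Bool × ℕ)} {B : List (ℕ × (ℕ × ℕ))}
    (hB : VV A m k W B) {j : ℕ} (hj : j < k) (F : Finset (ℕ × ℕ)) (hF : F ⊆ EE A m) :
    (F.filter (fun p => (false, p.1) ∉ W ∪ (B.flatMap vert).toFinset ∧
      (!false, p.2) ∉ W ∪ (B.flatMap vert).toFinset)).card ≤
    ((F.image (fun p => (j, p))).filter (fun e => VV A m k W (e :: B))).card := by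
  obtain ⟨hnd, hval⟩ := hB
  have h2 : ((F.filter (fun p => (false, p.1) ∉ W ∪ (B.flatMap vert).toFinset ∧
      (!false, p.2) ∉ W ∪ (B.flatMap vert).toFinset)).image (fun p => (j, p))) ⊆
      ((F.image (fun p => (j, p))).filter (fun e => VV A m k W (e :: B))) := by
    intro e he
    obtain ⟨p, hp, rfl⟩ := Finset.mem_image.1 he
    rw [Finset.mem_filter] at hp
    obtain ⟨hp1, hp2, hp3⟩ := hp
    simp only [Finset.mem_union, not_or, List.mem_toFinset, Bool.not_false] at hp2 hp3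
    rw [Finset.mem_filter]
    refine ⟨Finset.mem_image.2 ⟨p, hp1, rfl⟩, ?_, ?_⟩
    · rw [List.flatMap_cons, List.nodup_append]
      refine ⟨by simp [vert], hnd, ?_⟩
      intro u hu v hv huv
      subst huv
      simp only [vert, List.mem_cons, List.not_mem_nil, or_false] at hu
      rcases hu with rfl | rfl
      · exact hp2.2 hv
      · exact hp3.2 hv
    · intro y hy
      rw [List.mem_cons] at hy
      rcases hy with rfl | hy
      · exact ⟨hj, hF hp1, hp2.1, hp3.1⟩
      · exact hval y hy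
  have h3 := Finset.card_le_card h2
  rwa [Finset.card_image_of_injective _ (fun p q hpq => by simpa using hpq)] at h3

/-- the index set of the families. -/
noncomputable def II (m k : ℕ) (S : ℕ → ℕ → Finset ℕ) : Finset (ℕ × (ℕ × ℕ)) :=
  (range k ×ˢ (range m ×ˢ range m)).filter (fun x => x.2.2 ∈ S (x.1 + 1) x.2.1)

lemma card_II {m k : ℕ} {S : ℕ → ℕ → Finset ℕ} (hkm : k < m) : ((II m k S).card : ℝ) < (m : ℝ) ^ 3 := by
  have h2 := Finset.card_filter_le (range k ×ˢ (range m ×ˢ range m))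
    (fun x : ℕ × (ℕ × ℕ) => x.2.2 ∈ S (x.1 + 1) x.2.1)
  rw [Finset.card_product, Finset.card_product, Finset.card_range, Finset.card_range] at h2
  have h3 : k * (m * m) < m ^ 3 := by
    calc k * (m * m) < m * (m * m) := Nat.mul_lt_mul_of_pos_right hkm (by
          have : 0 < m := by omega
          positivity)
      _ = m ^ 3 := by ring
  unfold II
  exact_mod_cast lt_of_le_of_lt h2 h3

/-- the hitting lemma. -/
lemma hitting {A : ℕ → ℕ → Prop} (h : PG A) {m k : ℕ} {κ : ℝ} (hκ : 0 < κ) (hk : 1 ≤ k)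
    (hm : 3 ≤ m) (hkm : k < m)
    (hav : ∀ W : Finset (Bool × ℕ), (W.card : ℝ) ≤ (m : ℝ) ^ (0.95 : ℝ) → ∀ F ⊆ EE A m,
      κ * m * dd m / (Real.log m) ^ 2 ≤ (F.card : ℝ) → ∀ t0 : Bool,
      κ / 2 * m * dd m / (Real.log m) ^ 2 ≤
        ((F.filter (fun p => (t0, p.1) ∉ W ∧ (!t0, p.2) ∉ W)).card : ℝ))
    (hdeg' : ∀ i < m, (dX A (range m) i : ℝ) ≤ 2 * dd m)
    (S : ℕ → ℕ → Finset ℕ) (hSk : ∀ a, S k a = range m) (hSsub : ∀ i a, S i a ⊆ range m)
    (hS : ∀ i < k, ∀ a < m, ∀ t ∈ S (i + 1) a,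
        κ * m * dd m / (Real.log m) ^ 2 ≤ ((Fp A m (S i a) t).card : ℝ))
    (N : ℕ) (hN : 12 * k / κ * Real.log m ^ 3 ≤ N) (W : Finset (Bool × ℕ))
    (hWN : (W.card : ℝ) + 2 * N ≤ (m : ℝ) ^ (0.95 : ℝ)) :
    ∃ B, VV A m k W B ∧ B.length ≤ N ∧
      ∀ a < m, ∀ j < k, ∀ t ∈ S (j + 1) a, ∃ p, (j, p) ∈ B ∧ p ∈ Fp A m (S j a) t := by
  have hkR : (0 : ℝ) < k := by exact_mod_cast hk
  have hm0 : (0 : ℝ) < m := by positivity
  have hm1 : (1 : ℝ) < m := by exact_mod_cast (by omega : 1 < m)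
  have hd := dd_pos (m := m) (by omega)
  have hl := Real.log_pos hm1
  set Φ : ℝ := κ / 2 * m * dd m / (Real.log m) ^ 2 with hΦdef
  set Ψ : ℝ := k * (m * (2 * dd m)) with hΨdef
  have hΦ : 0 < Φ := by positivity
  have hΨ : 0 < Ψ := by positivity
  have hratio : Φ / Ψ = κ / (4 * k * Real.log m ^ 2) := by
    rw [hΦdef, hΨdef]
    field_simp
    ring
  have hΦΨ : Φ ≤ Ψ := by
    have h1 : k - 1 < k := by omega
    have h2 : (0 : ℕ) ∈ S (k - 1 + 1) 0 := by
      rw [Nat.sub_add_cancel hk, hSk 0]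
      exact Finset.mem_range.2 (by omega)
    have h3 := hS (k - 1) h1 0 (by omega) 0 h2
    have h4 := card_EE h (D := 2 * dd m) (by positivity) hdeg'
    have h5 : ((Fp A m (S (k - 1) 0) 0).card : ℝ) ≤ ((EE A m).card : ℝ) := by
      exact_mod_cast Finset.card_le_card Fp_sub_EE
    have h6 : Φ ≤ κ * m * dd m / (Real.log m) ^ 2 := by
      rw [hΦdef]
      have : κ / 2 ≤ κ := by linarith
      gcongr
    have h7 : (m : ℝ) * (2 * dd m) ≤ Ψ := by
      rw [hΨdef]
      have : (1 : ℝ) ≤ k := by exact_mod_cast hk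
      nlinarith [mul_pos hm0 hd]
    linarith
  have hρ : 0 ≤ 1 - Φ / Ψ := by
    rw [sub_nonneg, div_le_one hΨ]
    exact hΦΨ
  obtain ⟨B, hB1, hB2, hB3⟩ := greedy (II m k S)
    (fun x => (Fp A m (S x.1 x.2.1) x.2.2).image (fun p => (x.1, p)))
    (range k ×ˢ EE A m) (VV A m k W)
    (by
      intro x hx e he
      obtain ⟨p, hp, rfl⟩ := Finset.mem_image.1 he
      unfold II at hx
      simp only [Finset.mem_filter, Finset.mem_product, Finset.mem_range] at hx
      rw [Finset.mem_product]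
      exact ⟨Finset.mem_range.2 hx.1.1, Fp_sub_EE hp⟩)
    N Φ Ψ hΦ hΦΨ
    (by
      rw [Finset.card_product, Finset.card_range]
      push_cast
      rw [hΨdef]
      have := card_EE h (D := 2 * dd m) (by positivity) hdeg'
      gcongr)
    ⟨by simp, by simp⟩
    (by
      intro B hB hBN x hx
      unfold II at hx
      simp only [Finset.mem_filter, Finset.mem_product, Finset.mem_range] at hx
      obtain ⟨⟨hx1, hx2, hx3⟩, hx4⟩ := hx
      have hcard : ((W ∪ (B.flatMap vert).toFinset).card : ℝ) ≤ (m : ℝ) ^ (0.95 : ℝ) := by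
        have h1 := Finset.card_union_le W (B.flatMap vert).toFinset
        have h2 := List.toFinset_card_le (B.flatMap vert)
        have h3 : (B.flatMap vert).length = 2 * B.length := by
          rw [List.length_flatMap]
          simp [vert]
          ring
        have h4 : (W ∪ (B.flatMap vert).toFinset).card ≤ W.card + 2 * N := by
          omega
        have h5 : ((W ∪ (B.flatMap vert).toFinset).card : ℝ) ≤ W.card + 2 * N := by
          exact_mod_cast h4
        linarith
      have h1 := hav _ hcard _ Fp_sub_EE (hS x.1 hx1 x.2.1 hx2 x.2.2 hx4) false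
      refine le_trans h1 ?_
      exact_mod_cast VV_step hB hx1 _ Fp_sub_EE)
    N le_rfl
  refine ⟨B, hB1, hB2, ?_⟩
  have hpow : (1 - Φ / Ψ) ^ N ≤ Real.exp (-(3 * Real.log m)) := by
    have h3 : 1 - Φ / Ψ ≤ Real.exp (-(Φ / Ψ)) := by
      have := Real.add_one_le_exp (-(Φ / Ψ))
      linarith
    calc (1 - Φ / Ψ) ^ N ≤ (Real.exp (-(Φ / Ψ))) ^ N := by gcongr
      _ = Real.exp (-(N * (Φ / Ψ))) := by
          rw [← Real.exp_nat_mul]
          congr 1
          ring
      _ ≤ Real.exp (-(3 * Real.log m)) := by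
          apply Real.exp_le_exp.2
          have h6 : 3 * Real.log m ≤ N * (Φ / Ψ) := by
            rw [hratio]
            calc 3 * Real.log m = (12 * k / κ * Real.log m ^ 3) *
                  (κ / (4 * k * Real.log m ^ 2)) := by
                  field_simp
                  ring
              _ ≤ N * (κ / (4 * k * Real.log m ^ 2)) := by gcongr
          linarith
  have hone : Real.exp (-(3 * Real.log m)) * (m : ℝ) ^ 3 = 1 := by
    have h4 : (m : ℝ) ^ 3 = Real.exp (3 * Real.log m) := by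
      rw [show (3 : ℝ) * Real.log m = ((3 : ℕ) : ℝ) * Real.log m by norm_num, Real.exp_nat_mul,
        Real.exp_log hm0]
    rw [h4, ← Real.exp_add]
    simp
  have hlt : (1 - Φ / Ψ) ^ N * ((II m k S).card : ℝ) < 1 := by
    have h4 : 0 < Real.exp (-(3 * Real.log m)) := Real.exp_pos _
    calc (1 - Φ / Ψ) ^ N * ((II m k S).card : ℝ) ≤ Real.exp (-(3 * Real.log m)) *
          ((II m k S).card : ℝ) := by gcongr
      _ < Real.exp (-(3 * Real.log m)) * (m : ℝ) ^ 3 := by
          have := card_II (S := S) hkm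
          gcongr
      _ = 1 := hone
  have hnone : (II m k S).filter (fun i => ∀ e ∈ B,
        e ∉ (Fp A m (S i.1 i.2.1) i.2.2).image (fun p => (i.1, p))) = ∅ := by
    rw [← Finset.card_eq_zero]
    have hB3' : (((II m k S).filter (fun i => ∀ e ∈ B,
        e ∉ (Fp A m (S i.1 i.2.1) i.2.2).image (fun p => (i.1, p)))).card : ℝ) ≤
        (1 - Φ / Ψ) ^ N * ((II m k S).card : ℝ) := by
      convert hB3
    have h2 := lt_of_le_of_lt hB3' hlt
    have h3 : ((II m k S).filter (fun i => ∀ e ∈ B,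
        e ∉ (Fp A m (S i.1 i.2.1) i.2.2).image (fun p => (i.1, p)))).card < 1 := by
      exact_mod_cast h2
    omega
  intro a ha j hj t ht
  by_contra hc
  push Not at hc
  have h1 : (j, a, t) ∈ (II m k S).filter (fun i => ∀ e ∈ B,
        e ∉ (Fp A m (S i.1 i.2.1) i.2.2).image (fun p => (i.1, p))) := by
    unfold II
    simp only [Finset.mem_filter, Finset.mem_product, Finset.mem_range]
    refine ⟨⟨⟨hj, ha, Finset.mem_range.1 (hSsub _ _ ht)⟩, ht⟩, ?_⟩
    intro e he he2
    obtain ⟨p, hp, rfl⟩ := Finset.mem_image.1 he2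
    exact hc p he hp
  rw [hnone] at h1
  simp at h1

lemma orient_perm (x : ℕ × (ℕ × ℕ)) : [(orient x).1, (orient x).2].Perm (vert x) := by
  unfold orient vert
  split_ifs
  · exact List.Perm.swap _ _ _
  · exact List.Perm.refl _

/-- Absorbing gadgets of size at most `m ^ 0.04` avoiding a small set. -/
theorem gadget {A : ℕ → ℕ → Prop} (h : PG A) : ∀ᶠ m : ℕ in atTop,
    ∀ W : Finset (Bool × ℕ), (W.card : ℝ) ≤ (m : ℝ) ^ (0.92 : ℝ) →
      ∃ Γ : List (Bool × ℕ), Γ ≠ [] ∧ Γ.IsChain (adjV A) ∧ Γ.Nodup ∧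
        (∀ v ∈ Γ, v ∉ W ∧ v.2 < m) ∧ (Γ.length : ℝ) ≤ (m : ℝ) ^ (0.04 : ℝ) ∧
        ∀ a < m, ∀ b < m, Absorbs A Γ a b := by
  obtain ⟨k, κ, hk, hκ, hlev⟩ := levels h
  obtain ⟨L0, hcon⟩ := connect h
  have hkR : (0 : ℝ) < k := by exact_mod_cast hk
  filter_upwards [hlev, hcon, avoid h hκ, h.deg 1 one_pos,
    log_le_rpow (δ := 0.01) (by norm_num) (K := 1) one_pos, eventually_ge_atTop 3,
    eventually_gt_atTop k, const_mul_rpow (C := (L0 + 2) * (12 * k / κ + 1)) (a := 0.03) (b := 0.04)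
      (by norm_num), const_mul_rpow (C := 2) (a := 0.92) (b := 0.95) (by norm_num)]
    with m hlev hcon hav hdeg hlog hm hkm hC1 hC2 W hW
  obtain ⟨S, hS0, hSk, hSsub, hS⟩ := hlev
  have hm0 : (0 : ℝ) < m := by positivity
  have hm1 : (1 : ℝ) < m := by exact_mod_cast (by omega : 1 < m)
  have hd := dd_pos (m := m) (by omega)
  have hl := Real.log_pos hm1
  have hdeg' : ∀ i < m, (dX A (range m) i : ℝ) ≤ 2 * dd m := by
    intro i hi
    have := (hdeg i hi).2
    norm_num at this
    exact this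
  set N : ℕ := ⌈12 * k / κ * Real.log m ^ 3⌉₊ with hN
  have hNle : (N : ℝ) ≤ (12 * k / κ + 1) * (m : ℝ) ^ (0.03 : ℝ) := by
    have h1 : (N : ℝ) ≤ 12 * k / κ * Real.log m ^ 3 + 1 := (Nat.ceil_lt_add_one (by positivity)).le
    have h2 : Real.log m ^ 3 ≤ (m : ℝ) ^ (0.03 : ℝ) := by
      have h3 : Real.log m ^ 3 ≤ ((m : ℝ) ^ (0.01 : ℝ)) ^ 3 := by
        have : Real.log m ≤ (m : ℝ) ^ (0.01 : ℝ) := by simpa using hlog
        gcongr
      rw [← Real.rpow_natCast ((m : ℝ) ^ (0.01 : ℝ)), ← Real.rpow_mul hm0.le] at h3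
      norm_num at h3 ⊢
      exact h3
    have h4 : (1 : ℝ) ≤ (m : ℝ) ^ (0.03 : ℝ) := Real.one_le_rpow hm1.le (by norm_num)
    have h5 : 12 * k / κ * Real.log m ^ 3 ≤ 12 * k / κ * (m : ℝ) ^ (0.03 : ℝ) := by gcongr
    linarith
  have hN04 : ((L0 : ℝ) + 2) * N ≤ (m : ℝ) ^ (0.04 : ℝ) := by
    refine le_trans ?_ hC1
    calc ((L0 : ℝ) + 2) * N ≤ ((L0 : ℝ) + 2) * ((12 * k / κ + 1) * (m : ℝ) ^ (0.03 : ℝ)) := by
          gcongr
      _ = _ := by ring
  have h0492 : (m : ℝ) ^ (0.04 : ℝ) ≤ (m : ℝ) ^ (0.92 : ℝ) :=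
    Real.rpow_le_rpow_of_exponent_le hm1.le (by norm_num)
  have hL0 : (0 : ℝ) ≤ L0 := by positivity
  have hN0 : (0 : ℝ) ≤ N := by positivity
  have hWN : (W.card : ℝ) + (L0 + 2) * N ≤ (m : ℝ) ^ (0.95 : ℝ) := by linarith
  have hLN : 0 ≤ (L0 : ℝ) * N := by positivity
  obtain ⟨B, ⟨hB4, hB5⟩, hB2, hhit⟩ := hitting h hκ hk hm hkm hav hdeg' S hSk hSsub hS N
    (Nat.le_ceil _) W (by linarith)
  -- the list of segments
  set L : List (ℕ × (ℕ × ℕ)) := (List.range k).flatMap (fun j => B.filter (fun x => x.1 = j)) with hL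
  have hperm : L.Perm B := regroup k B (fun x hx => (hB5 x hx).1)
  have hmemL : ∀ x ∈ L, x ∈ B := fun x hx => hperm.mem_iff.1 hx
  have hnd : ((L.map orient).flatMap (fun e => [e.1, e.2])).Nodup := by
    rw [List.flatMap_map]
    have h1 : (L.flatMap (fun x => [(orient x).1, (orient x).2])).Perm (L.flatMap vert) :=
      List.Perm.flatMap_left _ fun x _ => orient_perm x
    have h2 : (L.flatMap vert).Perm (B.flatMap vert) := hperm.flatMap_right _
    exact (h1.trans h2).symm.nodup hB4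
  have hadj : ∀ e ∈ L.map orient, adjV A e.1 e.2 ∧ e.1.2 < m ∧ e.2.2 < m := by
    intro e he
    obtain ⟨x, hx, rfl⟩ := List.mem_map.1 he
    obtain ⟨_, hx2, _⟩ := hB5 x (hmemL x hx)
    unfold EE at hx2
    simp only [Finset.mem_filter, Finset.mem_product, Finset.mem_range] at hx2
    unfold orient
    split_ifs
    · exact ⟨⟨by simp, h.symm _ _ hx2.2⟩, hx2.1.2, hx2.1.1⟩
    · exact ⟨⟨by simp, hx2.2⟩, hx2.1.1, hx2.1.2⟩
  have hnotW : ∀ e ∈ L.map orient, e.1 ∉ W ∧ e.2 ∉ W := by
    intro e he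
    obtain ⟨x, hx, rfl⟩ := List.mem_map.1 he
    obtain ⟨_, _, hx3, hx4⟩ := hB5 x (hmemL x hx)
    unfold orient
    split_ifs
    · exact ⟨hx4, hx3⟩
    · exact ⟨hx3, hx4⟩
  have hLlen : (L.map orient).length ≤ N := by
    rw [List.length_map, hperm.length_eq]
    exact hB2
  obtain ⟨Γ, hΓ1, hΓ2, hΓ3, hΓ4, hΓ5⟩ := thread (B := (m : ℝ) ^ (0.95 : ℝ)) hcon (L.map orient) W
    hadj hnd hnotW (by
      have h1 : ((L.map orient).length : ℝ) ≤ N := by exact_mod_cast hLlen
      push_cast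
      nlinarith)
  have habs : ∀ a < m, ∀ b < m, Absorbs A Γ a b := by
    intro a ha b hb
    obtain ⟨n, hn⟩ : ∃ n, k = n + 1 := ⟨k - 1, by omega⟩
    obtain ⟨p0, h1, h2, xs, h3, y, h4, h5⟩ := exists_chain (A := A) (m := m) (k := k) (S := S)
      (B := B) (a := a) (hS0 a) (hhit a ha) n (by omega) b (by
        rw [← hn, hSk a]
        exact Finset.mem_range.2 hb)
    have h6 : (((0, p0) : ℕ × (ℕ × ℕ)) :: xs).Sublist L := by
      have h7 : L = B.filter (fun x => x.1 = 0) ++
          (List.range' 1 n).flatMap (fun j => B.filter (fun x => x.1 = j)) := by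
        rw [hL, List.range_eq_range', hn, List.range'_succ, List.flatMap_cons]
      rw [h7]
      have h8 : ([(0, p0)] : List (ℕ × (ℕ × ℕ))).Sublist (B.filter (fun x => x.1 = 0)) := by
        rw [List.singleton_sublist, List.mem_filter]
        exact ⟨h1, by simp⟩
      exact h8.append h3
    have h9 := Sub.sublist (h6.map orient) Γ hΓ1
    have h10 : orient (0, p0) = ((true, p0.2), (false, p0.1)) := by simp [orient]
    rw [List.map_cons, h10] at h9
    obtain ⟨X, Y, rfl, hY⟩ := h9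
    exact absorbs_of h hΓ2 hY h4 h2 h5
  refine ⟨Γ, ?_, hΓ2, hΓ3, hΓ4, ?_, habs⟩
  · rintro rfl
    obtain ⟨L1, L2, x, y, hp, _⟩ := habs 0 (by omega) 0 (by omega)
    have := hp.length_eq
    simp at this
  · have h1 : (Γ.length : ℝ) ≤ (L0 + 2) * N := by
      have h2 : Γ.length ≤ (L0 + 2) * N := hΓ5.trans (Nat.mul_le_mul_left _ hLlen)
      exact_mod_cast h2
    exact h1.trans hN04

end Pool.Agent.PC.BlockI
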