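import Mathlib
import Pool.Agent.PC.Defs
import Pool.Agent.PC.Basic
import Pool.Agent.PC.ResConnect
import Pool.Agent.PC.ResRotate
import Pool.Agent.PC.ResGadget

set_option autoImplicit false

/-!
Block I of the prime circle count: the reservoir of absorbing gadgets (helper73).
-/

namespace Pool.Agent.PC

open Finset Filter

namespace BlockI

open scoped Classical

lemma chain_join {α : Type*} {R : α → α → Prop} {X P Y : List α} {w u : α}
    (hX : X.IsChain R) (hw : X.getLast? = some w) (hP : (w :: (P ++ [u])).IsChain R)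
    (hu : Y.head? = some u) (hY : Y.IsChain R) :
    (X ++ P).IsChain R ∧ (X ++ P ++ Y).IsChain R := by
  have hP' : (w :: P).IsChain R ∧ ∀ x ∈ (w :: P).getLast?, R x u := by
    rw [← List.cons_append, List.isChain_append] at hP
    exact ⟨hP.1, fun x hx => hP.2.2 x hx u (by simp)⟩
  obtain ⟨X', rfl⟩ : ∃ X', X = X' ++ [w] := by
    rcases List.eq_nil_or_concat X with rfl | ⟨X', b, rfl⟩
    · simp at hw
    · rw [List.concat_eq_append] at hw ⊢
      rw [List.getLast?_append] at hw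
      simp at hw
      exact ⟨X', by rw [hw]⟩
  obtain ⟨Y', rfl⟩ : ∃ Y', Y = u :: Y' := by
    rcases Y with _ | ⟨y, Y'⟩
    · simp at hu
    · simp at hu
      exact ⟨Y', by rw [hu]⟩
  have h1 : (X' ++ [w] ++ P) = X' ++ (w :: P) := by simp
  have h2 : (X' ++ (w :: P)).IsChain R := by
    rw [List.isChain_append] at hX ⊢
    refine ⟨hX.1, hP'.1, ?_⟩
    intro x hx y hy
    have hy' : y = w := by simpa using hy.symm
    subst hy'
    exact hX.2.2 x hx y (by simp)
  refine ⟨by rw [h1]; exact h2, ?_⟩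
  rw [h1, List.isChain_append]
  refine ⟨h2, hY, ?_⟩
  intro x hx y hy
  have hy' : y = u := by simpa using hy.symm
  subst hy'
  rw [last_app] at hx
  exact hP'.2 x hx

lemma build {A : ℕ → ℕ → Prop} {m L0 g : ℕ} {B1 B2 : ℝ}
    (hgad : ∀ W : Finset (Bool × ℕ), (W.card : ℝ) ≤ B1 →
      ∃ Γ : List (Bool × ℕ), Γ ≠ [] ∧ Γ.IsChain (adjV A) ∧ Γ.Nodup ∧
        (∀ v ∈ Γ, v ∉ W ∧ v.2 < m) ∧ Γ.length ≤ g ∧ ∀ a < m, ∀ b < m, Absorbs A Γ a b)
    (hcon : ∀ (x y : Bool × ℕ), x.2 < m → y.2 < m → ∀ W : Finset (Bool × ℕ),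
      (W.card : ℝ) + L0 ≤ B2 →
      ∃ P : List (Bool × ℕ), P.length ≤ L0 ∧ P.Nodup ∧ (∀ v ∈ P, v ∉ W ∧ v.2 < m) ∧
        (x :: (P ++ [y])).IsChain (adjV A))
    (hB0 : 0 ≤ B1) (hB : B1 + g + L0 ≤ B2) :
    ∀ n : ℕ, ((n + 1 : ℕ) : ℝ) * (g + L0) ≤ B1 →
      ∃ Gs : List (List (Bool × ℕ)), Gs.length = n + 1 ∧ Gs.flatten.Nodup ∧
        (∀ v ∈ Gs.flatten, v.2 < m) ∧ Gs.flatten.length ≤ (n + 1) * (g + L0) ∧
        Gs.flatten.IsChain (adjV A) ∧ Gs.flatten ≠ [] ∧
        ∀ Γ ∈ Gs, ∀ a < m, ∀ b < m, Absorbs A Γ a b := by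
  intro n
  induction n with
  | zero =>
    intro _
    obtain ⟨Γ, h1, h2, h3, h4, h5, h6⟩ := hgad ∅ (by simpa using hB0)
    refine ⟨[Γ], rfl, by simpa using h3, ?_, ?_, by simpa using h2, by simpa using h1, ?_⟩
    · intro v hv
      simp at hv
      exact (h4 v hv).2
    · simp
      omega
    · intro Γ' hΓ'
      simp at hΓ'
      subst hΓ'
      exact h6
  | succ n ih =>
    intro hn
    have hgL : (0 : ℝ) ≤ g + L0 := by positivity
    obtain ⟨Gs, g1, g2, g3, g4, g5, g6, g7⟩ := ih (by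
      refine le_trans ?_ hn
      gcongr
      simp)
    have hcardW : ((Gs.flatten.toFinset).card : ℝ) ≤ B1 := by
      have h1 := (List.toFinset_card_le Gs.flatten).trans g4
      have h2 : ((Gs.flatten.toFinset).card : ℝ) ≤ ((n + 1 : ℕ) : ℝ) * (g + L0) := by
        exact_mod_cast h1
      refine h2.trans (le_trans ?_ hn)
      gcongr
      simp
    obtain ⟨Γ, h1, h2, h3, h4, h5, h6⟩ := hgad Gs.flatten.toFinset hcardW
    obtain ⟨w, hw⟩ : ∃ w, Γ.getLast? = some w := by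
      rcases hh : Γ.getLast? with _ | w
      · rw [List.getLast?_eq_none_iff] at hh
        exact absurd hh h1
      · exact ⟨w, rfl⟩
    have hwΓ : w ∈ Γ := List.mem_of_getLast? hw
    obtain ⟨u, hu⟩ : ∃ u, Gs.flatten.head? = some u := by
      rcases hh : Gs.flatten.head? with _ | u
      · rw [List.head?_eq_none_iff] at hh
        exact absurd hh g6
      · exact ⟨u, rfl⟩
    have huG : u ∈ Gs.flatten := List.mem_of_head? hu
    obtain ⟨P, p1, p2, p3, p4⟩ := hcon w u (h4 w hwΓ).2 (g3 u huG)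
      (Gs.flatten.toFinset ∪ Γ.toFinset) (by
        have e1 := Finset.card_union_le Gs.flatten.toFinset Γ.toFinset
        have e2 := List.toFinset_card_le Γ
        have e3 : ((Gs.flatten.toFinset ∪ Γ.toFinset).card : ℝ) ≤
            ((Gs.flatten.toFinset).card : ℝ) + g := by
          have : (Gs.flatten.toFinset ∪ Γ.toFinset).card ≤ (Gs.flatten.toFinset).card + g := by
            omega
          exact_mod_cast this
        linarith)
    obtain ⟨c1, c2⟩ := chain_join h2 hw p4 hu g5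
    have hP3 : ∀ v ∈ P, v ∉ Gs.flatten ∧ v ∉ Γ ∧ v.2 < m := by
      intro v hv
      obtain ⟨e1, e2⟩ := p3 v hv
      simp only [Finset.mem_union, List.mem_toFinset, not_or] at e1
      exact ⟨e1.1, e1.2, e2⟩
    refine ⟨(Γ ++ P) :: Gs, by simp [g1], ?_, ?_, ?_, ?_, ?_, ?_⟩
    · rw [List.flatten_cons, List.nodup_append, List.nodup_append]
      refine ⟨⟨h3, p2, ?_⟩, g2, ?_⟩
      · intro x hx y hy hxy
        subst hxy
        exact (hP3 x hy).2.1 hx
      · intro x hx y hy hxy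
        subst hxy
        rw [List.mem_append] at hx
        rcases hx with hx | hx
        · exact (h4 x hx).1 (List.mem_toFinset.2 hy)
        · exact (hP3 x hx).1 hy
    · intro v hv
      rw [List.flatten_cons, List.mem_append, List.mem_append] at hv
      rcases hv with (hv | hv) | hv
      · exact (h4 v hv).2
      · exact (hP3 v hv).2.2
      · exact g3 v hv
    · rw [List.flatten_cons, List.length_append, List.length_append]
      nlinarith
    · rw [List.flatten_cons]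
      exact c2
    · rw [List.flatten_cons]
      simp [h1]
    · intro Γ' hΓ' a ha b hb
      rw [List.mem_cons] at hΓ'
      rcases hΓ' with rfl | hΓ'
      · exact Absorbs.append_right (h6 a ha b hb) c1
      · exact g7 Γ' hΓ' a ha b hb

end BlockI

open BlockI in
theorem reservoir {A : ℕ → ℕ → Prop} (h : PG A) :
    ∀ᶠ m : ℕ in atTop, ∃ Gs : List (List (Bool × ℕ)),
      Gs.length = ⌊(m : ℝ) ^ (0.85 : ℝ)⌋₊ ∧ Gs.flatten.Nodup ∧
      (∀ v ∈ Gs.flatten, v.2 < m) ∧ (Gs.flatten.length : ℝ) ≤ (m : ℝ) ^ (0.9 : ℝ) ∧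
      Gs.flatten.IsChain (adjV A) ∧
      (∃ u w, Gs.flatten.head? = some u ∧ Gs.flatten.getLast? = some w ∧ adjV A w u) ∧
      ∀ Γ ∈ Gs, ∀ a < m, ∀ b < m, Absorbs A Γ a b := by
  classical
  obtain ⟨L0, hcon⟩ := connect h
  filter_upwards [hcon, gadget h, eventually_ge_atTop 3,
    const_mul_rpow (C := 2 * L0 + 2) (a := 0.89) (b := 0.9) (by norm_num),
    const_mul_rpow (C := L0 + 2) (a := 0.92) (b := 0.95) (by norm_num)]
    with m hcon hgad hm hC1 hC2
  have hm0 : (0 : ℝ) < m := by positivity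
  have hm1 : (1 : ℝ) < m := by exact_mod_cast (by omega : 1 < m)
  have hL0 : (0 : ℝ) ≤ L0 := by positivity
  set g : ℕ := ⌊(m : ℝ) ^ (0.04 : ℝ)⌋₊ with hg
  have hgle : (g : ℝ) ≤ (m : ℝ) ^ (0.04 : ℝ) := Nat.floor_le (by positivity)
  obtain ⟨n, hn⟩ : ∃ n, ⌊(m : ℝ) ^ (0.85 : ℝ)⌋₊ = n + 1 := by
    have h1 : 1 ≤ ⌊(m : ℝ) ^ (0.85 : ℝ)⌋₊ := by
      rw [Nat.one_le_floor_iff]
      exact Real.one_le_rpow hm1.le (by norm_num)
    exact ⟨⌊(m : ℝ) ^ (0.85 : ℝ)⌋₊ - 1, by omega⟩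
  have hnle : ((n + 1 : ℕ) : ℝ) ≤ (m : ℝ) ^ (0.85 : ℝ) := by
    rw [← hn]
    exact Nat.floor_le (by positivity)
  have h1 : (m : ℝ) ^ (0.85 : ℝ) * (m : ℝ) ^ (0.04 : ℝ) = (m : ℝ) ^ (0.89 : ℝ) := by
    rw [← Real.rpow_add hm0]
    norm_num
  have h2 : (m : ℝ) ^ (0.85 : ℝ) ≤ (m : ℝ) ^ (0.89 : ℝ) :=
    Real.rpow_le_rpow_of_exponent_le hm1.le (by norm_num)
  have h3 : (1 : ℝ) ≤ (m : ℝ) ^ (0.89 : ℝ) := Real.one_le_rpow hm1.le (by norm_num)
  have h4 : (m : ℝ) ^ (0.9 : ℝ) ≤ (m : ℝ) ^ (0.92 : ℝ) :=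
    Real.rpow_le_rpow_of_exponent_le hm1.le (by norm_num)
  have h5 : (m : ℝ) ^ (0.04 : ℝ) ≤ (m : ℝ) ^ (0.92 : ℝ) :=
    Real.rpow_le_rpow_of_exponent_le hm1.le (by norm_num)
  have h6 : (1 : ℝ) ≤ (m : ℝ) ^ (0.92 : ℝ) := Real.one_le_rpow hm1.le (by norm_num)
  have h7 : ((n + 1 : ℕ) : ℝ) * (g + L0) ≤ (1 + L0) * (m : ℝ) ^ (0.89 : ℝ) := by
    calc ((n + 1 : ℕ) : ℝ) * (g + L0) ≤ (m : ℝ) ^ (0.85 : ℝ) * ((m : ℝ) ^ (0.04 : ℝ) + L0) := by
          gcongr
      _ = (m : ℝ) ^ (0.89 : ℝ) + L0 * (m : ℝ) ^ (0.85 : ℝ) := by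
          rw [mul_add, h1]
          ring
      _ ≤ (m : ℝ) ^ (0.89 : ℝ) + L0 * (m : ℝ) ^ (0.89 : ℝ) := by gcongr
      _ = (1 + L0) * (m : ℝ) ^ (0.89 : ℝ) := by ring
  have h8 : (1 + L0) * (m : ℝ) ^ (0.89 : ℝ) + L0 ≤ (m : ℝ) ^ (0.9 : ℝ) := by
    nlinarith
  obtain ⟨Gs, g1, g2, g3, g4, g5, g6, g7⟩ := build (A := A) (m := m) (L0 := L0) (g := g)
    (B1 := (m : ℝ) ^ (0.92 : ℝ)) (B2 := (m : ℝ) ^ (0.95 : ℝ))
    (by
      intro W hW
      obtain ⟨Γ, e1, e2, e3, e4, e5, e6⟩ := hgad W hW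
      exact ⟨Γ, e1, e2, e3, e4, Nat.le_floor e5, e6⟩)
    hcon (by positivity) (by nlinarith) n (by linarith)
  have g4' : (Gs.flatten.length : ℝ) ≤ (1 + L0) * (m : ℝ) ^ (0.89 : ℝ) := by
    refine le_trans ?_ h7
    exact_mod_cast g4
  obtain ⟨w, hw⟩ : ∃ w, Gs.flatten.getLast? = some w := by
    rcases hh : Gs.flatten.getLast? with _ | w
    · rw [List.getLast?_eq_none_iff] at hh
      exact absurd hh g6
    · exact ⟨w, rfl⟩
  obtain ⟨u, hu⟩ : ∃ u, Gs.flatten.head? = some u := by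
    rcases hh : Gs.flatten.head? with _ | u
    · rw [List.head?_eq_none_iff] at hh
      exact absurd hh g6
    · exact ⟨u, rfl⟩
  obtain ⟨P, p1, p2, p3, p4⟩ := hcon w u (g3 w (List.mem_of_getLast? hw)) (g3 u (List.mem_of_head? hu))
    Gs.flatten.toFinset (by
      have e2 := List.toFinset_card_le Gs.flatten
      have e3 : ((Gs.flatten.toFinset).card : ℝ) ≤ (Gs.flatten.length : ℝ) := by exact_mod_cast e2
      nlinarith)
  rcases Gs with _ | ⟨Γ1, Gs1⟩
  · simp at g1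
  have hchain : (P ++ (Γ1 ++ Gs1.flatten)).IsChain (adjV A) := by
    have e1 := chain_join (X := [w]) (Y := (Γ1 :: Gs1).flatten) (R := adjV A)
      (List.isChain_singleton w) rfl p4 hu g5
    have e2 := e1.2
    rw [List.append_assoc, List.isChain_append] at e2
    simpa using e2.2.1
  have hPΓ : (P ++ Γ1).IsChain (adjV A) := by
    rw [← List.append_assoc, List.isChain_append] at hchain
    exact hchain.1
  refine ⟨(P ++ Γ1) :: Gs1, ?_, ?_, ?_, ?_, ?_, ?_, ?_⟩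
  · rw [hn, ← g1]
    rfl
  · rw [List.flatten_cons] at g2 ⊢
    rw [List.append_assoc, List.nodup_append]
    refine ⟨p2, g2, ?_⟩
    intro x hx y hy hxy
    subst hxy
    refine (p3 x hx).1 ?_
    rw [List.mem_toFinset, List.flatten_cons]
    exact hy
  · intro v hv
    rw [List.flatten_cons, List.append_assoc, List.mem_append] at hv
    rcases hv with hv | hv
    · exact (p3 v hv).2
    · exact g3 v (by rw [List.flatten_cons]; exact hv)
  · have e1 : (((P ++ Γ1) :: Gs1).flatten.length : ℝ) = P.length + ((Γ1 :: Gs1).flatten.length : ℝ) := by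
      simp only [List.flatten_cons, List.length_append, Nat.cast_add]
      ring
    have e2 : (P.length : ℝ) ≤ L0 := by exact_mod_cast p1
    rw [e1]
    linarith
  · rw [List.flatten_cons, List.append_assoc]
    exact hchain
  · have hlast : ((P ++ Γ1) :: Gs1).flatten.getLast? = some w := by
      rw [List.flatten_cons, List.append_assoc]
      rw [List.flatten_cons] at hw
      rw [List.getLast?_append, hw]
      rfl
    rcases P with _ | ⟨p, P⟩
    · refine ⟨u, w, ?_, hlast, ?_⟩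
      · simpa using hu
      · simpa using p4
    · refine ⟨p, w, by simp, hlast, ?_⟩
      rw [List.cons_append, List.isChain_cons_cons] at p4
      exact p4.1
  · intro Γ hΓ a ha b hb
    rw [List.mem_cons] at hΓ
    rcases hΓ with rfl | hΓ
    · exact BlockI.Absorbs.append_left (g7 Γ1 (by simp) a ha b hb) hPΓ
    · exact g7 Γ (by simp [hΓ]) a ha b hb

end Pool.Agent.PC
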