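import Mathlib
import Pool.Agent.PC.CoreLower

set_option autoImplicit false

namespace Pool.Agent.PC.BlockH

open Finset Filter
open scoped Classical

section lists

variable {α : Type*} [DecidableEq α]

lemma chain_formPerm (u : α) (l : List α) (hn : (u :: l).Nodup) :
    List.IsChain (fun x y => List.formPerm (u :: l) x = y) (u :: l) := by
  rw [List.isChain_iff_getElem]
  intro i hi
  exact List.formPerm_apply_lt_getElem _ hn i hi

lemma rel_formPerm (R : α → α → Prop) (u : α) (l : List α) (hn : (u :: l).Nodup)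
    (hc : List.IsChain R (u :: (l ++ [u]))) : ∀ x ∈ u :: l, R x (List.formPerm (u :: l) x) := by
  intro x hx
  obtain ⟨i, hi, rfl⟩ := List.getElem_of_mem hx
  rw [List.isChain_iff_getElem] at hc
  have hlen : (u :: (l ++ [u])).length = (u :: l).length + 1 := by simp
  have h1 := hc i (by rw [hlen]; omega)
  have hx1 : (u :: (l ++ [u]))[i]'(by rw [hlen]; omega) = (u :: l)[i] := by
    simp only [← List.cons_append]
    rw [List.getElem_append_left hi]
  rw [hx1] at h1
  by_cases h2 : i + 1 < (u :: l).length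
  · rw [List.formPerm_apply_lt_getElem _ hn i h2]
    have hx2 : (u :: (l ++ [u]))[i + 1]'(by rw [hlen]; omega) = (u :: l)[i + 1] := by
      simp only [← List.cons_append]
      rw [List.getElem_append_left h2]
    rw [hx2] at h1
    exact h1
  · have h3 : i + 1 = (u :: l).length := by omega
    rw [List.formPerm_apply_getElem _ hn i hi]
    have hx2 : (u :: (l ++ [u]))[i + 1]'(by rw [hlen]; omega) = u := by
      simp only [← List.cons_append]
      rw [List.getElem_append_right (by omega)]
      simp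
    rw [hx2] at h1
    have h4 : (u :: l)[(i + 1) % (u :: l).length]'(Nat.mod_lt _ (by simp)) = u := by
      simp only [h3, Nat.mod_self, List.getElem_cons_zero]
    rw [h4]
    exact h1

lemma formPerm_last (u : α) (l : List α) (hl : l ≠ []) :
    List.formPerm (u :: l) (l.getLast hl) = u := by
  have h1 := List.formPerm_apply_getLast u l
  rwa [List.getLast_cons hl] at h1

end lists

/-- perfect matchings as a finset of bijections -/
noncomputable def pm (A : ℕ → ℕ → Prop) (S T : Finset ℕ) : Finset (S ≃ T) :=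
  univ.filter (fun e => ∀ i : S, A (i : ℕ) (e i : ℕ))

lemma mem_pm {A : ℕ → ℕ → Prop} {S T : Finset ℕ} (e : S ≃ T) :
    e ∈ pm A S T ↔ ∀ i : S, A (i : ℕ) (e i : ℕ) := by
  simp [pm]

/-- (H2) switching. -/
lemma switch_le (A : ℕ → ℕ → Prop) (S T : Finset ℕ) (D k : ℕ) (K : ℝ)
    (hD : ∀ (f : S ≃ T) (x : S), (univ.filter (fun y : S => A y (f x))).card ≤ D)
    (W : Finset S) (e0 : S ≃ T) (u : S) (hu : u ∉ W) (v : T)
    (hgood : ∀ e ∈ pm A S T, K ≤ ((good (RR A e) W (k + 1) u).card : ℝ)) :
    (((pm A S T).filter (fun e => (∀ w ∈ W, e w = e0 w) ∧ e u = v)).card : ℝ) * K ≤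
      (((pm A S T).filter (fun e => ∀ w ∈ W, e w = e0 w)).card : ℝ) * (D : ℝ) ^ k := by
  set Q := (pm A S T).filter (fun e => (∀ w ∈ W, e w = e0 w) ∧ e u = v) with hQ
  set P := (pm A S T).filter (fun e => ∀ w ∈ W, e w = e0 w) with hP
  have h1 : (Q.card : ℝ) * K ≤ ((Q.sigma (fun e => good (RR A e) W (k + 1) u)).card : ℝ) := by
    rw [Finset.card_sigma]
    push_cast
    calc (Q.card : ℝ) * K = ∑ e ∈ Q, K := by rw [Finset.sum_const, nsmul_eq_mul]
      _ ≤ _ := Finset.sum_le_sum fun e he => hgood e (Finset.mem_filter.1 he).1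
  have h2 : ((P.sigma (fun f => ol (fun x y : S => A y (f x)) k u)).card : ℝ) ≤
      (P.card : ℝ) * (D : ℝ) ^ k := by
    rw [Finset.card_sigma]
    push_cast
    calc ∑ f ∈ P, ((ol (fun x y : S => A y (f x)) k u).card : ℝ) ≤ ∑ f ∈ P, (D : ℝ) ^ k := by
          refine Finset.sum_le_sum fun f _ => ?_
          exact_mod_cast card_ol_le (fun x y : S => A y (f x)) D (hD f) k u
      _ = _ := by rw [Finset.sum_const, nsmul_eq_mul]
  refine h1.trans (le_trans ?_ h2)
  have h3 : (Q.sigma (fun e => good (RR A e) W (k + 1) u)).card ≤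
      (P.sigma (fun f => ol (fun x y : S => A y (f x)) k u)).card := by
    refine Finset.card_le_card_of_injOn
      (fun p => ⟨(List.formPerm (u :: p.2)).trans p.1, p.2.dropLast⟩) ?_ ?_
    · rintro ⟨e, l⟩ hel
      rw [Finset.mem_coe, Finset.mem_sigma] at hel
      obtain ⟨he, hl⟩ := hel
      dsimp only at he hl
      rw [hQ, Finset.mem_filter] at he
      obtain ⟨hepm, heW, heu⟩ := he
      rw [mem_pm] at hepm
      rw [good, Finset.mem_filter, mem_wl] at hl
      obtain ⟨⟨hlen, hlW, hch⟩, hnd⟩ := hl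
      have hlne : l ≠ [] := by
        rintro rfl
        simp at hlen
      rw [Finset.mem_coe, Finset.mem_sigma]
      refine ⟨?_, ?_⟩
      · dsimp only
        rw [hP, Finset.mem_filter, mem_pm]
        refine ⟨?_, ?_⟩
        · intro x
          rw [Equiv.trans_apply]
          by_cases hx : x ∈ u :: l
          · exact rel_formPerm (RR A e) u l hnd hch x hx
          · rw [List.formPerm_apply_of_notMem hx]
            exact hepm x
        · intro w hw
          rw [Equiv.trans_apply, List.formPerm_apply_of_notMem]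
          · exact heW w hw
          · intro hmem
            rcases List.mem_cons.1 hmem with rfl | h
            · exact hu hw
            · exact hlW w h hw
      · dsimp only
        rw [mem_ol]
        refine ⟨by rw [List.length_dropLast, hlen]; rfl, ?_⟩
        have h4 : List.IsChain (fun x y : S => A y (((List.formPerm (u :: l)).trans e) x)) (u :: l) := by
          refine (chain_formPerm u l hnd).imp ?_
          intro x y hxy
          rw [Equiv.trans_apply, hxy]
          exact hepm y
        have h5 : u :: l = (u :: l.dropLast) ++ [l.getLast hlne] := by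
          rw [List.cons_append, List.dropLast_append_getLast]
        have h6 : ∀ r : List S, r = u :: l →
            List.IsChain (fun x y : S => A y (((List.formPerm (u :: l)).trans e) x)) r := by
          rintro r rfl
          exact h4
        exact (h6 _ h5.symm).left_of_append
    · rintro ⟨e, l⟩ hel ⟨e', l'⟩ hel' heq
      rw [Finset.mem_coe, Finset.mem_sigma] at hel hel'
      obtain ⟨he, hl⟩ := hel
      obtain ⟨he', hl'⟩ := hel'
      dsimp only at he hl he' hl' heq
      rw [hQ, Finset.mem_filter] at he he'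
      rw [good, Finset.mem_filter, mem_wl] at hl hl'
      have hlne : l ≠ [] := by
        rintro rfl
        simp at hl
      have hlne' : l' ≠ [] := by
        rintro rfl
        simp at hl'
      have heq1 : (List.formPerm (u :: l)).trans e = (List.formPerm (u :: l')).trans e' := by
        have := congrArg Sigma.fst heq
        exact this
      have heq2 : l.dropLast = l'.dropLast := by
        have := congrArg (fun z : (Σ _ : (S ≃ T), List S) => z.2) heq
        exact this
      have h6 : ((List.formPerm (u :: l)).trans e) (l.getLast hlne) = v := by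
        rw [Equiv.trans_apply, formPerm_last u l hlne]
        exact he.2.2
      have h7 : ((List.formPerm (u :: l')).trans e') (l'.getLast hlne') = v := by
        rw [Equiv.trans_apply, formPerm_last u l' hlne']
        exact he'.2.2
      have h8 : l.getLast hlne = l'.getLast hlne' := by
        rw [← heq1] at h7
        exact ((List.formPerm (u :: l)).trans e).injective (h6.trans h7.symm)
      have h9 : l = l' := by
        rw [← List.dropLast_append_getLast hlne, ← List.dropLast_append_getLast hlne', heq2, h8]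
      subst h9
      have h10 : e = e' := by
        ext x
        have := congrArg (fun g => g ((List.formPerm (u :: l)).symm x)) heq1
        simpa using congrArg Subtype.val this
      rw [h10]
  exact_mod_cast h3


/-- (H3) the orbit of a point has a given small length with small probability. -/
lemma period_le (A : ℕ → ℕ → Prop) (S T : Finset ℕ) (D k : ℕ) (K : ℝ) (N : ℕ)
    (hD : ∀ (f : S ≃ T) (x : S), (univ.filter (fun y : S => A y (f x))).card ≤ D)
    (hgood : ∀ e ∈ pm A S T, ∀ W : Finset S, W.card ≤ N → ∀ u,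
      K ≤ ((good (RR A e) W (k + 1) u).card : ℝ))
    (e1 : S ≃ T) (x : S) (l : ℕ) (hl : l ≤ N) :
    (((pm A S T).filter (fun e => Function.minimalPeriod (e.trans e1.symm) x = l + 1)).card : ℝ) * K ≤
      ((pm A S T).card : ℝ) * (D : ℝ) ^ k := by
  set B := (pm A S T).filter (fun e => Function.minimalPeriod (e.trans e1.symm) x = l + 1) with hB
  let φ : (S ≃ T) → (Fin (l + 1) → S) := fun e i => (e.trans e1.symm)^[i] x
  have h1 : (B.card : ℝ) * K = ∑ t ∈ B.image φ, ((B.filter (fun e => φ e = t)).card : ℝ) * K := by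
    rw [← Finset.sum_mul]
    congr 1
    exact_mod_cast Finset.card_eq_sum_card_image φ B
  have h2 : ∑ t ∈ B.image φ, (((pm A S T).filter (fun e => φ e = t)).card : ℝ) * (D : ℝ) ^ k ≤
      ((pm A S T).card : ℝ) * (D : ℝ) ^ k := by
    rw [← Finset.sum_mul]
    gcongr
    have h3 : (pm A S T).card = ∑ t ∈ (pm A S T).image φ, ((pm A S T).filter (fun e => φ e = t)).card :=
      Finset.card_eq_sum_card_image φ (pm A S T)
    rw [h3]
    push_cast
    refine Finset.sum_le_sum_of_subset_of_nonneg ?_ (fun _ _ _ => by positivity)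
    exact Finset.image_subset_image (Finset.filter_subset _ _)
  rw [h1]
  refine le_trans (Finset.sum_le_sum fun t ht => ?_) h2
  rw [Finset.mem_image] at ht
  obtain ⟨e0, he0, rfl⟩ := ht
  rw [hB, Finset.mem_filter] at he0
  obtain ⟨he0pm, he0per⟩ := he0
  -- data
  set W : Finset S := (Finset.range l).image (fun i => (e0.trans e1.symm)^[i] x) with hW
  set u : S := (e0.trans e1.symm)^[l] x with hu
  have huW : u ∉ W := by
    intro hmem
    rw [hW, Finset.mem_image] at hmem
    obtain ⟨i, hi, hiu⟩ := hmem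
    rw [Finset.mem_range] at hi
    have := Function.iterate_injOn_Iio_minimalPeriod (f := (e0.trans e1.symm)) (x := x)
      (show i ∈ Set.Iio _ by rw [he0per]; exact Set.mem_Iio.2 (by omega))
      (show l ∈ Set.Iio _ by rw [he0per]; exact Set.mem_Iio.2 (by omega)) hiu
    omega
  have hWc : W.card ≤ N := by
    rw [hW]
    refine Finset.card_image_le.trans ?_
    rw [Finset.card_range]
    exact hl
  have hsw := switch_le A S T D k K hD W e0 u huW (e1 x) (fun e he => hgood e he W hWc u)
  have hsub1 : B.filter (fun e => φ e = φ e0) ⊆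
      (pm A S T).filter (fun e => (∀ w ∈ W, e w = e0 w) ∧ e u = e1 x) := by
    intro e he
    rw [Finset.mem_filter, hB, Finset.mem_filter] at he
    obtain ⟨⟨hepm, heper⟩, heφ⟩ := he
    have hiter : ∀ i ≤ l, (e.trans e1.symm)^[i] x = (e0.trans e1.symm)^[i] x := by
      intro i hi
      exact congrFun heφ ⟨i, by omega⟩
    rw [Finset.mem_filter]
    refine ⟨hepm, ?_, ?_⟩
    · intro w hw
      rw [hW, Finset.mem_image] at hw
      obtain ⟨i, hi, rfl⟩ := hw
      rw [Finset.mem_range] at hi
      have h4 : (e.trans e1.symm) ((e0.trans e1.symm)^[i] x) =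
          (e0.trans e1.symm) ((e0.trans e1.symm)^[i] x) := by
        have h5 := hiter (i + 1) hi
        rw [Function.iterate_succ_apply', Function.iterate_succ_apply', hiter i hi.le] at h5
        exact h5
      rw [Equiv.trans_apply, Equiv.trans_apply] at h4
      exact e1.symm.injective h4
    · have h6 : (e.trans e1.symm)^[l + 1] x = x := by
        rw [← heper]
        exact Function.iterate_minimalPeriod
      rw [Function.iterate_succ_apply', hiter l le_rfl, Equiv.trans_apply,
        Equiv.symm_apply_eq] at h6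
      exact h6
  have hsub2 : (pm A S T).filter (fun e => ∀ w ∈ W, e w = e0 w) ⊆
      (pm A S T).filter (fun e => φ e = φ e0) := by
    intro e he
    rw [Finset.mem_filter] at he ⊢
    refine ⟨he.1, ?_⟩
    have hiter : ∀ i ≤ l, (e.trans e1.symm)^[i] x = (e0.trans e1.symm)^[i] x := by
      intro i
      induction i with
      | zero => intro _; rfl
      | succ i ih =>
        intro hi
        rw [Function.iterate_succ_apply', Function.iterate_succ_apply', ih (by omega),
          Equiv.trans_apply, Equiv.trans_apply]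
        congr 1
        apply he.2
        rw [hW, Finset.mem_image]
        exact ⟨i, Finset.mem_range.2 (by omega), rfl⟩
    funext i
    exact hiter i (by have := i.2; omega)
  have hK : ((B.filter (fun e => φ e = φ e0)).card : ℝ) * K ≤
      (((pm A S T).filter (fun e => (∀ w ∈ W, e w = e0 w) ∧ e u = e1 x)).card : ℝ) * max K 0 := by
    have h7 : ((B.filter (fun e => φ e = φ e0)).card : ℝ) ≤
      (((pm A S T).filter (fun e => (∀ w ∈ W, e w = e0 w) ∧ e u = e1 x)).card : ℝ) := by
      exact_mod_cast Finset.card_le_card hsub1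
    calc ((B.filter (fun e => φ e = φ e0)).card : ℝ) * K
        ≤ ((B.filter (fun e => φ e = φ e0)).card : ℝ) * max K 0 := by
          gcongr
          exact le_max_left _ _
      _ ≤ _ := by gcongr
  have hsw0 : (((pm A S T).filter (fun e => (∀ w ∈ W, e w = e0 w) ∧ e u = e1 x)).card : ℝ) * max K 0 ≤
      (((pm A S T).filter (fun e => ∀ w ∈ W, e w = e0 w)).card : ℝ) * (D : ℝ) ^ k := by
    rcases le_total K 0 with h | h
    · rw [max_eq_right h, mul_zero]
      positivity
    · rw [max_eq_left h]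
      exact hsw
  refine hK.trans (hsw0.trans ?_)
  gcongr

/-- Number of cycles of a permutation. -/
lemma card_cycles_le {α : Type*} [Fintype α] (τ : Equiv.Perm α) (L : ℕ) :
    Nat.card (Quotient (Equiv.Perm.SameCycle.setoid τ)) * L ≤
      (univ.filter (fun x => Function.minimalPeriod τ x ≤ L)).card * L + Fintype.card α := by
  have : Fintype (Quotient (Equiv.Perm.SameCycle.setoid τ)) := Fintype.ofFinite _
  set Q := Quotient (Equiv.Perm.SameCycle.setoid τ) with hQ
  let π : α → Q := fun x => Quotient.mk (Equiv.Perm.SameCycle.setoid τ) x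
  let fib : Q → Finset α := fun q => univ.filter (fun x => π x = q)
  have hper : ∀ x : α, Function.minimalPeriod τ x ≤ (fib (π x)).card := by
    intro x
    have h1 : ((Finset.range (Function.minimalPeriod τ x)).image (fun i => τ^[i] x)) ⊆ fib (π x) := by
      intro y hy
      rw [Finset.mem_image] at hy
      obtain ⟨i, _, rfl⟩ := hy
      rw [Finset.mem_filter]
      refine ⟨Finset.mem_univ _, ?_⟩
      apply Quotient.sound
      change Equiv.Perm.SameCycle τ _ _
      refine Equiv.Perm.SameCycle.symm ⟨(i : ℤ), ?_⟩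
      rw [zpow_natCast, Equiv.Perm.iterate_eq_pow]
    have h2 := Finset.card_le_card h1
    rw [Finset.card_image_of_injOn, Finset.card_range] at h2
    · exact h2
    · intro i hi j hj hij
      rw [Finset.mem_coe, Finset.mem_range] at hi hj
      exact Function.iterate_injOn_Iio_minimalPeriod (Set.mem_Iio.2 hi) (Set.mem_Iio.2 hj) hij
  have htot : Fintype.card α = ∑ q : Q, (fib q).card := by
    have := Finset.card_eq_sum_card_fiberwise (f := π) (s := (univ : Finset α)) (t := (univ : Finset Q))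
      (fun _ _ => Finset.mem_coe.2 (Finset.mem_univ _))
    rw [Finset.card_univ] at this
    exact this
  have h1 : Nat.card Q = (univ.filter (fun q : Q => (fib q).card ≤ L)).card +
      (univ.filter (fun q : Q => ¬ (fib q).card ≤ L)).card := by
    rw [Nat.card_eq_fintype_card, ← Finset.card_univ,
      ← Finset.card_filter_add_card_filter_not (s := (univ : Finset Q)) (fun q : Q => (fib q).card ≤ L)]
  have h2 : (univ.filter (fun q : Q => (fib q).card ≤ L)).card ≤
      (univ.filter (fun x => Function.minimalPeriod τ x ≤ L)).card := by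
    refine Finset.card_le_card_of_injOn (fun q => q.out) ?_ ?_
    · intro q hq
      rw [Finset.mem_coe, Finset.mem_filter] at hq
      rw [Finset.mem_coe, Finset.mem_filter]
      refine ⟨Finset.mem_univ _, (hper q.out).trans ?_⟩
      have : π q.out = q := Quotient.out_eq q
      rw [this]
      exact hq.2
    · intro q _ q' _ h
      dsimp only at h
      rw [← Quotient.out_eq q, ← Quotient.out_eq q', h]
  have h3 : (univ.filter (fun q : Q => ¬ (fib q).card ≤ L)).card * L ≤ Fintype.card α := by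
    rw [htot]
    calc (univ.filter (fun q : Q => ¬ (fib q).card ≤ L)).card * L
        = ∑ q ∈ univ.filter (fun q : Q => ¬ (fib q).card ≤ L), L := by
          rw [Finset.sum_const, smul_eq_mul]
      _ ≤ ∑ q ∈ univ.filter (fun q : Q => ¬ (fib q).card ≤ L), (fib q).card := by
          refine Finset.sum_le_sum fun q hq => ?_
          exact (not_le.1 (Finset.mem_filter.1 hq).2).le
      _ ≤ _ := Finset.sum_le_sum_of_subset (Finset.filter_subset _ _)
  rw [h1, Nat.add_mul]
  exact Nat.add_le_add (Nat.mul_le_mul_right L h2) h3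


lemma card_Mt (A : ℕ → ℕ → Prop) (S T : Finset ℕ) : Nat.card (Mt A S T) = (pm A S T).card :=
  Nat.subtype_card (pm A S T) (fun e => mem_pm e)

lemma card_Mt_filter (A : ℕ → ℕ → Prop) (S T : Finset ℕ) (P : (S ≃ T) → Prop) :
    Nat.card {M : Mt A S T // P M.1} = ((pm A S T).filter P).card := by
  have h1 : Nat.card {M : Mt A S T // P M.1} =
      Nat.card {e : S ≃ T // (∀ i : S, A (i : ℕ) (e i : ℕ)) ∧ P e} :=
    Nat.card_congr (Equiv.subtypeSubtypeEquivSubtypeInter
      (fun e : S ≃ T => ∀ i : S, A (i : ℕ) (e i : ℕ)) P)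
  rw [h1]
  apply Nat.subtype_card
  intro e
  rw [Finset.mem_filter, mem_pm]

/-- deterministic core of the counting -/
lemma half_good (A : ℕ → ℕ → Prop) (S T : Finset ℕ) (D k m : ℕ) (hm : 1 ≤ m)
    (hS : S.card ≤ m) (hDpos : 0 < D)
    (hD : ∀ (f : S ≃ T) (x : S), (univ.filter (fun y : S => A y (f x))).card ≤ D)
    (hgood : ∀ e ∈ pm A S T, ∀ W : Finset S, W.card ≤ ⌊(m : ℝ) ^ (0.3 : ℝ)⌋₊ → ∀ u,
      (m : ℝ) ^ (1 / 2 : ℝ) * (D : ℝ) ^ k ≤ ((good (RR A e) W (k + 1) u).card : ℝ))
    (h3 : 2 ≤ (m : ℝ) ^ (0.3 : ℝ)) (h5 : 4 ≤ (m : ℝ) ^ (0.05 : ℝ)) (e1 : S ≃ T) :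
    (pm A S T).card ≤ 2 * ((pm A S T).filter (fun e =>
      (cyc e1 e : ℝ) ≤ (m : ℝ) ^ (0.85 : ℝ))).card := by
  obtain ⟨N, hN⟩ : ∃ N : ℕ, N = ⌊(m : ℝ) ^ (0.3 : ℝ)⌋₊ := ⟨_, rfl⟩
  rw [← hN] at hgood
  have hm0 : (0 : ℝ) < m := by exact_mod_cast (by omega : 0 < m)
  have hm1 : (1 : ℝ) ≤ m := by exact_mod_cast hm
  have hNle : (N : ℝ) ≤ (m : ℝ) ^ (0.3 : ℝ) := by
    rw [hN]
    exact Nat.floor_le (by positivity)
  have hNge : (m : ℝ) ^ (0.3 : ℝ) / 2 ≤ N := by
    have := Nat.lt_floor_add_one ((m : ℝ) ^ (0.3 : ℝ))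
    rw [← hN] at this
    linarith
  have hDk : (0 : ℝ) < (D : ℝ) ^ k := by
    have : (0 : ℝ) < D := by exact_mod_cast hDpos
    positivity
  set MM := pm A S T with hMM
  have hper : ∀ (x : S) (l : ℕ), l ≤ N →
      ((MM.filter (fun e => Function.minimalPeriod (e.trans e1.symm) x = l + 1)).card : ℝ) *
        (m : ℝ) ^ (1 / 2 : ℝ) ≤ MM.card := by
    intro x l hl
    have h1 := period_le A S T D k ((m : ℝ) ^ (1 / 2 : ℝ) * (D : ℝ) ^ k) N hD hgood e1 x l hl
    rw [← mul_assoc] at h1
    exact le_of_mul_le_mul_right h1 hDk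
  have hperle : ∀ x : S,
      ((MM.filter (fun e => Function.minimalPeriod (e.trans e1.symm) x ≤ N)).card : ℝ) *
        (m : ℝ) ^ (1 / 2 : ℝ) ≤ N * MM.card := by
    intro x
    have hsub : MM.filter (fun e => Function.minimalPeriod (e.trans e1.symm) x ≤ N) ⊆
        (Finset.range N).biUnion (fun l => MM.filter
          (fun e => Function.minimalPeriod (e.trans e1.symm) x = l + 1)) := by
      intro e he
      rw [Finset.mem_filter] at he
      rw [Finset.mem_biUnion]
      have hpos : 0 < Function.minimalPeriod (e.trans e1.symm) x :=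
        Function.minimalPeriod_pos_of_mem_periodicPts
          ((e.trans e1.symm).injective.mem_periodicPts x)
      refine ⟨Function.minimalPeriod (e.trans e1.symm) x - 1, ?_, ?_⟩
      · rw [Finset.mem_range]
        omega
      · rw [Finset.mem_filter]
        exact ⟨he.1, by omega⟩
    have h1 : ((MM.filter (fun e => Function.minimalPeriod (e.trans e1.symm) x ≤ N)).card : ℝ) ≤
        ∑ l ∈ Finset.range N, ((MM.filter
          (fun e => Function.minimalPeriod (e.trans e1.symm) x = l + 1)).card : ℝ) := by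
      exact_mod_cast (Finset.card_le_card hsub).trans Finset.card_biUnion_le
    calc ((MM.filter (fun e => Function.minimalPeriod (e.trans e1.symm) x ≤ N)).card : ℝ) *
          (m : ℝ) ^ (1 / 2 : ℝ)
        ≤ (∑ l ∈ Finset.range N, ((MM.filter
          (fun e => Function.minimalPeriod (e.trans e1.symm) x = l + 1)).card : ℝ)) *
          (m : ℝ) ^ (1 / 2 : ℝ) := by gcongr
      _ = ∑ l ∈ Finset.range N, ((MM.filter
          (fun e => Function.minimalPeriod (e.trans e1.symm) x = l + 1)).card : ℝ) *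
          (m : ℝ) ^ (1 / 2 : ℝ) := by rw [Finset.sum_mul]
      _ ≤ ∑ l ∈ Finset.range N, (MM.card : ℝ) :=
          Finset.sum_le_sum fun l hl => hper x l (Finset.mem_range.1 hl).le
      _ = N * MM.card := by rw [Finset.sum_const, nsmul_eq_mul, Finset.card_range]
  -- the number of points on short cycles
  let sh : (S ≃ T) → ℕ := fun e =>
    (univ.filter (fun x : S => Function.minimalPeriod (e.trans e1.symm) x ≤ N)).card
  have hdc : ∑ e ∈ MM, (sh e : ℝ) = ∑ x : S,
      ((MM.filter (fun e => Function.minimalPeriod (e.trans e1.symm) x ≤ N)).card : ℝ) := by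
    simp only [sh, Finset.card_filter]
    push_cast
    exact Finset.sum_comm
  have htot : (∑ e ∈ MM, (sh e : ℝ)) * (m : ℝ) ^ (1 / 2 : ℝ) ≤
      m * ((m : ℝ) ^ (0.3 : ℝ) * MM.card) := by
    rw [hdc, Finset.sum_mul]
    calc ∑ x : S, ((MM.filter (fun e => Function.minimalPeriod (e.trans e1.symm) x ≤ N)).card : ℝ) *
          (m : ℝ) ^ (1 / 2 : ℝ) ≤ ∑ x : S, (N * MM.card : ℝ) :=
          Finset.sum_le_sum fun x _ => hperle x
      _ = S.card * (N * MM.card) := by
          rw [Finset.sum_const, nsmul_eq_mul, Finset.card_univ, Fintype.card_coe]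
      _ ≤ m * ((m : ℝ) ^ (0.3 : ℝ) * MM.card) := by
          have : (S.card : ℝ) ≤ m := by exact_mod_cast hS
          gcongr
  set bad := MM.filter (fun e => ¬ (cyc e1 e : ℝ) ≤ (m : ℝ) ^ (0.85 : ℝ)) with hbad
  have hp85 : (m : ℝ) ^ (0.85 : ℝ) = (m : ℝ) ^ (0.8 : ℝ) * (m : ℝ) ^ (0.05 : ℝ) := by
    rw [← Real.rpow_add hm0]
    norm_num
  have hp1 : (m : ℝ) = (m : ℝ) ^ (0.7 : ℝ) * (m : ℝ) ^ (0.3 : ℝ) := by
    rw [← Real.rpow_add hm0]
    norm_num
  have hp78 : (m : ℝ) ^ (0.7 : ℝ) ≤ (m : ℝ) ^ (0.8 : ℝ) :=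
    Real.rpow_le_rpow_of_exponent_le hm1 (by norm_num)
  have hbadsh : ∀ e ∈ bad, 2 * (m : ℝ) ^ (0.8 : ℝ) ≤ sh e := by
    intro e he
    rw [hbad, Finset.mem_filter, not_le] at he
    have h1 := card_cycles_le (e.trans e1.symm) N
    rw [Fintype.card_coe] at h1
    have h2 : (cyc e1 e : ℝ) * N ≤ sh e * N + S.card := by exact_mod_cast h1
    have h4 : (S.card : ℝ) ≤ m := by exact_mod_cast hS
    have hN0 : (0 : ℝ) < N := by linarith
    have h6 : (m : ℝ) ≤ 2 * (m : ℝ) ^ (0.7 : ℝ) * N := by
      calc (m : ℝ) = (m : ℝ) ^ (0.7 : ℝ) * (m : ℝ) ^ (0.3 : ℝ) := hp1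
        _ ≤ (m : ℝ) ^ (0.7 : ℝ) * (2 * N) :=
            mul_le_mul_of_nonneg_left (by linarith) (by positivity)
        _ = _ := by ring
    have h7 : (cyc e1 e : ℝ) * N ≤ (sh e + 2 * (m : ℝ) ^ (0.7 : ℝ)) * N := by
      calc (cyc e1 e : ℝ) * N ≤ sh e * N + m := by linarith
        _ ≤ sh e * N + 2 * (m : ℝ) ^ (0.7 : ℝ) * N := by linarith
        _ = _ := by ring
    have h8 := le_of_mul_le_mul_right h7 hN0
    have h9 : 4 * (m : ℝ) ^ (0.8 : ℝ) ≤ (m : ℝ) ^ (0.85 : ℝ) := by
      rw [hp85]
      have : 0 ≤ (m : ℝ) ^ (0.8 : ℝ) := by positivity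
      nlinarith
    linarith [he.2]
  have hbadsum : (bad.card : ℝ) * (2 * (m : ℝ) ^ (0.8 : ℝ)) ≤ ∑ e ∈ MM, (sh e : ℝ) := by
    calc (bad.card : ℝ) * (2 * (m : ℝ) ^ (0.8 : ℝ)) = ∑ e ∈ bad, 2 * (m : ℝ) ^ (0.8 : ℝ) := by
          rw [Finset.sum_const, nsmul_eq_mul]
      _ ≤ ∑ e ∈ bad, (sh e : ℝ) := Finset.sum_le_sum hbadsh
      _ ≤ _ := Finset.sum_le_sum_of_subset_of_nonneg (Finset.filter_subset _ _)
          (fun _ _ _ => Nat.cast_nonneg _)
  have hfin : 2 * (bad.card : ℝ) ≤ MM.card := by
    have h1 : (bad.card : ℝ) * (2 * (m : ℝ) ^ (0.8 : ℝ)) * (m : ℝ) ^ (1 / 2 : ℝ) ≤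
        m * ((m : ℝ) ^ (0.3 : ℝ) * MM.card) :=
      le_trans (by gcongr) htot
    have h2 : (m : ℝ) * (m : ℝ) ^ (0.3 : ℝ) = (m : ℝ) ^ (0.8 : ℝ) * (m : ℝ) ^ (1 / 2 : ℝ) := by
      nth_rewrite 1 [← Real.rpow_one (m : ℝ)]
      rw [← Real.rpow_add hm0, ← Real.rpow_add hm0]
      norm_num
    have h4 : (2 * (bad.card : ℝ)) * ((m : ℝ) ^ (0.8 : ℝ) * (m : ℝ) ^ (1 / 2 : ℝ)) ≤
        MM.card * ((m : ℝ) ^ (0.8 : ℝ) * (m : ℝ) ^ (1 / 2 : ℝ)) := by
      calc (2 * (bad.card : ℝ)) * ((m : ℝ) ^ (0.8 : ℝ) * (m : ℝ) ^ (1 / 2 : ℝ))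
          = (bad.card : ℝ) * (2 * (m : ℝ) ^ (0.8 : ℝ)) * (m : ℝ) ^ (1 / 2 : ℝ) := by ring
        _ ≤ m * ((m : ℝ) ^ (0.3 : ℝ) * MM.card) := h1
        _ = (m * (m : ℝ) ^ (0.3 : ℝ)) * MM.card := by ring
        _ = _ := by rw [h2]; ring
    exact le_of_mul_le_mul_right h4 (by positivity)
  have hsplit := Finset.card_filter_add_card_filter_not (s := MM)
    (fun e => (cyc e1 e : ℝ) ≤ (m : ℝ) ^ (0.85 : ℝ))
  rw [← hbad] at hsplit
  have hfin' : 2 * bad.card ≤ MM.card := by exact_mod_cast hfin
  omega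

end Pool.Agent.PC.BlockH

namespace Pool.Agent.PC

open Finset Filter BlockH

open scoped Classical in
/-- Block H: for every perfect matching `M1`, at least half of the perfect matchings `M2`
form with `M1` at most `m ^ 0.85` cycles. -/
theorem few_cycles {A : ℕ → ℕ → Prop} (h : PG A) :
    ∀ᶠ m : ℕ in atTop, ∀ U V : Finset ℕ, Small m U V →
      ∀ M1 : Mt A (range m \ U) (range m \ V),
        Nat.card (Mt A (range m \ U) (range m \ V)) ≤
          2 * Nat.card {M2 : Mt A (range m \ U) (range m \ V) //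
            (cyc M1.1 M2.1 : ℝ) ≤ (m : ℝ) ^ (0.85 : ℝ)} := by
  have hrp : ∀ (s K : ℝ), 0 < s → ∀ᶠ m : ℕ in atTop, K ≤ (m : ℝ) ^ s := by
    intro s K hs
    exact ((tendsto_rpow_atTop hs).comp (tendsto_natCast_atTop_atTop (R := ℝ))).eventually
      (eventually_ge_atTop K)
  filter_upwards [walks_lower h, h.deg (1 / 4) (by norm_num), hrp 0.3 2 (by norm_num),
    hrp 0.05 4 (by norm_num), sqrt_le_dd, eventually_ge_atTop 2] with m hw hdeg h3 h5 hsq hm
  obtain ⟨k, hw⟩ := hw
  intro U V hS M1
  rw [card_Mt, card_Mt_filter A _ _ (fun e => (cyc M1.1 e : ℝ) ≤ (m : ℝ) ^ (0.85 : ℝ))]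
  have hdd := dd_pos hm
  have hDpos : 0 < ⌊2 * dd m⌋₊ := by
    apply Nat.floor_pos.2
    have h1 : (1 : ℝ) ≤ Real.sqrt m := by
      rw [Real.one_le_sqrt]
      exact_mod_cast (by omega : 1 ≤ m)
    linarith
  refine half_good A _ _ ⌊2 * dd m⌋₊ k m (by omega) ?_ hDpos ?_ ?_ h3 h5 M1.1
  · refine (Finset.card_le_card Finset.sdiff_subset).trans ?_
    rw [Finset.card_range]
  · intro f x
    apply Nat.le_floor
    have hfx : (f x : ℕ) < m := Finset.mem_range.1 (Finset.mem_sdiff.1 (f x).2).1
    have h1 : (univ.filter (fun y : (range m \ U : Finset ℕ) => A y (f x))).card ≤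
        dX A (range m) (f x) := by
      rw [card_filter_map A (fun y : (range m \ U : Finset ℕ) => (y : ℕ)) Subtype.val_injective]
      exact dX_mono A (map_sub1 _) _
    have h2 : ((univ.filter (fun y : (range m \ U : Finset ℕ) => A y (f x))).card : ℝ) ≤
        dX A (range m) (f x) := by exact_mod_cast h1
    have h4 := (hdeg _ hfx).2
    linarith
  · intro e _ W hW u
    have hW' : (W.card : ℝ) ≤ (m : ℝ) ^ (0.3 : ℝ) := by
      have h1 : (W.card : ℝ) ≤ (⌊(m : ℝ) ^ (0.3 : ℝ)⌋₊ : ℝ) := by exact_mod_cast hW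
      exact h1.trans (Nat.floor_le (by positivity))
    exact hw U V hS e W u hW'

end Pool.Agent.PC
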